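import Mathlib

/-!
# Piece JLOW: lower bound for the sum of `1 / φ(g)` over squarefree `g ≤ z`

PROOF. Every `n ∈ Icc 1 z` is `m ^ 2 * g` with `g` squarefree, `1 ≤ m ≤ z`, `1 ≤ g ≤ z` (`Nat.sq_mul_squarefree`), so
`∑_{n ≤ z} 1/n ≤ (∑_{m ≤ z} 1/m^2) * ∑_{g ≤ z squarefree} 1/g ≤ 2 * ∑ 1/φ(g)` (`φ(g) ≤ g`; `∑ 1/m^2 ≤ 2`, e.g. from
`sum_Ioo_inv_sq_le` or `sum_Ioc_inv_sq_le_sub`). Finally `log z ≤ ∑_{n ≤ z} 1/n` (`Real.log` and `harmonic`: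
`log_add_one_le_harmonic`).
-/

set_option autoImplicit false

namespace Pool.Agent.EC

open Finset

theorem jlow_sq (z : ℕ) : ∑ m ∈ Icc 1 z, ((m : ℝ) ^ 2)⁻¹ ≤ 2 := by
  have h := sum_Ioo_inv_sq_le (α := ℝ) 0 (z + 1)
  have h1 : Ioo 0 (z + 1) = Icc 1 z := by
    ext i
    simp only [mem_Ioo, mem_Icc]
    omega
  rw [h1] at h
  simpa using h

theorem jlow (z : ℕ) (hz : 1 ≤ z) :
    Real.log z / 2 ≤ ∑ g ∈ (Icc 1 z).filter Squarefree, 1 / (g.totient : ℝ) := by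
  have hlog : Real.log z ≤ ∑ n ∈ Icc 1 z, ((n : ℝ))⁻¹ := by
    have h1 := log_add_one_le_harmonic z
    rw [harmonic_eq_sum_Icc] at h1
    push_cast at h1
    refine le_trans (Real.log_le_log ?_ ?_) h1
    · exact_mod_cast hz
    · linarith
  set S := (Icc 1 z).filter Squarefree with hS
  have hex : ∀ n : ℕ, ∃ p : ℕ × ℕ, p.1 ^ 2 * p.2 = n ∧ Squarefree p.2 := by
    intro n
    obtain ⟨a, b, h1, h2⟩ := Nat.sq_mul_squarefree n
    exact ⟨(b, a), h1, h2⟩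
  choose e he1 he2 using hex
  have hinj : Function.Injective e := by
    intro x y hxy
    rw [← he1 x, ← he1 y, hxy]
  have hsum : ∑ n ∈ Icc 1 z, ((n : ℝ))⁻¹ ≤
      ∑ p ∈ Icc 1 z ×ˢ S, ((p.1 : ℝ) ^ 2)⁻¹ * ((p.2 : ℝ))⁻¹ := by
    have h1 : ∑ n ∈ Icc 1 z, ((n : ℝ))⁻¹ =
        ∑ p ∈ (Icc 1 z).image e, ((p.1 : ℝ) ^ 2)⁻¹ * ((p.2 : ℝ))⁻¹ := by
      rw [sum_image (fun x _ y _ h => hinj h)]
      apply sum_congr rfl
      intro n _
      have : (n : ℝ) = ((e n).1 : ℝ) ^ 2 * ((e n).2 : ℝ) := by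
        exact_mod_cast (he1 n).symm
      rw [this, mul_inv]
    rw [h1]
    apply sum_le_sum_of_subset_of_nonneg
    · intro p hp
      rw [mem_image] at hp
      obtain ⟨n, hn, rfl⟩ := hp
      rw [mem_Icc] at hn
      have h2 := he1 n
      have h3 : 1 ≤ (e n).1 := by
        rcases Nat.eq_zero_or_pos (e n).1 with h0 | h0
        · rw [h0] at h2
          simp at h2
          omega
        · exact h0
      have h4 : 1 ≤ (e n).2 := by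
        rcases Nat.eq_zero_or_pos (e n).2 with h0 | h0
        · rw [h0] at h2
          simp at h2
          omega
        · exact h0
      have h5 : (e n).1 ≤ (e n).1 ^ 2 * (e n).2 := by
        calc (e n).1 = (e n).1 * 1 * 1 := by ring
          _ ≤ (e n).1 * (e n).1 * (e n).2 := by gcongr
          _ = _ := by ring
      have h6 : (e n).2 ≤ (e n).1 ^ 2 * (e n).2 := by
        calc (e n).2 = 1 * (e n).2 := by ring
          _ ≤ (e n).1 ^ 2 * (e n).2 := Nat.mul_le_mul_right _ (Nat.one_le_pow _ _ h3)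
      rw [hS, mem_product, mem_filter, mem_Icc, mem_Icc]
      exact ⟨⟨h3, by omega⟩, ⟨h4, by omega⟩, he2 n⟩
    · intro p _ _
      positivity
  have hprod : ∑ p ∈ Icc 1 z ×ˢ S, ((p.1 : ℝ) ^ 2)⁻¹ * ((p.2 : ℝ))⁻¹ =
      (∑ m ∈ Icc 1 z, ((m : ℝ) ^ 2)⁻¹) * ∑ g ∈ S, ((g : ℝ))⁻¹ := by
    rw [sum_mul_sum, sum_product]
  have hphi : ∑ g ∈ S, ((g : ℝ))⁻¹ ≤ ∑ g ∈ S, 1 / (g.totient : ℝ) := by
    apply sum_le_sum
    intro g hg
    rw [hS, mem_filter, mem_Icc] at hg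
    rw [← one_div]
    apply one_div_le_one_div_of_le
    · exact_mod_cast Nat.totient_pos.mpr hg.1.1
    · exact_mod_cast Nat.totient_le g
  have hg0 : 0 ≤ ∑ g ∈ S, ((g : ℝ))⁻¹ := sum_nonneg fun g _ => by positivity
  have h7 : Real.log z ≤ 2 * ∑ g ∈ S, 1 / (g.totient : ℝ) := by
    calc Real.log z ≤ (∑ m ∈ Icc 1 z, ((m : ℝ) ^ 2)⁻¹) * ∑ g ∈ S, ((g : ℝ))⁻¹ := by
          rw [← hprod]
          exact hlog.trans hsum
      _ ≤ 2 * ∑ g ∈ S, ((g : ℝ))⁻¹ := mul_le_mul_of_nonneg_right (jlow_sq z) hg0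
      _ ≤ _ := by linarith
  linarith

end Pool.Agent.EC
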