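import Mathlib
import Pool.Agent.Lib_MP_f1a94e_eck.Jlow

/-!
# Piece SVW: Selberg's upper bound weights

PROOF. Let `J = ∑_{g ≤ z squarefree} 1/φ(g) ≥ 1` (`g = 1`) and, for `1 ≤ d ≤ z`,
`ρ d = (d / J) * ∑_{g ≤ z squarefree, d ∣ g} μ(g/d) μ(g) / φ(g)`, `ρ d = 0` for other `d` (so `ρ d = 0` unless `d` is squarefree).
`ρ 1 = 1`. For `g` squarefree with `d ∣ g`: `1/φ(g) = 1/(φ(d) φ(g/d))`, so `|ρ d| ≤ (d / (φ(d) J)) ∑_{m ≤ z squarefree} 1/φ(m) = d/φ(d) ≤ d ≤ z`.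
For `1 ≤ h ≤ z`: `y h := ∑_{d ≤ z, h ∣ d} ρ d / d = (1/J) ∑_{g ≤ z sqfree, h ∣ g} μ(g)/φ(g) ∑_{h ∣ d ∣ g} μ(g/d) = μ(h)/(φ(h) J)` (squarefree `h`;
`0` otherwise), because `∑_{h ∣ d ∣ g} μ(g/d) = ∑_{e ∣ g/h} μ(e) = [g = h]`.
Define `lam m = ∑_{d1, d2 ∈ Icc 1 z, lcm d1 d2 = m} ρ d1 * ρ d2`. Then `lam 1 = ρ 1 ^ 2 = 1`; `lcm ≤ z^2`, so `lam m = 0` for `m > z^2`;
`∑ |lam m| ≤ (∑_{d ≤ z} |ρ d|)^2 ≤ (z * z)^2 = z^4`; `∑_{d ∣ n} lam d = (∑_{d ∣ n, d ≤ z} ρ d)^2 ≥ 0`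
(`lcm d1 d2 ∣ n` iff `d1 ∣ n` and `d2 ∣ n`);
`∑_m lam m / m = ∑_{d1,d2} ρ d1 ρ d2 gcd(d1,d2)/(d1 d2) = ∑_{h ≤ z} φ(h) (y h)^2 = (1/J^2) ∑_{h sqfree} 1/φ(h) = 1/J ≤ 2 / log z` (`jlow`),
using `gcd(d1,d2) = ∑_{h ∣ d1, h ∣ d2} φ(h)` (`Nat.sum_totient`). (Mathlib's `NumberTheory/SelbergSieve.lean` has related identities,
e.g. `lambdaSquared`, `mainSum_lambdaSquared_eq_sum_mul_sum_sq`, but a direct proof is as short.)
-/

set_option autoImplicit false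

namespace Pool.Agent.EC

open Finset

/-- sum of the Moebius function over the multiples of `h` dividing `g` -/
theorem svw_inner (z g h : ℕ) (hg : 1 ≤ g) (hgz : g ≤ z) (hh : 1 ≤ h) :
    ∑ d ∈ Icc 1 z, (if h ∣ d ∧ d ∣ g then ((ArithmeticFunction.moebius (g / d) : ℤ) : ℝ) else 0) =
      if g = h then 1 else 0 := by
  by_cases hd : h ∣ g
  · obtain ⟨k, rfl⟩ := hd
    have hk : 1 ≤ k := Nat.pos_of_ne_zero (by rintro rfl; simp at hg)
    rw [← Finset.sum_filter]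
    have h1 : (Icc 1 z).filter (fun d => h ∣ d ∧ d ∣ h * k) = k.divisors.image (fun e => h * e) := by
      ext d
      simp only [Finset.mem_filter, Finset.mem_Icc, Finset.mem_image, Nat.mem_divisors]
      constructor
      · rintro ⟨⟨h1, h2⟩, ⟨e, rfl⟩, h3⟩
        exact ⟨e, ⟨Nat.dvd_of_mul_dvd_mul_left hh h3, by omega⟩, rfl⟩
      · rintro ⟨e, ⟨h1, h2⟩, rfl⟩
        have he : 1 ≤ e := Nat.pos_of_dvd_of_pos h1 hk
        have h3 : h * e ∣ h * k := Nat.mul_dvd_mul_left h h1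
        exact ⟨⟨Nat.mul_pos hh he, (Nat.le_of_dvd hg h3).trans hgz⟩, Dvd.intro e rfl, h3⟩
    rw [h1, Finset.sum_image (by
      intro a _ b _ hab
      exact Nat.eq_of_mul_eq_mul_left hh hab)]
    have h2 : ∀ e ∈ k.divisors, ((ArithmeticFunction.moebius (h * k / (h * e)) : ℤ) : ℝ) =
        ((ArithmeticFunction.moebius (k / e) : ℤ) : ℝ) := by
      intro e _
      rw [Nat.mul_div_mul_left _ _ hh]
    rw [Finset.sum_congr rfl h2, Nat.sum_div_divisors k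
      (fun e => ((ArithmeticFunction.moebius e : ℤ) : ℝ))]
    have h3 : ∑ e ∈ k.divisors, ArithmeticFunction.moebius e = if k = 1 then 1 else 0 := by
      rw [← ArithmeticFunction.coe_mul_zeta_apply, ArithmeticFunction.moebius_mul_coe_zeta,
        ArithmeticFunction.one_apply]
    have h4 : ∑ e ∈ k.divisors, ((ArithmeticFunction.moebius e : ℤ) : ℝ) =
        ((if k = 1 then 1 else 0 : ℤ) : ℝ) := by
      rw [← h3]
      push_cast
      rfl
    rw [h4]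
    by_cases hk1 : k = 1
    · simp [hk1]
    · have : ¬ h * k = h := by
        intro hcon
        apply hk1
        have : h * k = h * 1 := by rw [hcon, mul_one]
        exact Nat.eq_of_mul_eq_mul_left hh this
      simp [hk1, this]
  · have h1 : ¬ g = h := by
      rintro rfl
      exact hd dvd_rfl
    rw [if_neg h1]
    apply Finset.sum_eq_zero
    intro d _
    rw [if_neg]
    rintro ⟨h2, h3⟩
    exact hd (h2.trans h3)

/-- the optimal weights -/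
noncomputable def svR (z : ℕ) (J : ℝ) (d : ℕ) : ℝ :=
  (d / J) * ∑ g ∈ Icc 1 z, (if d ∣ g then ((ArithmeticFunction.moebius (g / d) : ℤ) : ℝ) *
    ((ArithmeticFunction.moebius g : ℤ) : ℝ) / (g.totient : ℝ) else 0)

theorem svw_musq (g : ℕ) : ((ArithmeticFunction.moebius g : ℤ) : ℝ) *
    ((ArithmeticFunction.moebius g : ℤ) : ℝ) / (g.totient : ℝ) =
      if Squarefree g then 1 / (g.totient : ℝ) else 0 := by
  split_ifs with h
  · have h1 := ArithmeticFunction.moebius_sq_eq_one_of_squarefree h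
    have h2 : ((ArithmeticFunction.moebius g : ℤ) : ℝ) * ((ArithmeticFunction.moebius g : ℤ) : ℝ) = 1 := by
      rw [← sq]
      exact_mod_cast h1
    rw [h2]
  · rw [ArithmeticFunction.moebius_eq_zero_of_not_squarefree h]
    simp

theorem svR_one (z : ℕ) (J : ℝ) (hJ : 0 < J)
    (hJd : J = ∑ g ∈ (Icc 1 z).filter Squarefree, 1 / (g.totient : ℝ)) : svR z J 1 = 1 := by
  unfold svR
  have h1 : ∑ g ∈ Icc 1 z, (if 1 ∣ g then ((ArithmeticFunction.moebius (g / 1) : ℤ) : ℝ) *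
    ((ArithmeticFunction.moebius g : ℤ) : ℝ) / (g.totient : ℝ) else 0) = J := by
    rw [hJd, Finset.sum_filter]
    apply Finset.sum_congr rfl
    intro g _
    rw [if_pos (one_dvd g), Nat.div_one, svw_musq]
  rw [h1]
  simp [hJ.ne']

theorem svR_le (z : ℕ) (J : ℝ) (hJ : 0 < J)
    (hJd : J = ∑ g ∈ (Icc 1 z).filter Squarefree, 1 / (g.totient : ℝ)) (d : ℕ) (hd : d ≤ z) :
    |svR z J d| ≤ z := by
  unfold svR
  rw [abs_mul, abs_of_nonneg (by positivity)]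
  have h1 : |∑ g ∈ Icc 1 z, (if d ∣ g then ((ArithmeticFunction.moebius (g / d) : ℤ) : ℝ) *
    ((ArithmeticFunction.moebius g : ℤ) : ℝ) / (g.totient : ℝ) else 0)| ≤ J := by
    refine (Finset.abs_sum_le_sum_abs _ _).trans ?_
    rw [hJd, Finset.sum_filter]
    apply Finset.sum_le_sum
    intro g _
    split_ifs with h2 h3 h3
    · rw [abs_div, abs_mul, abs_of_nonneg (Nat.cast_nonneg _ : (0:ℝ) ≤ (g.totient : ℝ))]
      apply div_le_div_of_nonneg_right _ (Nat.cast_nonneg _)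
      have h4 : |((ArithmeticFunction.moebius (g / d) : ℤ) : ℝ)| ≤ 1 := by
        exact_mod_cast ArithmeticFunction.abs_moebius_le_one (n := g / d)
      have h5 : |((ArithmeticFunction.moebius g : ℤ) : ℝ)| ≤ 1 := by
        exact_mod_cast ArithmeticFunction.abs_moebius_le_one (n := g)
      have h6 := abs_nonneg ((ArithmeticFunction.moebius g : ℤ) : ℝ)
      have h7 := abs_nonneg ((ArithmeticFunction.moebius (g / d) : ℤ) : ℝ)
      nlinarith
    · rw [ArithmeticFunction.moebius_eq_zero_of_not_squarefree h3]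
      simp
    · simp
    · simp
  have h2 : (d : ℝ) ≤ z := by exact_mod_cast hd
  calc (d : ℝ) / J * _ ≤ (d : ℝ) / J * J := mul_le_mul_of_nonneg_left h1 (by positivity)
    _ = d := by field_simp
    _ ≤ z := h2

theorem svR_y (z : ℕ) (J : ℝ) (h : ℕ) (hh : h ∈ Icc 1 z) :
    ∑ d ∈ Icc 1 z, (if h ∣ d then svR z J d / d else 0) =
      ((ArithmeticFunction.moebius h : ℤ) : ℝ) / ((h.totient : ℝ) * J) := by
  rw [Finset.mem_Icc] at hh
  have h1 : ∀ d ∈ Icc 1 z, (if h ∣ d then svR z J d / d else 0) = ∑ g ∈ Icc 1 z,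
      (1 / J) * (((ArithmeticFunction.moebius g : ℤ) : ℝ) / (g.totient : ℝ)) *
        (if h ∣ d ∧ d ∣ g then ((ArithmeticFunction.moebius (g / d) : ℤ) : ℝ) else 0) := by
    intro d hd
    rw [Finset.mem_Icc] at hd
    have hd0 : (d : ℝ) ≠ 0 := by exact_mod_cast (by omega : d ≠ 0)
    by_cases hc : h ∣ d
    · rw [if_pos hc]
      unfold svR
      rw [mul_div_right_comm, Finset.mul_sum]
      apply Finset.sum_congr rfl
      intro g _
      by_cases hg : d ∣ g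
      · rw [if_pos hg, if_pos ⟨hc, hg⟩]
        field_simp
      · rw [if_neg hg, if_neg (fun hcon => hg hcon.2)]
        ring
    · rw [if_neg hc]
      symm
      apply Finset.sum_eq_zero
      intro g _
      rw [if_neg (fun hcon => hc hcon.1), mul_zero]
  rw [Finset.sum_congr rfl h1, Finset.sum_comm]
  have h2 : ∀ g ∈ Icc 1 z, ∑ d ∈ Icc 1 z,
      (1 / J) * (((ArithmeticFunction.moebius g : ℤ) : ℝ) / (g.totient : ℝ)) *
        (if h ∣ d ∧ d ∣ g then ((ArithmeticFunction.moebius (g / d) : ℤ) : ℝ) else 0) =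
      if h = g then (1 / J) * (((ArithmeticFunction.moebius g : ℤ) : ℝ) / (g.totient : ℝ)) else 0 := by
    intro g hg
    rw [Finset.mem_Icc] at hg
    rw [← Finset.mul_sum, svw_inner z g h hg.1 hg.2 hh.1]
    by_cases hc : g = h
    · rw [if_pos hc, if_pos hc.symm, mul_one]
    · rw [if_neg hc, if_neg (fun hcon => hc hcon.symm), mul_zero]
  rw [Finset.sum_congr rfl h2, Finset.sum_ite_eq, if_pos (Finset.mem_Icc.2 hh)]
  rw [mul_comm (h.totient : ℝ) J, one_div, inv_mul_eq_div, div_div, mul_comm (h.totient : ℝ) J]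

/-- the convolution square -/
noncomputable def svL (ρ : ℕ → ℝ) (A : Finset ℕ) (m : ℕ) : ℝ :=
  ∑ d1 ∈ A, ∑ d2 ∈ A, if Nat.lcm d1 d2 = m then ρ d1 * ρ d2 else 0

theorem svL_ex (ρ : ℕ → ℝ) (A M : Finset ℕ) (F : ℕ → ℝ) :
    ∑ m ∈ M, svL ρ A m * F m = ∑ d1 ∈ A, ∑ d2 ∈ A,
      if Nat.lcm d1 d2 ∈ M then ρ d1 * ρ d2 * F (Nat.lcm d1 d2) else 0 := by
  unfold svL
  have h1 : ∀ m ∈ M, (∑ d1 ∈ A, ∑ d2 ∈ A, if Nat.lcm d1 d2 = m then ρ d1 * ρ d2 else 0) * F m =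
      ∑ d1 ∈ A, ∑ d2 ∈ A, if Nat.lcm d1 d2 = m then ρ d1 * ρ d2 * F m else 0 := by
    intro m _
    rw [Finset.sum_mul]
    apply Finset.sum_congr rfl
    intro d1 _
    rw [Finset.sum_mul]
    apply Finset.sum_congr rfl
    intro d2 _
    split_ifs <;> ring
  rw [Finset.sum_congr rfl h1, Finset.sum_comm]
  apply Finset.sum_congr rfl
  intro d1 _
  rw [Finset.sum_comm]
  apply Finset.sum_congr rfl
  intro d2 _
  rw [Finset.sum_ite_eq]

theorem sv_gcd (z d1 d2 : ℕ) (h1 : d1 ∈ Icc 1 z) :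
    ((Nat.gcd d1 d2 : ℕ) : ℝ) = ∑ h ∈ Icc 1 z, (if h ∣ d1 ∧ h ∣ d2 then (h.totient : ℝ) else 0) := by
  rw [Finset.mem_Icc] at h1
  rw [← Finset.sum_filter]
  have h2 : (Icc 1 z).filter (fun h => h ∣ d1 ∧ h ∣ d2) = (Nat.gcd d1 d2).divisors := by
    ext h
    simp only [Finset.mem_filter, Finset.mem_Icc, Nat.mem_divisors, Nat.dvd_gcd_iff]
    constructor
    · rintro ⟨-, h3, h4⟩
      exact ⟨⟨h3, h4⟩, Nat.gcd_ne_zero_left (by omega)⟩
    · rintro ⟨⟨h3, h4⟩, -⟩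
      exact ⟨⟨Nat.pos_of_dvd_of_pos h3 h1.1, (Nat.le_of_dvd h1.1 h3).trans h1.2⟩, h3, h4⟩
  rw [h2]
  have h3 := Nat.sum_totient (Nat.gcd d1 d2)
  rw [← Nat.cast_sum, h3]

theorem svw (z : ℕ) (hz : 2 ≤ z) : ∃ lam : ℕ → ℝ, lam 1 = 1 ∧ (∀ d, z ^ 2 < d → lam d = 0) ∧
    (∑ d ∈ Icc 1 (z ^ 2), |lam d| ≤ (z : ℝ) ^ 4) ∧
    (∀ m : ℕ, 0 < m → 0 ≤ ∑ d ∈ m.divisors, lam d) ∧
    (∑ d ∈ Icc 1 (z ^ 2), lam d / d ≤ 2 / Real.log z) := by
  have hz1 : (1 : ℝ) < z := by exact_mod_cast (by omega : 1 < z)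
  have hlog : 0 < Real.log z := Real.log_pos hz1
  obtain ⟨J, hJd⟩ : ∃ J : ℝ, J = ∑ g ∈ (Icc 1 z).filter Squarefree, 1 / (g.totient : ℝ) := ⟨_, rfl⟩
  have hJ2 := jlow z (by omega)
  rw [← hJd] at hJ2
  have hJ : 0 < J := by linarith
  obtain ⟨ρ, hρ⟩ : ∃ ρ : ℕ → ℝ, ρ = svR z J := ⟨_, rfl⟩
  have hρ1 : ρ 1 = 1 := by rw [hρ]; exact svR_one z J hJ hJd
  have hρz : ∀ d ∈ Icc 1 z, |ρ d| ≤ z := by
    intro d hd
    rw [hρ]
    exact svR_le z J hJ hJd d (Finset.mem_Icc.1 hd).2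
  have hlcm : ∀ d1 ∈ Icc 1 z, ∀ d2 ∈ Icc 1 z, Nat.lcm d1 d2 ∈ Icc 1 (z ^ 2) := by
    intro d1 h1 d2 h2
    rw [Finset.mem_Icc] at h1 h2 ⊢
    refine ⟨Nat.lcm_pos h1.1 h2.1, ?_⟩
    calc Nat.lcm d1 d2 ≤ d1 * d2 := Nat.le_of_dvd (Nat.mul_pos h1.1 h2.1)
          (Nat.lcm_dvd (Dvd.intro _ rfl) (Dvd.intro_left _ rfl))
      _ ≤ z * z := Nat.mul_le_mul h1.2 h2.2
      _ = z ^ 2 := (sq z).symm
  refine ⟨svL ρ (Icc 1 z), ?_, ?_, ?_, ?_, ?_⟩
  · unfold svL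
    have h1 : 1 ∈ Icc 1 z := Finset.mem_Icc.2 ⟨le_rfl, by omega⟩
    rw [Finset.sum_eq_single_of_mem 1 h1, Finset.sum_eq_single_of_mem 1 h1]
    · simp [hρ1]
    · intro d2 _ hd2
      rw [if_neg]
      simp [hd2]
    · intro d1 _ hd1
      apply Finset.sum_eq_zero
      intro d2 _
      rw [if_neg]
      intro hcon
      apply hd1
      have : d1 ∣ 1 := by rw [← hcon]; exact Nat.dvd_lcm_left d1 d2
      exact Nat.dvd_one.1 this
  · intro m hm
    unfold svL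
    apply Finset.sum_eq_zero
    intro d1 h1
    apply Finset.sum_eq_zero
    intro d2 h2
    rw [if_neg]
    intro hcon
    have := hlcm d1 h1 d2 h2
    rw [hcon, Finset.mem_Icc] at this
    omega
  · have h1 : ∀ m ∈ Icc 1 (z ^ 2), |svL ρ (Icc 1 z) m| ≤ svL (fun d => |ρ d|) (Icc 1 z) m * 1 := by
      intro m _
      rw [mul_one]
      unfold svL
      refine (Finset.abs_sum_le_sum_abs _ _).trans (Finset.sum_le_sum fun d1 _ => ?_)
      refine (Finset.abs_sum_le_sum_abs _ _).trans (Finset.sum_le_sum fun d2 _ => ?_)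
      split_ifs
      · rw [abs_mul]
      · rw [abs_zero]
    refine (Finset.sum_le_sum h1).trans ?_
    rw [svL_ex (fun d => |ρ d|) (Icc 1 z) (Icc 1 (z ^ 2)) (fun _ => 1)]
    calc _ ≤ ∑ d1 ∈ Icc 1 z, ∑ d2 ∈ Icc 1 z, (z : ℝ) * z := by
          apply Finset.sum_le_sum
          intro d1 h1
          apply Finset.sum_le_sum
          intro d2 h2
          rw [if_pos (hlcm d1 h1 d2 h2), mul_one]
          exact mul_le_mul (hρz d1 h1) (hρz d2 h2) (abs_nonneg _) (by positivity)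
      _ = (z : ℝ) ^ 4 := by
          simp only [Finset.sum_const, Nat.card_Icc, nsmul_eq_mul, Nat.add_sub_cancel]
          ring
  · intro m hm
    have h1 : ∑ d ∈ m.divisors, svL ρ (Icc 1 z) d =
        (∑ d ∈ Icc 1 z, if d ∣ m then ρ d else 0) ^ 2 := by
      have h2 := svL_ex ρ (Icc 1 z) m.divisors (fun _ => 1)
      simp only [mul_one] at h2
      rw [h2, sq, Finset.sum_mul_sum]
      apply Finset.sum_congr rfl
      intro d1 _
      apply Finset.sum_congr rfl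
      intro d2 _
      have h3 : Nat.lcm d1 d2 ∈ m.divisors ↔ d1 ∣ m ∧ d2 ∣ m := by
        rw [Nat.mem_divisors, Nat.lcm_dvd_iff]
        exact ⟨fun h => h.1, fun h => ⟨h, by omega⟩⟩
      by_cases a : d1 ∣ m <;> by_cases b : d2 ∣ m
      · rw [if_pos (h3.2 ⟨a, b⟩), if_pos a, if_pos b]
      · rw [if_neg (fun hc => b (h3.1 hc).2), if_neg b, mul_zero]
      · rw [if_neg (fun hc => a (h3.1 hc).1), if_neg a, zero_mul]
      · rw [if_neg (fun hc => a (h3.1 hc).1), if_neg a, zero_mul]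
    rw [h1]
    positivity
  · have h1 : ∑ m ∈ Icc 1 (z ^ 2), svL ρ (Icc 1 z) m / m = 1 / J := by
      have h2 := svL_ex ρ (Icc 1 z) (Icc 1 (z ^ 2)) (fun m => 1 / (m : ℝ))
      simp only [mul_one_div] at h2
      rw [h2]
      have h3 : ∀ d1 ∈ Icc 1 z, ∀ d2 ∈ Icc 1 z, (if Nat.lcm d1 d2 ∈ Icc 1 (z ^ 2) then
          ρ d1 * ρ d2 / ((Nat.lcm d1 d2 : ℕ) : ℝ) else 0) =
          ∑ h ∈ Icc 1 z, (h.totient : ℝ) * ((if h ∣ d1 then ρ d1 / d1 else 0) *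
            (if h ∣ d2 then ρ d2 / d2 else 0)) := by
        intro d1 hd1 d2 hd2
        rw [if_pos (hlcm d1 hd1 d2 hd2)]
        have e1 := Finset.mem_Icc.1 hd1
        have e2 := Finset.mem_Icc.1 hd2
        have p1 : (d1 : ℝ) ≠ 0 := by exact_mod_cast (by omega : d1 ≠ 0)
        have p2 : (d2 : ℝ) ≠ 0 := by exact_mod_cast (by omega : d2 ≠ 0)
        have p3 : ((Nat.lcm d1 d2 : ℕ) : ℝ) ≠ 0 := by
          exact_mod_cast (Nat.lcm_pos e1.1 e2.1).ne'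
        have p4 : ((Nat.gcd d1 d2 : ℕ) : ℝ) * ((Nat.lcm d1 d2 : ℕ) : ℝ) = (d1 : ℝ) * d2 := by
          exact_mod_cast Nat.gcd_mul_lcm d1 d2
        have p5 : ρ d1 * ρ d2 / ((Nat.lcm d1 d2 : ℕ) : ℝ) =
            ((Nat.gcd d1 d2 : ℕ) : ℝ) * (ρ d1 / d1 * (ρ d2 / d2)) := by
          have p6 : ρ d1 / d1 * (ρ d2 / d2) = ρ d1 * ρ d2 / (d1 * d2) := by
            field_simp
          rw [p6, ← p4]
          have p7 : ((Nat.gcd d1 d2 : ℕ) : ℝ) ≠ 0 := by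
            exact_mod_cast Nat.gcd_ne_zero_left (by omega)
          field_simp
        rw [p5, sv_gcd z d1 d2 hd1, Finset.sum_mul]
        apply Finset.sum_congr rfl
        intro h _
        by_cases a : h ∣ d1 <;> by_cases b : h ∣ d2 <;> simp [a, b]
      rw [Finset.sum_congr rfl fun d1 hd1 => Finset.sum_congr rfl fun d2 hd2 => h3 d1 hd1 d2 hd2]
      have h4 : ∑ d1 ∈ Icc 1 z, ∑ d2 ∈ Icc 1 z, ∑ h ∈ Icc 1 z, (h.totient : ℝ) *
          ((if h ∣ d1 then ρ d1 / d1 else 0) * (if h ∣ d2 then ρ d2 / d2 else 0)) =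
          ∑ h ∈ Icc 1 z, (h.totient : ℝ) * (∑ d ∈ Icc 1 z, (if h ∣ d then ρ d / d else 0)) ^ 2 := by
        have e1 : ∀ d1 ∈ Icc 1 z, ∑ d2 ∈ Icc 1 z, ∑ h ∈ Icc 1 z, (h.totient : ℝ) *
          ((if h ∣ d1 then ρ d1 / d1 else 0) * (if h ∣ d2 then ρ d2 / d2 else 0)) =
            ∑ h ∈ Icc 1 z, ∑ d2 ∈ Icc 1 z, (h.totient : ℝ) *
          ((if h ∣ d1 then ρ d1 / d1 else 0) * (if h ∣ d2 then ρ d2 / d2 else 0)) :=
          fun d1 _ => Finset.sum_comm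
        rw [Finset.sum_congr rfl e1, Finset.sum_comm]
        apply Finset.sum_congr rfl
        intro h _
        rw [sq, Finset.sum_mul_sum, Finset.mul_sum]
        apply Finset.sum_congr rfl
        intro d1 _
        rw [Finset.mul_sum]
      rw [h4]
      have h5 : ∀ h ∈ Icc 1 z, (h.totient : ℝ) *
          (∑ d ∈ Icc 1 z, (if h ∣ d then ρ d / d else 0)) ^ 2 =
          (1 / J ^ 2) * (if Squarefree h then 1 / (h.totient : ℝ) else 0) := by
        intro h hh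
        rw [hρ, svR_y z J h hh, ← svw_musq]
        have h6 : (h.totient : ℝ) ≠ 0 := by
          have := Nat.totient_pos.2 (Finset.mem_Icc.1 hh).1
          exact_mod_cast this.ne'
        field_simp
      rw [Finset.sum_congr rfl h5, ← Finset.mul_sum, ← Finset.sum_filter, ← hJd]
      field_simp
    rw [h1]
    rw [div_le_div_iff₀ hJ hlog]
    linarith

end Pool.Agent.EC
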