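import Mathlib
import Pool.Agent.Lib_MP_f1a94e_eck.Svw

/-!
# Piece SVU: upper bound for the number of primes in a finite family

PROOF. Take `lam` from `svw`, `θ m = ∑_{d ∣ m} lam d ≥ 0` for `m > 0` (`= ∑_{d ∈ Icc 1 (z^2), d ∣ m} lam d`, since `lam d = 0` for `d > z^2`),
and `θ p = lam 1 = 1` for a prime `p > z^2`. So the left side is at most
`∑_{i ∈ I} θ (m i) = ∑_{d ∈ Icc 1 (z^2)} lam d * #{i | d ∣ m i} ≤ X ∑ lam d / d + E ∑ |lam d| ≤ 2 X / log z + z^4 E`.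
-/

set_option autoImplicit false

namespace Pool.Agent.EC

open Finset

theorem svu_theta {lam : ℕ → ℝ} {N : ℕ} (h0 : ∀ d, N < d → lam d = 0) {m : ℕ} (hm : 0 < m) :
    ∑ d ∈ m.divisors, lam d = ∑ d ∈ Icc 1 N, if d ∣ m then lam d else 0 := by
  rw [← sum_filter]
  symm
  apply sum_subset
  · intro d hd
    rw [mem_filter, mem_Icc] at hd
    exact Nat.mem_divisors.mpr ⟨hd.2, hm.ne'⟩
  · intro d hd hd'
    apply h0
    by_contra hcon
    apply hd'
    rw [mem_filter, mem_Icc]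
    exact ⟨⟨Nat.pos_of_mem_divisors hd, by omega⟩, Nat.dvd_of_mem_divisors hd⟩

theorem sieve_upper {ι : Type} (z : ℕ) (hz : 2 ≤ z) (I : Finset ι) (m : ι → ℕ) (X E : ℝ)
    (hX : 0 ≤ X) (hm : ∀ i ∈ I, 0 < m i)
    (hE : ∀ d ∈ Icc 1 (z ^ 2), |((I.filter fun i => d ∣ m i).card : ℝ) - X / d| ≤ E) :
    ((I.filter fun i => (m i).Prime ∧ z ^ 2 < m i).card : ℝ) ≤
      2 * X / Real.log z + (z : ℝ) ^ 4 * E := by
  obtain ⟨lam, l1, l0, labs, lnn, lsum⟩ := svw z hz
  have h1mem : 1 ∈ Icc 1 (z ^ 2) := mem_Icc.mpr ⟨le_rfl, Nat.one_le_pow _ _ (by omega)⟩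
  have hE0 : 0 ≤ E := (abs_nonneg _).trans (hE 1 h1mem)
  have s1 : ((I.filter fun i => (m i).Prime ∧ z ^ 2 < m i).card : ℝ) ≤
      ∑ i ∈ I, ∑ d ∈ (m i).divisors, lam d := by
    calc ((I.filter fun i => (m i).Prime ∧ z ^ 2 < m i).card : ℝ)
        = ∑ i ∈ I.filter (fun i => (m i).Prime ∧ z ^ 2 < m i), (1 : ℝ) := by
          rw [sum_const, nsmul_eq_mul, mul_one]
      _ = ∑ i ∈ I.filter (fun i => (m i).Prime ∧ z ^ 2 < m i), ∑ d ∈ (m i).divisors, lam d := by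
          apply sum_congr rfl
          intro i hi
          rw [mem_filter] at hi
          rw [hi.2.1.divisors, sum_pair hi.2.1.one_lt.ne, l1, l0 _ hi.2.2, add_zero]
      _ ≤ _ := by
          apply sum_le_sum_of_subset_of_nonneg (filter_subset _ _)
          intro i hi _
          exact lnn _ (hm i hi)
  have s2 : ∑ i ∈ I, ∑ d ∈ (m i).divisors, lam d =
      ∑ d ∈ Icc 1 (z ^ 2), lam d * ((I.filter fun i => d ∣ m i).card : ℝ) := by
    rw [sum_congr rfl fun i hi => svu_theta l0 (hm i hi), sum_comm]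
    apply sum_congr rfl
    intro d _
    rw [← sum_filter, sum_const, nsmul_eq_mul, mul_comm]
  have s3 : ∑ d ∈ Icc 1 (z ^ 2), lam d * ((I.filter fun i => d ∣ m i).card : ℝ) ≤
      ∑ d ∈ Icc 1 (z ^ 2), (X * (lam d / d) + |lam d| * E) := by
    apply sum_le_sum
    intro d hd
    have h1 := hE d hd
    have h2 : lam d * (((I.filter fun i => d ∣ m i).card : ℝ) - X / d) ≤ |lam d| * E := by
      calc _ ≤ |lam d * (((I.filter fun i => d ∣ m i).card : ℝ) - X / d)| := le_abs_self _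
        _ = |lam d| * |((I.filter fun i => d ∣ m i).card : ℝ) - X / d| := abs_mul _ _
        _ ≤ _ := mul_le_mul_of_nonneg_left h1 (abs_nonneg _)
    have h3 : lam d * (X / d) = X * (lam d / d) := by ring
    linarith
  have s4 : ∑ d ∈ Icc 1 (z ^ 2), (X * (lam d / d) + |lam d| * E) ≤
      X * (2 / Real.log z) + (z : ℝ) ^ 4 * E := by
    rw [sum_add_distrib, ← mul_sum, ← sum_mul]
    exact add_le_add (mul_le_mul_of_nonneg_left lsum hX) (mul_le_mul_of_nonneg_right labs hE0)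
  calc ((I.filter fun i => (m i).Prime ∧ z ^ 2 < m i).card : ℝ)
      ≤ X * (2 / Real.log z) + (z : ℝ) ^ 4 * E := s1.trans (s2.le.trans (s3.trans s4))
    _ = _ := by ring

end Pool.Agent.EC
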