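import Pool.Agent.Lib_MP_f1a94e_eck.KBase

/-!
# Piece ALE: row sums of the kernel

PROOF (first inequality; the second follows by exchanging the coordinates: `dt w u = dt (swap u) (swap w)`, `swap` maps `Bx n` to itself).
`∑_{u ∈ Bx n} aw a (dt u w) = ∑_p a p * #{u ∈ Bx n | dt u w = p}` over the primes `p` with `a p ≠ 0`. Fix such `p`; `p ≥ P > n`
(`n_lt`). If the set is nonempty, `w` is primitive (`pv_of_prime_dt`). For two elements `u, u'`: `dt (u - u') w = 0`, so `u - u' = t • w` for an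
integer `t` (`w` primitive). Let `M = max w.1 w.2 > 0`, say `M = w.i`; `u ↦ u.i` is injective on the set (difference `t M`), all values are
congruent modulo `M` and lie in `[0, n]`, so there are at most `n / M + 1` elements. As the coordinates are nonnegative,
`p = dt u w ≤ n * M`, so `M ≥ P / n`, `n / M ≤ n^2 / P ≤ K^2` (real division). So at most `K^2 + 1` elements. Sum over `p` with `sum_le_tot`.
-/

set_option autoImplicit false

namespace Pool.Agent.EC

open Finset

/-- a finite set of integers in `[0, n]`, pairwise congruent modulo `M > 0`, has at most `n / M + 1` elements -/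
theorem card_congr_le {n : ℕ} {M : ℤ} (hM : 0 < M) (s : Finset ℤ) (hs : ∀ x ∈ s, 0 ≤ x ∧ x ≤ n)
    (hc : ∀ x ∈ s, ∀ y ∈ s, M ∣ x - y) : (s.card : ℤ) ≤ n / M + 1 := by
  rcases s.eq_empty_or_nonempty with h0 | hne
  · rw [h0, card_empty]
    have : 0 ≤ (n : ℤ) / M := Int.ediv_nonneg (by positivity) hM.le
    push_cast
    omega
  · have hinj : Set.InjOn (fun x : ℤ => x / M) s := by
      intro x hx y hy hxy
      simp only at hxy
      have h1 := hc x hx y hy
      have h2 : x % M = y % M :=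
        Int.emod_eq_emod_iff_emod_sub_eq_zero.mpr (Int.emod_eq_zero_of_dvd h1)
      rw [← Int.mul_ediv_add_emod x M, ← Int.mul_ediv_add_emod y M, hxy, h2]
    have hmap : Set.MapsTo (fun x : ℤ => x / M) s (Icc (0 : ℤ) ((n : ℤ) / M)) := by
      intro x hx
      have h1 := hs x hx
      simp only [coe_Icc, Set.mem_Icc]
      exact ⟨Int.ediv_nonneg h1.1 hM.le, Int.ediv_le_ediv hM h1.2⟩
    have h3 := card_le_card_of_injOn _ hmap hinj
    rw [Int.card_Icc] at h3
    have : 0 ≤ (n : ℤ) / M := Int.ediv_nonneg (by positivity) hM.le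
    omega

/-- if `w` is primitive and `dt v w = 0` then `v` is a multiple of `w` -/
theorem eq_mul_of_dt {v w : ℤ × ℤ} (hw : Pv w) (h : dt v w = 0) :
    ∃ t : ℤ, v.1 = t * w.1 ∧ v.2 = t * w.2 := by
  obtain ⟨a, b, hab⟩ := hw
  unfold dt at h
  refine ⟨a * v.1 + b * v.2, ?_, ?_⟩
  · calc v.1 = v.1 * (a * w.1 + b * w.2) := by rw [hab, mul_one]
      _ = a * v.1 * w.1 + b * (v.1 * w.2) := by ring
      _ = a * v.1 * w.1 + b * (v.2 * w.1) := by
          have : v.1 * w.2 = v.2 * w.1 := by linarith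
          rw [this]
      _ = _ := by ring
  · calc v.2 = v.2 * (a * w.1 + b * w.2) := by rw [hab, mul_one]
      _ = a * (v.2 * w.1) + b * v.2 * w.2 := by ring
      _ = a * (v.1 * w.2) + b * v.2 * w.2 := by
          have : v.1 * w.2 = v.2 * w.1 := by linarith
          rw [this]
      _ = _ := by ring

/-- the number of `u ∈ Bx n` with `dt u w = p` -/
theorem card_line {K P : ℝ} (hK : 1 ≤ K) (hP : K ^ 2 < P) {n : ℕ}
    (hn : (n : ℝ) ^ 2 ≤ K ^ 2 * P) {w : ℤ × ℤ} (hw : w ∈ Bx n) {p : ℕ} (hp : p.Prime)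
    (hPp : P ≤ (p : ℝ)) :
    (((Bx n).filter fun u => dt u w = p).card : ℝ) ≤ K ^ 2 + 1 := by
  have hnp : n < p := by
    have : (n : ℝ) < p := (n_lt hK hn hP).trans_le hPp
    exact_mod_cast this
  set S := (Bx n).filter fun u => dt u w = p with hS
  rcases S.eq_empty_or_nonempty with h0 | ⟨u0, hu0⟩
  · rw [h0, card_empty]
    push_cast
    positivity
  · have hu0' := (mem_filter.mp hu0)
    have hpw : Pv w := pv_of_prime_dt hw hp hnp (Or.inr hu0'.2)
    have hwB := mem_Bx.mp hw
    -- differences are multiples of `w`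
    have hdiff : ∀ u ∈ S, ∀ v ∈ S, ∃ t : ℤ, u.1 - v.1 = t * w.1 ∧ u.2 - v.2 = t * w.2 := by
      intro u hu v hv
      have h1 := (mem_filter.mp hu).2
      have h2 := (mem_filter.mp hv).2
      have h3 : dt (u.1 - v.1, u.2 - v.2) w = 0 := by
        unfold dt at *
        simp only
        linarith
      exact eq_mul_of_dt hpw h3
    have hup := hu0'.2
    have hu0B := mem_Bx.mp hu0'.1
    have hpn : (p : ℤ) ≤ n * w.2 := by
      rw [← hup]
      unfold dt
      have h1 : 0 ≤ u0.2 * w.1 := mul_nonneg hu0B.2.1 hwB.1.1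
      have h2 : u0.1 * w.2 ≤ n * w.2 := mul_le_mul_of_nonneg_right hu0B.1.2 hwB.2.1
      linarith
    have hppos : (0 : ℤ) < p := by exact_mod_cast hp.pos
    have hw2 : 0 < w.2 := by
      rcases hwB.2.1.lt_or_eq with h | h
      · exact h
      · exfalso
        rw [← h] at hpn
        linarith
    -- project to the second coordinate
    have hcard : S.card = (S.image Prod.snd).card := by
      rw [card_image_of_injOn]
      intro u hu v hv huv
      obtain ⟨t, ht1, ht2⟩ := hdiff u hu v hv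
      have h4 : t * w.2 = 0 := by rw [← ht2, huv]; ring
      have h5 : t = 0 := by
        rcases mul_eq_zero.mp h4 with h | h
        · exact h
        · omega
      rw [h5] at ht1 ht2
      ext
      · linarith
      · linarith
    have hle := card_congr_le hw2 (n := n) (S.image Prod.snd) (by
      intro x hx
      obtain ⟨u, hu, rfl⟩ := mem_image.mp hx
      exact (mem_Bx.mp (mem_filter.mp hu).1).2) (by
      intro x hx y hy
      obtain ⟨u, hu, rfl⟩ := mem_image.mp hx
      obtain ⟨v, hv, rfl⟩ := mem_image.mp hy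
      obtain ⟨t, ht1, ht2⟩ := hdiff u hu v hv
      exact ⟨t, by rw [ht2]; ring⟩)
    rw [← hcard] at hle
    have hle' : (S.card : ℝ) ≤ (((n : ℤ) / w.2 : ℤ) : ℝ) + 1 := by exact_mod_cast hle
    have hw2R : (0 : ℝ) < w.2 := by exact_mod_cast hw2
    have hdivle : (((n : ℤ) / w.2 : ℤ) : ℝ) ≤ (n : ℝ) / (w.2 : ℝ) := by
      rw [le_div_iff₀ hw2R]
      have h6 : (n : ℤ) / w.2 * w.2 ≤ n := Int.ediv_mul_le _ hw2.ne'
      exact_mod_cast h6
    have hP0 : 0 < P := lt_of_le_of_lt (by positivity) hP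
    have hpnR : P ≤ (n : ℝ) * w.2 := by
      have h7 : ((p : ℤ) : ℝ) ≤ ((n * w.2 : ℤ) : ℝ) := by exact_mod_cast hpn
      push_cast at h7
      linarith
    have hfin : (n : ℝ) / (w.2 : ℝ) ≤ K ^ 2 := by
      rw [div_le_iff₀ hw2R]
      by_contra hcon
      push Not at hcon
      have hn0 : 0 < (n : ℝ) := lt_of_le_of_lt (by positivity) hcon
      have h8 : K ^ 2 * P ≤ K ^ 2 * ((n : ℝ) * w.2) := mul_le_mul_of_nonneg_left hpnR (by positivity)
      have h9 : K ^ 2 * ((n : ℝ) * w.2) = (n : ℝ) * (K ^ 2 * w.2) := by ring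
      have h10 : (n : ℝ) * (K ^ 2 * w.2) < n * n := mul_lt_mul_of_pos_left hcon hn0
      nlinarith
    linarith

/-- first inequality -/
theorem ale_left {K P δ : ℝ} (hK : 1 ≤ K) (hP : K ^ 2 < P) (hδ : δ ≤ 1) {a : ℕ → ℝ} (h : Wt a P δ)
    {n : ℕ} (hn : (n : ℝ) ^ 2 ≤ K ^ 2 * P) {w : ℤ × ℤ} (hw : w ∈ Bx n) :
    ∑ u ∈ Bx n, aw a (dt u w) ≤ (K ^ 2 + 1) * tot a P := by
  classical
  have hP0 : 0 < P := lt_of_le_of_lt (by positivity) hP
  have hswap : ∑ u ∈ Bx n, aw a (dt u w) =
      ∑ p ∈ range (NP P), (((Bx n).filter fun u => dt u w = p).card : ℝ) * a p := by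
    have h1 : ∀ u ∈ Bx n, aw a (dt u w) = ∑ p ∈ range (NP P), if dt u w = p then a p else 0 := by
      intro u _
      by_cases hne : aw a (dt u w) = 0
      · rw [hne]
        symm
        apply sum_eq_zero
        intro p _
        split_ifs with hp
        · by_contra hap
          have h2 := h.supp p hap
          have h3 : 0 < dt u w := by
            rw [hp]
            exact_mod_cast h2.1.pos
          rw [aw_of_pos h3, hp, Int.toNat_natCast] at hne
          exact hap hne
        · rfl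
      · obtain ⟨h2, h3, h4, h5⟩ := aw_ne h hne
        have h6 : ((dt u w).toNat : ℤ) = dt u w := Int.toNat_of_nonneg h2.le
        have h7 : a (dt u w).toNat ≠ 0 := by rwa [aw_of_pos h2] at hne
        rw [sum_eq_single (dt u w).toNat]
        · rw [if_pos h6.symm, aw_of_pos h2]
        · intro q _ hq
          rw [if_neg]
          intro hq'
          apply hq
          rw [hq', Int.toNat_natCast]
        · intro hmem
          exact absurd (mem_range_NP h hP0.le hδ h7) hmem
    rw [sum_congr rfl h1, sum_comm]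
    apply sum_congr rfl
    intro p _
    rw [← sum_filter, sum_const, nsmul_eq_mul]
  rw [hswap, tot, mul_sum]
  apply sum_le_sum
  intro p _
  by_cases hap : a p = 0
  · rw [hap]; simp
  · have h2 := h.supp p hap
    exact mul_le_mul_of_nonneg_right (card_line hK hP hn hw h2.1 h2.2.1) (h.nonneg p)

theorem ale {K P δ : ℝ} (hK : 1 ≤ K) (hP : K ^ 2 < P) (hδ : δ ≤ 1) {a : ℕ → ℝ} (h : Wt a P δ)
    {n : ℕ} (hn : (n : ℝ) ^ 2 ≤ K ^ 2 * P) {w : ℤ × ℤ} (hw : w ∈ Bx n) :
    ∑ u ∈ Bx n, aw a (dt u w) ≤ (K ^ 2 + 1) * tot a P ∧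
    ∑ u ∈ Bx n, aw a (dt w u) ≤ (K ^ 2 + 1) * tot a P := by
  refine ⟨ale_left hK hP hδ h hn hw, ?_⟩
  have hmem : ∀ u : ℤ × ℤ, u ∈ Bx n → u.swap ∈ Bx n := by
    intro u hu
    rw [mem_Bx] at hu ⊢
    exact ⟨hu.2, hu.1⟩
  have h1 := ale_left hK hP hδ h hn (hmem w hw)
  have h2 : ∑ u ∈ Bx n, aw a (dt w u) = ∑ u ∈ Bx n, aw a (dt u w.swap) := by
    apply sum_nbij' Prod.swap Prod.swap
    · intro u hu
      exact hmem u hu
    · intro u hu
      exact hmem u hu
    · intro u _
      exact Prod.swap_swap u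
    · intro u _
      exact Prod.swap_swap u
    · intro u _
      congr 1
      unfold dt
      simp only [Prod.fst_swap, Prod.snd_swap]
      ring
  rw [h2]
  exact h1

end Pool.Agent.EC
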