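import Pool.Agent.Lib_MP_f1a94e_eck.Bdd

/-!
# Piece BD: the Bombieri-Davenport inequality for the weight

PROOF. Duality. Let `V` be the left side and `β r χ = conj (SS a N χ)`. `V = ∑ conj(SS χ) ∑_p a p χ(p) = ∑_p a p (∑ β χ χ(p))`; only primes `p ≥ P` occur (`Wt.supp`). By Cauchy and Schwarz and `bdd`
`V^2 ≤ (∑ (a p)^2) * C (P/log P) V`, so `V ≤ C (P/log P) ∑ (a p)^2 ≤ C (P/log P) log (2 P) tot a P ≤ 2 C P tot a P` (`a_le`, `log (2P) ≤ 2 log P`).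
-/

set_option autoImplicit false

namespace Pool.Agent.EC

open Finset

/-- the sum of squares as a bilinear form -/
theorem bd_swap (a : ℕ → ℝ) (N Q : ℕ) :
    ((∑ r ∈ Icc 1 Q, ∑ χ ∈ prm r, ‖SS a N χ‖ ^ 2 : ℝ) : ℂ)
      = ∑ p ∈ range N, (a p : ℂ) *
        ∑ r ∈ Icc 1 Q, ∑ χ ∈ prm r, (starRingEnd ℂ) (SS a N χ) * χ (p : ZMod r) := by
  have h1 : ∀ r ∈ Icc 1 Q, ((∑ χ ∈ prm r, ‖SS a N χ‖ ^ 2 : ℝ) : ℂ)
      = ∑ p ∈ range N, (a p : ℂ) *
        ∑ χ ∈ prm r, (starRingEnd ℂ) (SS a N χ) * χ (p : ZMod r) := by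
    intro r _
    have h2 : ∀ χ ∈ prm r, ((‖SS a N χ‖ ^ 2 : ℝ) : ℂ)
        = ∑ p ∈ range N, (a p : ℂ) * ((starRingEnd ℂ) (SS a N χ) * χ (p : ZMod r)) := by
      intro χ _
      have h3 : ((‖SS a N χ‖ ^ 2 : ℝ) : ℂ) = (starRingEnd ℂ) (SS a N χ) * SS a N χ := by
        rw [mul_comm, Complex.mul_conj, Complex.normSq_eq_norm_sq]
      rw [h3]
      conv_lhs => rw [show SS a N χ = ∑ p ∈ range N, (a p : ℂ) * χ (p : ZMod r) from rfl]
      rw [mul_sum]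
      refine sum_congr rfl fun p _ => ?_
      rw [show SS a N χ = ∑ p ∈ range N, (a p : ℂ) * χ (p : ZMod r) from rfl]
      ring
    rw [Complex.ofReal_sum, sum_congr rfl h2, sum_comm]
    refine sum_congr rfl fun p _ => ?_
    rw [mul_sum]
  rw [Complex.ofReal_sum, sum_congr rfl h1, sum_comm]
  refine sum_congr rfl fun p _ => ?_
  rw [mul_sum]

theorem bd : ∃ C P0 : ℝ, 0 < C ∧ ∀ P : ℝ, P0 ≤ P → ∀ Q : ℕ, (Q : ℝ) ≤ P ^ (1 / 40 : ℝ) →
    ∀ (a : ℕ → ℝ) (δ : ℝ), δ ≤ 1 → Wt a P δ →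
      ∑ r ∈ Icc 1 Q, ∑ χ ∈ prm r, ‖SS a (NP P) χ‖ ^ 2 ≤ C * P * tot a P := by
  classical
  obtain ⟨C, P0, hC, hb⟩ := bdd
  refine ⟨2 * C, max P0 2, by positivity, fun P hP Q hQ a δ hδ hw => ?_⟩
  have hP0 : P0 ≤ P := le_trans (le_max_left _ _) hP
  have hP2 : 2 ≤ P := le_trans (le_max_right _ _) hP
  have hPpos : 0 < P := by linarith
  have hlog : 0 < Real.log P := Real.log_pos (by linarith)
  have hbd := hb P hP0 Q hQ (fun r χ => (starRingEnd ℂ) (SS a (NP P) χ))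
  have hV2 : ∑ r ∈ Icc 1 Q, ∑ χ ∈ prm r, ‖(starRingEnd ℂ) (SS a (NP P) χ)‖ ^ 2
      = ∑ r ∈ Icc 1 Q, ∑ χ ∈ prm r, ‖SS a (NP P) χ‖ ^ 2 := by
    refine sum_congr rfl fun r _ => sum_congr rfl fun χ _ => ?_
    rw [RCLike.norm_conj]
  simp only [hV2] at hbd
  set V : ℝ := ∑ r ∈ Icc 1 Q, ∑ χ ∈ prm r, ‖SS a (NP P) χ‖ ^ 2 with hVdef
  have hV0 : 0 ≤ V := sum_nonneg fun r _ => sum_nonneg fun χ _ => sq_nonneg _
  set F : ℕ → ℂ := fun p =>
    ∑ r ∈ Icc 1 Q, ∑ χ ∈ prm r, (starRingEnd ℂ) (SS a (NP P) χ) * χ (p : ZMod r) with hF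
  set S := (range (NP P)).filter (fun p : ℕ => p.Prime ∧ P ≤ (p : ℝ)) with hS
  have h1 : V ≤ ∑ p ∈ S, a p * ‖F p‖ := by
    have e1 : V = ‖((V : ℝ) : ℂ)‖ := by
      rw [Complex.norm_real, Real.norm_of_nonneg hV0]
    rw [e1, hVdef, bd_swap]
    refine (norm_sum_le _ _).trans ?_
    have e2 : ∀ p ∈ range (NP P), ‖(a p : ℂ) * F p‖ = a p * ‖F p‖ := by
      intro p _
      rw [norm_mul, Complex.norm_real, Real.norm_of_nonneg (hw.nonneg p)]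
    have e3 : ∑ p ∈ range (NP P), ‖(a p : ℂ) * F p‖ = ∑ p ∈ range (NP P), a p * ‖F p‖ :=
      sum_congr rfl e2
    refine le_of_eq (e3.trans ?_)
    symm
    apply sum_subset (filter_subset _ _)
    intro p hp hp'
    have : a p = 0 := by
      by_contra hne
      have h := hw.supp p hne
      exact hp' (mem_filter.mpr ⟨hp, h.1, h.2.1⟩)
    rw [this, zero_mul]
  have h2 : V ^ 2 ≤ (∑ p ∈ S, a p ^ 2) * ∑ p ∈ S, ‖F p‖ ^ 2 :=
    (pow_le_pow_left₀ hV0 h1 2).trans (sum_mul_sq_le_sq_mul_sq S a fun p => ‖F p‖)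
  have h3 : ∑ p ∈ S, a p ^ 2 ≤ Real.log (2 * P) * tot a P := by
    calc ∑ p ∈ S, a p ^ 2 ≤ ∑ p ∈ S, Real.log (2 * P) * a p := by
          refine sum_le_sum fun p _ => ?_
          rw [sq]
          exact mul_le_mul_of_nonneg_right (a_le hw (by linarith) hδ p) (hw.nonneg p)
      _ = Real.log (2 * P) * ∑ p ∈ S, a p := by rw [mul_sum]
      _ ≤ Real.log (2 * P) * tot a P :=
          mul_le_mul_of_nonneg_left (sum_le_tot hw hPpos.le hδ S) (Real.log_nonneg (by linarith))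
  have h4 : Real.log (2 * P) ≤ 2 * Real.log P := by
    rw [Real.log_mul (by norm_num) (by linarith)]
    have : Real.log 2 ≤ Real.log P := Real.log_le_log (by norm_num) hP2
    linarith
  have ht := tot_nonneg hw (P := P)
  have h5 : ∑ p ∈ S, a p ^ 2 ≤ 2 * Real.log P * tot a P :=
    h3.trans (mul_le_mul_of_nonneg_right h4 ht)
  have h6 : V ^ 2 ≤ (2 * Real.log P * tot a P) * (C * (P / Real.log P) * V) :=
    h2.trans (mul_le_mul h5 hbd (sum_nonneg fun p _ => sq_nonneg _) (by positivity))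
  have h7 : (2 * Real.log P * tot a P) * (C * (P / Real.log P) * V) = (2 * C * P * tot a P) * V := by
    field_simp
  rw [h7, sq] at h6
  rcases hV0.eq_or_lt with h8 | h8
  · rw [← h8]
    positivity
  · exact le_of_mul_le_mul_right h6 h8

end Pool.Agent.EC
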