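import Pool.Agent.Lib_MP_f1a94e_eck.KDefs2

/-!
# Piece PVT: the product of a primitive character and the conjugate of a different one has bounded interval sums

PROOF. Let `M = r r'`, `X = changeLevel χ`, `X' = changeLevel χ'` modulo `M`. For a natural number `m`: `χ(m) conj χ'(m) = (X * X'⁻¹)(m)` (both sides vanish if `m` is
not prime to `r r'`; otherwise `changeLevel_eq_cast_of_dvd`, `MulChar.star_eq_inv` or `inv_apply_eq_inv'`). `X * X'⁻¹ ≠ 1`: otherwise `X = X'`, and then
`r = conductor X = conductor X' = r'` (`conductor_changeLevel`, primitivity) and `χ = χ'` (`changeLevel_injective`), contrary to `hne`. The sum of a nontrivial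
character over `M` consecutive integers vanishes (`MulChar.sum_eq_zero_of_ne_one`), so every interval sum is at most `M` in absolute value.
-/

set_option autoImplicit false

namespace Pool.Agent.EC

open Finset

theorem pvt_sum_zmod {M : Type*} [AddCommMonoid M] (p : ℕ) [NeZero p] (f : ZMod p → M) :
    ∑ x : ZMod p, f x = ∑ b ∈ range p, f (b : ZMod p) := by
  refine Finset.sum_nbij' (fun x => x.val) (fun b => (b : ZMod p)) ?_ ?_ ?_ ?_ ?_
  · intro x _
    exact mem_range.mpr (ZMod.val_lt x)
  · intro b _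
    exact mem_univ _
  · intro x _
    exact ZMod.natCast_zmod_val x
  · intro b hb
    exact ZMod.val_cast_of_lt (mem_range.mp hb)
  · intro x _
    rw [ZMod.natCast_zmod_val]

theorem pvt_period (M : ℕ) [NeZero M] (f : ZMod M → ℂ) (h0 : ∑ x : ZMod M, f x = 0) (A : ℕ) :
    ∑ m ∈ Ico A (A + M), f (m : ZMod M) = 0 := by
  rw [sum_Ico_eq_sum_range, Nat.add_sub_cancel_left]
  have h1 := pvt_sum_zmod M (fun x => f ((A : ZMod M) + x))
  have h2 : ∑ x : ZMod M, f ((A : ZMod M) + x) = ∑ x : ZMod M, f x :=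
    Equiv.sum_comp (Equiv.addLeft (A : ZMod M)) f
  rw [← h0, ← h2, h1]
  exact sum_congr rfl fun i _ => by rw [Nat.cast_add]

theorem pvt_bound (M : ℕ) [NeZero M] (f : ZMod M → ℂ) (h0 : ∑ x : ZMod M, f x = 0)
    (h1 : ∀ x, ‖f x‖ ≤ 1) (L A B : ℕ) (hL : B ≤ A + L) :
    ‖∑ m ∈ Ico A B, f (m : ZMod M)‖ ≤ M := by
  have hM : 0 < M := Nat.pos_of_ne_zero (NeZero.ne M)
  induction L using Nat.strong_induction_on generalizing A with
  | _ L ih =>
    by_cases hB : B ≤ A + M
    · refine (norm_sum_le _ _).trans ((sum_le_card_nsmul _ _ 1 fun x _ => h1 _).trans ?_)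
      rw [Nat.card_Ico, nsmul_eq_mul, mul_one]
      exact_mod_cast (by omega : B - A ≤ M)
    · rw [← sum_Ico_consecutive (fun m : ℕ => f (m : ZMod M)) (Nat.le_add_right A M)
        (by omega : A + M ≤ B), pvt_period M f h0 A, zero_add]
      exact ih (L - M) (by omega) (A + M) (by omega)

theorem pvt {r r' : ℕ} (hr : 1 ≤ r) (hr' : 1 ≤ r') (χ : DirichletCharacter ℂ r)
    (χ' : DirichletCharacter ℂ r') (h : χ.IsPrimitive) (h' : χ'.IsPrimitive)
    (hne : (⟨r, χ⟩ : Σ r : ℕ, DirichletCharacter ℂ r) ≠ ⟨r', χ'⟩) (A B : ℕ) :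
    ‖∑ m ∈ Ico A B, χ (m : ZMod r) * (starRingEnd ℂ) (χ' (m : ZMod r'))‖ ≤ r * r' := by
  have i1 : NeZero (r * r') := ⟨by positivity⟩
  set X : DirichletCharacter ℂ (r * r') := DirichletCharacter.changeLevel (dvd_mul_right r r') χ with hX
  set X' : DirichletCharacter ℂ (r * r') := DirichletCharacter.changeLevel (dvd_mul_left r' r) χ' with hX'
  have hprod : ∀ m : ℕ, χ (m : ZMod r) * (starRingEnd ℂ) (χ' (m : ZMod r')) =
      (X * X'⁻¹) (m : ZMod (r * r')) := by
    intro m
    have hs : (starRingEnd ℂ) (χ' (m : ZMod r')) = χ'⁻¹ (m : ZMod r') := MulChar.star_apply' χ' _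
    by_cases hm : m.Coprime (r * r')
    · have hc : IsCoprime (m : ℤ) ((r * r' : ℕ) : ℤ) := Nat.isCoprime_iff_coprime.mpr hm
      have e1 : X (m : ZMod (r * r')) = χ (m : ZMod r) := by
        have := DirichletCharacter.changeLevel_eq_cast_of_dvd' χ (dvd_mul_right r r') hc
        simpa using this
      have e2 : X'⁻¹ (m : ZMod (r * r')) = χ'⁻¹ (m : ZMod r') := by
        have := DirichletCharacter.changeLevel_eq_cast_of_dvd' χ'⁻¹ (dvd_mul_left r' r) hc
        rw [map_inv] at this
        simpa using this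
      rw [MulChar.mul_apply, e1, e2, hs]
    · rw [MulChar.map_nonunit _ (fun hu => hm ((ZMod.isUnit_iff_coprime _ _).mp hu))]
      have hm' : ¬ (m.Coprime r ∧ m.Coprime r') := fun hh => hm (Nat.Coprime.mul_right hh.1 hh.2)
      by_cases h1 : m.Coprime r
      · have h2 : ¬ m.Coprime r' := fun h2 => hm' ⟨h1, h2⟩
        rw [MulChar.map_nonunit χ' (fun hu => h2 ((ZMod.isUnit_iff_coprime _ _).mp hu)), map_zero,
          mul_zero]
      · rw [MulChar.map_nonunit χ (fun hu => h1 ((ZMod.isUnit_iff_coprime _ _).mp hu)), zero_mul]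
  have hne1 : X * X'⁻¹ ≠ 1 := by
    intro he
    have he' : X = X' := mul_inv_eq_one.mp he
    have c1 : X.conductor = χ.conductor := DirichletCharacter.conductor_changeLevel _ _
    have c2 : X'.conductor = χ'.conductor := DirichletCharacter.conductor_changeLevel _ _
    have c3 : r = r' := by
      rw [DirichletCharacter.isPrimitive_def] at h h'
      rw [← h, ← h', ← c1, ← c2, he']
    subst c3
    apply hne
    have := DirichletCharacter.changeLevel_injective (R := ℂ) (dvd_mul_right r r) he'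
    rw [this]
  rw [sum_congr rfl fun m _ => hprod m]
  have := pvt_bound (r * r') (fun x => (X * X'⁻¹) x) (MulChar.sum_eq_zero_of_ne_one hne1)
    (fun x => DirichletCharacter.norm_le_one _ x) B A B (by omega)
  exact_mod_cast this

end Pool.Agent.EC
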