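import Pool.Agent.Lib_MP_f1a94e_eck.KBase
import Pool.Agent.Lib_MP_f1a94e_eck.Svw
import Pool.Agent.Lib_MP_f1a94e_eck.Pvt

/-!
# Piece BDD: the dual form of the Bombieri-Davenport inequality

PROOF. `z = ⌊P^(1/20)⌋₊`, `lam` from `svw`, `θ m = ∑_{d ∣ m} lam d ≥ 0`, and `θ p = 1` for the primes `p ≥ P > z^2`. Let `I` be the natural numbers in `[P, 2 P]` (`Ico ⌈P⌉₊ (NP P)`).
The left side is at most `∑_{m ∈ I} θ m |∑ β χ(m)|^2 = ∑_{(r,χ),(r',χ')} β χ conj (β χ') ∑_{m ∈ I} θ m χ(m) conj χ'(m)`.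
Off the diagonal: `∑_{m ∈ I} θ m χ conj χ' (m) = ∑_{d ≤ z^2} lam d χ(d) conj χ'(d) ∑_{m' : d m' ∈ I} χ(m') conj χ'(m')`, and the inner sum is over an interval,
so by `pvt` and `∑ |lam d| ≤ z^4` it is at most `z^4 Q^2`. There are at most `Q^2` pairs `(r, χ)` (`card` of the characters mod `r` is `φ(r) ≤ r`), so by Cauchy and Schwarz the off diagonal part is at most
`z^4 Q^2 * Q^2 ∑ |β|^2 ≤ P^(3/10) ∑ |β|^2`. Diagonal: `∑_{m ∈ I} θ m |χ m|^2 ≤ ∑_{m ∈ I} θ m = ∑_d lam d #{m ∈ I | d ∣ m} ≤ P * 2/log z + z^4 ≤ C' P / log P`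
(`#{..} = P/d + O(1)`; write `X = P`, error at most `1 + 1`). Index the pairs `(r, χ)` by `(Icc 1 Q).sigma prm` if convenient.
-/

set_option autoImplicit false

namespace Pool.Agent.EC

open Finset

/-- abstract duality inequality with a nonnegative weight -/
theorem bdd_abs {ι : Type*} [DecidableEq ι] (S : Finset ι) (b : ι → ℂ) (c : ι → ℕ → ℂ) (I : Finset ℕ)
    (θ : ℕ → ℝ) (hθ : ∀ m ∈ I, 0 ≤ θ m) (hc : ∀ x ∈ S, ∀ m ∈ I, ‖c x m‖ ≤ 1) (G E : ℝ) (hE0 : 0 ≤ E)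
    (hG : ∑ m ∈ I, θ m ≤ G)
    (hE : ∀ x ∈ S, ∀ y ∈ S, x ≠ y →
      ‖∑ m ∈ I, (θ m : ℂ) * (c x m * (starRingEnd ℂ) (c y m))‖ ≤ E) :
    ∑ m ∈ I, θ m * ‖∑ x ∈ S, b x * c x m‖ ^ 2 ≤ (G + E * S.card) * ∑ x ∈ S, ‖b x‖ ^ 2 := by
  have hG0 : 0 ≤ G := le_trans (sum_nonneg hθ) hG
  have hkey : ((∑ m ∈ I, θ m * ‖∑ x ∈ S, b x * c x m‖ ^ 2 : ℝ) : ℂ)
      = ∑ x ∈ S, ∑ y ∈ S, b x * (starRingEnd ℂ) (b y) *
        ∑ m ∈ I, (θ m : ℂ) * (c x m * (starRingEnd ℂ) (c y m)) := by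
    have h1 : ∀ m ∈ I, ((θ m * ‖∑ x ∈ S, b x * c x m‖ ^ 2 : ℝ) : ℂ)
        = ∑ x ∈ S, ∑ y ∈ S, b x * (starRingEnd ℂ) (b y) *
          ((θ m : ℂ) * (c x m * (starRingEnd ℂ) (c y m))) := by
      intro m _
      have h2 : ((‖∑ x ∈ S, b x * c x m‖ ^ 2 : ℝ) : ℂ)
          = (∑ x ∈ S, b x * c x m) * (starRingEnd ℂ) (∑ x ∈ S, b x * c x m) := by
        rw [Complex.mul_conj, Complex.normSq_eq_norm_sq]
      rw [Complex.ofReal_mul, h2, map_sum, sum_mul_sum, mul_sum]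
      refine sum_congr rfl fun x _ => ?_
      rw [mul_sum]
      refine sum_congr rfl fun y _ => ?_
      rw [map_mul]
      ring
    rw [Complex.ofReal_sum, sum_congr rfl h1, sum_comm]
    refine sum_congr rfl fun x _ => ?_
    rw [sum_comm]
    refine sum_congr rfl fun y _ => ?_
    rw [mul_sum]
  have hnn : 0 ≤ ∑ m ∈ I, θ m * ‖∑ x ∈ S, b x * c x m‖ ^ 2 :=
    sum_nonneg fun m hm => mul_nonneg (hθ m hm) (sq_nonneg _)
  have h3 : ∑ m ∈ I, θ m * ‖∑ x ∈ S, b x * c x m‖ ^ 2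
      = ‖((∑ m ∈ I, θ m * ‖∑ x ∈ S, b x * c x m‖ ^ 2 : ℝ) : ℂ)‖ := by
    rw [Complex.norm_real, Real.norm_of_nonneg hnn]
  rw [h3, hkey]
  have h4 : ‖∑ x ∈ S, ∑ y ∈ S, b x * (starRingEnd ℂ) (b y) *
        ∑ m ∈ I, (θ m : ℂ) * (c x m * (starRingEnd ℂ) (c y m))‖
      ≤ ∑ x ∈ S, ∑ y ∈ S, ((if x = y then G * ‖b x‖ ^ 2 else 0) + E * (‖b x‖ * ‖b y‖)) := by
    refine (norm_sum_le _ _).trans (sum_le_sum fun x hx => ?_)
    refine (norm_sum_le _ _).trans (sum_le_sum fun y hy => ?_)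
    rw [norm_mul, norm_mul, RCLike.norm_conj]
    by_cases hxy : x = y
    · subst hxy
      rw [if_pos rfl]
      have h5 : ‖∑ m ∈ I, (θ m : ℂ) * (c x m * (starRingEnd ℂ) (c x m))‖ ≤ G := by
        refine (norm_sum_le _ _).trans (le_trans (sum_le_sum fun m hm => ?_) hG)
        rw [norm_mul, norm_mul, RCLike.norm_conj, Complex.norm_real, Real.norm_of_nonneg (hθ m hm)]
        have := hc x hx m hm
        have h0 := norm_nonneg (c x m)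
        have h6 : ‖c x m‖ * ‖c x m‖ ≤ 1 := by nlinarith
        calc θ m * (‖c x m‖ * ‖c x m‖) ≤ θ m * 1 := mul_le_mul_of_nonneg_left h6 (hθ m hm)
          _ = θ m := mul_one _
      have h7 : ‖b x‖ * ‖b x‖ * ‖∑ m ∈ I, (θ m : ℂ) * (c x m * (starRingEnd ℂ) (c x m))‖
          ≤ ‖b x‖ * ‖b x‖ * G := mul_le_mul_of_nonneg_left h5 (by positivity)
      have h8 : 0 ≤ E * (‖b x‖ * ‖b x‖) := by positivity
      nlinarith
    · rw [if_neg hxy, zero_add]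
      have h5 := hE x hx y hy hxy
      calc ‖b x‖ * ‖b y‖ * ‖∑ m ∈ I, (θ m : ℂ) * (c x m * (starRingEnd ℂ) (c y m))‖
          ≤ ‖b x‖ * ‖b y‖ * E := mul_le_mul_of_nonneg_left h5 (by positivity)
        _ = E * (‖b x‖ * ‖b y‖) := by ring
  refine h4.trans ?_
  have h9 : ∑ x ∈ S, ∑ y ∈ S, ((if x = y then G * ‖b x‖ ^ 2 else 0) + E * (‖b x‖ * ‖b y‖))
      = G * ∑ x ∈ S, ‖b x‖ ^ 2 + E * (∑ x ∈ S, ‖b x‖) ^ 2 := by
    have : ∀ x ∈ S, ∑ y ∈ S, ((if x = y then G * ‖b x‖ ^ 2 else 0) + E * (‖b x‖ * ‖b y‖))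
        = G * ‖b x‖ ^ 2 + E * (‖b x‖ * ∑ y ∈ S, ‖b y‖) := by
      intro x hx
      rw [sum_add_distrib, sum_ite_eq, if_pos hx, mul_sum, mul_sum]
    rw [sum_congr rfl this, sum_add_distrib, ← mul_sum, ← mul_sum, ← sum_mul, sq]
  rw [h9]
  have h10 : (∑ x ∈ S, ‖b x‖) ^ 2 ≤ S.card * ∑ x ∈ S, ‖b x‖ ^ 2 := sq_sum_le_card_mul_sum_sq
  nlinarith [mul_le_mul_of_nonneg_left h10 hE0]

theorem bdd_le_iff (A d m : ℕ) (hd : 0 < d) : (A + d - 1) / d ≤ m ↔ A ≤ d * m := by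
  rw [Nat.div_le_iff_le_mul_add_pred hd]
  omega

theorem bdd_lt_iff (A d m : ℕ) (hd : 0 < d) : m < (A + d - 1) / d ↔ d * m < A := by
  rw [← not_le, bdd_le_iff A d m hd, not_le]

/-- multiples of `d` in an interval -/
theorem bdd_ico {M : Type*} [AddCommMonoid M] (A B d : ℕ) (hd : 0 < d) (f : ℕ → M) :
    ∑ m ∈ (Ico A B).filter (fun m => d ∣ m), f m
      = ∑ m ∈ Ico ((A + d - 1) / d) ((B + d - 1) / d), f (d * m) := by
  symm
  refine sum_nbij (fun m => d * m) ?_ ?_ ?_ ?_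
  · intro m hm
    rw [mem_Ico] at hm
    rw [mem_filter, mem_Ico]
    exact ⟨⟨(bdd_le_iff A d m hd).mp hm.1, (bdd_lt_iff B d m hd).mp hm.2⟩, Dvd.intro m rfl⟩
  · intro m _ m' _ h
    exact Nat.eq_of_mul_eq_mul_left hd h
  · intro m hm
    rw [coe_filter, Set.mem_ofPred_eq, mem_Ico] at hm
    obtain ⟨⟨h1, h2⟩, k, rfl⟩ := hm
    refine ⟨k, ?_, rfl⟩
    rw [mem_coe, mem_Ico, bdd_le_iff A d k hd, bdd_lt_iff B d k hd]
    exact ⟨h1, h2⟩
  · intro m _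
    rfl

/-- sums of the sieve weights against a function -/
theorem bdd_swap {M : Type*} [CommSemiring M] (lam : ℕ → M) (Z A B : ℕ) (hA : 0 < A)
    (hlam : ∀ d, Z < d → lam d = 0) (f : ℕ → M) :
    ∑ m ∈ Ico A B, (∑ d ∈ m.divisors, lam d) * f m
      = ∑ d ∈ Icc 1 Z, lam d * ∑ m ∈ (Ico A B).filter (fun m => d ∣ m), f m := by
  have h1 : ∀ m ∈ Ico A B, (∑ d ∈ m.divisors, lam d) * f m
      = ∑ d ∈ Icc 1 Z, if d ∣ m then lam d * f m else 0 := by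
    intro m hm
    have hm0 : m ≠ 0 := by
      have := (mem_Ico.mp hm).1
      omega
    rw [← sum_filter, sum_mul]
    symm
    apply sum_subset
    · intro d hd
      rw [mem_filter, mem_Icc] at hd
      exact Nat.mem_divisors.mpr ⟨hd.2, hm0⟩
    · intro d hd hd'
      rw [Nat.mem_divisors] at hd
      rw [mem_filter, mem_Icc] at hd'
      have hpos : 0 < d := Nat.pos_of_dvd_of_pos hd.1 (Nat.pos_of_ne_zero hm0)
      have : Z < d := by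
        by_contra hcon
        exact hd' ⟨⟨hpos, not_lt.mp hcon⟩, hd.1⟩
      rw [hlam d this, zero_mul]
  rw [sum_congr rfl h1, sum_comm]
  refine sum_congr rfl fun d _ => ?_
  rw [← sum_filter, mul_sum]

/-- number of multiples of `d` in `[P, 2 P]` -/
theorem bdd_card (P : ℝ) (hP : 1 ≤ P) (d : ℕ) (hd : 0 < d) :
    |(((Ico ((⌈P⌉₊ + d - 1) / d) ((NP P + d - 1) / d)).card : ℕ) : ℝ) - P / d| ≤ 1 := by
  have hdr : (0 : ℝ) < d := by exact_mod_cast hd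
  obtain ⟨a, ha⟩ : ∃ a, a = (⌈P⌉₊ + d - 1) / d := ⟨_, rfl⟩
  obtain ⟨b, hb⟩ : ∃ b, b = (NP P + d - 1) / d := ⟨_, rfl⟩
  rw [← ha, ← hb]
  -- `a` is the least natural number with `P ≤ d a`
  have ha1 : P ≤ d * a := by
    have h2 : ⌈P⌉₊ ≤ d * a := (bdd_le_iff _ d a hd).mp ha.ge
    exact (Nat.le_ceil P).trans (by exact_mod_cast h2)
  have ha2 : (d : ℝ) * a < P + d := by
    by_cases h0 : a = 0
    · rw [h0]
      push_cast
      nlinarith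
    · have h2 : d * (a - 1) < ⌈P⌉₊ := (bdd_lt_iff _ d (a - 1) hd).mp (by rw [← ha]; omega)
      have h3 : ((d * (a - 1) : ℕ) : ℝ) < P := Nat.lt_ceil.mp h2
      rw [Nat.cast_mul, Nat.cast_sub (by omega), Nat.cast_one] at h3
      nlinarith
  -- `b` is the least natural number with `2 P < d b`
  have hb1 : 2 * P < d * b := by
    have h2 : ⌊2 * P⌋₊ + 1 ≤ d * b := (bdd_le_iff (NP P) d b hd).mp hb.ge
    exact lt_of_lt_of_le (Nat.lt_floor_add_one _) (by exact_mod_cast h2)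
  have hb2 : (d : ℝ) * b ≤ 2 * P + d := by
    by_cases h0 : b = 0
    · rw [h0]
      push_cast
      nlinarith
    · have h1 : d * (b - 1) < ⌊2 * P⌋₊ + 1 := (bdd_lt_iff (NP P) d (b - 1) hd).mp (by rw [← hb]; omega)
      have h2 : d * (b - 1) ≤ ⌊2 * P⌋₊ := by omega
      have h3 : ((d * (b - 1) : ℕ) : ℝ) ≤ 2 * P := (Nat.le_floor_iff (by linarith)).mp h2
      rw [Nat.cast_mul, Nat.cast_sub (by omega), Nat.cast_one] at h3
      nlinarith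
  have hab : a ≤ b := by
    by_contra hcon
    push Not at hcon
    have h1 : b ≤ a - 1 := by omega
    have h2 : ((b : ℕ) : ℝ) ≤ a - 1 := by
      have : ((b : ℕ) : ℝ) + 1 ≤ a := by exact_mod_cast hcon
      linarith
    nlinarith
  rw [Nat.card_Ico, Nat.cast_sub hab, abs_le]
  have e1 : (b : ℝ) - a = (d * b - d * a) / d := by
    field_simp
  rw [e1, ← sub_div, le_div_iff₀ hdr, div_le_iff₀ hdr]
  constructor <;> linarith

open Classical in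
theorem bdd_card_prm (Q : ℕ) : (((Icc 1 Q).sigma prm).card : ℝ) ≤ (Q : ℝ) ^ 2 := by
  have h : ((Icc 1 Q).sigma prm).card ≤ Q ^ 2 := by
    rw [card_sigma]
    calc ∑ r ∈ Icc 1 Q, (prm r).card ≤ ∑ r ∈ Icc 1 Q, Q := by
          refine sum_le_sum fun r hr => ?_
          rw [mem_Icc] at hr
          have : NeZero r := ⟨by omega⟩
          calc (prm r).card ≤ (univ : Finset (DirichletCharacter ℂ r)).card := by
                unfold prm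
                exact card_le_card (filter_subset _ _)
            _ = Nat.card (DirichletCharacter ℂ r) := by
                rw [card_univ, Nat.card_eq_fintype_card]
            _ = r.totient := DirichletCharacter.card_eq_totient_of_hasEnoughRootsOfUnity ℂ r
            _ ≤ r := Nat.totient_le r
            _ ≤ Q := hr.2
      _ = Q ^ 2 := by
          rw [sum_const, Nat.card_Icc, smul_eq_mul]
          simp [sq]
  exact_mod_cast h

/-- the off diagonal sums -/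
theorem bdd_off {z : ℕ} {lam : ℕ → ℝ} (h0 : ∀ d, z ^ 2 < d → lam d = 0)
    (hs : ∑ d ∈ Icc 1 (z ^ 2), |lam d| ≤ (z : ℝ) ^ 4) {r r' Q : ℕ} (hr : 1 ≤ r) (hr' : 1 ≤ r')
    (hrQ : r ≤ Q) (hrQ' : r' ≤ Q) (χ : DirichletCharacter ℂ r)
    (χ' : DirichletCharacter ℂ r') (h : χ.IsPrimitive) (h' : χ'.IsPrimitive)
    (hne : (⟨r, χ⟩ : Σ r : ℕ, DirichletCharacter ℂ r) ≠ ⟨r', χ'⟩) (A B : ℕ) (hA : 0 < A) :
    ‖∑ m ∈ Ico A B, ((∑ d ∈ m.divisors, lam d : ℝ) : ℂ) *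
        (χ (m : ZMod r) * (starRingEnd ℂ) (χ' (m : ZMod r')))‖ ≤ (z : ℝ) ^ 4 * (Q : ℝ) ^ 2 := by
  have e1 : ∑ m ∈ Ico A B, ((∑ d ∈ m.divisors, lam d : ℝ) : ℂ) *
        (χ (m : ZMod r) * (starRingEnd ℂ) (χ' (m : ZMod r')))
      = ∑ d ∈ Icc 1 (z ^ 2), (lam d : ℂ) * ∑ m ∈ (Ico A B).filter (fun m => d ∣ m),
        (χ (m : ZMod r) * (starRingEnd ℂ) (χ' (m : ZMod r'))) := by
    rw [← bdd_swap (fun d => (lam d : ℂ)) (z ^ 2) A B hA (fun d hd => by rw [h0 d hd]; simp)]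
    refine sum_congr rfl fun m _ => ?_
    rw [Complex.ofReal_sum]
  rw [e1]
  refine (norm_sum_le _ _).trans ?_
  have h2 : ∀ d ∈ Icc 1 (z ^ 2), ‖(lam d : ℂ) * ∑ m ∈ (Ico A B).filter (fun m => d ∣ m),
        (χ (m : ZMod r) * (starRingEnd ℂ) (χ' (m : ZMod r')))‖ ≤ |lam d| * (Q : ℝ) ^ 2 := by
    intro d hd
    rw [mem_Icc] at hd
    rw [norm_mul, Complex.norm_real, Real.norm_eq_abs]
    refine mul_le_mul_of_nonneg_left ?_ (abs_nonneg _)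
    rw [bdd_ico A B d (by omega)]
    have e2 : ∑ m ∈ Ico ((A + d - 1) / d) ((B + d - 1) / d),
        χ ((d * m : ℕ) : ZMod r) * (starRingEnd ℂ) (χ' ((d * m : ℕ) : ZMod r'))
        = (χ (d : ZMod r) * (starRingEnd ℂ) (χ' (d : ZMod r'))) *
          ∑ m ∈ Ico ((A + d - 1) / d) ((B + d - 1) / d),
            χ (m : ZMod r) * (starRingEnd ℂ) (χ' (m : ZMod r')) := by
      rw [mul_sum]
      refine sum_congr rfl fun m _ => ?_
      rw [Nat.cast_mul, Nat.cast_mul, map_mul, map_mul, map_mul]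
      ring
    rw [e2, norm_mul, norm_mul, RCLike.norm_conj]
    have h3 := pvt hr hr' χ χ' h h' hne ((A + d - 1) / d) ((B + d - 1) / d)
    have h4 : ‖χ (d : ZMod r)‖ ≤ 1 := χ.norm_le_one _
    have h5 : ‖χ' (d : ZMod r')‖ ≤ 1 := χ'.norm_le_one _
    have h6 : ‖χ (d : ZMod r)‖ * ‖χ' (d : ZMod r')‖ ≤ 1 := mul_le_one₀ h4 (norm_nonneg _) h5
    have h7 : (r : ℝ) * r' ≤ (Q : ℝ) ^ 2 := by
      rw [sq]
      exact mul_le_mul (by exact_mod_cast hrQ) (by exact_mod_cast hrQ') (by positivity) (by positivity)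
    calc _ ≤ 1 * ((r : ℝ) * r') := mul_le_mul h6 h3 (norm_nonneg _) zero_le_one
      _ ≤ (Q : ℝ) ^ 2 := by linarith
  refine (sum_le_sum h2).trans ?_
  rw [← sum_mul]
  exact mul_le_mul_of_nonneg_right hs (by positivity)

/-- the diagonal sum -/
theorem bdd_diag {z : ℕ} {lam : ℕ → ℝ} (h0 : ∀ d, z ^ 2 < d → lam d = 0)
    (hs : ∑ d ∈ Icc 1 (z ^ 2), |lam d| ≤ (z : ℝ) ^ 4)
    (hl : ∑ d ∈ Icc 1 (z ^ 2), lam d / d ≤ 2 / Real.log z) (P : ℝ) (hP : 1 ≤ P) :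
    ∑ m ∈ Ico ⌈P⌉₊ (NP P), (∑ d ∈ m.divisors, lam d) ≤ P * (2 / Real.log z) + (z : ℝ) ^ 4 := by
  have hA : 0 < ⌈P⌉₊ := Nat.ceil_pos.mpr (by linarith)
  have e1 : ∑ m ∈ Ico ⌈P⌉₊ (NP P), (∑ d ∈ m.divisors, lam d)
      = ∑ d ∈ Icc 1 (z ^ 2), lam d *
        ((Ico ((⌈P⌉₊ + d - 1) / d) ((NP P + d - 1) / d)).card : ℝ) := by
    have h := bdd_swap lam (z ^ 2) ⌈P⌉₊ (NP P) hA h0 (fun _ => 1)
    simp only [mul_one] at h
    rw [h]
    refine sum_congr rfl fun d hd => ?_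
    rw [mem_Icc] at hd
    rw [bdd_ico _ _ d (by omega)]
    simp
  rw [e1]
  calc ∑ d ∈ Icc 1 (z ^ 2), lam d * ((Ico ((⌈P⌉₊ + d - 1) / d) ((NP P + d - 1) / d)).card : ℝ)
      ≤ ∑ d ∈ Icc 1 (z ^ 2), (P * (lam d / d) + |lam d|) := by
        refine sum_le_sum fun d hd => ?_
        rw [mem_Icc] at hd
        have h1 := bdd_card P hP d (by omega)
        set N : ℝ := ((Ico ((⌈P⌉₊ + d - 1) / d) ((NP P + d - 1) / d)).card : ℝ) with hN
        have h2 : lam d * N = P * (lam d / d) + lam d * (N - P / d) := by ring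
        rw [h2]
        have h3 : lam d * (N - P / d) ≤ |lam d| := by
          calc lam d * (N - P / d) ≤ |lam d * (N - P / d)| := le_abs_self _
            _ = |lam d| * |N - P / d| := abs_mul _ _
            _ ≤ |lam d| * 1 := mul_le_mul_of_nonneg_left h1 (abs_nonneg _)
            _ = |lam d| := mul_one _
        linarith
    _ = P * ∑ d ∈ Icc 1 (z ^ 2), lam d / d + ∑ d ∈ Icc 1 (z ^ 2), |lam d| := by
        rw [sum_add_distrib, mul_sum]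
    _ ≤ P * (2 / Real.log z) + (z : ℝ) ^ 4 :=
        add_le_add (mul_le_mul_of_nonneg_left hl (by linarith)) hs

/-- growth facts -/
theorem bdd_growth : ∃ P0 : ℝ, 2 ≤ P0 ∧ ∀ P : ℝ, P0 ≤ P →
    2 * P ^ (1 / 40 : ℝ) ≤ P ^ (1 / 20 : ℝ) ∧ 4 ≤ P ^ (1 / 20 : ℝ) ∧
    P ^ (3 / 10 : ℝ) ≤ P / Real.log P ∧ P ^ (1 / 10 : ℝ) < P := by
  refine ⟨(10 : ℝ) ^ (40 : ℕ), by norm_num, fun P hP => ?_⟩
  have hP1 : 1 < P := lt_of_lt_of_le (by norm_num) hP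
  have hP0 : 0 < P := by linarith
  have h40 : (10 : ℝ) ≤ P ^ (1 / 40 : ℝ) := by
    calc (10 : ℝ) = ((10 : ℝ) ^ (40 : ℕ)) ^ (1 / 40 : ℝ) := by
          rw [← Real.rpow_natCast, ← Real.rpow_mul (by norm_num)]
          norm_num
      _ ≤ P ^ (1 / 40 : ℝ) := Real.rpow_le_rpow (by positivity) hP (by norm_num)
  have h20 : P ^ (1 / 20 : ℝ) = P ^ (1 / 40 : ℝ) * P ^ (1 / 40 : ℝ) := by
    rw [← Real.rpow_add hP0]
    norm_num
  refine ⟨?_, ?_, ?_, ?_⟩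
  · rw [h20]
    nlinarith
  · rw [h20]
    nlinarith
  · have hlog : 0 < Real.log P := Real.log_pos hP1
    rw [le_div_iff₀ hlog]
    have h1 : Real.log P ≤ 2 * P ^ (1 / 2 : ℝ) := by
      have := Real.log_le_rpow_div hP0.le (show (0 : ℝ) < 1 / 2 by norm_num)
      linarith
    have h2 : (2 : ℝ) ≤ P ^ (1 / 5 : ℝ) := by
      calc (2 : ℝ) ≤ P ^ (1 / 40 : ℝ) := by linarith
        _ ≤ P ^ (1 / 5 : ℝ) := Real.rpow_le_rpow_of_exponent_le hP1.le (by norm_num)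
    calc P ^ (3 / 10 : ℝ) * Real.log P ≤ P ^ (3 / 10 : ℝ) * (P ^ (1 / 5 : ℝ) * P ^ (1 / 2 : ℝ)) := by
          refine mul_le_mul_of_nonneg_left (h1.trans ?_) (by positivity)
          exact mul_le_mul_of_nonneg_right h2 (by positivity)
      _ = P := by
          rw [← Real.rpow_add hP0, ← Real.rpow_add hP0]
          norm_num
  · calc P ^ (1 / 10 : ℝ) < P ^ (1 : ℝ) := Real.rpow_lt_rpow_of_exponent_lt hP1 (by norm_num)
      _ = P := Real.rpow_one P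

open Classical in
theorem bdd : ∃ C P0 : ℝ, 0 < C ∧ ∀ P : ℝ, P0 ≤ P → ∀ Q : ℕ, (Q : ℝ) ≤ P ^ (1 / 40 : ℝ) →
    ∀ β : (r : ℕ) → DirichletCharacter ℂ r → ℂ,
      ∑ p ∈ (range (NP P)).filter (fun p : ℕ => p.Prime ∧ P ≤ (p : ℝ)),
        ‖∑ r ∈ Icc 1 Q, ∑ χ ∈ prm r, β r χ * χ (p : ZMod r)‖ ^ 2 ≤
      C * (P / Real.log P) * ∑ r ∈ Icc 1 Q, ∑ χ ∈ prm r, ‖β r χ‖ ^ 2 := by
  obtain ⟨P0, hP02, hgr⟩ := bdd_growth
  refine ⟨82, P0, by norm_num, fun P hP Q hQ β => ?_⟩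
  obtain ⟨g1, g2, g3, g4⟩ := hgr P hP
  have hP1 : 1 < P := by linarith
  have hP0 : 0 < P := by linarith
  have hlogP : 0 < Real.log P := Real.log_pos hP1
  set z : ℕ := ⌊P ^ (1 / 20 : ℝ)⌋₊ with hz
  have hzle : (z : ℝ) ≤ P ^ (1 / 20 : ℝ) := Nat.floor_le (by positivity)
  have hzge : P ^ (1 / 40 : ℝ) ≤ z := by
    have h1 : P ^ (1 / 20 : ℝ) < z + 1 := Nat.lt_floor_add_one _
    have h2 : (1 : ℝ) ≤ P ^ (1 / 20 : ℝ) / 2 := by linarith
    linarith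
  have hz2 : 2 ≤ z := by
    have : (2 : ℕ) ≤ ⌊P ^ (1 / 20 : ℝ)⌋₊ := Nat.le_floor (by push_cast; linarith)
    exact this
  obtain ⟨lam, l1, l2, l3, l4, l5⟩ := svw z hz2
  have hlogz : Real.log P / 40 ≤ Real.log z := by
    have h1 : Real.log (P ^ (1 / 40 : ℝ)) ≤ Real.log z := Real.log_le_log (by positivity) hzge
    rw [Real.log_rpow hP0] at h1
    linarith
  have hz4 : (z : ℝ) ^ 4 ≤ P ^ (1 / 5 : ℝ) := by
    calc (z : ℝ) ^ 4 ≤ (P ^ (1 / 20 : ℝ)) ^ 4 := pow_le_pow_left₀ (by positivity) hzle 4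
      _ = P ^ (1 / 5 : ℝ) := by
          rw [← Real.rpow_natCast, ← Real.rpow_mul hP0.le]
          norm_num
  have hz2P : (z : ℝ) ^ 2 < P := by
    calc (z : ℝ) ^ 2 ≤ (P ^ (1 / 20 : ℝ)) ^ 2 := pow_le_pow_left₀ (by positivity) hzle 2
      _ = P ^ (1 / 10 : ℝ) := by
          rw [← Real.rpow_natCast, ← Real.rpow_mul hP0.le]
          norm_num
      _ < P := g4
  have hQ4 : (Q : ℝ) ^ 4 ≤ P ^ (1 / 10 : ℝ) := by
    calc (Q : ℝ) ^ 4 ≤ (P ^ (1 / 40 : ℝ)) ^ 4 := pow_le_pow_left₀ (by positivity) hQ 4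
      _ = P ^ (1 / 10 : ℝ) := by
          rw [← Real.rpow_natCast, ← Real.rpow_mul hP0.le]
          norm_num
  have hA : 0 < ⌈P⌉₊ := Nat.ceil_pos.mpr hP0
  set θ : ℕ → ℝ := fun m => ∑ d ∈ m.divisors, lam d with hθ
  have hθ0 : ∀ m ∈ Ico ⌈P⌉₊ (NP P), 0 ≤ θ m := by
    intro m hm
    exact l4 m (lt_of_lt_of_le hA (mem_Ico.mp hm).1)
  set S : Finset (Σ r : ℕ, DirichletCharacter ℂ r) := (Icc 1 Q).sigma prm with hS
  have habs := bdd_abs S (fun x => β x.1 x.2) (fun x m => x.2 (m : ZMod x.1))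
    (Ico ⌈P⌉₊ (NP P)) θ hθ0 (fun x _ m _ => x.2.norm_le_one _)
    (P * (2 / Real.log z) + (z : ℝ) ^ 4) ((z : ℝ) ^ 4 * (Q : ℝ) ^ 2) (by positivity)
    (bdd_diag l2 l3 l5 P hP1.le) (by
      rintro ⟨r, χ⟩ hx ⟨r', χ'⟩ hy hxy
      rw [hS, mem_sigma, mem_Icc] at hx hy
      have hχ : χ.IsPrimitive := by
        have := hx.2
        unfold prm at this
        exact (mem_filter.mp this).2
      have hχ' : χ'.IsPrimitive := by
        have := hy.2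
        unfold prm at this
        exact (mem_filter.mp this).2
      exact bdd_off l2 l3 hx.1.1 hy.1.1 hx.1.2 hy.1.2 χ χ' hχ hχ' hxy ⌈P⌉₊ (NP P) hA)
  have hlhs : ∑ p ∈ (range (NP P)).filter (fun p : ℕ => p.Prime ∧ P ≤ (p : ℝ)),
        ‖∑ r ∈ Icc 1 Q, ∑ χ ∈ prm r, β r χ * χ (p : ZMod r)‖ ^ 2
      ≤ ∑ m ∈ Ico ⌈P⌉₊ (NP P), θ m * ‖∑ x ∈ S, β x.1 x.2 * x.2 (m : ZMod x.1)‖ ^ 2 := by
    have hsub : (range (NP P)).filter (fun p : ℕ => p.Prime ∧ P ≤ (p : ℝ)) ⊆ Ico ⌈P⌉₊ (NP P) := by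
      intro p hp
      rw [mem_filter, mem_range] at hp
      rw [mem_Ico]
      exact ⟨Nat.ceil_le.mpr hp.2.2, hp.1⟩
    refine le_trans (le_of_eq ?_) (sum_le_sum_of_subset_of_nonneg hsub
      (fun m hm _ => mul_nonneg (hθ0 m hm) (sq_nonneg _)))
    refine sum_congr rfl fun p hp => ?_
    rw [mem_filter] at hp
    have hθp : θ p = 1 := by
      have h1 : lam p = 0 := by
        apply l2
        have : ((z ^ 2 : ℕ) : ℝ) < p := by
          push_cast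
          linarith [hp.2.2]
        exact_mod_cast this
      simp only [hθ]
      rw [Nat.Prime.divisors hp.2.1, sum_pair hp.2.1.one_lt.ne, l1, h1, add_zero]
    rw [hθp, one_mul, hS, sum_sigma]
  have hrhs : ∑ x ∈ S, ‖β x.1 x.2‖ ^ 2 = ∑ r ∈ Icc 1 Q, ∑ χ ∈ prm r, ‖β r χ‖ ^ 2 := by
    rw [hS, sum_sigma]
  refine hlhs.trans (habs.trans ?_)
  rw [hrhs]
  refine mul_le_mul_of_nonneg_right ?_ (sum_nonneg fun r _ => sum_nonneg fun χ _ => sq_nonneg _)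
  have hcard := bdd_card_prm Q
  rw [← hS] at hcard
  have k1 : P * (2 / Real.log z) ≤ 80 * (P / Real.log P) := by
    have hlz : 0 < Real.log z := lt_of_lt_of_le (by positivity) hlogz
    have : 2 / Real.log z ≤ 80 / Real.log P := by
      rw [div_le_div_iff₀ hlz hlogP]
      linarith
    calc P * (2 / Real.log z) ≤ P * (80 / Real.log P) := mul_le_mul_of_nonneg_left this hP0.le
      _ = 80 * (P / Real.log P) := by ring
  have k2 : (z : ℝ) ^ 4 ≤ P / Real.log P := by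
    refine hz4.trans (le_trans ?_ g3)
    exact Real.rpow_le_rpow_of_exponent_le hP1.le (by norm_num)
  have k3 : (z : ℝ) ^ 4 * (Q : ℝ) ^ 2 * (S.card : ℝ) ≤ P / Real.log P := by
    calc (z : ℝ) ^ 4 * (Q : ℝ) ^ 2 * (S.card : ℝ) ≤ (z : ℝ) ^ 4 * (Q : ℝ) ^ 2 * (Q : ℝ) ^ 2 :=
          mul_le_mul_of_nonneg_left hcard (by positivity)
      _ = (z : ℝ) ^ 4 * (Q : ℝ) ^ 4 := by ring
      _ ≤ P ^ (1 / 5 : ℝ) * P ^ (1 / 10 : ℝ) := mul_le_mul hz4 hQ4 (by positivity) (by positivity)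
      _ = P ^ (3 / 10 : ℝ) := by
          rw [← Real.rpow_add hP0]
          norm_num
      _ ≤ P / Real.log P := g3
  linarith

end Pool.Agent.EC
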