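import Mathlib

/-!
# Elementary estimates for the sieving level `z = ⌊P^(1/20)⌋₊` (used by WLE and CLOSE)
-/

set_option autoImplicit false

namespace Pool.Agent.EC

/-- facts about `y = P^(1/20)` and `z = ⌊y⌋₊` for `P ≥ 2^41` -/
theorem z_facts {P : ℝ} (hP : (2 : ℝ) ^ 41 ≤ P) : ∃ y : ℝ, 4 ≤ y ∧ y ^ 20 = P ∧ 2 ≤ ⌊y⌋₊ ∧
    ((⌊y⌋₊ ^ 2 : ℕ) : ℝ) < P ∧ Real.log (2 * P) ≤ 40 * Real.log (⌊y⌋₊ : ℝ) ∧
    0 < Real.log (⌊y⌋₊ : ℝ) ∧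
    ((⌊y⌋₊ : ℕ) : ℝ) ^ 4 ≤ y ^ 4 ∧ Real.log (2 * P) ≤ 10 * y ^ 4 ∧ √P = y ^ 10 := by
  have hP0 : 0 < P := lt_of_lt_of_le (by positivity) hP
  set y : ℝ := P ^ (1 / 20 : ℝ) with hy
  have hy0 : 0 ≤ y := Real.rpow_nonneg hP0.le _
  have h20 : y ^ 20 = P := by
    rw [hy, ← Real.rpow_natCast, ← Real.rpow_mul hP0.le]
    norm_num
  have h4 : 4 ≤ y := by
    by_contra hlt
    push Not at hlt
    have h1 : y ^ 20 < 4 ^ 20 := pow_lt_pow_left₀ hlt hy0 (by norm_num)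
    rw [h20] at h1
    have h2 : (4 : ℝ) ^ 20 ≤ 2 ^ 41 := by norm_num
    linarith
  have hz2 : 2 ≤ ⌊y⌋₊ := Nat.le_floor (by push_cast; linarith)
  have hzle : ((⌊y⌋₊ : ℕ) : ℝ) ≤ y := Nat.floor_le hy0
  have hzge : y / 2 ≤ ((⌊y⌋₊ : ℕ) : ℝ) := by
    have := Nat.lt_floor_add_one y
    linarith
  have hz0 : (0 : ℝ) ≤ ((⌊y⌋₊ : ℕ) : ℝ) := Nat.cast_nonneg _
  refine ⟨y, h4, h20, hz2, ?_, ?_, ?_, ?_, ?_, ?_⟩
  · push_cast
    calc ((⌊y⌋₊ : ℕ) : ℝ) ^ 2 ≤ y ^ 2 := pow_le_pow_left₀ hz0 hzle 2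
      _ < y ^ 20 := pow_lt_pow_right₀ (by linarith) (by norm_num)
      _ = P := h20
  · have h1 : Real.log (y / 2) ≤ Real.log ((⌊y⌋₊ : ℕ) : ℝ) :=
      Real.log_le_log (by linarith) hzge
    rw [Real.log_div (by linarith) (by norm_num)] at h1
    have h2 : Real.log P = 20 * Real.log y := by
      rw [← h20, Real.log_pow]; norm_num
    have h3 : Real.log (2 * P) = Real.log 2 + Real.log P := Real.log_mul (by norm_num) hP0.ne'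
    have h5 : 41 * Real.log 2 ≤ Real.log P := by
      have := Real.log_le_log (by positivity) hP
      rwa [Real.log_pow] at this
    rw [h3]
    linarith
  · apply Real.log_pos
    have : (2 : ℝ) ≤ ((⌊y⌋₊ : ℕ) : ℝ) := by exact_mod_cast hz2
    linarith
  · exact pow_le_pow_left₀ hz0 hzle 4
  · have h1 := Real.log_le_rpow_div (x := 2 * P) (ε := 1 / 5) (by linarith) (by norm_num)
    have h2 : (2 * P) ^ (1 / 5 : ℝ) = 2 ^ (1 / 5 : ℝ) * P ^ (1 / 5 : ℝ) :=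
      Real.mul_rpow (by norm_num) hP0.le
    have h3 : P ^ (1 / 5 : ℝ) = y ^ 4 := by
      rw [hy, ← Real.rpow_natCast, ← Real.rpow_mul hP0.le]
      norm_num
    have h5 : (2 : ℝ) ^ (1 / 5 : ℝ) ≤ 2 := by
      calc (2 : ℝ) ^ (1 / 5 : ℝ) ≤ 2 ^ (1 : ℝ) :=
            Real.rpow_le_rpow_of_exponent_le (by norm_num) (by norm_num)
        _ = 2 := Real.rpow_one 2
    rw [h2, h3] at h1
    have h6 : 0 ≤ y ^ 4 := by positivity
    have h7 : (2 : ℝ) ^ (1 / 5 : ℝ) * y ^ 4 ≤ 2 * y ^ 4 := mul_le_mul_of_nonneg_right h5 h6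
    have h8 : (2 : ℝ) ^ (1 / 5 : ℝ) * y ^ 4 / (1 / 5) ≤ 10 * y ^ 4 := by
      rw [div_le_iff₀ (by norm_num)]
      linarith
    linarith
  · rw [← h20, show y ^ 20 = (y ^ 10) ^ 2 by ring]
    exact Real.sqrt_sq (by positivity)

/-- `y = P^(1/20)` is large when `P` is -/
theorem y_large {P y M : ℝ} (hM : 0 ≤ M) (hy : 0 ≤ y) (h : y ^ 20 = P) (hP : M ^ 20 ≤ P) : M ≤ y := by
  rw [← h] at hP
  exact (pow_le_pow_iff_left₀ hM hy (by norm_num)).mp hP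

end Pool.Agent.EC
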