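import Pool.Agent.Lib_MP_f1a94e_eck.KBase
import Pool.Agent.Lib_MP_f1a94e_eck.SvU
import Pool.Agent.Lib_MP_f1a94e_eck.Zaux

/-!
# Piece WLE: the total weight is at most `C δ P`

PROOF. `tot a P = ∑ a p` over the primes `p ∈ [P, (1+δ) P]`, each `a p ≤ log (2 P)` (`a_le`). Apply `sieve_upper` with
`z = ⌊P^(1/20)⌋₊`, `I` = the natural numbers in `[P, (1+δ) P]`, `m = id`, `X = δ P`, `E = 1` (the number of multiples of `d` in a real closed interval
of length `δ P` differs from `δ P / d` by at most `1`). For `P ≥ P0` all primes of the interval exceed `z^2`, so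
`tot a P ≤ log (2 P) * (2 δ P / log z + z^4)`, `log z ≥ (1/40) log (2 P)` and `z^4 log (2P) ≤ P^(1/5) log (2 P) ≤ δ P` for `P ≥ P0(δ)`. `C = 81`.
-/

set_option autoImplicit false

namespace Pool.Agent.EC

open Finset

/-- multiples of `d` in the interval `[U, V]` -/
theorem card_mult_Icc {U V : ℝ} (hU : 0 < U) (hUV : U ≤ V) {d : ℕ} (hd : 0 < d) :
    |(((Icc ⌈U⌉₊ ⌊V⌋₊).filter fun i => d ∣ i).card : ℝ) - (V - U) / d| ≤ 1 := by
  set A := ⌈U⌉₊ with hA
  set B := ⌊V⌋₊ with hB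
  have hA1 : 1 ≤ A := Nat.one_le_iff_ne_zero.mpr (Nat.ceil_pos.mpr hU).ne'
  have hAB : A ≤ B + 1 := by
    have h1 : U < (B : ℝ) + 1 := lt_of_le_of_lt hUV (Nat.lt_floor_add_one V)
    have h2 : A ≤ B + 1 := by
      rw [hA]
      apply Nat.ceil_le.mpr
      push_cast
      exact h1.le
    exact h2
  have hcard : ((Icc A B).filter fun i => d ∣ i).card + (A - 1) / d = B / d := by
    rw [← Nat.Ioc_filter_dvd_card_eq_div B d, ← Nat.Ioc_filter_dvd_card_eq_div (A - 1) d]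
    rw [← card_union_of_disjoint]
    · congr 1
      ext i
      simp only [mem_union, mem_filter, mem_Icc, mem_Ioc]
      constructor
      · rintro (⟨⟨h1, h2⟩, h3⟩ | ⟨⟨h1, h2⟩, h3⟩)
        · exact ⟨⟨by omega, h2⟩, h3⟩
        · exact ⟨⟨h1, by omega⟩, h3⟩
      · rintro ⟨⟨h1, h2⟩, h3⟩
        by_cases h : A ≤ i
        · exact Or.inl ⟨⟨h, h2⟩, h3⟩
        · exact Or.inr ⟨⟨h1, by omega⟩, h3⟩
    · rw [disjoint_left]
      intro i hi hi'
      simp only [mem_filter, mem_Icc, mem_Ioc] at hi hi'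
      omega
  have hd' : (0 : ℝ) < d := by exact_mod_cast hd
  have e1 : (d : ℝ) * ((B / d : ℕ) : ℝ) ≤ B := by
    have := Nat.mul_div_le B d
    exact_mod_cast this
  have e2 : (B : ℝ) + 1 ≤ (d : ℝ) * (((B / d : ℕ) : ℝ) + 1) := by
    have h1 := Nat.lt_div_mul_add (a := B) hd
    have h2 : B + 1 ≤ d * (B / d + 1) := by
      rw [Nat.mul_add, Nat.mul_one, Nat.mul_comm d (B / d)]
      omega
    exact_mod_cast h2
  have e3 : (d : ℝ) * (((A - 1) / d : ℕ) : ℝ) ≤ ((A - 1 : ℕ) : ℝ) := by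
    have := Nat.mul_div_le (A - 1) d
    exact_mod_cast this
  have e4 : (A : ℝ) ≤ (d : ℝ) * ((((A - 1) / d : ℕ) : ℝ) + 1) := by
    have h1 := Nat.lt_div_mul_add (a := A - 1) hd
    have h2 : A ≤ d * ((A - 1) / d + 1) := by
      rw [Nat.mul_add, Nat.mul_one, Nat.mul_comm d ((A - 1) / d)]
      omega
    exact_mod_cast h2
  have e5 : ((A - 1 : ℕ) : ℝ) < U := by
    have h1 : A - 1 < ⌈U⌉₊ := by omega
    exact Nat.lt_ceil.mp h1
  have e6 : U ≤ A := Nat.le_ceil U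
  have e7 : (B : ℝ) ≤ V := Nat.floor_le (hU.le.trans hUV)
  have e8 : V < (B : ℝ) + 1 := Nat.lt_floor_add_one V
  have hcard' : (((Icc A B).filter fun i => d ∣ i).card : ℝ) =
      ((B / d : ℕ) : ℝ) - (((A - 1) / d : ℕ) : ℝ) := by
    rw [← hcard]
    push_cast
    ring
  rw [hcard', abs_le]
  constructor
  · rw [neg_le_sub_iff_le_add, div_le_iff₀ hd']
    nlinarith
  · rw [sub_le_iff_le_add, ← sub_le_iff_le_add', le_div_iff₀ hd']
    nlinarith

theorem wle : ∃ C : ℝ, 0 < C ∧ ∀ δ : ℝ, 0 < δ → δ ≤ 1 → ∃ P0 : ℝ, ∀ P : ℝ, P0 ≤ P →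
    ∀ a : ℕ → ℝ, Wt a P δ → tot a P ≤ C * δ * P := by
  refine ⟨81, by norm_num, fun δ hδ hδ1 => ⟨max (2 ^ 41) ((10 / δ) ^ 20), fun P hP a h => ?_⟩⟩
  have hP1 : (2 : ℝ) ^ 41 ≤ P := le_trans (le_max_left _ _) hP
  have hP2 : (10 / δ) ^ 20 ≤ P := le_trans (le_max_right _ _) hP
  obtain ⟨y, hy4, hy20, hz2, hzP, hlog, hlogpos, hz4, hlog2, hsq⟩ := z_facts hP1
  have hy0 : 0 ≤ y := by linarith
  have hyM := y_large (M := 10 / δ) (by positivity) hy0 hy20 hP2
  have hP0 : 0 < P := lt_of_lt_of_le (by positivity) hP1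
  have hP1' : 1 ≤ P := le_trans (by norm_num) hP1
  set z := ⌊y⌋₊ with hz
  have hL0 : 0 ≤ Real.log (2 * P) := Real.log_nonneg (by linarith)
  set I := Icc ⌈P⌉₊ ⌊(1 + δ) * P⌋₊ with hI
  have hUV : P ≤ (1 + δ) * P := by nlinarith
  have hsv := sieve_upper z hz2 I (fun i => i) (δ * P) 1 (by positivity)
    (by
      intro i hi
      rw [hI, mem_Icc] at hi
      exact lt_of_lt_of_le (Nat.ceil_pos.mpr hP0) hi.1)
    (by
      intro d hd
      have h1 := card_mult_Icc hP0 hUV (d := d) (mem_Icc.mp hd).1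
      have h2 : (1 + δ) * P - P = δ * P := by ring
      rw [h2] at h1
      exact h1)
  have htot : tot a P ≤ Real.log (2 * P) * ((I.filter fun i => i.Prime ∧ z ^ 2 < i).card : ℝ) := by
    calc tot a P = ∑ p ∈ (range (NP P)).filter (fun p => a p ≠ 0), a p := by
          rw [sum_filter_ne_zero]; rfl
      _ ≤ ∑ p ∈ I.filter (fun i => i.Prime ∧ z ^ 2 < i), a p := by
          apply sum_le_sum_of_subset_of_nonneg
          · intro p hp
            have h2 := h.supp p (mem_filter.mp hp).2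
            rw [mem_filter, hI, mem_Icc]
            refine ⟨⟨Nat.ceil_le.mpr h2.2.1, Nat.le_floor h2.2.2⟩, h2.1, ?_⟩
            have h3 : ((z ^ 2 : ℕ) : ℝ) < (p : ℝ) := lt_of_lt_of_le hzP h2.2.1
            exact_mod_cast h3
          · intro p _ _
            exact h.nonneg p
      _ ≤ ∑ p ∈ I.filter (fun i => i.Prime ∧ z ^ 2 < i), Real.log (2 * P) :=
          sum_le_sum fun p _ => a_le h hP1' hδ1 p
      _ = _ := by rw [sum_const, nsmul_eq_mul, mul_comm]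
  have hmul := mul_le_mul_of_nonneg_left hsv hL0
  have hm1 : Real.log (2 * P) * (2 * (δ * P) / Real.log (z : ℝ)) ≤ 80 * (δ * P) := by
    rw [mul_div_assoc', div_le_iff₀ hlogpos]
    have h1 : 0 ≤ δ * P := by positivity
    nlinarith
  have hm2 : Real.log (2 * P) * (z : ℝ) ^ 4 ≤ δ * P := by
    have h1 : Real.log (2 * P) * (z : ℝ) ^ 4 ≤ (10 * y ^ 4) * y ^ 4 :=
      mul_le_mul hlog2 hz4 (by positivity) (by positivity)
    have h2 : 10 ≤ δ * y := by
      rw [div_le_iff₀ hδ] at hyM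
      linarith
    have h3 : (10 * y ^ 4) * y ^ 4 ≤ (δ * y) * y ^ 8 := by
      have : 0 ≤ y ^ 8 := by positivity
      nlinarith
    have h4 : (δ * y) * y ^ 8 ≤ δ * P := by
      rw [← hy20, show (δ * y) * y ^ 8 = δ * y ^ 9 by ring]
      exact mul_le_mul_of_nonneg_left (pow_le_pow_right₀ (by linarith) (by norm_num)) hδ.le
    linarith
  calc tot a P ≤ _ := htot
    _ ≤ _ := hmul
    _ = Real.log (2 * P) * (2 * (δ * P) / Real.log (z : ℝ)) + Real.log (2 * P) * (z : ℝ) ^ 4 := by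
        ring
    _ ≤ 81 * δ * P := by linarith

end Pool.Agent.EC
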