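import Pool.Agent.Lib_MP_f1a94e_eck.Qw
import Pool.Agent.Lib_MP_f1a94e_eck.Ale
import Pool.Agent.Lib_MP_f1a94e_eck.Wle

/-!
# Piece BDRY: pairs whose common neighbours are close to the boundary of the box

PROOF. Let `μ = η √P`. If `x = (u, v)` is in the set and `w ∈ Bx n` has `aw a (dt u w) ≠ 0` and `aw a (dt v w) ≠ 0`, then by `aw_ne` and `outbox` `w` lies in
`E = {w ∈ Bx n | w.1 < 3 μ or w.1 > n - 3 μ or w.2 < 3 μ or w.2 > n - 3 μ}`. So the sum is at most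
`∑_{w ∈ E} (∑_{u ∈ Bx n} aw a (dt u w)) (∑_{v ∈ Bx n} aw a (dt v w)) ≤ #E ((K^2+1) C2 δ P)^2` (`ale`, `wle`; `δ ≤ η^2/(2K) ≤ 1`), and
`#E ≤ 4 (3 μ + 1)(n + 1) ≤ 4 (4 η √P)(2 K √P) = 32 K η P` for `P ≥ P0(η)`.
-/

set_option autoImplicit false

namespace Pool.Agent.EC

open Finset

/-- integers of `[0, n]` below `y` -/
theorem bdry_low (n : ℕ) {y : ℝ} (hy : 0 ≤ y) :
    (((Icc (0 : ℤ) n).filter (fun x : ℤ => (x : ℝ) < y)).card : ℝ) ≤ y + 1 := by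
  have h1 : (Icc (0 : ℤ) n).filter (fun x : ℤ => (x : ℝ) < y) ⊆ Icc 0 ⌊y⌋ := by
    intro x hx
    rw [mem_filter, mem_Icc] at hx
    rw [mem_Icc]
    exact ⟨hx.1.1, Int.le_floor.mpr hx.2.le⟩
  have h2 := card_le_card h1
  rw [Int.card_Icc] at h2
  have h3 : (0 : ℤ) ≤ ⌊y⌋ := Int.floor_nonneg.mpr hy
  have h4 : ((⌊y⌋ + 1 - 0).toNat : ℤ) = ⌊y⌋ + 1 := by
    rw [sub_zero]
    exact Int.toNat_of_nonneg (by omega)
  have h5 : (((⌊y⌋ + 1 - 0).toNat : ℕ) : ℝ) = (⌊y⌋ : ℝ) + 1 := by exact_mod_cast h4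
  calc (((Icc (0 : ℤ) n).filter (fun x : ℤ => (x : ℝ) < y)).card : ℝ)
      ≤ (((⌊y⌋ + 1 - 0).toNat : ℕ) : ℝ) := by exact_mod_cast h2
    _ = (⌊y⌋ : ℝ) + 1 := h5
    _ ≤ y + 1 := by linarith [Int.floor_le y]

/-- integers of `[0, n]` above `n - y` -/
theorem bdry_high (n : ℕ) {y : ℝ} (hy : 0 ≤ y) :
    (((Icc (0 : ℤ) n).filter (fun x : ℤ => (n : ℝ) - y < (x : ℝ))).card : ℝ) ≤ y + 1 := by
  refine le_trans ?_ (bdry_low n (y := y) hy)
  have : ((Icc (0 : ℤ) n).filter (fun x : ℤ => (n : ℝ) - y < (x : ℝ))).card ≤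
      ((Icc (0 : ℤ) n).filter (fun x : ℤ => (x : ℝ) < y)).card := by
    apply card_le_card_of_injOn (fun x => (n : ℤ) - x)
    · intro x hx
      simp only [coe_filter, mem_Icc, Set.mem_ofPred_eq] at hx ⊢
      refine ⟨⟨by omega, by omega⟩, ?_⟩
      push_cast
      linarith [hx.2]
    · intro x _ x' _ hxx
      simp only at hxx
      omega
  exact_mod_cast this

open Classical in
theorem bdry_E {K P η : ℝ} {n : ℕ} (hK : 1 ≤ K) (hn : (n : ℝ) ^ 2 ≤ K ^ 2 * P) (hP : 1 ≤ P)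
    (hη : 0 < η) (hη1 : 1 ≤ η * √P) :
    (((Bx n).filter (fun w => (w.1 : ℝ) < 3 * (η * √P) ∨ n - 3 * (η * √P) < (w.1 : ℝ) ∨
      (w.2 : ℝ) < 3 * (η * √P) ∨ n - 3 * (η * √P) < (w.2 : ℝ))).card : ℝ) ≤ 32 * K * η * P := by
  set μ := η * √P with hμ
  have hμ0 : 0 ≤ 3 * μ := by linarith
  set I := Icc (0 : ℤ) n with hI
  set L := I.filter (fun x : ℤ => (x : ℝ) < 3 * μ) with hL
  set H := I.filter (fun x : ℤ => (n : ℝ) - 3 * μ < (x : ℝ)) with hH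
  have hsub : (Bx n).filter (fun w => (w.1 : ℝ) < 3 * μ ∨ n - 3 * μ < (w.1 : ℝ) ∨
      (w.2 : ℝ) < 3 * μ ∨ n - 3 * μ < (w.2 : ℝ)) ⊆
      ((L ×ˢ I) ∪ (H ×ˢ I)) ∪ ((I ×ˢ L) ∪ (I ×ˢ H)) := by
    intro w hw
    rw [mem_filter] at hw
    have h1 : w.1 ∈ I ∧ w.2 ∈ I := by
      have := hw.1
      rwa [Bx, mem_product] at this
    simp only [mem_union, mem_product, hL, hH, mem_filter]
    rcases hw.2 with h | h | h | h
    · exact Or.inl (Or.inl ⟨⟨h1.1, h⟩, h1.2⟩)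
    · exact Or.inl (Or.inr ⟨⟨h1.1, h⟩, h1.2⟩)
    · exact Or.inr (Or.inl ⟨h1.1, h1.2, h⟩)
    · exact Or.inr (Or.inr ⟨h1.1, h1.2, h⟩)
  have hIc : (I.card : ℝ) = n + 1 := by
    have h2 : I.card = n + 1 := by
      rw [hI, Int.card_Icc]
      omega
    rw [h2]
    push_cast
    ring
  have hLc : (L.card : ℝ) ≤ 3 * μ + 1 := bdry_low n hμ0
  have hHc : (H.card : ℝ) ≤ 3 * μ + 1 := bdry_high n hμ0
  have hc : (((Bx n).filter (fun w => (w.1 : ℝ) < 3 * μ ∨ n - 3 * μ < (w.1 : ℝ) ∨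
      (w.2 : ℝ) < 3 * μ ∨ n - 3 * μ < (w.2 : ℝ))).card : ℝ) ≤ 4 * ((3 * μ + 1) * (n + 1)) := by
    have h1 := card_le_card hsub
    have h2 : (((L ×ˢ I) ∪ (H ×ˢ I)) ∪ ((I ×ˢ L) ∪ (I ×ˢ H))).card ≤
        (L.card * I.card + H.card * I.card) + (I.card * L.card + I.card * H.card) := by
      refine (card_union_le _ _).trans (add_le_add ?_ ?_)
      · refine (card_union_le _ _).trans (le_of_eq ?_)
        rw [card_product, card_product]
      · refine (card_union_le _ _).trans (le_of_eq ?_)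
        rw [card_product, card_product]
    have h3 : (((Bx n).filter (fun w => (w.1 : ℝ) < 3 * μ ∨ n - 3 * μ < (w.1 : ℝ) ∨
      (w.2 : ℝ) < 3 * μ ∨ n - 3 * μ < (w.2 : ℝ))).card : ℝ) ≤
        ((L.card : ℝ) * I.card + H.card * I.card) + (I.card * L.card + I.card * H.card) := by
      exact_mod_cast h1.trans h2
    have h4 : (0 : ℝ) ≤ n + 1 := by positivity
    have h5 := mul_le_mul_of_nonneg_right hLc h4
    have h6 := mul_le_mul_of_nonneg_right hHc h4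
    rw [hIc] at h3
    linarith
  refine hc.trans ?_
  have h1 : (n : ℝ) ≤ K * √P := n_le hK hn (by linarith)
  have h2 : 1 ≤ K * √P := by
    have h3 : 1 ≤ √P := Real.one_le_sqrt.mpr hP
    nlinarith
  calc 4 * ((3 * μ + 1) * ((n : ℝ) + 1)) ≤ 4 * ((4 * μ) * (2 * (K * √P))) := by
        apply mul_le_mul_of_nonneg_left _ (by norm_num)
        exact mul_le_mul (by linarith) (by linarith) (by positivity) (by linarith)
    _ = 32 * K * η * (√P) ^ 2 := by rw [hμ]; ring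
    _ = 32 * K * η * P := by rw [Real.sq_sqrt (by linarith)]

open Classical in
theorem bdry (K : ℝ) (hK : 1 ≤ K) : ∃ C : ℝ, 0 < C ∧ ∀ η δ : ℝ, 0 < η → η ≤ 1 → 0 < δ →
    δ ≤ η ^ 2 / (2 * K) →
    ∃ P0 : ℝ, ∀ P : ℝ, P0 ≤ P → ∀ a : ℕ → ℝ, Wt a P δ → ∀ n : ℕ, (n : ℝ) ^ 2 ≤ K ^ 2 * P →
      ∑ x ∈ (Bx n ×ˢ Bx n).filter (fun x => η * P < (dt x.1 x.2 : ℝ) ∧
        ¬ Qin P (2 * (η * √P)) n x.1 x.2), NN a n x.1 x.2 ≤ C * η * δ ^ 2 * P ^ 3 := by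
  obtain ⟨C2, hC2, hwle⟩ := wle
  refine ⟨32 * K * ((K ^ 2 + 1) * C2) ^ 2, by positivity, fun η δ hη hη1 hδ hδη => ?_⟩
  have hK0 : 0 < K := by linarith
  have hδ1 : δ ≤ 1 := by
    refine hδη.trans ?_
    rw [div_le_one (by positivity)]
    nlinarith
  obtain ⟨P2, hP2⟩ := hwle δ hδ hδ1
  refine ⟨max (max P2 (K ^ 2 + 1)) ((1 / η) ^ 2), fun P hP a h n hn => ?_⟩
  have hPP2 : P2 ≤ P := ((le_max_left _ _).trans (le_max_left _ _)).trans hP
  have hPK : K ^ 2 + 1 ≤ P := ((le_max_right _ _).trans (le_max_left _ _)).trans hP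
  have hPη : (1 / η) ^ 2 ≤ P := (le_max_right _ _).trans hP
  have hP1 : 1 ≤ P := by nlinarith
  have hP0 : 0 < P := by linarith
  have hμ1 : 1 ≤ η * √P := by
    have h1 : 1 / η ≤ √P := Real.le_sqrt_of_sq_le hPη
    rw [div_le_iff₀ hη] at h1
    linarith
  have htot := hP2 P hPP2 a h
  set E := (Bx n).filter (fun w => (w.1 : ℝ) < 3 * (η * √P) ∨ n - 3 * (η * √P) < (w.1 : ℝ) ∨
      (w.2 : ℝ) < 3 * (η * √P) ∨ n - 3 * (η * √P) < (w.2 : ℝ)) with hE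
  have hrow : ∀ w ∈ Bx n, ∑ u ∈ Bx n, aw a (dt u w) ≤ (K ^ 2 + 1) * (C2 * δ * P) := by
    intro w hw
    refine (ale hK (by linarith) hδ1 h hn hw).1.trans ?_
    exact mul_le_mul_of_nonneg_left htot (by positivity)
  have hrow0 : ∀ w, 0 ≤ ∑ u ∈ Bx n, aw a (dt u w) := fun w => sum_nonneg fun u _ => aw_nonneg h _
  calc ∑ x ∈ (Bx n ×ˢ Bx n).filter (fun x => η * P < (dt x.1 x.2 : ℝ) ∧
        ¬ Qin P (2 * (η * √P)) n x.1 x.2), NN a n x.1 x.2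
      ≤ ∑ x ∈ (Bx n ×ˢ Bx n).filter (fun x => η * P < (dt x.1 x.2 : ℝ) ∧
        ¬ Qin P (2 * (η * √P)) n x.1 x.2), ∑ w ∈ E, aw a (dt x.1 w) * aw a (dt x.2 w) := by
        apply sum_le_sum
        intro x hx
        rw [mem_filter, mem_product] at hx
        obtain ⟨⟨hu, hv⟩, hD, hQ⟩ := hx
        unfold NN
        apply le_of_eq
        symm
        apply sum_subset (filter_subset _ _)
        intro w hw hwE
        by_contra hne
        have hne1 : aw a (dt x.1 w) ≠ 0 := fun h0 => hne (by rw [h0, zero_mul])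
        have hne2 : aw a (dt x.2 w) ≠ 0 := fun h0 => hne (by rw [h0, mul_zero])
        have n1 := aw_ne h hne1
        have n2 := aw_ne h hne2
        apply hwE
        rw [mem_filter]
        exact ⟨hw, outbox hK hP0 hη hδ.le hδη hn hu hv hD ⟨n1.2.2.1, n1.2.2.2⟩
          ⟨n2.2.2.1, n2.2.2.2⟩ hQ⟩
    _ ≤ ∑ x ∈ Bx n ×ˢ Bx n, ∑ w ∈ E, aw a (dt x.1 w) * aw a (dt x.2 w) := by
        apply sum_le_sum_of_subset_of_nonneg (filter_subset _ _)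
        intro x _ _
        exact sum_nonneg fun w _ => mul_nonneg (aw_nonneg h _) (aw_nonneg h _)
    _ = ∑ w ∈ E, (∑ u ∈ Bx n, aw a (dt u w)) * (∑ v ∈ Bx n, aw a (dt v w)) := by
        rw [sum_comm]
        apply sum_congr rfl
        intro w _
        rw [sum_product, sum_mul_sum]
    _ ≤ ∑ w ∈ E, ((K ^ 2 + 1) * (C2 * δ * P)) * ((K ^ 2 + 1) * (C2 * δ * P)) := by
        apply sum_le_sum
        intro w hw
        have hwB : w ∈ Bx n := (mem_filter.mp hw).1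
        exact mul_le_mul (hrow w hwB) (hrow w hwB) (hrow0 w) (by positivity)
    _ = (E.card : ℝ) * (((K ^ 2 + 1) * (C2 * δ * P)) * ((K ^ 2 + 1) * (C2 * δ * P))) := by
        rw [sum_const, nsmul_eq_mul]
    _ ≤ (32 * K * η * P) * (((K ^ 2 + 1) * (C2 * δ * P)) * ((K ^ 2 + 1) * (C2 * δ * P))) :=
        mul_le_mul_of_nonneg_right (bdry_E hK hn hP1 hη hμ1) (by positivity)
    _ = _ := by ring

end Pool.Agent.EC
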