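import Pool.Agent.Lib_MP_f1a94e_eck.KDefs2

/-!
# Piece BIJ: characters modulo `D` and primitive characters modulo the divisors of `D`

PROOF. `χ ↦ (χ.conductor, χ.primitiveCharacter)` is a bijection from the characters modulo `D` to the pairs `(r, ψ)`, `r ∣ D`, `ψ` primitive modulo `r`, with inverse `changeLevel`
(`changeLevel_primitiveCharacter`, `primitiveCharacter_isPrimitive`, `conductor_dvd_level`, `conductor_changeLevel`, `changeLevel_injective`), and for `c` prime to `D`
`χ(c) = χ.primitiveCharacter(c)` (`primitiveCharacter_apply_of_isCoprime` or `changeLevel_eq_cast_of_dvd'`). Use `Finset.sum_sigma'` and `Finset.sum_bij'` / `sum_nbij`, or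
`Finset.sum_fiberwise` over the conductor.
-/

set_option autoImplicit false

namespace Pool.Agent.EC

open Finset

theorem bij_mem_prm {r : ℕ} {χ : DirichletCharacter ℂ r} : χ ∈ prm r ↔ χ.IsPrimitive := by
  classical
  unfold prm
  simp

theorem bij_sigma {D : ℕ} [NeZero D] {r1 r2 : ℕ} (h1 : r1 ∣ D) (h2 : r2 ∣ D)
    (ψ1 : DirichletCharacter ℂ r1) (ψ2 : DirichletCharacter ℂ r2) (hr : r1 = r2)
    (he : DirichletCharacter.changeLevel h1 ψ1 = DirichletCharacter.changeLevel h2 ψ2) :
    (⟨r1, ψ1⟩ : (r : ℕ) × DirichletCharacter ℂ r) = ⟨r2, ψ2⟩ := by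
  subst hr
  have h : ψ1 = ψ2 := DirichletCharacter.changeLevel_injective h1 he
  rw [h]

/-- the primitive characters modulo the elements of `s`, as characters modulo `D` -/
noncomputable def bij_up (D : ℕ) (x : (r : ℕ) × DirichletCharacter ℂ r) :
    DirichletCharacter ℂ D :=
  if h : x.1 ∣ D then DirichletCharacter.changeLevel h x.2 else 1

theorem bij_up_of {D : ℕ} {x : (r : ℕ) × DirichletCharacter ℂ r} (h : x.1 ∣ D) :
    bij_up D x = DirichletCharacter.changeLevel h x.2 := by
  unfold bij_up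
  rw [dif_pos h]

theorem bij_down_up {D : ℕ} [NeZero D] {x : (r : ℕ) × DirichletCharacter ℂ r} (h : x.1 ∣ D)
    (hp : x.2.IsPrimitive) :
    (⟨(bij_up D x).conductor, (bij_up D x).primitiveCharacter⟩ :
      (r : ℕ) × DirichletCharacter ℂ r) = x := by
  have hc : (bij_up D x).conductor = x.1 := by
    rw [bij_up_of h, DirichletCharacter.conductor_changeLevel]
    exact hp
  refine bij_sigma (D := D) (DirichletCharacter.conductor_dvd_level _) h _ _ hc ?_
  rw [DirichletCharacter.changeLevel_primitiveCharacter, bij_up_of h]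

theorem bij_up_inj {D : ℕ} [NeZero D] {x y : (r : ℕ) × DirichletCharacter ℂ r} (hx : x.1 ∣ D)
    (hxp : x.2.IsPrimitive) (hy : y.1 ∣ D) (hyp : y.2.IsPrimitive)
    (h : bij_up D x = bij_up D y) : x = y := by
  rw [← bij_down_up hx hxp, ← bij_down_up hy hyp, h]

theorem bij (D : ℕ) (hD : 1 ≤ D) (c : ℕ) (hc : c.Coprime D)
    (G : (r : ℕ) → DirichletCharacter ℂ r → ℂ) :
    ∑ χ : DirichletCharacter ℂ D, χ (c : ZMod D) * G χ.conductor χ.primitiveCharacter =
      ∑ r ∈ D.divisors, ∑ ψ ∈ prm r, ψ (c : ZMod r) * G r ψ := by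
  have hD0 : NeZero D := ⟨by omega⟩
  rw [Finset.sum_sigma']
  refine Finset.sum_bij' (fun χ _ => ⟨χ.conductor, χ.primitiveCharacter⟩)
    (fun x _ => bij_up D x) ?_ ?_ ?_ ?_ ?_
  · intro χ _
    rw [mem_sigma]
    exact ⟨Nat.mem_divisors.2 ⟨DirichletCharacter.conductor_dvd_level χ, hD0.out⟩,
      bij_mem_prm.2 (DirichletCharacter.primitiveCharacter_isPrimitive χ)⟩
  · intro x _
    exact mem_univ _
  · intro χ _
    rw [bij_up_of (DirichletCharacter.conductor_dvd_level χ)]
    exact DirichletCharacter.changeLevel_primitiveCharacter χ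
  · intro x hx
    rw [mem_sigma] at hx
    exact bij_down_up (Nat.mem_divisors.1 hx.1).1 (bij_mem_prm.1 hx.2)
  · intro χ _
    have hco : IsCoprime (c : ℤ) (D : ℤ) := Nat.isCoprime_iff_coprime.2 hc
    have h := DirichletCharacter.primitiveCharacter_apply_of_isCoprime χ hco
    rw [Int.cast_natCast, Int.cast_natCast] at h
    rw [← h]

end Pool.Agent.EC
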