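import Pool.Agent.Lib_MP_f1a94e_eck.KBase

/-!
# Piece BSQ: the square of the character sum

PROOF. `b m = ∑_{x ∈ range N ×ˢ range N, x.1 * x.2 = m} a x.1 * a x.2`, `N = NP P`. First claim: multiplicativity of `χ`, products are `< N^2`. For every `m` the sum has at most two nonzero terms
(`m = p p'` with primes: unique factorisation), so `0 ≤ b m ≤ 2 L^2`, `L = log (2P)` (`a_le`), and `∑_m b m = (tot a P)^2`. So `∑ (b m)^2 ≤ 2 L^2 (tot a P)^2`.
-/

set_option autoImplicit false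

namespace Pool.Agent.EC

open Finset

/-- coefficients of the square -/
noncomputable def bsB (a : ℕ → ℝ) (N m : ℕ) : ℝ :=
  ∑ x ∈ (range N ×ˢ range N).filter (fun x => x.1 * x.2 = m), a x.1 * a x.2

theorem bsB_nonneg {a : ℕ → ℝ} {P δ : ℝ} (h : Wt a P δ) (N m : ℕ) : 0 ≤ bsB a N m :=
  sum_nonneg fun _ _ => mul_nonneg (h.nonneg _) (h.nonneg _)

theorem bsB_le {a : ℕ → ℝ} {P δ : ℝ} (h : Wt a P δ) (hP : 1 ≤ P) (hδ : δ ≤ 1) (N m : ℕ) :
    bsB a N m ≤ 2 * Real.log (2 * P) ^ 2 := by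
  have hL : 0 ≤ Real.log (2 * P) := Real.log_nonneg (by linarith)
  set S := ((range N ×ˢ range N).filter (fun x => x.1 * x.2 = m)).filter
    (fun x => a x.1 * a x.2 ≠ 0) with hS
  have h1 : bsB a N m = ∑ x ∈ S, a x.1 * a x.2 := by
    unfold bsB
    rw [hS, sum_filter_ne_zero]
  have h2 : S.card ≤ 2 := by
    rcases S.eq_empty_or_nonempty with h0 | ⟨y, hy⟩
    · rw [h0]; simp
    · have h3 : S ⊆ {y, (y.2, y.1)} := by
        intro x hx
        obtain ⟨hx1, hx2⟩ := mem_filter.mp hx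
        obtain ⟨hy1, hy2⟩ := mem_filter.mp hy
        have ex := (mem_filter.mp hx1).2
        have ey := (mem_filter.mp hy1).2
        obtain ⟨ax1, ax2⟩ := mul_ne_zero_iff.mp hx2
        obtain ⟨ay1, ay2⟩ := mul_ne_zero_iff.mp hy2
        have px1 := (h.supp _ ax1).1
        have px2 := (h.supp _ ax2).1
        have py1 := (h.supp _ ay1).1
        have py2 := (h.supp _ ay2).1
        have e : x.1 * x.2 = y.1 * y.2 := by rw [ex, ey]
        have hd : x.1 ∣ y.1 * y.2 := ⟨x.2, e.symm⟩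
        rw [mem_insert, mem_singleton]
        rcases (px1.dvd_mul).mp hd with hd | hd
        · left
          have e1 : x.1 = y.1 := (Nat.prime_dvd_prime_iff_eq px1 py1).mp hd
          have e2 : x.2 = y.2 := by
            rw [e1] at e
            exact Nat.eq_of_mul_eq_mul_left py1.pos e
          exact Prod.ext e1 e2
        · right
          have e1 : x.1 = y.2 := (Nat.prime_dvd_prime_iff_eq px1 py2).mp hd
          have e2 : x.2 = y.1 := by
            rw [e1, mul_comm y.1] at e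
            exact Nat.eq_of_mul_eq_mul_left py2.pos e
          exact Prod.ext e1 e2
      exact (card_le_card h3).trans card_le_two
  rw [h1]
  calc ∑ x ∈ S, a x.1 * a x.2 ≤ ∑ x ∈ S, Real.log (2 * P) ^ 2 := by
        refine sum_le_sum fun x _ => ?_
        rw [sq]
        exact mul_le_mul (a_le h hP hδ _) (a_le h hP hδ _) (h.nonneg _) hL
    _ = S.card * Real.log (2 * P) ^ 2 := by rw [sum_const, nsmul_eq_mul]
    _ ≤ 2 * Real.log (2 * P) ^ 2 := by
        have : (S.card : ℝ) ≤ 2 := by exact_mod_cast h2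
        exact mul_le_mul_of_nonneg_right this (by positivity)

theorem bs_maps {N : ℕ} {x : ℕ × ℕ} (hx : x ∈ range N ×ˢ range N) : x.1 * x.2 ∈ range (N ^ 2) := by
  obtain ⟨h1, h2⟩ := mem_product.mp hx
  rw [mem_range] at h1 h2 ⊢
  rw [sq]
  exact Nat.mul_lt_mul'' h1 h2

theorem bsB_sum (a : ℕ → ℝ) (N : ℕ) (f : ℕ → ℂ) :
    ∑ m ∈ range (N ^ 2), (bsB a N m : ℂ) * f m =
      ∑ x ∈ range N ×ˢ range N, (a x.1 : ℂ) * a x.2 * f (x.1 * x.2) := by
  rw [← sum_fiberwise_of_maps_to (s := range N ×ˢ range N) (t := range (N ^ 2))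
    (g := fun x => x.1 * x.2) fun x hx => bs_maps hx]
  refine sum_congr rfl fun m _ => ?_
  unfold bsB
  rw [Complex.ofReal_sum, sum_mul]
  refine sum_congr rfl fun x hx => ?_
  rw [(mem_filter.mp hx).2, Complex.ofReal_mul]

theorem bsB_tot (a : ℕ → ℝ) (P : ℝ) :
    ∑ m ∈ range ((NP P) ^ 2), bsB a (NP P) m = tot a P ^ 2 := by
  have h1 := bsB_sum a (NP P) (fun _ => 1)
  simp only [mul_one] at h1
  have h2 : ∑ x ∈ range (NP P) ×ˢ range (NP P), (a x.1 : ℂ) * a x.2 = (tot a P : ℂ) ^ 2 := by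
    rw [sum_product, sq, tot, Complex.ofReal_sum, sum_mul_sum]
  rw [h2] at h1
  exact_mod_cast h1

theorem bsq {a : ℕ → ℝ} {P δ : ℝ} (h : Wt a P δ) (hP : 1 ≤ P) (hδ : δ ≤ 1) :
    ∃ b : ℕ → ℂ, (∀ (r : ℕ) (χ : DirichletCharacter ℂ r),
        SS a (NP P) χ ^ 2 = ∑ m ∈ range ((NP P) ^ 2), b m * χ (m : ZMod r)) ∧
      ∑ m ∈ range ((NP P) ^ 2), ‖b m‖ ^ 2 ≤ 2 * Real.log (2 * P) ^ 2 * tot a P ^ 2 := by
  refine ⟨fun m => (bsB a (NP P) m : ℂ), ?_, ?_⟩
  · intro r χ
    rw [bsB_sum a (NP P) (fun m => χ (m : ZMod r)), sum_product, sq, SS, sum_mul_sum]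
    refine sum_congr rfl fun x _ => sum_congr rfl fun y _ => ?_
    simp only [Nat.cast_mul, map_mul]
    ring
  · rw [← bsB_tot a P, mul_sum]
    refine sum_le_sum fun m _ => ?_
    rw [Complex.norm_real, Real.norm_eq_abs, sq_abs, sq]
    exact mul_le_mul_of_nonneg_right (bsB_le h hP hδ _ _) (bsB_nonneg h _ _)

end Pool.Agent.EC
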