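import Pool.Agent.Lib_MP_f1a94e_eck.KBase

/-!
# Piece CELLS: a bad pair in a cell pair makes all pairs of the cell pair close to bad

PROOF. Let `D = dt u v`, `D0 = dt u0 v0`, `μ = η √P`, `n ≤ K √P` (`n_le`). `|D - D0| ≤ 4 del3 √P n ≤ 4 K del3 P ≤ η P` (write
`u.1 v.2 - u0.1 v0.2 = (u.1 - u0.1) v.2 + u0.1 (v.2 - v0.2)` etc.), so `D0 > η P` and by `hbad` `Qin P μ n u0 v0` fails. For `i = 1, 2`:
`|P (v.i - u.i)/D - P (v0.i - u0.i)/D0| ≤ P |v.i - u.i| |D0 - D|/(D D0) + (P/D0) |(v.i - u.i) - (v0.i - u0.i)|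
≤ P n (4 K del3 P)/(2 η P * η P) + (1/η) 2 del3 √P ≤ (2 K^2/η^2 + 2/η) del3 √P ≤ 4 K^2 del3 √P/η^2 ≤ μ`.
So `Qin P (2 μ) n u v` would imply `Qin P μ n u0 v0`.
-/

set_option autoImplicit false

namespace Pool.Agent.EC

open Finset

theorem cells_coord {K η P s del3 n A A0 D D0 : ℝ} (hK : 1 ≤ K) (hη : 0 < η) (hη1 : η ≤ 1)
    (hs : 0 < s) (hs2 : s ^ 2 = P) (hn0 : 0 ≤ n) (hn : n ≤ K * s) (h3 : 0 ≤ del3)
    (h3' : del3 ≤ η ^ 3 / (4 * K ^ 2)) (hA : |A| ≤ n) (hAA : |A - A0| ≤ 2 * (del3 * s))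
    (hD : 2 * η * P < D) (hD0 : η * P < D0) (hDD : |D0 - D| ≤ 4 * K * del3 * P) :
    |P * A / D - P * A0 / D0| ≤ η * s := by
  have hP : 0 < P := by rw [← hs2]; positivity
  have hDpos : 0 < D := lt_trans (by positivity) hD
  have hD0pos : 0 < D0 := lt_trans (by positivity) hD0
  have hK0 : 0 < K := by linarith
  have e1 : P * A / D - P * A0 / D0 = P * A * (D0 - D) / (D * D0) + P * (A - A0) / D0 := by
    field_simp
    ring
  have b1 : |P * A * (D0 - D) / (D * D0)| ≤ 2 * K ^ 2 * del3 * s / η ^ 2 := by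
    rw [abs_div, abs_mul, abs_mul, abs_of_pos hP, abs_of_pos (mul_pos hDpos hD0pos),
      div_le_div_iff₀ (mul_pos hDpos hD0pos) (by positivity)]
    have c1 : P * |A| * |D0 - D| ≤ P * (K * s) * (4 * K * del3 * P) :=
      mul_le_mul (mul_le_mul_of_nonneg_left (hA.trans hn) hP.le) hDD (abs_nonneg _) (by positivity)
    have c2 : (2 * η * P) * (η * P) ≤ D * D0 :=
      mul_le_mul hD.le hD0.le (by positivity) hDpos.le
    calc P * |A| * |D0 - D| * η ^ 2 ≤ P * (K * s) * (4 * K * del3 * P) * η ^ 2 :=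
          mul_le_mul_of_nonneg_right c1 (by positivity)
      _ = 2 * K ^ 2 * del3 * s * ((2 * η * P) * (η * P)) := by ring
      _ ≤ 2 * K ^ 2 * del3 * s * (D * D0) := mul_le_mul_of_nonneg_left c2 (by positivity)
  have b2 : |P * (A - A0) / D0| ≤ 2 * del3 * s / η := by
    rw [abs_div, abs_mul, abs_of_pos hP, abs_of_pos hD0pos, div_le_div_iff₀ hD0pos hη]
    calc P * |A - A0| * η ≤ P * (2 * (del3 * s)) * η := by
          apply mul_le_mul_of_nonneg_right _ hη.le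
          exact mul_le_mul_of_nonneg_left hAA hP.le
      _ = 2 * del3 * s * (η * P) := by ring
      _ ≤ 2 * del3 * s * D0 := mul_le_mul_of_nonneg_left hD0.le (by positivity)
  have b3 : 2 * del3 * s / η ≤ 2 * K ^ 2 * del3 * s / η ^ 2 := by
    rw [div_le_div_iff₀ hη (by positivity)]
    have c1 : η ^ 2 ≤ K ^ 2 * η := by
      rw [sq η]
      have c0 : (1 : ℝ) ≤ K ^ 2 := by nlinarith
      exact mul_le_mul_of_nonneg_right (hη1.trans c0) hη.le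
    calc 2 * del3 * s * η ^ 2 ≤ 2 * del3 * s * (K ^ 2 * η) :=
          mul_le_mul_of_nonneg_left c1 (by positivity)
      _ = 2 * K ^ 2 * del3 * s * η := by ring
  have b4 : 2 * K ^ 2 * del3 * s / η ^ 2 + 2 * K ^ 2 * del3 * s / η ^ 2 ≤ η * s := by
    rw [← add_div, div_le_iff₀ (by positivity)]
    have c1 : del3 * (4 * K ^ 2) ≤ η ^ 3 := by
      rwa [le_div_iff₀ (by positivity)] at h3'
    calc 2 * K ^ 2 * del3 * s + 2 * K ^ 2 * del3 * s = del3 * (4 * K ^ 2) * s := by ring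
      _ ≤ η ^ 3 * s := mul_le_mul_of_nonneg_right c1 hs.le
      _ = η * s * η ^ 2 := by ring
  rw [e1]
  calc _ ≤ |P * A * (D0 - D) / (D * D0)| + |P * (A - A0) / D0| := abs_add_le _ _
    _ ≤ _ := by linarith

theorem cells {K η P del3 : ℝ} (hK : 1 ≤ K) (hη : 0 < η) (hη1 : η ≤ 1) (hP : 1 ≤ P) {n : ℕ}
    (hn : (n : ℝ) ^ 2 ≤ K ^ 2 * P) (h3 : 0 ≤ del3) (h3' : del3 ≤ η ^ 3 / (4 * K ^ 2))
    {u v u0 v0 : ℤ × ℤ} (hu : u ∈ Bx n) (hv : v ∈ Bx n) (hu0 : u0 ∈ Bx n) (hv0 : v0 ∈ Bx n)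
    (huu : |((u.1 - u0.1 : ℤ) : ℝ)| ≤ del3 * √P ∧ |((u.2 - u0.2 : ℤ) : ℝ)| ≤ del3 * √P)
    (hvv : |((v.1 - v0.1 : ℤ) : ℝ)| ≤ del3 * √P ∧ |((v.2 - v0.2 : ℤ) : ℝ)| ≤ del3 * √P)
    (hdt : 2 * η * P < (dt u v : ℝ))
    (hbad : ¬ (η * P < (dt u0 v0 : ℝ) ∧ Qin P (η * √P) n u0 v0)) :
    ¬ Qin P (2 * (η * √P)) n u v := by
  have hP0 : 0 < P := by linarith
  have hnK : (n : ℝ) ≤ K * √P := n_le hK hn hP0.le
  set s := √P with hs
  have hs0 : 0 < s := Real.sqrt_pos.mpr hP0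
  have hs2 : s ^ 2 = P := Real.sq_sqrt hP0.le
  have hK0 : 0 < K := by linarith
  rw [mem_Bx] at hu hv hu0 hv0
  have cst : ∀ x : ℤ, 0 ≤ x ∧ x ≤ (n : ℤ) → (0 : ℝ) ≤ (x : ℝ) ∧ (x : ℝ) ≤ (n : ℝ) := by
    intro x hx
    exact ⟨by exact_mod_cast hx.1, by exact_mod_cast hx.2⟩
  have u1 := cst _ hu.1
  have u2 := cst _ hu.2
  have v1 := cst _ hv.1
  have v2 := cst _ hv.2
  have w1 := cst _ hu0.1
  have w2 := cst _ hu0.2
  have x1 := cst _ hv0.1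
  have x2 := cst _ hv0.2
  push_cast at huu hvv
  obtain ⟨a1, a2⟩ := huu
  obtain ⟨b1, b2⟩ := hvv
  have hn0 : (0 : ℝ) ≤ n := Nat.cast_nonneg n
  have hd0 : 0 ≤ del3 * s := by positivity
  have hmul : ∀ x y : ℝ, |x| ≤ del3 * s → 0 ≤ y → y ≤ n → |x * y| ≤ del3 * s * n := by
    intro x y hx hy hy'
    rw [abs_mul, abs_of_nonneg hy]
    exact mul_le_mul hx hy' hy hd0
  have hDD : |(dt u0 v0 : ℝ) - (dt u v : ℝ)| ≤ 4 * K * del3 * P := by
    have e : (dt u0 v0 : ℝ) - (dt u v : ℝ) =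
        -(((u.1 : ℝ) - u0.1) * v.2) - (((v.2 : ℝ) - v0.2) * u0.1) +
        (((u.2 : ℝ) - u0.2) * v.1) + (((v.1 : ℝ) - v0.1) * u0.2) := by
      unfold dt
      push_cast
      ring
    have c1 := abs_le.mp (hmul _ _ a1 v2.1 v2.2)
    have c2 := abs_le.mp (hmul _ _ b2 w1.1 w1.2)
    have c3 := abs_le.mp (hmul _ _ a2 v1.1 v1.2)
    have c4 := abs_le.mp (hmul _ _ b1 w2.1 w2.2)
    have c5 : 4 * (del3 * s * n) ≤ 4 * K * del3 * P := by
      calc 4 * (del3 * s * n) ≤ 4 * (del3 * s * (K * s)) := by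
            have := mul_le_mul_of_nonneg_left hnK hd0
            linarith
        _ = 4 * K * del3 * s ^ 2 := by ring
        _ = _ := by rw [hs2]
    rw [e, abs_le]
    constructor <;> linarith [c1.1, c1.2, c2.1, c2.2, c3.1, c3.2, c4.1, c4.2]
  have hsm : 4 * K * del3 * P ≤ η * P := by
    apply mul_le_mul_of_nonneg_right _ hP0.le
    have c1 : del3 * (4 * K ^ 2) ≤ η ^ 3 := by
      rwa [le_div_iff₀ (by positivity)] at h3'
    have c2 : 4 * K * del3 ≤ del3 * (4 * K ^ 2) := by nlinarith [mul_nonneg h3 hK0.le]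
    have c3 : η ^ 3 ≤ η := by
      calc η ^ 3 = η * (η * η) := by ring
        _ ≤ η * 1 := by
          apply mul_le_mul_of_nonneg_left _ hη.le
          nlinarith
        _ = η := mul_one η
    linarith
  have hD0 : η * P < (dt u0 v0 : ℝ) := by
    have := (abs_le.mp hDD).1
    linarith
  have hnq : ¬ Qin P (η * s) n u0 v0 := fun h => hbad ⟨hD0, h⟩
  intro hq
  apply hnq
  have hA1 : |(((v.1 - u.1 : ℤ) : ℝ))| ≤ n := by
    push_cast
    rw [abs_le]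
    constructor <;> linarith
  have hA2 : |(((v.2 - u.2 : ℤ) : ℝ))| ≤ n := by
    push_cast
    rw [abs_le]
    constructor <;> linarith
  have hAA1 : |((v.1 - u.1 : ℤ) : ℝ) - ((v0.1 - u0.1 : ℤ) : ℝ)| ≤ 2 * (del3 * s) := by
    push_cast
    have c1 := abs_le.mp a1
    have c2 := abs_le.mp b1
    rw [abs_le]
    constructor <;> linarith [c1.1, c1.2, c2.1, c2.2]
  have hAA2 : |((v.2 - u.2 : ℤ) : ℝ) - ((v0.2 - u0.2 : ℤ) : ℝ)| ≤ 2 * (del3 * s) := by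
    push_cast
    have c1 := abs_le.mp a2
    have c2 := abs_le.mp b2
    rw [abs_le]
    constructor <;> linarith [c1.1, c1.2, c2.1, c2.2]
  have r1 := abs_le.mp (cells_coord hK hη hη1 hs0 hs2 hn0 hnK h3 h3' hA1 hAA1 hdt hD0 hDD)
  have r2 := abs_le.mp (cells_coord hK hη hη1 hs0 hs2 hn0 hnK h3 h3' hA2 hAA2 hdt hD0 hDD)
  unfold Qin at hq ⊢
  obtain ⟨⟨q1, q2⟩, q3, q4⟩ := hq
  refine ⟨⟨?_, ?_⟩, ?_, ?_⟩
  · linarith [r1.1, r1.2]
  · linarith [r1.1, r1.2]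
  · linarith [r2.1, r2.2]
  · linarith [r2.1, r2.2]

end Pool.Agent.EC
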