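import Mathlib

/-!
# Piece UNI: sums of a unimodal function over multiples of `g`

PROOF. Let `V = ∑_{b ≤ n} |f (b+1) - f b| ≤ 2 M`: a quasiconcave nonnegative function is nondecreasing up to a maximum point `b0 ∈ [0, n]` and
nonincreasing after it (`hq` with one of the three points equal to `b0`), so `V ≤ (f b0 - f 0) + (f b0 - 0) ≤ 2 M`.
For a block `[j g, (j+1) g)`: `|g f(j g) - ∑_{i<g} f (j g + i)| ≤ ∑_{i<g} |f (j g) - f (j g + i)| ≤ g * ∑_{b in the block} |f (b+1) - f b|`.
Sum over all blocks with `j g ≤ n` (`f = 0` beyond `n`).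
-/

set_option autoImplicit false

namespace Pool.Agent.EC

open Finset

/-- variation up to `b` -/
noncomputable def uniV (f : ℕ → ℝ) (b : ℕ) : ℝ := ∑ i ∈ range b, |f (i + 1) - f i|

theorem uni_V_succ (f : ℕ → ℝ) (b : ℕ) : uniV f (b + 1) = uniV f b + |f (b + 1) - f b| := by
  unfold uniV
  rw [sum_range_succ]

theorem uni_V_mono (f : ℕ → ℝ) {x y : ℕ} (h : x ≤ y) : uniV f x ≤ uniV f y := by
  unfold uniV
  exact sum_le_sum_of_subset_of_nonneg (range_subset_range.2 h) (fun i _ _ => abs_nonneg _)

theorem uni_V_diff (f : ℕ → ℝ) (x i : ℕ) : |f x - f (x + i)| ≤ uniV f (x + i) - uniV f x := by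
  induction i with
  | zero => simp
  | succ i ih =>
    rw [← add_assoc, uni_V_succ]
    calc |f x - f (x + i + 1)| = |(f x - f (x + i)) + (f (x + i) - f (x + i + 1))| := by
          congr 1; ring
      _ ≤ |f x - f (x + i)| + |f (x + i) - f (x + i + 1)| := abs_add_le _ _
      _ = |f x - f (x + i)| + |f (x + i + 1) - f (x + i)| := by rw [abs_sub_comm (f (x + i))]
      _ ≤ uniV f (x + i) + |f (x + i + 1) - f (x + i)| - uniV f x := by linarith

theorem uni_block (g : ℕ) (f : ℕ → ℝ) (J : ℕ) :
    |g * ∑ j ∈ range J, f (g * j) - ∑ b ∈ range (g * J), f b| ≤ g * uniV f (g * J) := by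
  induction J with
  | zero => simp [uniV]
  | succ J ih =>
    have h1 : ∑ b ∈ range (g * (J + 1)), f b =
        ∑ b ∈ range (g * J), f b + ∑ i ∈ range g, f (g * J + i) := by
      rw [mul_add, mul_one, sum_range_add]
    have h2 : |(g : ℝ) * f (g * J) - ∑ i ∈ range g, f (g * J + i)| ≤
        g * (uniV f (g * (J + 1)) - uniV f (g * J)) := by
      have e1 : (g : ℝ) * f (g * J) - ∑ i ∈ range g, f (g * J + i) =
          ∑ i ∈ range g, (f (g * J) - f (g * J + i)) := by
        rw [sum_sub_distrib, sum_const, card_range, nsmul_eq_mul]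
      rw [e1]
      calc |∑ i ∈ range g, (f (g * J) - f (g * J + i))|
          ≤ ∑ i ∈ range g, |f (g * J) - f (g * J + i)| := abs_sum_le_sum_abs _ _
        _ ≤ ∑ _i ∈ range g, (uniV f (g * (J + 1)) - uniV f (g * J)) := by
            refine sum_le_sum (fun i hi => (uni_V_diff f _ i).trans ?_)
            have h3 : uniV f (g * J + i) ≤ uniV f (g * (J + 1)) := by
              apply uni_V_mono
              rw [mul_add, mul_one]
              exact Nat.add_le_add_left (mem_range.1 hi).le _
            linarith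
        _ = g * (uniV f (g * (J + 1)) - uniV f (g * J)) := by
            rw [sum_const, card_range, nsmul_eq_mul]
    rw [h1, sum_range_succ]
    calc |(g : ℝ) * (∑ j ∈ range J, f (g * j) + f (g * J)) -
          (∑ b ∈ range (g * J), f b + ∑ i ∈ range g, f (g * J + i))|
        = |((g : ℝ) * ∑ j ∈ range J, f (g * j) - ∑ b ∈ range (g * J), f b) +
            ((g : ℝ) * f (g * J) - ∑ i ∈ range g, f (g * J + i))| := by congr 1; ring
      _ ≤ g * uniV f (g * J) + g * (uniV f (g * (J + 1)) - uniV f (g * J)) :=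
          (abs_add_le _ _).trans (add_le_add ih h2)
      _ = g * uniV f (g * (J + 1)) := by ring

theorem uni (n g : ℕ) (hg : 0 < g) (f : ℕ → ℝ) (M : ℝ) (h0 : ∀ b, 0 ≤ f b) (hM : ∀ b, f b ≤ M)
    (hq : ∀ b b' b'', b ≤ b' → b' ≤ b'' → min (f b) (f b'') ≤ f b') (hn : ∀ b, n < b → f b = 0) :
    |g * ∑ b ∈ (range (n + 1)).filter (g ∣ ·), f b - ∑ b ∈ range (n + 1), f b| ≤ 2 * g * M := by
  obtain ⟨b0, hb0, hmax'⟩ := exists_max_image (range (n + 1)) f ⟨0, by simp⟩
  have hmax : ∀ b, f b ≤ f b0 := by
    intro b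
    by_cases hb : b ≤ n
    · exact hmax' b (by simp; omega)
    · rw [hn b (by omega)]
      exact h0 b0
  have hinc : ∀ b, b + 1 ≤ b0 → f b ≤ f (b + 1) := by
    intro b hb
    have h1 := hq b (b + 1) b0 (by omega) hb
    rwa [min_eq_left (hmax b)] at h1
  have hdec : ∀ b, b0 ≤ b → f (b + 1) ≤ f b := by
    intro b hb
    have h1 := hq b0 b (b + 1) hb (by omega)
    rwa [min_eq_right (hmax (b + 1))] at h1
  have hV1 : ∀ b, b ≤ b0 → uniV f b = f b - f 0 := by
    intro b
    induction b with
    | zero => intro _; simp [uniV]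
    | succ b ih =>
      intro hb
      rw [uni_V_succ, ih (by omega), abs_of_nonneg (by linarith [hinc b hb])]
      ring
  have hV2 : ∀ i, uniV f (b0 + i) = 2 * f b0 - f 0 - f (b0 + i) := by
    intro i
    induction i with
    | zero => rw [add_zero, hV1 b0 le_rfl]; ring
    | succ i ih =>
      rw [← add_assoc, uni_V_succ, ih, abs_of_nonpos (by linarith [hdec (b0 + i) (by omega)])]
      ring
  have hV : ∀ b, uniV f b ≤ 2 * M := by
    intro b
    have hM0 := hM b0
    have h00 := h0 0
    rcases le_total b b0 with hb | hb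
    · rw [hV1 b hb]
      linarith [hM b, h0 b, h0 b0]
    · obtain ⟨i, rfl⟩ := Nat.exists_eq_add_of_le hb
      rw [hV2 i]
      linarith [h0 (b0 + i)]
  set J := n / g + 1 with hJ
  have hJn : n < g * J := by
    rw [hJ, mul_add, mul_one]
    exact Nat.lt_mul_div_succ n hg
  have e1 : ∑ b ∈ (range (n + 1)).filter (g ∣ ·), f b = ∑ j ∈ range J, f (g * j) := by
    have h1 : (range (n + 1)).filter (g ∣ ·) = (range J).image (fun j => g * j) := by
      ext b
      simp only [mem_filter, mem_range, mem_image]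
      constructor
      · rintro ⟨h1, j, rfl⟩
        refine ⟨j, ?_, rfl⟩
        rw [hJ]
        have : j ≤ n / g := (Nat.le_div_iff_mul_le hg).2 (by rw [mul_comm]; omega)
        omega
      · rintro ⟨j, hj, rfl⟩
        refine ⟨?_, dvd_mul_right g j⟩
        have h2 : j ≤ n / g := by omega
        have h3 := (Nat.le_div_iff_mul_le hg).1 h2
        rw [mul_comm] at h3
        omega
    rw [h1, sum_image]
    intro x _ y _ hxy
    exact Nat.eq_of_mul_eq_mul_left hg hxy
  have e2 : ∑ b ∈ range (n + 1), f b = ∑ b ∈ range (g * J), f b := by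
    refine sum_subset (range_subset_range.2 (by omega)) (fun b _ hb => hn b ?_)
    rw [mem_range] at hb
    omega
  rw [e1, e2]
  refine (uni_block g f J).trans ?_
  calc (g : ℝ) * uniV f (g * J) ≤ g * (2 * M) :=
        mul_le_mul_of_nonneg_left (hV _) (Nat.cast_nonneg g)
    _ = 2 * g * M := by ring

end Pool.Agent.EC
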