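import Pool.Agent.Lib_MP_f1a94e_eck.KBase
import Pool.Agent.Lib_MP_f1a94e_eck.Uni

/-!
# Piece LATT: lattice points with a divisibility condition in a parallelogram

PROOF. Write `α = A2 - A1`, `β = dt x w > 0`. If `w.2 = 0` then `dt u w = - u.2 w.1 ≤ 0 < A1`, the set is empty; take `X = 0`. Let `w.2 > 0`.
Row `b` (`u.2 = b`, `0 ≤ b ≤ n`): the real numbers `t ∈ [0, n]` with `A1 ≤ t w.2 - b w.1 ≤ A2` and `|t x.2 - b x.1| ≤ B` form a closed interval
(possibly empty) `[L b, R b]`; let `f b = max 0 (R b - L b)` for `b ≤ n` and `0` for `b > n` (if `x.2 = 0` the second condition is `b x.1 ≤ B`, a condition on `b`).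
`f b ≤ n`, and `f` is quasiconcave (the region is convex: if the rows `b, b''` contain intervals of length `t` so does any row between them).
Let `X = ∑_{b ≤ n} f b`.
Divisibility: let `g = gcd(w.2, d)`; `w` is primitive, so `d ∣ t w.2 - b w.1` has a solution `t` iff `g ∣ b`, and then the solutions `t` are one residue
class modulo `d / g`. So row `b` with `g ∣ b` contains `f b / (d/g) + θ`, `|θ| ≤ 1`, points; other rows none. Total:
`(g/d) ∑_{g ∣ b ≤ n} f b + θ'`, `|θ'| ≤ n + 1`, and by `uni` (`M = n`) this is `X/d + θ''`, `|θ''| ≤ n + 1 + 2 n` (`g ≤ d`).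
Bound for `X`: with `t = dt u w`, `s = dt u x` one has `b β = t x.2 - s w.2`, so the rows with `f b > 0` have `b` in an interval of length
`(α x.2 + 2 B w.2)/β`; there are at most `(α x.2 + 2 B w.2)/β + 1` of them, and `f b ≤ min (α / w.2, 2 B / x.2, n)` (second entry only if `x.2 > 0`). Hence
`X ≤ (α x.2/β)(2 B/x.2) + (2 B w.2/β)(α/w.2) + n = 4 α B/β + n`.
-/

set_option autoImplicit false

namespace Pool.Agent.EC

open Finset

theorem latt_cnt (L R : ℝ) (hLR : L ≤ R) (m : ℕ) (hm : 0 < m) (r : ℤ) (S : Finset ℤ)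
    (hS : ∀ t : ℤ, t ∈ S ↔ (L ≤ (t : ℝ) ∧ (t : ℝ) ≤ R ∧ (m : ℤ) ∣ t - r)) :
    |(S.card : ℝ) - (R - L) / m| ≤ 1 := by
  have hm' : (0 : ℝ) < m := by exact_mod_cast hm
  set α : ℝ := (L - r) / m with hα
  set β : ℝ := (R - r) / m with hβ
  have hαβ : α ≤ β := by
    rw [hα, hβ]
    exact div_le_div_of_nonneg_right (by linarith) hm'.le
  have hdiff : (R - L) / m = β - α := by
    rw [hα, hβ]; field_simp; ring
  have hSeq : S = (Icc ⌈α⌉ ⌊β⌋).image (fun k : ℤ => r + m * k) := by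
    ext t
    rw [hS, mem_image]
    constructor
    · rintro ⟨h1, h2, k, hk⟩
      refine ⟨k, ?_, by linarith⟩
      have ht : (t : ℝ) = r + m * k := by
        have : t = r + m * k := by linarith
        rw [this]; push_cast; ring
      rw [mem_Icc, Int.ceil_le, Int.le_floor, hα, hβ, div_le_iff₀ hm', le_div_iff₀ hm']
      constructor <;> nlinarith
    · rintro ⟨k, hk, rfl⟩
      rw [mem_Icc, Int.ceil_le, Int.le_floor, hα, hβ, div_le_iff₀ hm', le_div_iff₀ hm'] at hk
      refine ⟨?_, ?_, ?_⟩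
      · push_cast; nlinarith [hk.1]
      · push_cast; nlinarith [hk.2]
      · exact ⟨k, by ring⟩
  have hcard : S.card = (⌊β⌋ + 1 - ⌈α⌉).toNat := by
    rw [hSeq, card_image_of_injective, Int.card_Icc]
    intro k k' hk
    have h1 : (m : ℤ) * k = m * k' := by
      have := hk
      simp only at this
      linarith
    have hm0 : (m : ℤ) ≠ 0 := by exact_mod_cast hm.ne'
    exact mul_left_cancel₀ hm0 h1
  have h1 := Int.ceil_lt_add_one α
  have h2 := Int.le_ceil α
  have h3 := Int.floor_le β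
  have h4 := Int.lt_floor_add_one β
  have h5 : ⌈α⌉ ≤ ⌊β⌋ + 1 := by
    have : (⌈α⌉ : ℝ) < ⌊β⌋ + 2 := by linarith
    have h6 : ⌈α⌉ < ⌊β⌋ + 2 := by exact_mod_cast this
    omega
  have h6 : (S.card : ℝ) = ⌊β⌋ + 1 - ⌈α⌉ := by
    rw [hcard]
    have h7 : (((⌊β⌋ + 1 - ⌈α⌉).toNat : ℕ) : ℤ) = ⌊β⌋ + 1 - ⌈α⌉ := Int.toNat_of_nonneg (by omega)
    have h8 : ((((⌊β⌋ + 1 - ⌈α⌉).toNat : ℕ) : ℤ) : ℝ) = ((⌊β⌋ + 1 - ⌈α⌉ : ℤ) : ℝ) := by rw [h7]
    push_cast at h8
    simpa using h8
  rw [h6, hdiff, abs_le]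
  constructor <;> linarith

theorem latt_card_le (S : Finset ℕ) (lo hi : ℝ) (hlh : lo ≤ hi)
    (h : ∀ b ∈ S, lo ≤ (b : ℝ) ∧ (b : ℝ) ≤ hi) : (S.card : ℝ) ≤ hi - lo + 1 := by
  rcases S.eq_empty_or_nonempty with hS | hS
  · subst hS; simp; linarith
  · have h1 : S ⊆ Icc (S.min' hS) (S.max' hS) := by
      intro b hb
      rw [mem_Icc]
      exact ⟨min'_le S b hb, le_max' S b hb⟩
    have h2 := card_le_card h1
    rw [Nat.card_Icc] at h2
    have h3 := h _ (min'_mem S hS)
    have h4 := h _ (max'_mem S hS)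
    have h5 : S.min' hS ≤ S.max' hS := min'_le S _ (max'_mem S hS)
    have h6 : (S.card : ℝ) ≤ ((S.max' hS + 1 - S.min' hS : ℕ) : ℝ) := by exact_mod_cast h2
    rw [Nat.cast_sub (by omega)] at h6
    push_cast at h6
    linarith

theorem latt_div (w1 w2 : ℤ) (hco : IsCoprime w1 w2) (d : ℕ) (hd : 0 < d) (b : ℤ) :
    (¬ ((Int.gcd w2 d : ℕ) : ℤ) ∣ b → ∀ t : ℤ, ¬ (d : ℤ) ∣ t * w2 - b * w1) ∧
    (((Int.gcd w2 d : ℕ) : ℤ) ∣ b → ∃ t0 : ℤ, ∀ t : ℤ, (d : ℤ) ∣ t * w2 - b * w1 ↔
      ((d / Int.gcd w2 d : ℕ) : ℤ) ∣ t - t0) := by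
  set g := Int.gcd w2 d with hg
  have hg0 : 0 < g := Int.gcd_pos_of_ne_zero_right _ (by exact_mod_cast hd.ne')
  have hgw : (g : ℤ) ∣ w2 := Int.gcd_dvd_left ..
  have hgd : (g : ℤ) ∣ (d : ℤ) := Int.gcd_dvd_right ..
  have hgd' : g ∣ d := by exact_mod_cast hgd
  constructor
  · intro hb t ht
    apply hb
    have h1 : (g : ℤ) ∣ t * w2 - b * w1 := hgd.trans ht
    have h2 : (g : ℤ) ∣ b * w1 := by
      have h3 : (g : ℤ) ∣ t * w2 := Dvd.dvd.mul_left hgw _
      have h4 := dvd_sub h3 h1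
      simpa using h4
    have h5 : IsCoprime (g : ℤ) w1 := (hco.symm).of_isCoprime_of_dvd_left hgw
    exact h5.dvd_of_dvd_mul_right h2
  · rintro ⟨c, hc⟩
    obtain ⟨w2', hw2'⟩ := hgw
    obtain ⟨d', hd'⟩ := hgd'
    have hd'0 : d / g = d' := by rw [hd']; exact Nat.mul_div_cancel_left _ hg0
    obtain ⟨p, q, hbez⟩ : ∃ p q : ℤ, (g : ℤ) = w2 * p + d * q := ⟨_, _, Int.gcd_eq_gcd_ab w2 d⟩
    refine ⟨p * (c * w1), fun t => ?_⟩
    rw [hd'0]
    have hgz : (g : ℤ) ≠ 0 := by exact_mod_cast hg0.ne'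
    have hdz : (d : ℤ) = g * d' := by exact_mod_cast hd'
    have hb' : w2' * p + d' * q = 1 := by
      have : (g : ℤ) * (w2' * p + d' * q) = g * 1 := by
        calc (g : ℤ) * (w2' * p + d' * q)
            = (g * w2') * p + (g * d') * q := by ring
          _ = w2 * p + d * q := by rw [← hw2', ← hdz]
          _ = g * 1 := by rw [← hbez]; ring
      exact mul_left_cancel₀ hgz this
    have hco2 : IsCoprime (d' : ℤ) w2' := ⟨q, p, by linarith⟩
    have key : t * w2 - b * w1 = g * ((t - p * (c * w1)) * w2' - d' * (q * (c * w1))) := by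
      have h1 : c * w1 = (w2' * p + d' * q) * (c * w1) := by
        rw [hb']; ring
      calc t * w2 - b * w1 = t * (g * w2') - (g * c) * w1 := by rw [← hw2', ← hc]
        _ = g * (t * w2' - c * w1) := by ring
        _ = g * (t * w2' - (w2' * p + d' * q) * (c * w1)) := by rw [← h1]
        _ = _ := by ring
    rw [key, hdz]
    constructor
    · intro h
      have h1 := (mul_dvd_mul_iff_left hgz).mp h
      have h2 : (d' : ℤ) ∣ (t - p * (c * w1)) * w2' := by
        have h3 : (d' : ℤ) ∣ d' * (q * (c * w1)) := Dvd.intro _ rfl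
        have h4 := dvd_add h1 h3
        simpa using h4
      exact hco2.dvd_of_dvd_mul_right h2
    · intro h
      refine mul_dvd_mul_left _ (dvd_sub (Dvd.dvd.mul_right h _) (Dvd.intro _ rfl))

open Classical in
theorem latt {n : ℕ} {x w : ℤ × ℤ} (hx : x ∈ Bx n) (hw : w ∈ Bx n) (hpw : Pv w) {A1 A2 B : ℝ}
    (hA : 0 < A1) (hA2 : A1 ≤ A2) (hB : 0 ≤ B) (hdt : 0 < dt x w) :
    ∃ X : ℝ, 0 ≤ X ∧ X ≤ 4 * (A2 - A1) * B / (dt x w : ℝ) + n ∧ ∀ d : ℕ, 0 < d →
      |(((Bx n).filter fun u => (d : ℤ) ∣ dt u w ∧ A1 ≤ (dt u w : ℝ) ∧ (dt u w : ℝ) ≤ A2 ∧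
        |(dt u x : ℝ)| ≤ B).card : ℝ) - X / d| ≤ 6 * (n + 1) := by
  obtain ⟨x1, x2⟩ := x
  obtain ⟨w1, w2⟩ := w
  rw [mem_Bx] at hx hw
  simp only at hx hw
  obtain ⟨⟨hx1, hx1n⟩, hx2, hx2n⟩ := hx
  obtain ⟨⟨hw1, hw1n⟩, hw2, hw2n⟩ := hw
  have hβ : (0 : ℝ) < (dt (x1, x2) (w1, w2) : ℝ) := by exact_mod_cast hdt
  rcases eq_or_lt_of_le hw2 with hw20 | hw2pos
  · -- w2 = 0
    refine ⟨0, le_rfl, ?_, fun d hd => ?_⟩
    · have : 0 ≤ 4 * (A2 - A1) * B / (dt (x1, x2) (w1, w2) : ℝ) :=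
        div_nonneg (mul_nonneg (by linarith) hB) hβ.le
      have hn : (0 : ℝ) ≤ n := Nat.cast_nonneg n
      linarith
    · have hem : ((Bx n).filter fun u => (d : ℤ) ∣ dt u (w1, w2) ∧ A1 ≤ (dt u (w1, w2) : ℝ) ∧
          (dt u (w1, w2) : ℝ) ≤ A2 ∧ |(dt u (x1, x2) : ℝ)| ≤ B) = ∅ := by
        rw [filter_eq_empty_iff]
        rintro ⟨t, b⟩ hu ⟨-, h2, -⟩
        rw [mem_Bx] at hu
        simp only at hu
        have h3 : dt (t, b) (w1, w2) ≤ 0 := by
          unfold dt
          simp only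
          rw [← hw20]
          nlinarith [mul_nonneg hu.2.1 hw1]
        have h4 : (dt (t, b) (w1, w2) : ℝ) ≤ 0 := by exact_mod_cast h3
        linarith
      rw [hem]
      simp
      positivity
  -- w2 > 0
  have hw2R : (0 : ℝ) < (w2 : ℝ) := by exact_mod_cast hw2pos
  have hx2R : (0 : ℝ) ≤ (x2 : ℝ) := by exact_mod_cast hx2
  have hx1R : (0 : ℝ) ≤ (x1 : ℝ) := by exact_mod_cast hx1
  have hw1R : (0 : ℝ) ≤ (w1 : ℝ) := by exact_mod_cast hw1
  have hnR : (0 : ℝ) ≤ n := Nat.cast_nonneg n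
  have hβeq : (dt (x1, x2) (w1, w2) : ℝ) = x1 * w2 - x2 * w1 := by
    unfold dt; push_cast; ring
  -- the region
  set C : ℝ → ℝ → Prop := fun t b => (0 ≤ t ∧ t ≤ n) ∧ (A1 ≤ t * w2 - b * w1 ∧ t * w2 - b * w1 ≤ A2) ∧
    (-B ≤ t * x2 - b * x1 ∧ t * x2 - b * x1 ≤ B) with hC
  -- the ends of the rows
  obtain ⟨L, R, hLR⟩ : ∃ L R : ℕ → ℝ, ∀ (b : ℕ) (t : ℝ), C t b ↔ L b ≤ t ∧ t ≤ R b := by
    refine ⟨fun b => max 0 (max ((A1 + b * w1) / w2) (if x2 = 0 then (if (b : ℝ) * x1 ≤ B then 0 else n + 1)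
      else ((b : ℝ) * x1 - B) / x2)), fun b => min n (min ((A2 + b * w1) / w2) (if x2 = 0 then n
      else ((b : ℝ) * x1 + B) / x2)), fun b t => ?_⟩
    have hb : (0 : ℝ) ≤ b := Nat.cast_nonneg b
    simp only [hC, max_le_iff, le_min_iff]
    rw [div_le_iff₀ hw2R, le_div_iff₀ hw2R]
    rcases eq_or_lt_of_le hx2 with h0 | h0
    · have h0' : x2 = 0 := h0.symm
      have h0R : (x2 : ℝ) = 0 := by exact_mod_cast h0'
      rw [if_pos h0', if_pos h0', h0R]
      by_cases hbB : (b : ℝ) * x1 ≤ B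
      · rw [if_pos hbB]
        constructor
        · rintro ⟨⟨h1, h2⟩, ⟨h3, h4⟩, h5, h6⟩
          exact ⟨⟨h1, by linarith, h1⟩, h2, by linarith, h2⟩
        · rintro ⟨⟨h1, h2, h3⟩, h4, h5, h6⟩
          refine ⟨⟨h1, h4⟩, ⟨by linarith, by linarith⟩, ?_, ?_⟩
          · linarith
          · have : 0 ≤ (b : ℝ) * x1 := mul_nonneg hb hx1R
            linarith
      · rw [if_neg hbB]
        constructor
        · rintro ⟨⟨h1, h2⟩, ⟨h3, h4⟩, h5, h6⟩
          exfalso
          apply hbB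
          linarith
        · rintro ⟨⟨h1, h2, h3⟩, h4, h5, h6⟩
          exfalso
          linarith
    · have h0' : x2 ≠ 0 := h0.ne'
      have h0R : (0 : ℝ) < (x2 : ℝ) := by exact_mod_cast h0
      rw [if_neg h0', if_neg h0', div_le_iff₀ h0R, le_div_iff₀ h0R]
      constructor
      · rintro ⟨⟨h1, h2⟩, ⟨h3, h4⟩, h5, h6⟩
        exact ⟨⟨h1, by linarith, by linarith⟩, h2, by linarith, by linarith⟩
      · rintro ⟨⟨h1, h2, h3⟩, h4, h5, h6⟩
        exact ⟨⟨h1, h4⟩, ⟨by linarith, by linarith⟩, by linarith, by linarith⟩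
  set f : ℕ → ℝ := fun b => if b ≤ n then max 0 (R b - L b) else 0 with hf
  have hf0 : ∀ b, 0 ≤ f b := by
    intro b
    simp only [hf]
    split_ifs
    · exact le_max_left _ _
    · exact le_rfl
  have hfn : ∀ b, n < b → f b = 0 := by
    intro b hb
    simp only [hf]
    rw [if_neg (by omega)]
  -- positive values
  have hfpos : ∀ b, 0 < f b → b ≤ n ∧ f b = R b - L b ∧ C (L b) b ∧ C (R b) b := by
    intro b hb
    have h1 : b ≤ n := by
      by_contra h
      rw [hfn b (by omega)] at hb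
      exact lt_irrefl _ hb
    have h2 : f b = max 0 (R b - L b) := by simp only [hf]; rw [if_pos h1]
    have h3 : 0 < R b - L b := by
      rw [h2] at hb
      rcases lt_max_iff.mp hb with h | h
      · exact absurd h (lt_irrefl _)
      · exact h
    refine ⟨h1, by rw [h2, max_eq_right h3.le], ?_, ?_⟩
    · rw [hLR]; exact ⟨le_rfl, by linarith⟩
    · rw [hLR]; exact ⟨by linarith, le_rfl⟩
  have hfge : ∀ (b : ℕ) (s l : ℝ), b ≤ n → C l b → C (l + s) b → s ≤ f b := by
    intro b s l hb h1 h2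
    rw [hLR] at h1 h2
    have h3 : f b = max 0 (R b - L b) := by simp only [hf]; rw [if_pos hb]
    rw [h3]
    exact le_trans (by linarith) (le_max_right _ _)
  have hfM : ∀ b, f b ≤ n := by
    intro b
    rcases eq_or_lt_of_le (hf0 b) with h | h
    · rw [← h]; exact hnR
    · obtain ⟨h1, h2, h3, h4⟩ := hfpos b h
      rw [h2]
      have := h3.1.1
      have := h4.1.2
      linarith
  have hfA : ∀ b, f b ≤ (A2 - A1) / w2 := by
    intro b
    rcases eq_or_lt_of_le (hf0 b) with h | h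
    · rw [← h]; exact div_nonneg (by linarith) hw2R.le
    · obtain ⟨h1, h2, h3, h4⟩ := hfpos b h
      rw [h2, le_div_iff₀ hw2R]
      have h5 := h3.2.1.1
      have h6 := h4.2.1.2
      nlinarith
  have hfB : ∀ b, f b * x2 ≤ 2 * B := by
    intro b
    rcases eq_or_lt_of_le (hf0 b) with h | h
    · rw [← h]; linarith
    · obtain ⟨h1, h2, h3, h4⟩ := hfpos b h
      rw [h2]
      have h5 := h3.2.2.1
      have h6 := h4.2.2.2
      nlinarith
  have hfq : ∀ b b' b'', b ≤ b' → b' ≤ b'' → min (f b) (f b'') ≤ f b' := by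
    intro b b' b'' h1 h2
    rcases eq_or_lt_of_le (hf0 b) with h3 | h3
    · rw [← h3]; exact (min_le_left _ _).trans (hf0 _)
    rcases eq_or_lt_of_le (hf0 b'') with h4 | h4
    · rw [← h4]; exact (min_le_right _ _).trans (hf0 _)
    rcases eq_or_lt_of_le h1 with h5 | h5
    · rw [h5]; exact min_le_left _ _
    obtain ⟨p1, p2, p3, p4⟩ := hfpos b h3
    obtain ⟨q1, q2, q3, q4⟩ := hfpos b'' h4
    set s := min (f b) (f b'') with hs
    have hs1 : s ≤ f b := min_le_left _ _
    have hs2 : s ≤ f b'' := min_le_right _ _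
    have hs0 : 0 < s := lt_min h3 h4
    have hbb : (0 : ℝ) < (b'' : ℝ) - b := by
      have : (b : ℝ) < b'' := by exact_mod_cast (lt_of_lt_of_le h5 h2)
      linarith
    set lam : ℝ := ((b' : ℝ) - b) / ((b'' : ℝ) - b) with hlam
    have hl0 : 0 ≤ lam := by
      rw [hlam]
      apply div_nonneg _ hbb.le
      have : (b : ℝ) ≤ b' := by exact_mod_cast h1
      linarith
    have hl1 : lam ≤ 1 := by
      rw [hlam, div_le_one hbb]
      have : (b' : ℝ) ≤ b'' := by exact_mod_cast h2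
      linarith
    have hbl : (b' : ℝ) = (1 - lam) * b + lam * b'' := by
      have : lam * ((b'' : ℝ) - b) = (b' : ℝ) - b := by
        rw [hlam]; field_simp
      linarith
    have hconv : ∀ t t'' : ℝ, C t b → C t'' b'' → C ((1 - lam) * t + lam * t'') b' := by
      intro t t'' hc1 hc2
      obtain ⟨⟨a1, a2⟩, ⟨a3, a4⟩, a5, a6⟩ := hc1
      obtain ⟨⟨c1, c2⟩, ⟨c3, c4⟩, c5, c6⟩ := hc2
      have hm0 : 0 ≤ 1 - lam := by linarith
      refine ⟨⟨?_, ?_⟩, ⟨?_, ?_⟩, ?_, ?_⟩
      · have := mul_nonneg hm0 a1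
        have := mul_nonneg hl0 c1
        linarith
      · have := mul_le_mul_of_nonneg_left a2 hm0
        have := mul_le_mul_of_nonneg_left c2 hl0
        linarith
      · have e1 := mul_le_mul_of_nonneg_left a3 hm0
        have e2 := mul_le_mul_of_nonneg_left c3 hl0
        rw [hbl]; linarith
      · have e1 := mul_le_mul_of_nonneg_left a4 hm0
        have e2 := mul_le_mul_of_nonneg_left c4 hl0
        rw [hbl]; linarith
      · have e1 := mul_le_mul_of_nonneg_left a5 hm0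
        have e2 := mul_le_mul_of_nonneg_left c5 hl0
        rw [hbl]; linarith
      · have e1 := mul_le_mul_of_nonneg_left a6 hm0
        have e2 := mul_le_mul_of_nonneg_left c6 hl0
        rw [hbl]; linarith
    have hin1 : C (L b + s) b := by
      rw [hLR]; constructor <;> linarith
    have hin2 : C (L b'' + s) b'' := by
      rw [hLR]; constructor <;> linarith
    have r1 := hconv _ _ p3 q3
    have r2 := hconv _ _ hin1 hin2
    have r3 : (1 - lam) * (L b + s) + lam * (L b'' + s) = (1 - lam) * L b + lam * L b'' + s := by ring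
    rw [r3] at r2
    exact hfge b' s _ (h2.trans q1) r1 r2
  refine ⟨∑ b ∈ range (n + 1), f b, sum_nonneg fun b _ => hf0 b, ?_, ?_⟩
  · -- the bound for X
    set T := (range (n + 1)).filter (fun b => 0 < f b) with hT
    have hsum : ∑ b ∈ range (n + 1), f b = ∑ b ∈ T, f b := by
      rw [hT, sum_filter]
      apply sum_congr rfl
      intro b _
      by_cases h : 0 < f b
      · rw [if_pos h]
      · rw [if_neg h]; linarith [hf0 b]
    set β : ℝ := (dt (x1, x2) (w1, w2) : ℝ) with hβd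
    set lo : ℝ := (A1 * x2 - B * w2) / β with hlo
    set hi : ℝ := (A2 * x2 + B * w2) / β with hhi
    have hlohi : lo ≤ hi := by
      rw [hlo, hhi]
      apply div_le_div_of_nonneg_right _ hβ.le
      nlinarith [mul_nonneg hB hw2R.le, mul_le_mul_of_nonneg_right hA2 hx2R]
    have hTb : ∀ b ∈ T, lo ≤ (b : ℝ) ∧ (b : ℝ) ≤ hi := by
      intro b hb
      rw [hT, mem_filter] at hb
      obtain ⟨h1, h2, h3, h4⟩ := hfpos b hb.2
      obtain ⟨⟨a1, a2⟩, ⟨a3, a4⟩, a5, a6⟩ := h3
      have hid : (b : ℝ) * β = x2 * (L b * w2 - b * w1) - w2 * (L b * x2 - b * x1) := by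
        rw [hβeq]; ring
      have e1 := mul_le_mul_of_nonneg_left a3 hx2R
      have e2 := mul_le_mul_of_nonneg_left a4 hx2R
      have e3 := mul_le_mul_of_nonneg_left a5 hw2R.le
      have e4 := mul_le_mul_of_nonneg_left a6 hw2R.le
      rw [hlo, hhi, div_le_iff₀ hβ, le_div_iff₀ hβ]
      constructor <;> linarith
    have hTc := latt_card_le T lo hi hlohi hTb
    have hlen : hi - lo = ((A2 - A1) * x2 + 2 * B * w2) / β := by
      rw [hhi, hlo]; field_simp; ring
    -- M
    set M : ℝ := if x2 = 0 then min ((A2 - A1) / w2) n else min (min ((A2 - A1) / w2) n) (2 * B / x2)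
      with hM
    have hMn : M ≤ n := by
      rw [hM]; split_ifs
      · exact min_le_right _ _
      · exact (min_le_left _ _).trans (min_le_right _ _)
    have hMA : M ≤ (A2 - A1) / w2 := by
      rw [hM]; split_ifs
      · exact min_le_left _ _
      · exact (min_le_left _ _).trans (min_le_left _ _)
    have hMB : M * x2 ≤ 2 * B := by
      rw [hM]; split_ifs with h
      · have h0R : (x2 : ℝ) = 0 := by exact_mod_cast h
        rw [h0R]; linarith
      · have h0R : (0 : ℝ) < (x2 : ℝ) := by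
          have : 0 < x2 := lt_of_le_of_ne hx2 (Ne.symm h)
          exact_mod_cast this
        have := min_le_right (min ((A2 - A1) / (w2 : ℝ)) (n : ℝ)) (2 * B / x2)
        rwa [le_div_iff₀ h0R] at this
    have hM0 : 0 ≤ M := by
      have h1 : 0 ≤ (A2 - A1) / (w2 : ℝ) := div_nonneg (by linarith) hw2R.le
      rw [hM]; split_ifs with h
      · exact le_min h1 hnR
      · exact le_min (le_min h1 hnR) (div_nonneg (by linarith) hx2R)
    have hfM' : ∀ b, f b ≤ M := by
      intro b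
      rw [hM]; split_ifs with h
      · exact le_min (hfA b) (hfM b)
      · have h0R : (0 : ℝ) < (x2 : ℝ) := by
          have : 0 < x2 := lt_of_le_of_ne hx2 (Ne.symm h)
          exact_mod_cast this
        exact le_min (le_min (hfA b) (hfM b)) ((le_div_iff₀ h0R).mpr (hfB b))
    rw [hsum]
    have s1 : ∑ b ∈ T, f b ≤ T.card * M := by
      have := sum_le_card_nsmul T f M (fun b _ => hfM' b)
      simpa [nsmul_eq_mul] using this
    have s2 : (T.card : ℝ) * M ≤ (((A2 - A1) * x2 + 2 * B * w2) / β + 1) * M := by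
      apply mul_le_mul_of_nonneg_right _ hM0
      rw [← hlen]; exact hTc
    have s3 : (((A2 - A1) * x2 + 2 * B * w2) / β + 1) * M =
        ((A2 - A1) * (M * x2) + 2 * B * (M * w2)) / β + M := by
      field_simp
    have s4 : ((A2 - A1) * (M * x2) + 2 * B * (M * w2)) / β ≤ 4 * (A2 - A1) * B / β := by
      apply div_le_div_of_nonneg_right _ hβ.le
      have e1 : (A2 - A1) * (M * x2) ≤ (A2 - A1) * (2 * B) :=
        mul_le_mul_of_nonneg_left hMB (by linarith)
      have e2 : M * w2 ≤ A2 - A1 := by rwa [le_div_iff₀ hw2R] at hMA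
      have e3 : 2 * B * (M * w2) ≤ 2 * B * (A2 - A1) := mul_le_mul_of_nonneg_left e2 (by linarith)
      linarith
    linarith
  · -- the count
    intro d hd
    have hdR : (0 : ℝ) < d := by exact_mod_cast hd
    set g := Int.gcd w2 d with hg
    have hg0 : 0 < g := Int.gcd_pos_of_ne_zero_right _ (by exact_mod_cast hd.ne')
    have hgd : g ∣ d := by
      have : (g : ℤ) ∣ (d : ℤ) := Int.gcd_dvd_right ..
      exact_mod_cast this
    have hgled : g ≤ d := Nat.le_of_dvd hd hgd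
    have hgR : (0 : ℝ) < g := by exact_mod_cast hg0
    set Row : ℕ → Finset ℤ := fun b => (Icc (0 : ℤ) n).filter fun t => (d : ℤ) ∣ dt (t, (b : ℤ)) (w1, w2) ∧
      A1 ≤ (dt (t, (b : ℤ)) (w1, w2) : ℝ) ∧ (dt (t, (b : ℤ)) (w1, w2) : ℝ) ≤ A2 ∧
      |(dt (t, (b : ℤ)) (x1, x2) : ℝ)| ≤ B with hRow
    have hcount : (((Bx n).filter fun u => (d : ℤ) ∣ dt u (w1, w2) ∧ A1 ≤ (dt u (w1, w2) : ℝ) ∧
        (dt u (w1, w2) : ℝ) ≤ A2 ∧ |(dt u (x1, x2) : ℝ)| ≤ B).card : ℝ) =
        ∑ b ∈ range (n + 1), ((Row b).card : ℝ) := by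
      have h1 : ((Bx n).filter fun u => (d : ℤ) ∣ dt u (w1, w2) ∧ A1 ≤ (dt u (w1, w2) : ℝ) ∧
          (dt u (w1, w2) : ℝ) ≤ A2 ∧ |(dt u (x1, x2) : ℝ)| ≤ B) =
          (range (n + 1)).biUnion fun b => (Row b).image fun t => (t, (b : ℤ)) := by
        ext ⟨t, b⟩
        simp only [mem_filter, mem_biUnion, mem_image, mem_range, hRow, mem_Icc, Prod.mk.injEq, mem_Bx]
        constructor
        · rintro ⟨⟨⟨h1, h2⟩, h3, h4⟩, h5⟩
          refine ⟨b.toNat, by omega, t, ⟨⟨h1, h2⟩, ?_⟩, rfl, Int.toNat_of_nonneg h3⟩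
          rw [Int.toNat_of_nonneg h3]
          exact h5
        · rintro ⟨b', h1, t', ⟨h2, h3⟩, rfl, rfl⟩
          exact ⟨⟨h2, by omega, by omega⟩, h3⟩
      rw [h1, card_biUnion]
      · push_cast
        apply sum_congr rfl
        intro b _
        rw [card_image_of_injective]
        intro t t' h
        simpa using h
      · intro b _ b' _ hbb
        rw [Function.onFun, disjoint_left]
        intro u hu hu'
        rw [mem_image] at hu hu'
        obtain ⟨t, _, rfl⟩ := hu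
        obtain ⟨t', _, h⟩ := hu'
        simp only [Prod.mk.injEq, Nat.cast_inj] at h
        exact hbb h.2.symm
    -- rows
    have hrow : ∀ b ∈ range (n + 1), |((Row b).card : ℝ) - (if g ∣ b then f b * g / d else 0)| ≤ 1 := by
      intro b hb
      have hbn : b ≤ n := by rw [mem_range] at hb; omega
      obtain ⟨hd1, hd2⟩ := latt_div w1 w2 hpw d hd (b : ℤ)
      rw [← hg] at hd1 hd2
      have hdtb : ∀ t : ℤ, dt (t, (b : ℤ)) (w1, w2) = t * w2 - b * w1 := fun t => rfl
      have hdtx : ∀ t : ℤ, dt (t, (b : ℤ)) (x1, x2) = t * x2 - b * x1 := fun t => rfl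
      have hCt : ∀ t : ℤ, (t ∈ Icc (0 : ℤ) n ∧ A1 ≤ ((dt (t, (b : ℤ)) (w1, w2) : ℤ) : ℝ) ∧
          ((dt (t, (b : ℤ)) (w1, w2) : ℤ) : ℝ) ≤ A2 ∧ |((dt (t, (b : ℤ)) (x1, x2) : ℤ) : ℝ)| ≤ B) ↔
          C (t : ℝ) b := by
        intro t
        rw [hdtb, hdtx, mem_Icc, abs_le]
        push_cast
        have e1 : (0 ≤ t) ↔ (0 : ℝ) ≤ (t : ℝ) := by exact_mod_cast Iff.rfl
        have e2 : (t ≤ (n : ℤ)) ↔ (t : ℝ) ≤ (n : ℝ) := by exact_mod_cast Iff.rfl
        rw [e1, e2]
        simp only [hC]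
        tauto
      by_cases hgb : g ∣ b
      · rw [if_pos hgb]
        have hgbz : (g : ℤ) ∣ (b : ℤ) := by exact_mod_cast hgb
        obtain ⟨t0, ht0⟩ := hd2 hgbz
        have hq0 : 0 < d / g := Nat.div_pos hgled hg0
        have hmem : ∀ t : ℤ, t ∈ Row b ↔ (L b ≤ (t : ℝ) ∧ (t : ℝ) ≤ R b ∧ ((d / g : ℕ) : ℤ) ∣ t - t0) := by
          intro t
          simp only [hRow, mem_filter]
          constructor
          · rintro ⟨h1, h2, h3, h4, h5⟩
            have h6 := (hCt t).mp ⟨h1, h3, h4, h5⟩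
            rw [hLR] at h6
            exact ⟨h6.1, h6.2, (ht0 t).mp h2⟩
          · rintro ⟨h1, h2, h3⟩
            have h4 := (hCt t).mpr ((hLR b t).mpr ⟨h1, h2⟩)
            exact ⟨h4.1, (ht0 t).mpr h3, h4.2.1, h4.2.2.1, h4.2.2.2⟩
        have hfb : f b = max 0 (R b - L b) := by simp only [hf]; rw [if_pos hbn]
        by_cases hlr : L b ≤ R b
        · have h1 := latt_cnt (L b) (R b) hlr (d / g) hq0 t0 (Row b) hmem
          have h2 : (R b - L b) / ((d / g : ℕ) : ℝ) = f b * g / d := by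
            rw [hfb, max_eq_right (by linarith), Nat.cast_div hgd hgR.ne']
            field_simp
          rw [h2] at h1
          exact h1
        · have h1 : Row b = ∅ := by
            rw [eq_empty_iff_forall_notMem]
            intro t ht
            rw [hmem] at ht
            exact hlr (ht.1.trans ht.2.1)
          have h2 : f b = 0 := by
            rw [hfb]
            apply max_eq_left
            push Not at hlr
            linarith
          rw [h1, h2]
          simp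
      · rw [if_neg hgb]
        have hgbz : ¬ (g : ℤ) ∣ (b : ℤ) := by
          intro h; exact hgb (by exact_mod_cast h)
        have h1 : Row b = ∅ := by
          rw [eq_empty_iff_forall_notMem]
          intro t ht
          simp only [hRow, mem_filter] at ht
          exact hd1 hgbz t ht.2.1
        rw [h1]
        simp
    have htot : |∑ b ∈ range (n + 1), ((Row b).card : ℝ) -
        (g / d) * ∑ b ∈ (range (n + 1)).filter (g ∣ ·), f b| ≤ n + 1 := by
      have h1 : (g / d : ℝ) * ∑ b ∈ (range (n + 1)).filter (g ∣ ·), f b =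
          ∑ b ∈ range (n + 1), (if g ∣ b then f b * g / d else 0) := by
        rw [sum_filter, mul_sum]
        apply sum_congr rfl
        intro b _
        split_ifs
        · ring
        · ring
      rw [h1, ← sum_sub_distrib]
      calc |∑ b ∈ range (n + 1), (((Row b).card : ℝ) - (if g ∣ b then f b * g / d else 0))|
          ≤ ∑ b ∈ range (n + 1), |((Row b).card : ℝ) - (if g ∣ b then f b * g / d else 0)| :=
            abs_sum_le_sum_abs _ _
        _ ≤ ∑ b ∈ range (n + 1), (1 : ℝ) := sum_le_sum hrow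
        _ = n + 1 := by simp
    have hun := uni n g hg0 f n hf0 hfM hfq hfn
    have hun2 : |(g / d) * ∑ b ∈ (range (n + 1)).filter (g ∣ ·), f b - (∑ b ∈ range (n + 1), f b) / d| ≤
        2 * n := by
      have h1 : (g / d : ℝ) * ∑ b ∈ (range (n + 1)).filter (g ∣ ·), f b - (∑ b ∈ range (n + 1), f b) / d =
          (g * ∑ b ∈ (range (n + 1)).filter (g ∣ ·), f b - ∑ b ∈ range (n + 1), f b) / d := by
        ring
      rw [h1, abs_div, abs_of_pos hdR, div_le_iff₀ hdR]
      refine hun.trans ?_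
      have h2 : (g : ℝ) ≤ d := by exact_mod_cast hgled
      nlinarith [mul_le_mul_of_nonneg_right h2 hnR]
    rw [hcount]
    have htri := abs_sub_le (∑ b ∈ range (n + 1), ((Row b).card : ℝ))
      ((g / d) * ∑ b ∈ (range (n + 1)).filter (g ∣ ·), f b) ((∑ b ∈ range (n + 1), f b) / d)
    linarith

end Pool.Agent.EC
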