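import Pool.Agent.Lib_MP_f1a94e_eck.SvU
import Pool.Agent.Lib_MP_f1a94e_eck.Latt
import Pool.Agent.Lib_MP_f1a94e_eck.Zaux

/-!
# Piece CLOSE: neighbours of `w` nearly parallel to a given neighbour `x`

PROOF. If `w` is not primitive, all terms vanish (`pv_of_aw`, `P > K^2`). Let `z = ⌊P^(1/20)⌋₊`. The terms are at most `log (2 P)` (`aw_le`), and nonzero only for
`u` in `I = {u ∈ Bx n | P ≤ dt u w ≤ (1+δ) P, |dt u x| ≤ η P}` with `(dt u w).toNat` prime `≥ P > z^2` (`aw_ne`). By `latt` (`A1 = P`, `A2 = (1+δ) P`, `B = η P`,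
`dt x w ≥ P`) there is `0 ≤ X ≤ 4 η δ P + n` with `|#{u ∈ I | d ∣ dt u w} - X/d| ≤ 6 (n+1)`. `sieve_upper` (`m u = (dt u w).toNat`):
the sum is at most `log (2P) (2 X / log z + z^4 * 6 (n+1))`, `log z ≥ (1/40) log (2P)`, `n ≤ K √P` (`n_le`), `z^4 ≤ P^(1/5)`; for `P ≥ P0(η, δ, K)` this is
`≤ 80 (4 η δ P + K √P) + P^(1/5) log (2P) 6 (K √P + 1) ≤ 400 η δ P`.
-/

set_option autoImplicit false

namespace Pool.Agent.EC

open Finset

open Classical in
theorem close (K : ℝ) (hK : 1 ≤ K) : ∃ C : ℝ, 0 < C ∧ ∀ η δ : ℝ, 0 < η → η ≤ 1 → 0 < δ → δ ≤ 1 →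
    ∃ P0 : ℝ, ∀ P : ℝ, P0 ≤ P → ∀ a : ℕ → ℝ, Wt a P δ → ∀ n : ℕ, (n : ℝ) ^ 2 ≤ K ^ 2 * P →
      ∀ x ∈ Bx n, ∀ w ∈ Bx n, P ≤ (dt x w : ℝ) →
        ∑ u ∈ (Bx n).filter (fun u => |(dt u x : ℝ)| ≤ η * P), aw a (dt u w) ≤ C * η * δ * P := by
  refine ⟨400, by norm_num, fun η δ hη _ hδ hδ1 =>
    ⟨max (max (2 ^ 41) (K ^ 2 + 1)) ((5 * K / (2 * (η * δ))) ^ 20),
      fun P hP a h n hn x hx w hw hxw => ?_⟩⟩
  have hP1 : (2 : ℝ) ^ 41 ≤ P := le_trans (le_trans (le_max_left _ _) (le_max_left _ _)) hP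
  have hPK : K ^ 2 < P := by
    have : K ^ 2 + 1 ≤ P := le_trans (le_trans (le_max_right _ _) (le_max_left _ _)) hP
    linarith
  have hP2 : (5 * K / (2 * (η * δ))) ^ 20 ≤ P := le_trans (le_max_right _ _) hP
  obtain ⟨y, hy4, hy20, hz2, hzP, hlog, hlogpos, hz4, hlog2, hsq⟩ := z_facts hP1
  have hy0 : 0 ≤ y := by linarith
  have hK0 : 0 < K := by linarith
  have hyM := y_large (M := 5 * K / (2 * (η * δ))) (by positivity) hy0 hy20 hP2
  have hP0 : 0 < P := lt_of_lt_of_le (by positivity) hP1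
  have hP1' : 1 ≤ P := le_trans (by norm_num) hP1
  set z := ⌊y⌋₊ with hz
  have hL0 : 0 ≤ Real.log (2 * P) := Real.log_nonneg (by linarith)
  by_cases hpw : Pv w
  swap
  · have h0 : ∑ u ∈ (Bx n).filter (fun u => |(dt u x : ℝ)| ≤ η * P), aw a (dt u w) = 0 := by
      apply sum_eq_zero
      intro u hu
      by_contra hne
      exact hpw (pv_of_aw h hK hn hPK (mem_filter.mp hu).1 hw hne).2
    rw [h0]
    positivity
  have hdtR : (0 : ℝ) < dt x w := lt_of_lt_of_le hP0 hxw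
  have hdt : 0 < dt x w := by exact_mod_cast hdtR
  obtain ⟨X, hX0, hX1, hX⟩ := latt hx hw hpw (A1 := P) (A2 := (1 + δ) * P) (B := η * P) hP0
    (by nlinarith) (by positivity) hdt
  set I := (Bx n).filter (fun u => P ≤ (dt u w : ℝ) ∧ (dt u w : ℝ) ≤ (1 + δ) * P ∧
    |(dt u x : ℝ)| ≤ η * P) with hI
  have hpos : ∀ u ∈ I, 0 < dt u w := by
    intro u hu
    rw [hI, mem_filter] at hu
    have h1 : (0 : ℝ) < dt u w := lt_of_lt_of_le hP0 hu.2.1
    exact_mod_cast h1
  have hsv := sieve_upper z hz2 I (fun u => (dt u w).toNat) X (6 * (n + 1)) hX0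
    (by
      intro u hu
      have := hpos u hu
      show 0 < (dt u w).toNat
      omega)
    (by
      intro d hd
      have h1 := hX d (mem_Icc.mp hd).1
      have h2 : (I.filter fun u => d ∣ (dt u w).toNat) =
          ((Bx n).filter fun u => (d : ℤ) ∣ dt u w ∧ P ≤ (dt u w : ℝ) ∧
            (dt u w : ℝ) ≤ (1 + δ) * P ∧ |(dt u x : ℝ)| ≤ η * P) := by
        rw [hI, filter_filter]
        apply filter_congr
        intro u _
        constructor
        · rintro ⟨h3, h4⟩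
          have h5 : (0 : ℝ) < dt u w := lt_of_lt_of_le hP0 h3.1
          have h6 : 0 < dt u w := by exact_mod_cast h5
          have h7 : ((dt u w).toNat : ℤ) = dt u w := Int.toNat_of_nonneg h6.le
          refine ⟨?_, h3⟩
          rw [← h7]
          exact_mod_cast h4
        · rintro ⟨h4, h3⟩
          have h5 : (0 : ℝ) < dt u w := lt_of_lt_of_le hP0 h3.1
          have h6 : 0 < dt u w := by exact_mod_cast h5
          have h7 : ((dt u w).toNat : ℤ) = dt u w := Int.toNat_of_nonneg h6.le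
          refine ⟨h3, ?_⟩
          rw [← h7] at h4
          exact_mod_cast h4
      rw [← h2] at h1
      exact h1)
  have htot : ∑ u ∈ (Bx n).filter (fun u => |(dt u x : ℝ)| ≤ η * P), aw a (dt u w) ≤
      Real.log (2 * P) *
        ((I.filter fun u => ((dt u w).toNat).Prime ∧ z ^ 2 < (dt u w).toNat).card : ℝ) := by
    calc ∑ u ∈ (Bx n).filter (fun u => |(dt u x : ℝ)| ≤ η * P), aw a (dt u w)
        = ∑ u ∈ ((Bx n).filter (fun u => |(dt u x : ℝ)| ≤ η * P)).filter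
            (fun u => aw a (dt u w) ≠ 0), aw a (dt u w) := by
          rw [sum_filter_ne_zero]
      _ ≤ ∑ u ∈ I.filter (fun u => ((dt u w).toNat).Prime ∧ z ^ 2 < (dt u w).toNat),
            aw a (dt u w) := by
          apply sum_le_sum_of_subset_of_nonneg
          · intro u hu
            rw [mem_filter, mem_filter] at hu
            obtain ⟨h1, h2, h3, h4⟩ := aw_ne h hu.2
            rw [mem_filter, hI, mem_filter]
            refine ⟨⟨hu.1.1, h3, h4, hu.1.2⟩, h2, ?_⟩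
            have h7 : ((dt u w).toNat : ℤ) = dt u w := Int.toNat_of_nonneg h1.le
            have h8 : (((dt u w).toNat : ℕ) : ℝ) = (dt u w : ℝ) := by exact_mod_cast h7
            have h9 : ((z ^ 2 : ℕ) : ℝ) < (((dt u w).toNat : ℕ) : ℝ) := by
              rw [h8]
              exact lt_of_lt_of_le hzP h3
            exact_mod_cast h9
          · intro u _ _
            exact aw_nonneg h _
      _ ≤ ∑ u ∈ I.filter (fun u => ((dt u w).toNat).Prime ∧ z ^ 2 < (dt u w).toNat),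
            Real.log (2 * P) := sum_le_sum fun u _ => aw_le h hP1' hδ1 _
      _ = _ := by rw [sum_const, nsmul_eq_mul, mul_comm]
  have hmul := mul_le_mul_of_nonneg_left hsv hL0
  have hnK : (n : ℝ) ≤ K * y ^ 10 := by
    have := n_le hK hn hP0.le
    rwa [hsq] at this
  have hX2 : X ≤ 4 * (η * δ * P) + K * y ^ 10 := by
    have h1 : 4 * ((1 + δ) * P - P) * (η * P) / (dt x w : ℝ) ≤ 4 * (η * δ * P) := by
      rw [div_le_iff₀ hdtR]
      have h2 : 4 * ((1 + δ) * P - P) * (η * P) = 4 * (η * δ * P) * P := by ring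
      rw [h2]
      exact mul_le_mul_of_nonneg_left hxw (by positivity)
    linarith
  have hm1 : Real.log (2 * P) * (2 * X / Real.log (z : ℝ)) ≤ 80 * X := by
    rw [mul_div_assoc', div_le_iff₀ hlogpos]
    nlinarith
  have hm2 : Real.log (2 * P) * ((z : ℝ) ^ 4 * (6 * (n + 1))) ≤ 120 * K * y ^ 18 := by
    have h1 : Real.log (2 * P) * (z : ℝ) ^ 4 ≤ (10 * y ^ 4) * y ^ 4 :=
      mul_le_mul hlog2 hz4 (by positivity) (by positivity)
    have hy1 : (1 : ℝ) ≤ y ^ 10 := one_le_pow₀ (by linarith)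
    have h2 : 6 * ((n : ℝ) + 1) ≤ 12 * K * y ^ 10 := by nlinarith
    calc Real.log (2 * P) * ((z : ℝ) ^ 4 * (6 * (n + 1)))
        = (Real.log (2 * P) * (z : ℝ) ^ 4) * (6 * ((n : ℝ) + 1)) := by ring
      _ ≤ ((10 * y ^ 4) * y ^ 4) * (12 * K * y ^ 10) :=
          mul_le_mul h1 h2 (by positivity) (by positivity)
      _ = 120 * K * y ^ 18 := by ring
  have hfin : 200 * K * y ^ 18 ≤ 80 * (η * δ * P) := by
    have h1 : 5 * K ≤ 2 * (η * δ) * y := by
      rw [div_le_iff₀ (by positivity)] at hyM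
      linarith
    have h2 : 2 * (η * δ) * y ≤ 2 * (η * δ) * y ^ 2 := by
      have h3 : y ≤ y ^ 2 := by nlinarith
      exact mul_le_mul_of_nonneg_left h3 (by positivity)
    have h4 : 0 ≤ y ^ 18 := by positivity
    calc 200 * K * y ^ 18 = 40 * (5 * K) * y ^ 18 := by ring
      _ ≤ 40 * (2 * (η * δ) * y ^ 2) * y ^ 18 := by
          apply mul_le_mul_of_nonneg_right _ h4
          linarith
      _ = 80 * (η * δ * P) := by rw [← hy20]; ring
  have hy1018 : K * y ^ 10 ≤ K * y ^ 18 :=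
    mul_le_mul_of_nonneg_left (pow_le_pow_right₀ (by linarith) (by norm_num)) hK0.le
  calc ∑ u ∈ (Bx n).filter (fun u => |(dt u x : ℝ)| ≤ η * P), aw a (dt u w) ≤ _ := htot
    _ ≤ _ := hmul
    _ = Real.log (2 * P) * (2 * X / Real.log (z : ℝ)) +
        Real.log (2 * P) * ((z : ℝ) ^ 4 * (6 * (n + 1))) := by ring
    _ ≤ 400 * η * δ * P := by
        have h1 : 400 * η * δ * P = 400 * (η * δ * P) := by ring
        rw [h1]
        linarith

end Pool.Agent.EC
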