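import Pool.Agent.Lib_MP_f1a94e_eck.KBase

/-!
# Piece CS: Cauchy and Schwarz

PROOF. With `g u' = ∑_{u ∈ Bx n} aw a (dt u u') h u` the left sum is `∑_{u'} g u' h2 u'`, so its square is at most `∑_{u'} |h2 u'|^2 * ∑_{u' ∈ Bx n} |g u'|^2 ≤ (n+1)^2 ∑ |g u'|^2` (`card_Bx`), and
`∑_{w ∈ Bx n} |g w|^2 = ∑_{u, v} h u conj (h v) ∑_w aw a (dt u w) aw a (dt v w)`.
-/

set_option autoImplicit false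

namespace Pool.Agent.EC

open Finset

theorem cs_step (a : ℕ → ℝ) (n : ℕ) (h h2 : ℤ × ℤ → ℂ) (hh2 : ∀ u, ‖h2 u‖ ≤ 1) :
    ‖∑ u ∈ Bx n, ∑ u' ∈ Bx n, (aw a (dt u u') : ℂ) * h u * h2 u'‖ ^ 2 ≤
      ((n : ℝ) + 1) ^ 2 *
        ‖∑ x ∈ Bx n ×ˢ Bx n, h x.1 * (starRingEnd ℂ) (h x.2) * (NN a n x.1 x.2 : ℂ)‖ := by
  sorry

end Pool.Agent.EC
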