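import Pool.Agent.Lib_MP_f1a94e_eck.KBase

/-!
# Piece CZ: the residue `cz u v`

With `A u.1 + B u.2 = 1`: `v.1 - c u.1 = - B D`, `v.2 - c u.2 = A D`.
-/

set_option autoImplicit false

namespace Pool.Agent.EC

open Finset

theorem cz_bezout {u : ℤ × ℤ} (hu : Pv u) :
    u.1 * Int.gcdA u.1 u.2 + u.2 * Int.gcdB u.1 u.2 = 1 := by
  have h := Int.gcd_eq_gcd_ab u.1 u.2
  rw [Pv, Int.isCoprime_iff_gcd_eq_one] at hu
  rw [hu] at h
  rw [← h]
  norm_num

theorem cz_spec {u v : ℤ × ℤ} (hu : Pv u) :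
    (dt u v ∣ v.1 - cz u v * u.1) ∧ (dt u v ∣ v.2 - cz u v * u.2) := by
  have h := cz_bezout hu
  constructor
  · refine ⟨-Int.gcdB u.1 u.2, ?_⟩
    unfold cz dt
    linear_combination (-v.1) * h
  · refine ⟨Int.gcdA u.1 u.2, ?_⟩
    unfold cz dt
    linear_combination (-v.2) * h

/-- any integer with the same property modulo a divisor `r` of the determinant is congruent to `cz u v` -/
theorem cz_unique {u v : ℤ × ℤ} (hu : Pv u) {r c : ℤ} (hr : r ∣ dt u v) (h1 : r ∣ v.1 - c * u.1)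
    (h2 : r ∣ v.2 - c * u.2) : r ∣ c - cz u v := by
  obtain ⟨h3, h4⟩ := cz_spec (v := v) hu
  have h5 : r ∣ (c - cz u v) * u.1 := by
    have := dvd_sub (hr.trans h3) h1
    have e : v.1 - cz u v * u.1 - (v.1 - c * u.1) = (c - cz u v) * u.1 := by ring
    rwa [e] at this
  have h6 : r ∣ (c - cz u v) * u.2 := by
    have := dvd_sub (hr.trans h4) h2
    have e : v.2 - cz u v * u.2 - (v.2 - c * u.2) = (c - cz u v) * u.2 := by ring
    rwa [e] at this
  have h := cz_bezout hu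
  have e : c - cz u v = (c - cz u v) * u.1 * Int.gcdA u.1 u.2 +
      (c - cz u v) * u.2 * Int.gcdB u.1 u.2 := by
    linear_combination (-(c - cz u v)) * h
  rw [e]
  exact dvd_add (Dvd.dvd.mul_right h5 _) (Dvd.dvd.mul_right h6 _)

theorem cz_coprime {u v : ℤ × ℤ} (hu : Pv u) (hv : Pv v) : IsCoprime (cz u v) (dt u v) := by
  obtain ⟨⟨x, h3⟩, ⟨y, h4⟩⟩ := cz_spec (v := v) hu
  obtain ⟨s, t, hst⟩ := hv
  refine ⟨s * u.1 + t * u.2, s * x + t * y, ?_⟩
  linear_combination hst - s * h3 - t * h4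

end Pool.Agent.EC
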