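import Pool.Agent.Lib_MP_f1a94e_eck.KDefs2

/-!
# MP_f1a94e_nt, Edge Chowla, block K: basic facts (proved)
-/

set_option autoImplicit false

namespace Pool.Agent.EC

open Finset

theorem mem_Bx {n : ℕ} {u : ℤ × ℤ} :
    u ∈ Bx n ↔ (0 ≤ u.1 ∧ u.1 ≤ n) ∧ (0 ≤ u.2 ∧ u.2 ≤ n) := by
  simp [Bx, mem_product]

theorem card_Bx (n : ℕ) : (Bx n).card = (n + 1) ^ 2 := by
  have : ((n : ℤ) + 1).toNat = n + 1 := by omega
  simp [Bx, card_product, this, sq]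

theorem dt_anti (u v : ℤ × ℤ) : dt u v = -dt v u := by unfold dt; ring

theorem dt_self (u : ℤ × ℤ) : dt u u = 0 := by unfold dt; ring

theorem NN_symm (a : ℕ → ℝ) (n : ℕ) (u v : ℤ × ℤ) : NN a n u v = NN a n v u := by
  unfold NN
  exact sum_congr rfl fun w _ => mul_comm _ _

theorem abs_dt_le {n : ℕ} {u v : ℤ × ℤ} (hu : u ∈ Bx n) (hv : v ∈ Bx n) : |dt u v| ≤ (n : ℤ) ^ 2 := by
  rw [mem_Bx] at hu hv
  unfold dt
  have h1 : 0 ≤ u.1 * v.2 := mul_nonneg hu.1.1 hv.2.1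
  have h2 : 0 ≤ u.2 * v.1 := mul_nonneg hu.2.1 hv.1.1
  have h3 : u.1 * v.2 ≤ n * n := mul_le_mul hu.1.2 hv.2.2 hv.2.1 (by positivity)
  have h4 : u.2 * v.1 ≤ n * n := mul_le_mul hu.2.2 hv.1.2 hv.1.1 (by positivity)
  rw [abs_le]
  constructor <;> nlinarith

theorem aw_nonneg {a : ℕ → ℝ} {P δ : ℝ} (h : Wt a P δ) (d : ℤ) : 0 ≤ aw a d := by
  unfold aw
  split_ifs
  · exact h.nonneg _
  · exact le_rfl

theorem aw_of_pos {a : ℕ → ℝ} {d : ℤ} (h : 0 < d) : aw a d = a d.toNat := by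
  unfold aw
  rw [if_pos h]

theorem aw_ne {a : ℕ → ℝ} {P δ : ℝ} (h : Wt a P δ) {d : ℤ} (hd : aw a d ≠ 0) :
    0 < d ∧ d.toNat.Prime ∧ P ≤ (d : ℝ) ∧ (d : ℝ) ≤ (1 + δ) * P := by
  unfold aw at hd
  split_ifs at hd with h1
  · have h2 := h.supp _ hd
    have h3 : ((d.toNat : ℕ) : ℝ) = (d : ℝ) := by
      have : ((d.toNat : ℕ) : ℤ) = d := Int.toNat_of_nonneg h1.le
      exact_mod_cast this
    rw [h3] at h2
    exact ⟨h1, h2.1, h2.2.1, h2.2.2⟩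
  · exact absurd rfl hd

theorem a_le {a : ℕ → ℝ} {P δ : ℝ} (h : Wt a P δ) (hP : 1 ≤ P) (hδ : δ ≤ 1) (p : ℕ) :
    a p ≤ Real.log (2 * P) := by
  by_cases h0 : a p = 0
  · rw [h0]
    exact Real.log_nonneg (by linarith)
  · have h2 := h.supp p h0
    refine (h.le_log p).trans (Real.log_le_log (by linarith [h2.2.1]) ?_)
    nlinarith [h2.2.2]

theorem aw_le {a : ℕ → ℝ} {P δ : ℝ} (h : Wt a P δ) (hP : 1 ≤ P) (hδ : δ ≤ 1) (d : ℤ) :
    aw a d ≤ Real.log (2 * P) := by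
  unfold aw
  split_ifs
  · exact a_le h hP hδ _
  · exact Real.log_nonneg (by linarith)

theorem mem_range_NP {a : ℕ → ℝ} {P δ : ℝ} (h : Wt a P δ) (hP : 0 ≤ P) (hδ : δ ≤ 1) {p : ℕ}
    (hp : a p ≠ 0) : p ∈ range (NP P) := by
  have h2 := (h.supp p hp).2.2
  have h3 : (p : ℝ) ≤ 2 * P := by nlinarith
  rw [mem_range, NP]
  have := Nat.le_floor h3
  omega

theorem tot_nonneg {a : ℕ → ℝ} {P δ : ℝ} (h : Wt a P δ) : 0 ≤ tot a P :=
  sum_nonneg fun p _ => h.nonneg p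

/-- the weight has finite support, so every finite sum is at most the total weight -/
theorem sum_le_tot {a : ℕ → ℝ} {P δ : ℝ} (h : Wt a P δ) (hP : 0 ≤ P) (hδ : δ ≤ 1) (s : Finset ℕ) :
    ∑ p ∈ s, a p ≤ tot a P := by
  unfold tot
  calc ∑ p ∈ s, a p = ∑ p ∈ s.filter (fun p => a p ≠ 0), a p := by
        rw [sum_filter_ne_zero]
    _ ≤ ∑ p ∈ range (NP P), a p := by
        apply sum_le_sum_of_subset_of_nonneg
        · intro p hp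
          exact mem_range_NP h hP hδ (mem_filter.mp hp).2
        · intro p _ _
          exact h.nonneg p

theorem Wt.mono {a : ℕ → ℝ} {P δ δ' : ℝ} (h : Wt a P δ) (hP : 0 ≤ P) (hδ : δ ≤ δ') : Wt a P δ' :=
  ⟨h.nonneg, h.le_log, fun p hp => ⟨(h.supp p hp).1, (h.supp p hp).2.1,
    (h.supp p hp).2.2.trans (by nlinarith)⟩⟩

theorem n_lt {K P : ℝ} {n : ℕ} (hK : 1 ≤ K) (hn : (n : ℝ) ^ 2 ≤ K ^ 2 * P) (hP : K ^ 2 < P) :
    (n : ℝ) < P := by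
  have h1 : (n : ℝ) ^ 2 < P ^ 2 := by nlinarith
  exact lt_of_pow_lt_pow_left₀ 2 (by nlinarith) h1

theorem n_le {K P : ℝ} {n : ℕ} (hK : 1 ≤ K) (hn : (n : ℝ) ^ 2 ≤ K ^ 2 * P) (hP : 0 ≤ P) :
    (n : ℝ) ≤ K * √P := by
  have h1 : K ^ 2 * P = (K * √P) ^ 2 := by rw [mul_pow, Real.sq_sqrt hP]
  rw [h1] at hn
  exact (pow_le_pow_iff_left₀ (by positivity) (by positivity) two_ne_zero).mp hn

/-- vectors with a prime determinant larger than the box are primitive -/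
theorem pv_of_prime_dt {n : ℕ} {u w : ℤ × ℤ} (hu : u ∈ Bx n) {p : ℕ} (hp : p.Prime)
    (hn : n < p) (h : dt u w = p ∨ dt w u = p) : Pv u := by
  have hd : ∀ g : ℤ, g ∣ u.1 → g ∣ u.2 → g ∣ (p : ℤ) := by
    intro g h1 h2
    rcases h with h | h
    · rw [← h]; exact dvd_sub (Dvd.dvd.mul_right h1 _) (Dvd.dvd.mul_right h2 _)
    · rw [← h]; exact dvd_sub (Dvd.dvd.mul_left h2 _) (Dvd.dvd.mul_left h1 _)
  rw [Pv, Int.isCoprime_iff_gcd_eq_one]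
  have h3 : ((Int.gcd u.1 u.2 : ℕ) : ℤ) ∣ (p : ℤ) := hd _ (Int.gcd_dvd_left ..) (Int.gcd_dvd_right ..)
  have h4 : Int.gcd u.1 u.2 ∣ p := by exact_mod_cast h3
  rcases (Nat.dvd_prime hp).mp h4 with h5 | h5
  · exact h5
  · exfalso
    have h6 : (p : ℤ) ∣ u.1 := by rw [← h5]; exact Int.gcd_dvd_left ..
    have h7 : (p : ℤ) ∣ u.2 := by rw [← h5]; exact Int.gcd_dvd_right ..
    rw [mem_Bx] at hu
    have h8 : u.1 = 0 := Int.eq_zero_of_dvd_of_nonneg_of_lt hu.1.1 (by omega) h6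
    have h9 : u.2 = 0 := Int.eq_zero_of_dvd_of_nonneg_of_lt hu.2.1 (by omega) h7
    have h10 : (p : ℤ) = 0 := by
      rcases h with h | h
      · rw [← h]; unfold dt; rw [h8, h9]; ring
      · rw [← h]; unfold dt; rw [h8, h9]; ring
    have := hp.pos
    omega

theorem pv_of_aw {a : ℕ → ℝ} {P δ K : ℝ} {n : ℕ} (h : Wt a P δ) (hK : 1 ≤ K)
    (hn : (n : ℝ) ^ 2 ≤ K ^ 2 * P) (hP : K ^ 2 < P) {u w : ℤ × ℤ} (hu : u ∈ Bx n) (hw : w ∈ Bx n)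
    (hd : aw a (dt u w) ≠ 0) : Pv u ∧ Pv w := by
  obtain ⟨h1, h2, h3, h4⟩ := aw_ne h hd
  have h5 : (n : ℝ) < dt u w := (n_lt hK hn hP).trans_le h3
  have h6 : ((dt u w).toNat : ℤ) = dt u w := Int.toNat_of_nonneg h1.le
  have h7 : n < (dt u w).toNat := by
    have h8 : (n : ℤ) < dt u w := by exact_mod_cast h5
    omega
  exact ⟨pv_of_prime_dt hu h2 h7 (Or.inl h6.symm), pv_of_prime_dt hw h2 h7 (Or.inr h6.symm)⟩

end Pool.Agent.EC
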