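import Mathlib

/-!
# MP_f1a94e_nt, Edge Chowla, block K (kernel lemma): definitions
-/

set_option autoImplicit false

namespace Pool.Agent.EC

open Finset

/-- determinant of two integer vectors -/
def dt (u v : ℤ × ℤ) : ℤ := u.1 * v.2 - u.2 * v.1

/-- the box `[0, n] ^ 2` -/
noncomputable def Bx (n : ℕ) : Finset (ℤ × ℤ) := Icc (0 : ℤ) n ×ˢ Icc (0 : ℤ) n

/-- primitive vectors -/
def Pv (u : ℤ × ℤ) : Prop := IsCoprime u.1 u.2

/-- a weight on the primes of `[P, (1 + δ) P]` bounded by `log p` -/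
structure Wt (a : ℕ → ℝ) (P δ : ℝ) : Prop where
  nonneg : ∀ p, 0 ≤ a p
  le_log : ∀ p, a p ≤ Real.log p
  supp : ∀ p, a p ≠ 0 → p.Prime ∧ P ≤ (p : ℝ) ∧ (p : ℝ) ≤ (1 + δ) * P

/-- the weight as a function of an integer, zero for nonpositive integers -/
noncomputable def aw (a : ℕ → ℝ) (d : ℤ) : ℝ := if 0 < d then a d.toNat else 0

end Pool.Agent.EC
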