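import Pool.Agent.Lib_MP_f1a94e_eck.KDefs

/-!
# MP_f1a94e_nt, Edge Chowla, block K: further definitions
-/

set_option autoImplicit false

namespace Pool.Agent.EC

open Finset

/-- `range (NP P)` contains all natural numbers up to `2 P` -/
noncomputable def NP (P : ℝ) : ℕ := ⌊2 * P⌋₊ + 1

/-- the total weight -/
noncomputable def tot (a : ℕ → ℝ) (P : ℝ) : ℝ := ∑ p ∈ range (NP P), a p

/-- number of weighted common neighbours of `u` and `v` -/
noncomputable def NN (a : ℕ → ℝ) (n : ℕ) (u v : ℤ × ℤ) : ℝ :=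
  ∑ w ∈ Bx n, aw a (dt u w) * aw a (dt v w)

/-- `v` is congruent to `cz u v` times `u` modulo `dt u v` -/
def cz (u v : ℤ × ℤ) : ℤ := Int.gcdA u.1 u.2 * v.1 + Int.gcdB u.1 u.2 * v.2

/-- weighted number of pairs of primes with `p' = c p` modulo `D` -/
noncomputable def TT (a : ℕ → ℝ) (N D : ℕ) (c : ℤ) : ℝ :=
  ∑ p ∈ range N, ∑ p' ∈ range N, if (D : ℤ) ∣ (p' : ℤ) - c * p then a p * a p' else 0

/-- the residues prime to `D` -/
def cop (D : ℕ) : Finset ℕ := (range D).filter fun c => c.Coprime D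

/-- character sum of the weight -/
noncomputable def SS (a : ℕ → ℝ) (N : ℕ) {r : ℕ} (χ : DirichletCharacter ℂ r) : ℂ :=
  ∑ p ∈ range N, (a p : ℂ) * χ (p : ZMod r)

open Classical in
/-- the primitive characters modulo `r` -/
noncomputable def prm (r : ℕ) : Finset (DirichletCharacter ℂ r) :=
  univ.filter fun χ => χ.IsPrimitive

/-- contribution of the primitive characters modulo `r` -/
noncomputable def Psi (a : ℕ → ℝ) (N r : ℕ) (c : ℤ) : ℂ :=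
  ∑ χ ∈ prm r, χ (c : ZMod r) * ((‖SS a N χ‖ ^ 2 : ℝ) : ℂ)

/-- contribution of all characters modulo `D` -/
noncomputable def TA (a : ℕ → ℝ) (N D : ℕ) (c : ℤ) : ℂ :=
  (1 / (D.totient : ℂ)) * ∑ χ : DirichletCharacter ℂ D, χ (c : ZMod D) * ((‖SS a N χ‖ ^ 2 : ℝ) : ℂ)

/-- contribution of the primitive characters with conductor in `(A, B]` dividing `D` -/
noncomputable def TB (a : ℕ → ℝ) (N A B D : ℕ) (c : ℤ) : ℂ :=
  (1 / (D.totient : ℂ)) * ∑ r ∈ (Ioc A B).filter (· ∣ D), Psi a N r c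

/-- the truncated sum for `D / φ (D)` -/
noncomputable def gR (R D : ℕ) : ℝ :=
  ∑ t ∈ (Icc 1 R).filter (fun t => t ∣ D ∧ Squarefree t), 1 / (t.totient : ℝ)

/-- the periodic function in the main term -/
noncomputable def PH (a : ℕ → ℝ) (N R D : ℕ) (R' : ℕ) (c : ℤ) : ℂ :=
  (gR R' D : ℂ) * ∑ r ∈ (Icc 1 R).filter (· ∣ D), Psi a N r c

/-- the main term -/
noncomputable def T2 (a : ℕ → ℝ) (N R D : ℕ) (R' : ℕ) (c : ℤ) : ℂ := (1 / (D : ℂ)) * PH a N R D R' c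

/-- the point `P (v - u) / dt u v` lies in `[μ, n - μ] ^ 2` -/
def Qin (P μ : ℝ) (n : ℕ) (u v : ℤ × ℤ) : Prop :=
  (μ ≤ P * ((v.1 - u.1 : ℤ) : ℝ) / (dt u v : ℝ) ∧ P * ((v.1 - u.1 : ℤ) : ℝ) / (dt u v : ℝ) ≤ n - μ) ∧
  (μ ≤ P * ((v.2 - u.2 : ℤ) : ℝ) / (dt u v : ℝ) ∧ P * ((v.2 - u.2 : ℤ) : ℝ) / (dt u v : ℝ) ≤ n - μ)

end Pool.Agent.EC
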