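import Pool.Agent.Lib_MP_f1a94e_eck.KDefs

/-!
# Kernel lemma (interface stub)
-/

set_option autoImplicit false

namespace Pool.Agent.EC

open Finset

open Classical in
theorem ker (K ε : ℝ) (hK : 1 ≤ K) (hε : 0 < ε) : ∃ del0 : ℝ, 0 < del0 ∧
    ∀ δ : ℝ, 0 < δ → δ ≤ del0 → ∃ (m : ℕ) (del3 : ℝ), 0 < m ∧ 0 < del3 ∧
      ∀ N3 : ℕ, ∃ eps3 P0 : ℝ, 0 < eps3 ∧ ∀ P : ℝ, P0 ≤ P → ∀ n : ℕ, (n : ℝ) ^ 2 ≤ K ^ 2 * P →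
        ∀ a : ℕ → ℝ, Wt a P δ → ∀ h h2 : ℤ × ℤ → ℂ, (∀ u, ‖h u‖ ≤ 1) → (∀ u, ‖h2 u‖ ≤ 1) →
        (∀ u, ¬ Pv u → h u = 0) → ∀ cell : ℤ × ℤ → Fin N3,
        (∀ u ∈ Bx n, ∀ u' ∈ Bx n, cell u = cell u' →
          |((u.1 - u'.1 : ℤ) : ℝ)| ≤ del3 * √P ∧ |((u.2 - u'.2 : ℤ) : ℝ)| ≤ del3 * √P) →
        (∀ (s : Fin N3) (x y : ℤ), ‖∑ u ∈ (Bx n).filter (fun u => cell u = s ∧ (m : ℤ) ∣ u.1 - x ∧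
          (m : ℤ) ∣ u.2 - y), h u‖ ≤ eps3 * P) →
        ‖∑ u ∈ Bx n, ∑ u' ∈ Bx n, (aw a (dt u u') : ℂ) * h u * h2 u'‖ ≤ ε * δ * P ^ 2 := by
  sorry

end Pool.Agent.EC
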