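import Pool.Agent.Lib_MP_f1a94e_eck.KDefs2
import Pool.Agent.Lib_MP_c1fc80_nt.LargeSieve

/-!
# Piece LSG: from additive to primitive multiplicative characters

PROOF. Let `ψ = ZMod.stdAddChar` (`LibLS.e (n * (x/r)) = ψ (n x)`, `ZMod.stdAddChar_coe` or `ZMod.toCircle`; compare `aleg_e` in `Pool/Agent/Lib_MP_f1937f_nt/ALeg.lean`). For a
primitive `χ` modulo `r`: `∑_{x mod r} χ(x) ψ(n x) = χ⁻¹(n) τ(χ)` for ALL `n` (`gaussSum_mulShift_of_isPrimitive`), and `|τ(χ)|^2 = r`: sum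
`|∑_x χ(x) ψ(n x)|^2` over all `n` mod `r`: the left side is `|τ|^2 φ(r)`, the right side is `r φ(r)` by orthogonality of `ψ` (primitive additive character).
Hence for `B x = ∑_n b n ψ(n x)`: `τ(χ⁻¹) ∑_n b n χ(n) = ∑_{x mod r} χ⁻¹(x) B x` and `r * |∑ b n χ(n)|^2 = |∑_{x} χ⁻¹(x) B x|^2`. Sum over the primitive `χ`,
enlarge to all `χ` modulo `r`, and use orthogonality of characters (`DirichletCharacter.sum_char_inv_mul_char_eq`):
`∑_χ |∑_x χ⁻¹(x) B x|^2 = φ(r) ∑_{x coprime to r} |B x|^2`.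
-/

set_option autoImplicit false

namespace Pool.Agent.EC

open Finset

theorem lsg_sum_zmod {M : Type*} [AddCommMonoid M] (p : ℕ) [NeZero p] (f : ZMod p → M) :
    ∑ x : ZMod p, f x = ∑ b ∈ range p, f (b : ZMod p) := by
  refine Finset.sum_nbij' (fun x => x.val) (fun b => (b : ZMod p)) ?_ ?_ ?_ ?_ ?_
  · intro x _
    exact mem_range.mpr (ZMod.val_lt x)
  · intro b _
    exact mem_univ _
  · intro x _
    exact ZMod.natCast_zmod_val x
  · intro b hb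
    exact ZMod.val_cast_of_lt (mem_range.mp hb)
  · intro x _
    rw [ZMod.natCast_zmod_val]

theorem lsg_e (r : ℕ) [NeZero r] (n b : ℕ) :
    ZMod.stdAddChar (((n : ℕ) : ZMod r) * ((b : ℕ) : ZMod r)) = LibLS.e (n * ((b : ℝ) / r)) := by
  have h1 : ((n : ZMod r) * (b : ZMod r)) = (((n * b : ℕ) : ℤ) : ZMod r) := by push_cast; ring
  rw [h1, ZMod.stdAddChar_coe]
  unfold LibLS.e
  congr 1
  push_cast
  ring

/-- the inverse of a primitive character is primitive -/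
theorem isPrimitive_inv {r : ℕ} {χ : DirichletCharacter ℂ r} (h : χ.IsPrimitive) :
    (χ⁻¹).IsPrimitive := by
  have e : (χ⁻¹).conductorSet = χ.conductorSet := by
    ext d
    simp only [DirichletCharacter.mem_conductorSet_iff, DirichletCharacter.FactorsThrough]
    constructor
    · rintro ⟨hd, χ₀, h0⟩
      exact ⟨hd, χ₀⁻¹, by rw [map_inv, ← h0, inv_inv]⟩
    · rintro ⟨hd, χ₀, h0⟩
      exact ⟨hd, χ₀⁻¹, by rw [map_inv, ← h0]⟩
  rw [DirichletCharacter.isPrimitive_def] at h ⊢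
  unfold DirichletCharacter.conductor at h ⊢
  rw [e, h]

theorem lsg_gauss {r : ℕ} [NeZero r] {χ : DirichletCharacter ℂ r} (h : χ.IsPrimitive) (n : ZMod r) :
    ∑ x : ZMod r, χ x * ZMod.stdAddChar (n * x) = χ⁻¹ n * gaussSum χ (ZMod.stdAddChar (N := r)) := by
  rw [← gaussSum_mulShift_of_isPrimitive _ h]
  unfold gaussSum
  rfl

theorem lsg_orth (r : ℕ) [NeZero r] (f : ZMod r → ℂ) :
    ∑ n : ZMod r, ((‖∑ x : ZMod r, f x * ZMod.stdAddChar (n * x)‖ ^ 2 : ℝ) : ℂ) =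
      r * ∑ x : ZMod r, ((‖f x‖ ^ 2 : ℝ) : ℂ) := by
  have h1 : ∀ n : ZMod r, ((‖∑ x : ZMod r, f x * ZMod.stdAddChar (n * x)‖ ^ 2 : ℝ) : ℂ) =
      ∑ x : ZMod r, ∑ y : ZMod r, f x * star (f y) * ZMod.stdAddChar (n * (x - y)) := by
    intro n
    rw [← Complex.normSq_eq_norm_sq, ← Complex.mul_conj, map_sum, sum_mul_sum]
    refine sum_congr rfl fun x _ => sum_congr rfl fun y _ => ?_
    have h2 : (starRingEnd ℂ) (ZMod.stdAddChar (n * y)) = ZMod.stdAddChar (-(n * y)) := by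
      rw [AddChar.map_neg_eq_conj]
    rw [map_mul (starRingEnd ℂ), h2, mul_sub, sub_eq_add_neg, AddChar.map_add_eq_mul]
    rw [RCLike.star_def]
    ring
  rw [sum_congr rfl fun n _ => h1 n, sum_comm, mul_sum]
  refine sum_congr rfl fun x _ => ?_
  rw [sum_comm]
  have h3 : ∀ y ∈ univ (α := ZMod r), ∑ n : ZMod r, f x * star (f y) * ZMod.stdAddChar (n * (x - y)) =
      if y = x then f x * star (f y) * r else 0 := by
    intro y _
    rw [← mul_sum, AddChar.sum_mulShift (x - y) (ZMod.isPrimitive_stdAddChar r), ZMod.card]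
    by_cases hxy : y = x
    · rw [if_pos hxy, if_pos (by rw [hxy, sub_self])]
    · rw [if_neg hxy, if_neg (fun h => hxy (sub_eq_zero.mp h).symm)]
      simp
  rw [sum_congr rfl h3, sum_ite_eq' univ x]
  rw [if_pos (mem_univ x), ← Complex.normSq_eq_norm_sq, ← Complex.mul_conj, RCLike.star_def]
  ring

theorem lsg_norm_tau {r : ℕ} [NeZero r] {χ : DirichletCharacter ℂ r} (h : χ.IsPrimitive) :
    ‖gaussSum χ (ZMod.stdAddChar (N := r))‖ ^ 2 = r := by
  have h1 := lsg_orth r (fun x => χ x)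
  have h2 : ∀ n : ZMod r, ‖∑ x : ZMod r, χ x * ZMod.stdAddChar (n * x)‖ ^ 2 =
      ‖χ n‖ ^ 2 * ‖gaussSum χ (ZMod.stdAddChar (N := r))‖ ^ 2 := by
    intro n
    rw [lsg_gauss h, norm_mul, mul_pow, ← MulChar.star_apply', norm_star]
  have h3 : ∑ n : ZMod r, ‖χ n‖ ^ 2 * ‖gaussSum χ (ZMod.stdAddChar (N := r))‖ ^ 2 =
      r * ∑ x : ZMod r, ‖χ x‖ ^ 2 := by
    have h4 : ((∑ n : ZMod r, ‖χ n‖ ^ 2 * ‖gaussSum χ (ZMod.stdAddChar (N := r))‖ ^ 2 : ℝ) : ℂ) =
        ((r * ∑ x : ZMod r, ‖χ x‖ ^ 2 : ℝ) : ℂ) := by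
      rw [Complex.ofReal_sum, Complex.ofReal_mul, Complex.ofReal_sum, Complex.ofReal_natCast, ← h1]
      exact sum_congr rfl fun n _ => by rw [h2]
    exact_mod_cast h4
  rw [← sum_mul] at h3
  have hpos : 0 < ∑ x : ZMod r, ‖χ x‖ ^ 2 := by
    refine sum_pos' (fun _ _ => by positivity) ⟨1, mem_univ _, ?_⟩
    rw [map_one, norm_one]
    norm_num
  have h5 : (∑ x : ZMod r, ‖χ x‖ ^ 2) * ‖gaussSum χ (ZMod.stdAddChar (N := r))‖ ^ 2 =
      (∑ x : ZMod r, ‖χ x‖ ^ 2) * r := by rw [h3, mul_comm]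
  exact mul_left_cancel₀ hpos.ne' h5

theorem lsg_inv_apply {r : ℕ} (χ : DirichletCharacter ℂ r) (x : ZMod r) (hx : IsUnit x) :
    χ⁻¹ x = χ x⁻¹ := by
  obtain ⟨u, rfl⟩ := hx
  rw [MulChar.inv_apply, Ring.inverse_unit, ZMod.inv_coe_unit]

/-- orthogonality over all characters -/
theorem lsg_all (r : ℕ) [NeZero r] (B : ZMod r → ℂ) :
    ∑ χ : DirichletCharacter ℂ r, ‖∑ x : ZMod r, χ⁻¹ x * B x‖ ^ 2 =
      r.totient * ∑ x ∈ univ.filter (fun x : ZMod r => IsUnit x), ‖B x‖ ^ 2 := by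
  have h1 : ∀ χ : DirichletCharacter ℂ r, ((‖∑ x : ZMod r, χ⁻¹ x * B x‖ ^ 2 : ℝ) : ℂ) =
      ∑ x : ZMod r, ∑ y : ZMod r, B x * star (B y) * (χ⁻¹ x * χ y) := by
    intro χ
    rw [← Complex.normSq_eq_norm_sq, ← Complex.mul_conj, map_sum, sum_mul_sum]
    refine sum_congr rfl fun x _ => sum_congr rfl fun y _ => ?_
    have h2 : (starRingEnd ℂ) (χ⁻¹ y) = χ y := by
      have := MulChar.star_apply' χ⁻¹ y
      rw [inv_inv] at this
      exact this
    rw [map_mul (starRingEnd ℂ), h2, RCLike.star_def]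
    ring
  have h4 : ((∑ χ : DirichletCharacter ℂ r, ‖∑ x : ZMod r, χ⁻¹ x * B x‖ ^ 2 : ℝ) : ℂ) =
      ((r.totient * ∑ x ∈ univ.filter (fun x : ZMod r => IsUnit x), ‖B x‖ ^ 2 : ℝ) : ℂ) := by
    rw [Complex.ofReal_sum, sum_congr rfl fun χ _ => h1 χ, sum_comm, Complex.ofReal_mul,
      Complex.ofReal_sum, Complex.ofReal_natCast, mul_sum, sum_filter]
    refine sum_congr rfl fun x _ => ?_
    rw [sum_comm]
    have h3 : ∀ y ∈ univ (α := ZMod r), ∑ χ : DirichletCharacter ℂ r,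
        B x * star (B y) * (χ⁻¹ x * χ y) =
        if x = y then (if IsUnit x then B x * star (B y) * r.totient else 0) else 0 := by
      intro y _
      rw [← mul_sum]
      by_cases hx : IsUnit x
      · rw [if_pos hx]
        have h5 : ∑ χ : DirichletCharacter ℂ r, χ⁻¹ x * χ y =
            ∑ χ : DirichletCharacter ℂ r, χ x⁻¹ * χ y :=
          sum_congr rfl fun χ _ => by rw [lsg_inv_apply χ x hx]
        rw [h5, DirichletCharacter.sum_char_inv_mul_char_eq ℂ hx y]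
        split_ifs <;> simp
      · rw [if_neg hx]
        have h5 : ∑ χ : DirichletCharacter ℂ r, χ⁻¹ x * χ y = 0 :=
          sum_eq_zero fun χ _ => by rw [MulChar.map_nonunit _ hx, zero_mul]
        rw [h5]
        simp
    rw [sum_congr rfl h3, sum_ite_eq univ x, if_pos (mem_univ x)]
    split_ifs
    · rw [← Complex.normSq_eq_norm_sq, ← Complex.mul_conj, RCLike.star_def]
      ring
    · rfl
  exact_mod_cast h4

theorem lsg_cop (r : ℕ) [NeZero r] (f : ZMod r → ℝ) :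
    ∑ x ∈ univ.filter (fun x : ZMod r => IsUnit x), f x = ∑ x ∈ cop r, f (x : ZMod r) := by
  rw [sum_filter, lsg_sum_zmod, cop, sum_filter]
  refine sum_congr rfl fun x _ => ?_
  by_cases hx : x.Coprime r
  · rw [if_pos hx, if_pos ((ZMod.isUnit_iff_coprime x r).mpr hx)]
  · rw [if_neg hx, if_neg (fun h => hx ((ZMod.isUnit_iff_coprime x r).mp h))]

theorem lsg (r N : ℕ) (hr : 1 ≤ r) (b : ℕ → ℂ) :
    ((r : ℝ) / r.totient) * ∑ χ ∈ prm r, ‖∑ n ∈ range N, b n * χ (n : ZMod r)‖ ^ 2 ≤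
      ∑ x ∈ cop r, ‖∑ n ∈ range N, b n * LibLS.e (n * ((x : ℝ) / r))‖ ^ 2 := by
  haveI : NeZero r := ⟨by omega⟩
  have hφ : (0 : ℝ) < r.totient := by exact_mod_cast Nat.totient_pos.mpr hr
  set B : ZMod r → ℂ := fun x => ∑ n ∈ range N, b n * ZMod.stdAddChar ((n : ZMod r) * x) with hB
  have h1 : ∀ χ ∈ prm r, (r : ℝ) * ‖∑ n ∈ range N, b n * χ (n : ZMod r)‖ ^ 2 =
      ‖∑ x : ZMod r, χ⁻¹ x * B x‖ ^ 2 := by
    intro χ hχ
    have hp : (χ⁻¹).IsPrimitive := isPrimitive_inv (by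
      classical
      exact (mem_filter.mp hχ).2)
    rw [← lsg_norm_tau hp, ← mul_pow, ← norm_mul, mul_sum]
    congr 2
    have h2 : ∀ n ∈ range N, gaussSum χ⁻¹ (ZMod.stdAddChar (N := r)) * (b n * χ (n : ZMod r)) =
        ∑ x : ZMod r, χ⁻¹ x * (b n * ZMod.stdAddChar ((n : ZMod r) * x)) := by
      intro n _
      have h3 := lsg_gauss hp (n : ZMod r)
      rw [inv_inv] at h3
      calc gaussSum χ⁻¹ (ZMod.stdAddChar (N := r)) * (b n * χ (n : ZMod r))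
          = b n * (χ (n : ZMod r) * gaussSum χ⁻¹ (ZMod.stdAddChar (N := r))) := by ring
        _ = b n * ∑ x : ZMod r, χ⁻¹ x * ZMod.stdAddChar ((n : ZMod r) * x) := by rw [h3]
        _ = _ := by
          rw [mul_sum]
          exact sum_congr rfl fun x _ => by ring
    rw [sum_congr rfl h2, sum_comm]
    refine sum_congr rfl fun x _ => ?_
    rw [hB, mul_sum]
  have h2 : (r : ℝ) * ∑ χ ∈ prm r, ‖∑ n ∈ range N, b n * χ (n : ZMod r)‖ ^ 2 ≤
      r.totient * ∑ x ∈ cop r, ‖∑ n ∈ range N, b n * LibLS.e (n * ((x : ℝ) / r))‖ ^ 2 := by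
    rw [mul_sum, sum_congr rfl h1]
    have h3 : ∑ χ ∈ prm r, ‖∑ x : ZMod r, χ⁻¹ x * B x‖ ^ 2 ≤
        ∑ χ : DirichletCharacter ℂ r, ‖∑ x : ZMod r, χ⁻¹ x * B x‖ ^ 2 :=
      sum_le_sum_of_subset_of_nonneg (subset_univ _) fun _ _ _ => by positivity
    refine h3.trans ?_
    rw [lsg_all, lsg_cop]
    refine le_of_eq ?_
    congr 1
    refine sum_congr rfl fun x _ => ?_
    rw [hB]
    congr 2
    refine sum_congr rfl fun n _ => ?_
    rw [lsg_e]
  rw [div_mul_eq_mul_div, div_le_iff₀ hφ]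
  linarith

end Pool.Agent.EC
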