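import Pool.Agent.Lib_MP_f1a94e_eck.Lsa
import Pool.Agent.Lib_MP_f1a94e_eck.Lsg

/-!
# LSM: the multiplicative large sieve (proved from LSA and LSG)
-/

set_option autoImplicit false

namespace Pool.Agent.EC

open Finset

theorem lsm : ∃ C : ℝ, 0 < C ∧ ∀ (Q N : ℕ) (b : ℕ → ℂ), 1 ≤ Q →
    ∑ r ∈ Icc 1 Q, ((r : ℝ) / r.totient) *
        ∑ χ ∈ prm r, ‖∑ n ∈ range N, b n * χ (n : ZMod r)‖ ^ 2 ≤
      C * (N + (Q : ℝ) ^ 2) * ∑ n ∈ range N, ‖b n‖ ^ 2 := by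
  obtain ⟨C, hC, h⟩ := lsa
  refine ⟨C, hC, fun Q N b hQ => le_trans (sum_le_sum fun r hr => ?_) (h Q N b hQ)⟩
  exact lsg r N (mem_Icc.mp hr).1 b

end Pool.Agent.EC
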