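import Pool.Agent.Lib_MP_f1a94e_eck.KDefs2
import Pool.Agent.Lib_MP_f1a94e_eck.Bij

/-!
# Piece ORTHC: mean square over the residues prime to `D`

PROOF. For `r ∣ D`, `χ ∈ prm r` and `c` prime to `D`: `χ(c) = (changeLevel χ)(c)`. The characters `changeLevel χ` modulo `D` of different pairs `(r, χ)` (`χ` primitive) are different
(`conductor_changeLevel`, `changeLevel_injective`). Expand the square and use orthogonality over the units: `∑_{c ∈ cop D} X(c) conj X'(c) = φ(D)` if `X = X'`, `0` otherwise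
(`MulChar.sum_eq_zero_of_ne_one` for `X * X'⁻¹`; sum over `cop D` = sum over `ZMod D` since the non units give zero). Reindexing `cop D` by `ZMod D`: `ZMod.natCast`, `ZMod.val`.
-/

set_option autoImplicit false

namespace Pool.Agent.EC

open Finset

theorem orthc_sum_range {D : ℕ} [NeZero D] (f : ZMod D → ℂ) :
    ∑ c ∈ range D, f (c : ZMod D) = ∑ a : ZMod D, f a := by
  refine Finset.sum_bij' (fun c _ => (c : ZMod D)) (fun a _ => a.val) ?_ ?_ ?_ ?_ ?_
  · intro c _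
    exact mem_univ _
  · intro a _
    exact mem_range.2 (ZMod.val_lt a)
  · intro c hc
    exact ZMod.val_cast_of_lt (mem_range.1 hc)
  · intro a _
    exact ZMod.natCast_zmod_val a
  · intro c _
    rfl

theorem orthc_sum_cop {D : ℕ} [NeZero D] (X : DirichletCharacter ℂ D) :
    ∑ c ∈ cop D, X (c : ZMod D) = if X = 1 then (D.totient : ℂ) else 0 := by
  have h1 : ∑ c ∈ cop D, X (c : ZMod D) = ∑ c ∈ range D, X (c : ZMod D) := by
    unfold cop
    refine Finset.sum_filter_of_ne fun c _ hc => ?_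
    by_contra hcop
    apply hc
    refine MulChar.map_nonunit X ?_
    rwa [ZMod.isUnit_iff_coprime]
  rw [h1, orthc_sum_range (fun a => X a)]
  split_ifs with h
  · rw [h, MulChar.sum_one_eq_card_units, ZMod.card_units_eq_totient]
  · exact MulChar.sum_eq_zero_of_ne_one h

theorem orthc_orth {D : ℕ} [NeZero D] (X Y : DirichletCharacter ℂ D) :
    ∑ c ∈ cop D, X (c : ZMod D) * star (Y (c : ZMod D)) = if X = Y then (D.totient : ℂ) else 0 := by
  have h1 : ∀ c ∈ cop D, X (c : ZMod D) * star (Y (c : ZMod D)) = (X * Y⁻¹) (c : ZMod D) := by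
    intro c _
    rw [MulChar.star_apply', MulChar.mul_apply]
  rw [Finset.sum_congr rfl h1, orthc_sum_cop]
  by_cases h : X = Y
  · rw [if_pos h, if_pos (by rw [h]; exact mul_inv_cancel Y)]
  · rw [if_neg h, if_neg fun h2 => h (mul_inv_eq_one.1 h2)]

theorem orthc_apply {D : ℕ} {x : (r : ℕ) × DirichletCharacter ℂ r} (h : x.1 ∣ D) {c : ℕ}
    (hc : c.Coprime D) : x.2 (c : ZMod x.1) = bij_up D x (c : ZMod D) := by
  have hco : IsCoprime (c : ℤ) (D : ℤ) := Nat.isCoprime_iff_coprime.2 hc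
  have h1 := DirichletCharacter.changeLevel_eq_cast_of_dvd' x.2 h hco
  rw [Int.cast_natCast, Int.cast_natCast] at h1
  rw [bij_up_of h, h1]

theorem orthc (a : ℕ → ℝ) (N D : ℕ) (hD : 1 ≤ D) (s : Finset ℕ) (hs : ∀ r ∈ s, r ∣ D) :
    ∑ c ∈ cop D, ‖∑ r ∈ s, Psi a N r (c : ℤ)‖ ^ 2 =
      (D.totient : ℝ) * ∑ r ∈ s, ∑ χ ∈ prm r, ‖SS a N χ‖ ^ 4 := by
  classical
  have hD0 : NeZero D := ⟨by omega⟩
  set T : Finset ((r : ℕ) × DirichletCharacter ℂ r) := s.sigma (fun r => prm r) with hT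
  have hTm : ∀ x ∈ T, x.1 ∣ D ∧ x.2.IsPrimitive := by
    intro x hx
    rw [hT, mem_sigma] at hx
    exact ⟨hs _ hx.1, bij_mem_prm.1 hx.2⟩
  have h1 : ∀ c ∈ cop D, ∑ r ∈ s, Psi a N r (c : ℤ) =
      ∑ x ∈ T, bij_up D x (c : ZMod D) * ((‖SS a N x.2‖ ^ 2 : ℝ) : ℂ) := by
    intro c hc
    have hcop : c.Coprime D := (mem_filter.1 hc).2
    unfold Psi
    rw [Finset.sum_sigma' s (fun r => prm r)
      (fun r χ => χ ((c : ℤ) : ZMod r) * ((‖SS a N χ‖ ^ 2 : ℝ) : ℂ))]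
    refine Finset.sum_congr rfl fun x hx => ?_
    rw [Int.cast_natCast, orthc_apply (hTm x hx).1 hcop]
  have h2 : ∀ c ∈ cop D, ((‖∑ r ∈ s, Psi a N r (c : ℤ)‖ ^ 2 : ℝ) : ℂ) =
      ∑ x ∈ T, ∑ y ∈ T, ((‖SS a N x.2‖ ^ 2 : ℝ) : ℂ) * ((‖SS a N y.2‖ ^ 2 : ℝ) : ℂ) *
        (bij_up D x (c : ZMod D) * star (bij_up D y (c : ZMod D))) := by
    intro c hc
    rw [h1 c hc, ← Complex.normSq_eq_norm_sq, Complex.normSq_eq_conj_mul_self, mul_comm, map_sum,
      Finset.sum_mul_sum]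
    refine Finset.sum_congr rfl fun x _ => Finset.sum_congr rfl fun y _ => ?_
    rw [map_mul, Complex.conj_ofReal]
    change _ * (star (bij_up D y (c : ZMod D)) * _) = _
    ring
  have h3 : ((∑ c ∈ cop D, ‖∑ r ∈ s, Psi a N r (c : ℤ)‖ ^ 2 : ℝ) : ℂ) =
      ((D.totient : ℝ) * ∑ r ∈ s, ∑ χ ∈ prm r, ‖SS a N χ‖ ^ 4 : ℝ) := by
    rw [Complex.ofReal_sum, Finset.sum_congr rfl h2, Finset.sum_comm]
    have h4 : ∀ x ∈ T, ∑ c ∈ cop D, ∑ y ∈ T, ((‖SS a N x.2‖ ^ 2 : ℝ) : ℂ) *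
        ((‖SS a N y.2‖ ^ 2 : ℝ) : ℂ) *
        (bij_up D x (c : ZMod D) * star (bij_up D y (c : ZMod D))) =
        (D.totient : ℂ) * ((‖SS a N x.2‖ ^ 4 : ℝ) : ℂ) := by
      intro x hx
      rw [Finset.sum_comm]
      have h5 : ∀ y ∈ T, ∑ c ∈ cop D, ((‖SS a N x.2‖ ^ 2 : ℝ) : ℂ) *
          ((‖SS a N y.2‖ ^ 2 : ℝ) : ℂ) *
          (bij_up D x (c : ZMod D) * star (bij_up D y (c : ZMod D))) =
          if x = y then (D.totient : ℂ) * ((‖SS a N x.2‖ ^ 4 : ℝ) : ℂ) else 0 := by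
        intro y hy
        rw [← Finset.mul_sum, orthc_orth]
        by_cases hxy : x = y
        · subst hxy
          rw [if_pos rfl, if_pos rfl]
          push_cast
          ring
        · rw [if_neg hxy, if_neg, mul_zero]
          intro h
          exact hxy (bij_up_inj (hTm x hx).1 (hTm x hx).2 (hTm y hy).1 (hTm y hy).2 h)
      rw [Finset.sum_congr rfl h5, Finset.sum_ite_eq, if_pos hx]
    rw [Finset.sum_congr rfl h4, ← Finset.mul_sum]
    push_cast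
    rw [Finset.sum_sigma' s (fun r => prm r) (fun r χ => (‖SS a N χ‖ : ℂ) ^ 4)]
  exact_mod_cast h3

end Pool.Agent.EC
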