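import Pool.Agent.Lib_MP_f1a94e_eck.PhiA

/-!
# Piece PHIB: sums of the reciprocal of Euler's function

PROOF. By `phi_sq` `1/φ(t) ≤ √2 / √t`. `phi_tail`: `∑_{t > R} √2 t^(-3/2) ≤ 3/√R` (telescoping: `t^(-3/2) ≤ 2 (1/√(t-1) - 1/√t)`).
`phi_sum`: by `phi_id` `1/φ(m) = (1/m) gR m m`, so `∑_{m ≤ X} 1/φ(m) ≤ ∑_{t ≤ X} (1/φ(t)) ∑_{m ≤ X, t ∣ m} 1/m ≤ (∑_t 1/(t φ(t))) (1 + log X)`
(`harmonic_le_one_add_log`).
-/

set_option autoImplicit false

namespace Pool.Agent.EC

open Finset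

/-- one step of the telescoping sum -/
theorem phib_step (n : ℕ) (hn : 1 ≤ n) :
    1 / (((n + 1 : ℕ) : ℝ) * (n + 1).totient) ≤ 2 * √2 * (1 / √(n : ℝ) - 1 / √((n + 1 : ℕ) : ℝ)) := by
  set s := √((n + 1 : ℕ) : ℝ) with hs
  set r := √(n : ℝ) with hr
  have hn1 : (1 : ℝ) ≤ n := by exact_mod_cast hn
  have hr0 : 0 < r := Real.sqrt_pos.mpr (by linarith)
  have hs0 : 0 < s := Real.sqrt_pos.mpr (by positivity)
  have hs2 : s ^ 2 = ((n + 1 : ℕ) : ℝ) := Real.sq_sqrt (by positivity)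
  have hr2 : r ^ 2 = (n : ℝ) := Real.sq_sqrt (by positivity)
  have hsr : s ^ 2 - r ^ 2 = 1 := by
    rw [hs2, hr2]
    push_cast
    ring
  have hrs : r ≤ s := by
    apply Real.sqrt_le_sqrt
    push_cast
    linarith
  have hφ0 : (0 : ℝ) < (n + 1).totient := by exact_mod_cast Nat.totient_pos.mpr (by omega)
  set f : ℝ := ((n + 1).totient : ℝ) with hf
  have h2 : √2 ^ 2 = (2 : ℝ) := Real.sq_sqrt (by norm_num)
  have h20 : (0 : ℝ) < √2 := by positivity
  have hφ : s ≤ √2 * f := by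
    have h := phi_sq (n + 1)
    have h1 : ((n + 1 : ℕ) : ℝ) ≤ 2 * f ^ 2 := by
      rw [hf]
      exact_mod_cast h
    have h3 : s ^ 2 ≤ (√2 * f) ^ 2 := by
      rw [mul_pow, h2, hs2]
      exact h1
    exact (pow_le_pow_iff_left₀ hs0.le (by positivity) two_ne_zero).mp h3
  have e1 : 1 / r - 1 / s = 1 / (r * s * (s + r)) := by
    field_simp
    nlinarith
  rw [← hs2, e1]
  have e2 : 1 / (s ^ 2 * f) ≤ √2 / s ^ 3 := by
    rw [div_le_div_iff₀ (by positivity) (by positivity)]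
    nlinarith [mul_le_mul_of_nonneg_left hφ (sq_nonneg s)]
  refine e2.trans ?_
  have e3 : 2 * √2 * (1 / (r * s * (s + r))) = √2 * (2 / (r * s * (s + r))) := by ring
  rw [e3, div_eq_mul_inv]
  refine mul_le_mul_of_nonneg_left ?_ h20.le
  rw [inv_eq_one_div, div_le_div_iff₀ (by positivity) (by positivity)]
  have h4 : r * s * (s + r) ≤ s * s * (s + s) := by
    gcongr
  nlinarith

theorem phi_tail (R X : ℕ) (hR : 1 ≤ R) :
    ∑ t ∈ Ioc R X, 1 / ((t : ℝ) * t.totient) ≤ 3 / √R := by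
  rcases le_total X R with h | h
  · rw [Ioc_eq_empty_of_le h, sum_empty]
    positivity
  · have hR0 : (0 : ℝ) < √R := Real.sqrt_pos.mpr (by exact_mod_cast hR)
    have key : ∑ t ∈ Ioc R X, 1 / ((t : ℝ) * t.totient) ≤ 2 * √2 * (1 / √(R : ℝ) - 1 / √(X : ℝ)) := by
      induction X, h using Nat.le_induction with
      | base => simp
      | succ n hn ih =>
        rw [sum_Ioc_succ_top hn]
        have := phib_step n (by omega)
        linarith
    have h2 : √2 ≤ 3 / 2 := by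
      rw [Real.sqrt_le_left (by norm_num)]
      norm_num
    have h3 : 0 ≤ 1 / √(X : ℝ) := by positivity
    have h4 : 0 < 1 / √(R : ℝ) := by positivity
    have h5 : (3 : ℝ) / √R = 3 * (1 / √R) := by ring
    rw [h5]
    have h20 : (0 : ℝ) < √2 := by positivity
    nlinarith [mul_nonneg h20.le h3]

theorem phi_sum : ∃ C : ℝ, 0 < C ∧ ∀ X : ℕ, 1 ≤ X →
    ∑ m ∈ Icc 1 X, 1 / (m.totient : ℝ) ≤ C * (1 + Real.log X) := by
  refine ⟨4, by norm_num, fun X hX => ?_⟩
  have hlog : 0 ≤ Real.log X := Real.log_natCast_nonneg X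
  -- the multiples
  have hmul : ∀ t ∈ Icc 1 X, ∑ m ∈ (Icc 1 X).filter (fun m => t ∣ m), 1 / (m : ℝ)
      ≤ (1 / (t : ℝ)) * (1 + Real.log X) := by
    intro t ht
    rw [mem_Icc] at ht
    have ht0 : 0 < t := by omega
    have h1 : (Icc 1 X).filter (fun m => t ∣ m) ⊆ (Icc 1 X).image (fun k => t * k) := by
      intro m hm
      rw [mem_filter, mem_Icc] at hm
      obtain ⟨⟨h1, h2⟩, k, rfl⟩ := hm
      rw [mem_image]
      refine ⟨k, ?_, rfl⟩
      rw [mem_Icc]
      have hk0 : k ≠ 0 := by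
        rintro rfl
        omega
      have hkk : k ≤ t * k := Nat.le_mul_of_pos_left k ht0
      omega
    calc ∑ m ∈ (Icc 1 X).filter (fun m => t ∣ m), 1 / (m : ℝ)
        ≤ ∑ m ∈ (Icc 1 X).image (fun k => t * k), 1 / (m : ℝ) :=
          sum_le_sum_of_subset_of_nonneg h1 fun m _ _ => by positivity
      _ = ∑ k ∈ Icc 1 X, 1 / ((t * k : ℕ) : ℝ) := by
          rw [sum_image]
          intro a _ b _ hab
          exact Nat.eq_of_mul_eq_mul_left ht0 hab
      _ = (1 / (t : ℝ)) * ∑ k ∈ Icc 1 X, ((k : ℝ))⁻¹ := by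
          rw [mul_sum]
          refine sum_congr rfl fun k _ => ?_
          push_cast
          rw [one_div_mul_eq_div, one_div, mul_inv, div_eq_mul_inv, mul_comm]
      _ ≤ (1 / (t : ℝ)) * (1 + Real.log X) := by
          refine mul_le_mul_of_nonneg_left ?_ (by positivity)
          have h := harmonic_le_one_add_log X
          rw [harmonic_eq_sum_Icc] at h
          push_cast at h
          exact h
  have hid : ∀ m ∈ Icc 1 X, 1 / (m.totient : ℝ)
      ≤ ∑ t ∈ Icc 1 X, if t ∣ m then (1 / (m : ℝ)) * (1 / (t.totient : ℝ)) else 0 := by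
    intro m hm
    rw [mem_Icc] at hm
    have hm0 : (0 : ℝ) < m := by exact_mod_cast hm.1
    have h := phi_id m hm.1
    have h1 : 1 / (m.totient : ℝ) = (1 / (m : ℝ)) * gR m m := by
      rw [← h]
      field_simp
    rw [h1, gR, mul_sum, ← sum_filter]
    refine sum_le_sum_of_subset_of_nonneg ?_ fun t _ _ => by positivity
    intro t ht
    rw [mem_filter, mem_Icc] at ht
    rw [mem_filter, mem_Icc]
    exact ⟨⟨ht.1.1, ht.1.2.trans hm.2⟩, ht.2.1⟩
  calc ∑ m ∈ Icc 1 X, 1 / (m.totient : ℝ)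
      ≤ ∑ m ∈ Icc 1 X, ∑ t ∈ Icc 1 X, (if t ∣ m then (1 / (m : ℝ)) * (1 / (t.totient : ℝ)) else 0) :=
        sum_le_sum hid
    _ = ∑ t ∈ Icc 1 X, (1 / (t.totient : ℝ)) * ∑ m ∈ (Icc 1 X).filter (fun m => t ∣ m), 1 / (m : ℝ) := by
        rw [sum_comm]
        refine sum_congr rfl fun t _ => ?_
        rw [← sum_filter, mul_sum]
        refine sum_congr rfl fun m _ => ?_
        ring
    _ ≤ ∑ t ∈ Icc 1 X, (1 / ((t : ℝ) * t.totient)) * (1 + Real.log X) := by
        refine sum_le_sum fun t ht => ?_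
        calc (1 / (t.totient : ℝ)) * ∑ m ∈ (Icc 1 X).filter (fun m => t ∣ m), 1 / (m : ℝ)
            ≤ (1 / (t.totient : ℝ)) * ((1 / (t : ℝ)) * (1 + Real.log X)) :=
              mul_le_mul_of_nonneg_left (hmul t ht) (by positivity)
          _ = (1 / ((t : ℝ) * t.totient)) * (1 + Real.log X) := by
              rw [one_div_mul_eq_div, ← one_div_mul_one_div]
              ring
    _ = (∑ t ∈ Icc 1 X, 1 / ((t : ℝ) * t.totient)) * (1 + Real.log X) := by rw [sum_mul]
    _ ≤ 4 * (1 + Real.log X) := by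
        refine mul_le_mul_of_nonneg_right ?_ (by linarith)
        rw [← Ioc_insert_left hX, sum_insert (by simp)]
        have h := phi_tail 1 X le_rfl
        simp only [Nat.cast_one, Real.sqrt_one, Nat.totient_one, mul_one, div_one] at h ⊢
        linarith

end Pool.Agent.EC
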