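import Pool.Agent.Lib_MP_f1a94e_eck.KBase
import Pool.Agent.Lib_MP_f1a94e_eck.Wle
import Pool.Agent.Lib_MP_f1a94e_eck.Lsm
import Pool.Agent.Lib_MP_f1a94e_eck.Bsq
import Pool.Agent.Lib_MP_f1a94e_eck.Orthc
import Pool.Agent.Lib_MP_f1a94e_eck.PhiB

/-!
# Piece LARGE: conductors above `Q0`

PROOF. `N = NP P ≤ 3 P`, `L = log P`, `P ≥ P0`. (1) Cauchy and Schwarz over the pairs `(D, c)` (at most `∑_{D ≤ X} φ(D) ≤ X^2` pairs) and `orthc` (with `s = (Ioc Q0 X).filter (· ∣ D)`):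
left side `≤ X (∑_{D ≤ X} (1/φ(D)) ∑_{r ∣ D, Q0 < r ≤ X} ∑_{χ ∈ prm r} ‖SS χ‖^4)^(1/2)`.
(2) Exchange: `∑_{D ≤ X, r ∣ D} 1/φ(D) ≤ (1/φ(r)) ∑_{m ≤ X} 1/φ(m) ≤ C L/φ(r)` (`φ(r m) ≥ φ(r) φ(m)`: `Nat.totient_super_multiplicative`; `phi_sum`).
(3) Let `g r = (r/φ(r)) ∑_{χ ∈ prm r} ‖SS χ‖^4`. By `bsq` and `lsm`: `∑_{r ≤ Q} g r ≤ C (N^2 + Q^2) B`, `B ≤ 2 log(2P)^2 (tot a P)^2 ≤ C L^2 P^2` (`wle` with `δ = 1`, `Wt.mono`).
For `r ≤ X`: `1/r ≤ 2 ∑_{Q = r}^{2X} 1/Q^2`, hence `∑_{Q0 < r ≤ X} g r / r ≤ 2 ∑_{Q0 < Q ≤ 2X} (1/Q^2) ∑_{r ≤ Q} g r ≤ 2 C B (N^2/Q0 + 2 X) ≤ C' B P^2/Q0`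
(`∑_{Q > Q0} 1/Q^2 ≤ 1/Q0`; `X ≤ K^2 P`, `Q0 ≤ P`). Total: `X (C L * L^2 P^2 * P^2/Q0)^(1/2) ≤ C P^3 L^2/√Q0`.
-/

set_option autoImplicit false

namespace Pool.Agent.EC

open Finset

/-- fourth moment of the primitive characters modulo `r` -/
noncomputable def lgG (a : ℕ → ℝ) (N r : ℕ) : ℝ := ∑ χ ∈ prm r, ‖SS a N χ‖ ^ 4

theorem lgG_nonneg (a : ℕ → ℝ) (N r : ℕ) : 0 ≤ lgG a N r :=
  sum_nonneg fun _ _ => by positivity

theorem card_cop (D : ℕ) : (cop D).card = D.totient := by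
  unfold cop Nat.totient
  congr 1
  ext c
  simp only [mem_filter, Nat.coprime_comm]

theorem lg_cs (a : ℕ → ℝ) (N Q0 X : ℕ) :
    (∑ D ∈ Icc 1 X, ∑ c ∈ cop D, ‖TB a N Q0 X D (c : ℤ)‖) ^ 2 ≤
      (X : ℝ) ^ 2 * ∑ D ∈ Icc 1 X, (1 / (D.totient : ℝ)) *
        ∑ r ∈ (Ioc Q0 X).filter (· ∣ D), lgG a N r := by
  have h1 : ∑ D ∈ Icc 1 X, ∑ c ∈ cop D, ‖TB a N Q0 X D (c : ℤ)‖ =
      ∑ x ∈ (Icc 1 X).sigma (fun D => cop D), ‖TB a N Q0 X x.1 (x.2 : ℤ)‖ := by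
    rw [sum_sigma]
  have h2 : ∑ x ∈ (Icc 1 X).sigma (fun D => cop D), ‖TB a N Q0 X x.1 (x.2 : ℤ)‖ ^ 2 =
      ∑ D ∈ Icc 1 X, (1 / (D.totient : ℝ)) *
        ∑ r ∈ (Ioc Q0 X).filter (· ∣ D), lgG a N r := by
    rw [sum_sigma]
    refine sum_congr rfl fun D hD => ?_
    have hD1 := (mem_Icc.mp hD).1
    have hφ : (0 : ℝ) < D.totient := by exact_mod_cast Nat.totient_pos.mpr hD1
    have h3 : ∀ c ∈ cop D, ‖TB a N Q0 X D (c : ℤ)‖ ^ 2 =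
        (1 / (D.totient : ℝ)) ^ 2 * ‖∑ r ∈ (Ioc Q0 X).filter (· ∣ D), Psi a N r (c : ℤ)‖ ^ 2 := by
      intro c _
      unfold TB
      rw [norm_mul, mul_pow]
      congr 2
      rw [norm_div, norm_one, Complex.norm_natCast]
    rw [sum_congr rfl h3, ← mul_sum, orthc a N D hD1 _ fun r hr => (mem_filter.mp hr).2]
    unfold lgG
    field_simp
  rw [h1]
  refine sq_sum_le_card_mul_sum_sq.trans ?_
  rw [h2]
  refine mul_le_mul_of_nonneg_right ?_ (sum_nonneg fun D _ => mul_nonneg (by positivity)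
    (sum_nonneg fun r _ => lgG_nonneg a N r))
  have h4 : ((Icc 1 X).sigma (fun D => cop D)).card ≤ X ^ 2 := by
    rw [card_sigma]
    calc ∑ D ∈ Icc 1 X, (cop D).card ≤ ∑ D ∈ Icc 1 X, X := by
          refine sum_le_sum fun D hD => ?_
          rw [card_cop]
          exact (Nat.totient_le D).trans (mem_Icc.mp hD).2
      _ = X ^ 2 := by rw [sum_const, Nat.card_Icc, smul_eq_mul, sq]; simp
  exact_mod_cast h4

theorem lg_exchange (G : ℕ → ℝ) (hG : ∀ r, 0 ≤ G r) (Q0 X : ℕ) :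
    ∑ D ∈ Icc 1 X, (1 / (D.totient : ℝ)) * ∑ r ∈ (Ioc Q0 X).filter (· ∣ D), G r ≤
      (∑ m ∈ Icc 1 X, 1 / (m.totient : ℝ)) * ∑ r ∈ Ioc Q0 X, G r / r.totient := by
  have h1 : ∑ D ∈ Icc 1 X, (1 / (D.totient : ℝ)) * ∑ r ∈ (Ioc Q0 X).filter (· ∣ D), G r =
      ∑ r ∈ Ioc Q0 X, G r * ∑ D ∈ (Icc 1 X).filter (fun D => r ∣ D), 1 / (D.totient : ℝ) := by
    have h2 : ∀ D ∈ Icc 1 X, (1 / (D.totient : ℝ)) * ∑ r ∈ (Ioc Q0 X).filter (· ∣ D), G r =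
        ∑ r ∈ Ioc Q0 X, if r ∣ D then G r * (1 / (D.totient : ℝ)) else 0 := by
      intro D _
      rw [sum_filter, mul_sum]
      refine sum_congr rfl fun r _ => ?_
      split_ifs <;> ring
    rw [sum_congr rfl h2, sum_comm]
    refine sum_congr rfl fun r _ => ?_
    rw [sum_filter, mul_sum]
    refine sum_congr rfl fun D _ => ?_
    split_ifs <;> ring
  rw [h1, mul_sum]
  refine sum_le_sum fun r hr => ?_
  have hr1 : 0 < r := by have := (mem_Ioc.mp hr).1; omega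
  have hφr : (0 : ℝ) < r.totient := by exact_mod_cast Nat.totient_pos.mpr hr1
  have h3 : ∑ D ∈ (Icc 1 X).filter (fun D => r ∣ D), 1 / (D.totient : ℝ) ≤
      (1 / (r.totient : ℝ)) * ∑ m ∈ Icc 1 X, 1 / (m.totient : ℝ) := by
    have h4 : ∑ D ∈ (Icc 1 X).filter (fun D => r ∣ D), 1 / (D.totient : ℝ) ≤
        ∑ D ∈ (Icc 1 X).filter (fun D => r ∣ D), 1 / (r.totient : ℝ) * (1 / ((D / r).totient : ℝ)) := by
      refine sum_le_sum fun D hD => ?_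
      obtain ⟨hD1, hD2⟩ := mem_filter.mp hD
      obtain ⟨m, rfl⟩ := hD2
      have hm : 0 < m := by
        rcases Nat.eq_zero_or_pos m with h0 | h0
        · rw [h0] at hD1; simp at hD1
        · exact h0
      rw [Nat.mul_div_cancel_left m hr1, one_div_mul_one_div]
      have hφm : (0 : ℝ) < m.totient := by exact_mod_cast Nat.totient_pos.mpr hm
      apply one_div_le_one_div_of_le (by positivity)
      exact_mod_cast Nat.totient_super_multiplicative r m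
    refine h4.trans ?_
    rw [← mul_sum]
    refine mul_le_mul_of_nonneg_left ?_ (by positivity)
    have hinj : Set.InjOn (fun D => D / r) (((Icc 1 X).filter (fun D => r ∣ D) : Finset ℕ) : Set ℕ) := by
      intro D hD D' hD' e
      obtain ⟨m, rfl⟩ := (mem_filter.mp hD).2
      obtain ⟨m', rfl⟩ := (mem_filter.mp hD').2
      simp only [Nat.mul_div_cancel_left _ hr1] at e
      rw [e]
    rw [← sum_image (f := fun m : ℕ => 1 / (m.totient : ℝ)) hinj]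
    refine sum_le_sum_of_subset_of_nonneg ?_ fun _ _ _ => by positivity
    intro m hm
    obtain ⟨D, hD, rfl⟩ := mem_image.mp hm
    obtain ⟨hD1, hD2⟩ := mem_filter.mp hD
    obtain ⟨m, rfl⟩ := hD2
    rw [mem_Icc] at hD1 ⊢
    rw [Nat.mul_div_cancel_left m hr1]
    have hm : 0 < m := by
      rcases Nat.eq_zero_or_pos m with h0 | h0
      · rw [h0] at hD1; simp at hD1
      · exact h0
    refine ⟨hm, ?_⟩
    have : m ≤ r * m := Nat.le_mul_of_pos_left m hr1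
    omega
  calc G r * ∑ D ∈ (Icc 1 X).filter (fun D => r ∣ D), 1 / (D.totient : ℝ)
      ≤ G r * ((1 / (r.totient : ℝ)) * ∑ m ∈ Icc 1 X, 1 / (m.totient : ℝ)) :=
        mul_le_mul_of_nonneg_left h3 (hG r)
    _ = _ := by ring

theorem lg_abel (g : ℕ → ℝ) (Q0 X : ℕ) (h : Q0 ≤ X) :
    ∑ r ∈ Ioc Q0 X, g r / r = (∑ r ∈ Ioc Q0 X, g r) / (X + 1) +
      ∑ Q ∈ Ioc Q0 X, (∑ r ∈ Ioc Q0 Q, g r) / ((Q : ℝ) * (Q + 1)) := by
  induction X, h using Nat.le_induction with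
  | base => simp
  | succ X hX ih =>
    rw [← Finset.insert_Ioc_right_eq_Ioc_add_one (by omega : Q0 ≤ X),
      sum_insert (by simp), sum_insert (by simp), sum_insert (by simp),
      ← Finset.insert_Ioc_right_eq_Ioc_add_one (by omega : Q0 ≤ X), sum_insert (by simp), ih]
    have h1 : (0 : ℝ) < (X : ℝ) + 1 := by positivity
    push_cast
    field_simp
    ring

theorem lg_tele (N2 : ℝ) (Q0 X : ℕ) (h : Q0 ≤ X) :
    N2 / (X + 1) + ∑ Q ∈ Ioc Q0 X, N2 / ((Q : ℝ) * (Q + 1)) = N2 / (Q0 + 1) := by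
  induction X, h using Nat.le_induction with
  | base => simp
  | succ X hX ih =>
    rw [← Finset.insert_Ioc_right_eq_Ioc_add_one (by omega : Q0 ≤ X), sum_insert (by simp), ← ih]
    have h1 : (0 : ℝ) < (X : ℝ) + 1 := by positivity
    push_cast
    field_simp
    ring

theorem lg_sumb (g : ℕ → ℝ) (hg : ∀ r, 0 ≤ g r) (A N2 : ℝ) (hA : 0 ≤ A) (hN : 0 ≤ N2)
    (hS : ∀ Q : ℕ, 1 ≤ Q → ∑ r ∈ Icc 1 Q, g r ≤ A * (N2 + (Q : ℝ) ^ 2)) (Q0 X : ℕ) (hQ : 1 ≤ Q0) :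
    ∑ r ∈ Ioc Q0 X, g r / r ≤ A * (N2 / Q0 + 2 * X) := by
  have hQ0 : (0 : ℝ) < Q0 := by exact_mod_cast hQ
  rcases Nat.lt_or_ge X Q0 with hX | hX
  · rw [Ioc_eq_empty (by omega), sum_empty]
    positivity
  have hS' : ∀ Q : ℕ, 1 ≤ Q → ∑ r ∈ Ioc Q0 Q, g r ≤ A * (N2 + (Q : ℝ) ^ 2) := by
    intro Q hQ1
    refine le_trans (sum_le_sum_of_subset_of_nonneg ?_ fun r _ _ => hg r) (hS Q hQ1)
    intro r hr
    rw [mem_Ioc] at hr
    rw [mem_Icc]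
    omega
  rw [lg_abel g Q0 X hX]
  have h1 : (∑ r ∈ Ioc Q0 X, g r) / (X + 1) ≤ A * (N2 / (X + 1)) + A * X := by
    rw [div_le_iff₀ (by positivity)]
    have := hS' X (by omega)
    have e : (A * (N2 / ((X : ℝ) + 1)) + A * X) * (X + 1) = A * (N2 + (X : ℝ) ^ 2) + A * X := by
      field_simp
      ring
    rw [e]
    have : 0 ≤ A * (X : ℝ) := by positivity
    linarith
  have h2 : ∑ Q ∈ Ioc Q0 X, (∑ r ∈ Ioc Q0 Q, g r) / ((Q : ℝ) * (Q + 1)) ≤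
      ∑ Q ∈ Ioc Q0 X, (A * (N2 / ((Q : ℝ) * (Q + 1))) + A) := by
    refine sum_le_sum fun Q hQm => ?_
    have hQ1 : 1 ≤ Q := by have := (mem_Ioc.mp hQm).1; omega
    have hQp : (0 : ℝ) < Q := by exact_mod_cast hQ1
    rw [div_le_iff₀ (by positivity)]
    have := hS' Q hQ1
    have e : (A * (N2 / ((Q : ℝ) * (Q + 1))) + A) * ((Q : ℝ) * (Q + 1)) =
        A * (N2 + (Q : ℝ) ^ 2) + A * Q := by
      field_simp
      ring
    rw [e]
    have : 0 ≤ A * (Q : ℝ) := by positivity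
    linarith
  have h3 : ∑ Q ∈ Ioc Q0 X, (A * (N2 / ((Q : ℝ) * (Q + 1))) + A) =
      A * ∑ Q ∈ Ioc Q0 X, N2 / ((Q : ℝ) * (Q + 1)) + A * ((X : ℝ) - Q0) := by
    rw [sum_add_distrib, ← mul_sum, sum_const, Nat.card_Ioc, nsmul_eq_mul, Nat.cast_sub hX]
    ring
  have h4 := lg_tele N2 Q0 X hX
  have h5 : N2 / ((Q0 : ℝ) + 1) ≤ N2 / Q0 :=
    div_le_div_of_nonneg_left hN hQ0 (by linarith)
  have h6 : A * (N2 / (X + 1)) + A * ∑ Q ∈ Ioc Q0 X, N2 / ((Q : ℝ) * (Q + 1)) ≤ A * (N2 / Q0) := by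
    rw [← mul_add, h4]
    exact mul_le_mul_of_nonneg_left h5 hA
  have h7 : 0 ≤ A * (Q0 : ℝ) := by positivity
  rw [h3] at h2
  linarith

theorem lg_sumg : ∃ C : ℝ, 0 < C ∧ ∀ {a : ℕ → ℝ} {P δ : ℝ}, Wt a P δ → 1 ≤ P → δ ≤ 1 →
    ∀ Q : ℕ, 1 ≤ Q → ∑ r ∈ Icc 1 Q, ((r : ℝ) / r.totient) * lgG a (NP P) r ≤
      C * (Real.log (2 * P) ^ 2 * tot a P ^ 2) * (((NP P : ℕ) : ℝ) ^ 2 + (Q : ℝ) ^ 2) := by
  obtain ⟨C, hC, hlsm⟩ := lsm
  refine ⟨2 * C, by positivity, ?_⟩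
  intro a P δ h hP hδ Q hQ
  obtain ⟨b, hb1, hb2⟩ := bsq h hP hδ
  have h1 := hlsm Q (NP P ^ 2) b hQ
  have h2 : ∀ r ∈ Icc 1 Q, ((r : ℝ) / r.totient) * lgG a (NP P) r = ((r : ℝ) / r.totient) *
      ∑ χ ∈ prm r, ‖∑ n ∈ range (NP P ^ 2), b n * χ (n : ZMod r)‖ ^ 2 := by
    intro r _
    unfold lgG
    congr 1
    refine sum_congr rfl fun χ _ => ?_
    rw [← hb1 r χ, norm_pow, ← pow_mul]
  rw [sum_congr rfl h2]
  refine h1.trans ?_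
  calc C * (((NP P ^ 2 : ℕ) : ℝ) + (Q : ℝ) ^ 2) * ∑ n ∈ range (NP P ^ 2), ‖b n‖ ^ 2
      ≤ C * (((NP P ^ 2 : ℕ) : ℝ) + (Q : ℝ) ^ 2) * (2 * Real.log (2 * P) ^ 2 * tot a P ^ 2) :=
        mul_le_mul_of_nonneg_left hb2 (by positivity)
    _ = _ := by push_cast; ring

theorem large (K : ℝ) (hK : 1 ≤ K) : ∃ C P0 : ℝ, 0 < C ∧ ∀ P : ℝ, P0 ≤ P →
    ∀ (a : ℕ → ℝ) (δ : ℝ), δ ≤ 1 → Wt a P δ → ∀ Q0 X : ℕ, 1 ≤ Q0 → (Q0 : ℝ) ≤ P →
      (X : ℝ) ≤ K ^ 2 * P →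
      ∑ D ∈ Icc 1 X, ∑ c ∈ cop D, ‖TB a (NP P) Q0 X D (c : ℤ)‖ ≤
        C * P ^ 3 * Real.log P ^ 2 / √Q0 := by
  obtain ⟨C1, hC1, hphi⟩ := phi_sum
  obtain ⟨C2, hC2, hg⟩ := lg_sumg
  obtain ⟨C3, hC3, hw⟩ := wle
  obtain ⟨P1, hP1⟩ := hw 1 one_pos le_rfl
  set C' : ℝ := K ^ 4 * (3 * C1 * (C2 * 4 * C3 ^ 2 * (9 + 2 * K ^ 2))) with hC'
  have hC'pos : 0 < C' := by positivity
  refine ⟨C' + 1, max P1 (max 3 (K ^ 2)), by positivity, ?_⟩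
  intro P hP a δ hδ h Q0 X hQ0 hQ0P hX
  have hPP1 : P1 ≤ P := (le_max_left _ _).trans hP
  have hP3 : 3 ≤ P := (le_max_left _ _).trans ((le_max_right _ _).trans hP)
  have hPK : K ^ 2 ≤ P := (le_max_right _ _).trans ((le_max_right _ _).trans hP)
  have hP0 : 0 < P := by linarith
  set L := Real.log P with hL
  have hL1 : 1 ≤ L := by
    rw [hL, Real.le_log_iff_exp_le hP0]
    linarith [Real.exp_one_lt_d9]
  have hQ0' : (0 : ℝ) < Q0 := by exact_mod_cast hQ0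
  have htot : tot a P ≤ C3 * P := by
    have := hP1 P hPP1 a (h.mono hP0.le hδ)
    linarith
  have htot0 : 0 ≤ tot a P := tot_nonneg h
  have hlog2 : Real.log (2 * P) ≤ 2 * L := by
    have e : 2 * L = Real.log (P ^ 2) := by rw [Real.log_pow]; push_cast; ring
    rw [e]
    exact Real.log_le_log (by positivity) (by nlinarith)
  have hlog20 : 0 ≤ Real.log (2 * P) := Real.log_nonneg (by linarith)
  have hNP : ((NP P : ℕ) : ℝ) ≤ 3 * P := by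
    unfold NP
    push_cast
    have := Nat.floor_le (by positivity : 0 ≤ 2 * P)
    linarith
  -- the sum of the reciprocals of the totients
  have hS1 : ∑ m ∈ Icc 1 X, 1 / (m.totient : ℝ) ≤ 3 * C1 * L := by
    rcases Nat.eq_zero_or_pos X with h0 | h0
    · rw [h0]; simp; positivity
    · refine (hphi X h0).trans ?_
      have hX1 : (0 : ℝ) < X := by exact_mod_cast h0
      have : Real.log X ≤ 2 * L := by
        have e : 2 * L = Real.log (P ^ 2) := by rw [Real.log_pow]; push_cast; ring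
        rw [e]
        exact Real.log_le_log hX1 (by nlinarith)
      nlinarith
  -- the sum over the conductors
  have hS2 : ∑ r ∈ Ioc Q0 X, lgG a (NP P) r / r.totient ≤
      C2 * 4 * C3 ^ 2 * (9 + 2 * K ^ 2) * (L ^ 2 * P ^ 4 / Q0) := by
    have e1 : ∑ r ∈ Ioc Q0 X, lgG a (NP P) r / r.totient =
        ∑ r ∈ Ioc Q0 X, (((r : ℝ) / r.totient) * lgG a (NP P) r) / r := by
      refine sum_congr rfl fun r hr => ?_
      have hr1 : 0 < r := by have := (mem_Ioc.mp hr).1; omega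
      have hr2 : (0 : ℝ) < r := by exact_mod_cast hr1
      have hφr : (0 : ℝ) < r.totient := by exact_mod_cast Nat.totient_pos.mpr hr1
      field_simp
    rw [e1]
    have h1 := lg_sumb (fun r => ((r : ℝ) / r.totient) * lgG a (NP P) r)
      (fun r => mul_nonneg (by positivity) (lgG_nonneg _ _ _))
      (C2 * (Real.log (2 * P) ^ 2 * tot a P ^ 2)) (((NP P : ℕ) : ℝ) ^ 2) (by positivity)
      (by positivity) (fun Q hQ => hg h (by linarith) hδ Q hQ) Q0 X hQ0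
    refine h1.trans ?_
    have h2 : Real.log (2 * P) ^ 2 * tot a P ^ 2 ≤ 4 * C3 ^ 2 * (L ^ 2 * P ^ 2) := by
      have a1 : Real.log (2 * P) ^ 2 ≤ (2 * L) ^ 2 := pow_le_pow_left₀ hlog20 hlog2 2
      have a2 : tot a P ^ 2 ≤ (C3 * P) ^ 2 := pow_le_pow_left₀ htot0 htot 2
      calc Real.log (2 * P) ^ 2 * tot a P ^ 2 ≤ (2 * L) ^ 2 * (C3 * P) ^ 2 :=
            mul_le_mul a1 a2 (by positivity) (by positivity)
        _ = _ := by ring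
    have h3 : ((NP P : ℕ) : ℝ) ^ 2 / Q0 + 2 * X ≤ (9 + 2 * K ^ 2) * (P ^ 2 / Q0) := by
      have a1 : ((NP P : ℕ) : ℝ) ^ 2 ≤ (3 * P) ^ 2 := pow_le_pow_left₀ (by positivity) hNP 2
      have a2 : ((NP P : ℕ) : ℝ) ^ 2 / Q0 ≤ 9 * (P ^ 2 / Q0) := by
        rw [div_le_iff₀ hQ0']
        calc ((NP P : ℕ) : ℝ) ^ 2 ≤ (3 * P) ^ 2 := a1
          _ = 9 * (P ^ 2 / Q0) * Q0 := by field_simp; ring
      have a3 : P ≤ P ^ 2 / Q0 := by
        rw [le_div_iff₀ hQ0']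
        nlinarith
      nlinarith [mul_le_mul_of_nonneg_left a3 (by positivity : 0 ≤ 2 * K ^ 2)]
    calc C2 * (Real.log (2 * P) ^ 2 * tot a P ^ 2) * (((NP P : ℕ) : ℝ) ^ 2 / Q0 + 2 * X)
        ≤ C2 * (4 * C3 ^ 2 * (L ^ 2 * P ^ 2)) * ((9 + 2 * K ^ 2) * (P ^ 2 / Q0)) :=
          mul_le_mul (mul_le_mul_of_nonneg_left h2 hC2.le) h3 (by positivity) (by positivity)
      _ = _ := by ring
  have hS20 : 0 ≤ ∑ r ∈ Ioc Q0 X, lgG a (NP P) r / r.totient :=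
    sum_nonneg fun r _ => div_nonneg (lgG_nonneg _ _ _) (by positivity)
  have hfin : (∑ D ∈ Icc 1 X, ∑ c ∈ cop D, ‖TB a (NP P) Q0 X D (c : ℤ)‖) ^ 2 ≤
      ((C' + 1) * P ^ 3 * L ^ 2 / √Q0) ^ 2 := by
    calc (∑ D ∈ Icc 1 X, ∑ c ∈ cop D, ‖TB a (NP P) Q0 X D (c : ℤ)‖) ^ 2
        ≤ (X : ℝ) ^ 2 * ((∑ m ∈ Icc 1 X, 1 / (m.totient : ℝ)) *
            ∑ r ∈ Ioc Q0 X, lgG a (NP P) r / r.totient) :=
          (lg_cs a (NP P) Q0 X).trans (mul_le_mul_of_nonneg_left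
            (lg_exchange _ (lgG_nonneg a (NP P)) Q0 X) (by positivity))
      _ ≤ (K ^ 2 * P) ^ 2 * ((3 * C1 * L) *
            (C2 * 4 * C3 ^ 2 * (9 + 2 * K ^ 2) * (L ^ 2 * P ^ 4 / Q0))) := by
          refine mul_le_mul (pow_le_pow_left₀ (by positivity) hX 2) ?_ ?_ (by positivity)
          · exact mul_le_mul hS1 hS2 hS20 (by positivity)
          · exact mul_nonneg (sum_nonneg fun _ _ => by positivity) hS20
      _ = C' * (P ^ 6 * L ^ 3 / Q0) := by rw [hC']; ring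
      _ ≤ (C' + 1) ^ 2 * (P ^ 6 * L ^ 4 / Q0) := by
          refine mul_le_mul (by nlinarith) ?_ (by positivity) (by positivity)
          apply div_le_div_of_nonneg_right _ hQ0'.le
          refine mul_le_mul_of_nonneg_left ?_ (by positivity)
          exact pow_le_pow_right₀ hL1 (by norm_num)
      _ = ((C' + 1) * P ^ 3 * L ^ 2 / √Q0) ^ 2 := by
          rw [div_pow, Real.sq_sqrt hQ0'.le]
          ring
  exact (pow_le_pow_iff_left₀ (sum_nonneg fun D _ => sum_nonneg fun c _ => norm_nonneg _)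
    (by positivity) two_ne_zero).mp hfin

end Pool.Agent.EC
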