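import Pool.Agent.Lib_MP_f1a94e_eck.KDefs2

/-!
# Piece LIFT: residues prime to `D` over a residue prime to `r`

PROOF. Reindex `cop D` by the units of `ZMod D`, `cop r` by the units of `ZMod r`. The homomorphism `ZMod.unitsMap hr : (ZMod D)ˣ →* (ZMod r)ˣ` is surjective (`ZMod.unitsMap_surjective`), so all
its fibres have `φ(D)/φ(r)` elements (`MonoidHom.card_fiber_eq_of_mem_range` or `card_eq_card_quotient_mul_card_subgroup`), and `(c : ZMod r)` is the image of `c`.
-/

set_option autoImplicit false

namespace Pool.Agent.EC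

open Finset

/-- reindexing by units -/
theorem lift_units (D : ℕ) [NeZero D] (G : ZMod D → ℝ) :
    ∑ c ∈ cop D, G (c : ZMod D) = ∑ u : (ZMod D)ˣ, G (u : ZMod D) := by
  symm
  refine sum_bij (fun (u : (ZMod D)ˣ) _ => (u : ZMod D).val) ?_ ?_ ?_ ?_
  · intro u _
    rw [cop, mem_filter, mem_range]
    refine ⟨ZMod.val_lt _, ?_⟩
    exact ZMod.val_coe_unit_coprime u
  · intro u _ v _ h
    exact Units.ext (ZMod.val_injective D h)
  · intro c hc
    rw [cop, mem_filter, mem_range] at hc
    refine ⟨ZMod.unitOfCoprime c hc.2, mem_univ _, ?_⟩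
    rw [ZMod.coe_unitOfCoprime, ZMod.val_cast_of_lt hc.1]
  · intro u _
    rw [ZMod.natCast_zmod_val]

theorem lift_hom {A B : Type} [Group A] [Group B] [Fintype A] [Fintype B] [DecidableEq B]
    (f : A →* B) (hf : Function.Surjective f) (G : B → ℝ) :
    ∑ x : A, G (f x) = ((Fintype.card A : ℝ) / Fintype.card B) * ∑ y : B, G y := by
  set k := (univ.filter fun x : A => f x = 1).card with hk
  have hfib : ∀ y : B, (univ.filter fun x : A => f x = y).card = k := by
    intro y
    obtain ⟨x0, rfl⟩ := hf y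
    rw [hk]
    apply card_nbij' (fun x => x * x0⁻¹) (fun x => x * x0)
    · intro x hx
      simp only [coe_filter, mem_univ, true_and, Set.mem_ofPred_eq] at hx ⊢
      rw [map_mul, map_inv, hx, mul_inv_cancel]
    · intro x hx
      simp only [coe_filter, mem_univ, true_and, Set.mem_ofPred_eq] at hx ⊢
      rw [map_mul, hx, one_mul]
    · intro x _
      simp
    · intro x _
      simp
  have hcard : Fintype.card A = k * Fintype.card B := by
    have h1 := card_eq_sum_card_fiberwise (f := f) (s := (univ : Finset A)) (t := (univ : Finset B))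
      (fun x _ => mem_coe.mpr (mem_univ _))
    rw [card_univ] at h1
    rw [h1, sum_congr rfl fun y _ => hfib y, sum_const, card_univ, smul_eq_mul, mul_comm]
  have hB : (0 : ℝ) < Fintype.card B := by
    have : 0 < Fintype.card B := Fintype.card_pos_iff.mpr ⟨1⟩
    exact_mod_cast this
  have h2 : ∑ x : A, G (f x) = ∑ y : B, (k : ℝ) * G y := by
    rw [← sum_fiberwise (s := (univ : Finset A)) (g := f)]
    apply sum_congr rfl
    intro y _
    rw [sum_congr rfl (g := fun _ => G y) (fun x hx => by rw [(mem_filter.mp hx).2]), sum_const,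
      hfib y, nsmul_eq_mul]
  rw [h2, ← mul_sum, hcard]
  push_cast
  rw [mul_div_assoc, div_self hB.ne', mul_one]

theorem lift (D r : ℕ) (hD : 1 ≤ D) (hr : r ∣ D) (F : ZMod r → ℝ) :
    ∑ c ∈ cop D, F (c : ZMod r) = ((D.totient : ℝ) / r.totient) * ∑ c ∈ cop r, F (c : ZMod r) := by
  have hD0 : NeZero D := ⟨by omega⟩
  have hr0 : NeZero r := ⟨by
    rintro rfl
    rw [zero_dvd_iff] at hr
    omega⟩
  have h1 : ∑ c ∈ cop D, F (c : ZMod r) =
      ∑ u : (ZMod D)ˣ, F (ZMod.castHom hr (ZMod r) (u : ZMod D)) := by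
    refine Eq.trans ?_ (lift_units D (fun x : ZMod D => F (ZMod.castHom hr (ZMod r) x)))
    apply sum_congr rfl
    intro c _
    simp only [map_natCast]
  rw [h1, lift_units r F]
  have h2 := lift_hom (ZMod.unitsMap hr) (ZMod.unitsMap_surjective hr)
    (fun y : (ZMod r)ˣ => F (y : ZMod r))
  rw [ZMod.card_units_eq_totient, ZMod.card_units_eq_totient] at h2
  rw [← h2]
  apply sum_congr rfl
  intro u _
  rw [ZMod.unitsMap_val]
  rfl

end Pool.Agent.EC
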