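import Pool.Agent.Lib_MP_f1a94e_eck.KDefs2
import Pool.Agent.Lib_MP_c1fc80_nt.LargeSieve

/-!
# Piece LSA: the additive large sieve for the Farey fractions of order `Q`

PROOF. The points `x / r` (`1 ≤ r ≤ Q`, `x ∈ cop r`) are distinct modulo one and any two of them have distance at least `1/(r r') ≥ 1/Q^2` modulo one: they are `LibLS.Spaced` with
`δ = 1/Q^2`. Index set: the finset of pairs `(r, x)` (`(Icc 1 Q).sigma cop` or a filter of a product). The dual inequality `LibLS.dual_ineq` and duality give the bound; the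
primal form with coefficients is `aleg_additive` in `Pool/Agent/Lib_MP_f1937f_nt/ALeg.lean` (private there: copy it), see also `aleg_spaced` there for the spacing.
-/

set_option autoImplicit false

namespace Pool.Agent.EC

open Finset

/-- the additive large sieve with complex weights -/
theorem lsa_additive {ι : Type*} (R : Finset ι) (α : ι → ℝ) {δ : ℝ} (hδ : 0 < δ)
    (hsp : LibLS.Spaced R α δ) (M : ℕ) (hM : 1 / δ ≤ M) (N : ℕ) (hN : N ≤ M) (a : ℕ → ℂ) :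
    ∑ r ∈ R, ‖∑ n ∈ range N, a n * LibLS.e (n * α r)‖ ^ 2 ≤
      9 * M * ∑ n ∈ range N, ‖a n‖ ^ 2 := by
  classical
  set V : ι → ℂ := fun r => ∑ n ∈ range N, a n * LibLS.e (n * α r) with hV
  set X : ℝ := ∑ r ∈ R, ‖V r‖ ^ 2 with hX
  have hX0 : 0 ≤ X := sum_nonneg fun _ _ => by positivity
  have h1 := LibLS.dual_ineq R α (fun r => (starRingEnd ℂ) (V r)) hδ hsp M hM
  simp only [RCLike.norm_conj] at h1
  have h2 : (X : ℂ) = ∑ n ∈ range N, a n * ∑ r ∈ R, (starRingEnd ℂ) (V r) * LibLS.e (n * α r) := by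
    simp_rw [mul_sum]
    rw [sum_comm, hX, Complex.ofReal_sum]
    refine sum_congr rfl fun r _ => ?_
    rw [← Complex.normSq_eq_norm_sq, ← Complex.mul_conj]
    have : V r = ∑ n ∈ range N, a n * LibLS.e (n * α r) := rfl
    calc V r * (starRingEnd ℂ) (V r) =
        (∑ n ∈ range N, a n * LibLS.e (n * α r)) * (starRingEnd ℂ) (V r) := by rw [← this]
      _ = _ := by
        rw [sum_mul]
        refine sum_congr rfl fun n _ => ?_
        ring
  have h3 : X ≤ ∑ n ∈ range N, ‖a n‖ * ‖∑ r ∈ R, (starRingEnd ℂ) (V r) * LibLS.e (n * α r)‖ := by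
    have : X = ‖(X : ℂ)‖ := by rw [Complex.norm_real, Real.norm_of_nonneg hX0]
    rw [this, h2]
    refine (norm_sum_le _ _).trans (sum_le_sum fun n _ => ?_)
    rw [norm_mul]
  have h4 : X ^ 2 ≤ (∑ n ∈ range N, ‖a n‖ ^ 2) * (9 * M * X) := by
    calc X ^ 2 ≤ (∑ n ∈ range N, ‖a n‖ *
            ‖∑ r ∈ R, (starRingEnd ℂ) (V r) * LibLS.e (n * α r)‖) ^ 2 :=
          pow_le_pow_left₀ hX0 h3 2
      _ ≤ (∑ n ∈ range N, ‖a n‖ ^ 2) *
            ∑ n ∈ range N, ‖∑ r ∈ R, (starRingEnd ℂ) (V r) * LibLS.e (n * α r)‖ ^ 2 :=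
          sum_mul_sq_le_sq_mul_sq _ _ _
      _ ≤ (∑ n ∈ range N, ‖a n‖ ^ 2) *
            ∑ n ∈ range M, ‖∑ r ∈ R, (starRingEnd ℂ) (V r) * LibLS.e (n * α r)‖ ^ 2 := by
          refine mul_le_mul_of_nonneg_left ?_ (sum_nonneg fun _ _ => by positivity)
          exact sum_le_sum_of_subset_of_nonneg (range_subset_range.mpr hN)
            (fun _ _ _ => by positivity)
      _ ≤ (∑ n ∈ range N, ‖a n‖ ^ 2) * (9 * M * X) :=
          mul_le_mul_of_nonneg_left h1 (sum_nonneg fun _ _ => by positivity)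
  by_cases hX1 : X = 0
  · rw [hX1]
    have : 0 ≤ ∑ n ∈ range N, ‖a n‖ ^ 2 := sum_nonneg fun _ _ => by positivity
    positivity
  · have hXpos : 0 < X := lt_of_le_of_ne hX0 (Ne.symm hX1)
    have h5 : X * X ≤ (9 * M * ∑ n ∈ range N, ‖a n‖ ^ 2) * X := by nlinarith
    exact le_of_mul_le_mul_right h5 hXpos

theorem lsa_mem_cop {r x : ℕ} : x ∈ cop r ↔ x < r ∧ x.Coprime r := by
  simp [cop]

/-- the Farey fractions are spaced -/
theorem lsa_spaced (Q M : ℕ) (hM : 0 < M) (hQM : Q ^ 2 ≤ M) :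
    LibLS.Spaced ((Icc 1 Q).sigma cop) (fun x : (_ : ℕ) × ℕ => (x.2 : ℝ) / x.1) (1 / M) := by
  have hMr : (0 : ℝ) < M := by exact_mod_cast hM
  rintro ⟨q, a⟩ hr ⟨q', a'⟩ hs hne k
  simp only [mem_sigma, mem_Icc, lsa_mem_cop] at hr hs
  obtain ⟨⟨hq, hqQ⟩, ha1, ha2⟩ := hr
  obtain ⟨⟨hq', hqQ'⟩, ha1', ha2'⟩ := hs
  have hq0 : (0 : ℝ) < q := by exact_mod_cast hq
  have hq0' : (0 : ℝ) < q' := by exact_mod_cast hq'
  have hle : (q : ℝ) * q' ≤ M := by
    have h1 : q * q' ≤ M := (Nat.mul_le_mul hqQ hqQ').trans (by rw [← sq]; exact hQM)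
    exact_mod_cast h1
  have h3 : (a : ℝ) / q - a' / q' - k =
      (((a : ℤ) * q' - a' * q - k * q * q' : ℤ) : ℝ) / (q * q') := by
    push_cast
    field_simp
  have h4 : ((a : ℤ) * q' - a' * q - k * q * q') ≠ 0 := by
    intro h0
    have h5 : (q : ℤ) ∣ (a : ℤ) * q' := ⟨a' + k * q', by linear_combination h0⟩
    have h6 : q ∣ a * q' := by exact_mod_cast h5
    have h7 : q ∣ q' := (Nat.Coprime.symm ha2).dvd_of_dvd_mul_left h6
    have h5' : (q' : ℤ) ∣ (a' : ℤ) * q := ⟨a - k * q, by linear_combination -h0⟩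
    have h6' : q' ∣ a' * q := by exact_mod_cast h5'
    have h7' : q' ∣ q := (Nat.Coprime.symm ha2').dvd_of_dvd_mul_left h6'
    have hqq : q = q' := Nat.dvd_antisymm h7 h7'
    subst hqq
    have h8 : (q : ℤ) * ((a : ℤ) - a' - k * q) = 0 := by linear_combination h0
    rcases mul_eq_zero.mp h8 with h9 | h9
    · have : (q : ℤ) ≠ 0 := by exact_mod_cast (by omega : q ≠ 0)
      exact this h9
    · have h10 : (q : ℤ) ∣ (a : ℤ) - a' := ⟨k, by linarith⟩
      have h11 : (a : ℤ) - a' = 0 := by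
        apply Int.eq_zero_of_abs_lt_dvd h10
        rw [abs_lt]
        constructor <;> omega
      apply hne
      have : a = a' := by omega
      rw [this]
  have h5 : (1 : ℝ) ≤ |(((a : ℤ) * q' - a' * q - k * q * q' : ℤ) : ℝ)| := by
    have := Int.one_le_abs h4
    exact_mod_cast this
  beta_reduce
  rw [h3, abs_div, abs_of_pos (mul_pos hq0 hq0')]
  rw [div_le_div_iff₀ hMr (mul_pos hq0 hq0')]
  nlinarith

theorem lsa : ∃ C : ℝ, 0 < C ∧ ∀ (Q N : ℕ) (b : ℕ → ℂ), 1 ≤ Q →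
    ∑ r ∈ Icc 1 Q, ∑ x ∈ cop r, ‖∑ n ∈ range N, b n * LibLS.e (n * ((x : ℝ) / r))‖ ^ 2 ≤
      C * (N + (Q : ℝ) ^ 2) * ∑ n ∈ range N, ‖b n‖ ^ 2 := by
  refine ⟨9, by norm_num, fun Q N b hQ => ?_⟩
  have hM : 0 < N + Q ^ 2 := by positivity
  have hMr : (0 : ℝ) < ((N + Q ^ 2 : ℕ) : ℝ) := by exact_mod_cast hM
  have h := lsa_additive ((Icc 1 Q).sigma cop) (fun x : (_ : ℕ) × ℕ => (x.2 : ℝ) / x.1)
    (δ := 1 / ((N + Q ^ 2 : ℕ) : ℝ)) (by positivity) (lsa_spaced Q (N + Q ^ 2) hM (by omega))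
    (N + Q ^ 2) (by rw [one_div_one_div]) N (by omega) b
  rw [sum_sigma] at h
  push_cast at h
  exact h

end Pool.Agent.EC
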