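import Pool.Agent.Lib_MP_f1a94e_eck.KBase
import Pool.Agent.Lib_MP_f1a94e_eck.Wle
import Pool.Agent.Lib_MP_f1a94e_eck.Bd
import Pool.Agent.Lib_MP_f1a94e_eck.Orthc
import Pool.Agent.Lib_MP_f1a94e_eck.Lift

/-!
# Piece MID: conductors between `R` and `Q0`

PROOF. `N = NP P`. `‖TB a N R Q0 D c‖ ≤ (1/φ(D)) ∑_{R < r ≤ Q0, r ∣ D} ‖Psi a N r c‖`. Exchange sums; by `lift` (`Psi a N r c` depends only on `(c : ZMod r)`)
`∑_{c ∈ cop D} ‖Psi a N r c‖ = (φ(D)/φ(r)) ∑_{c ∈ cop r} ‖Psi a N r c‖`, and by Cauchy and Schwarz (`cop r` has `φ(r)` elements) and `orthc` (`D = r`, `s = {r}`)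
`∑_{c ∈ cop r} ‖Psi a N r c‖ ≤ φ(r) (∑_{χ ∈ prm r} ‖SS χ‖^4)^(1/2) ≤ φ(r) tot a P (∑_{χ ∈ prm r} ‖SS χ‖^2)^(1/2)` (`‖SS χ‖ ≤ tot a P`).
There are at most `X/r` multiples `D` of `r`. So the left side is at most `∑_{R < r ≤ Q0} (X/r) tot a P (x r)^(1/2)`, `x r = ∑_{χ ∈ prm r} ‖SS χ‖^2`, and by Cauchy and Schwarz
`≤ X tot a P (∑_{r > R} 1/r^2)^(1/2) (∑_{r ≤ Q0} x r)^(1/2) ≤ X tot a P (1/√R) (C P tot a P)^(1/2)` (`bd`). Finally `X ≤ K^2 P`, `tot a P ≤ C P` (`wle` with `δ = 1`, `Wt.mono`).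
-/

set_option autoImplicit false

namespace Pool.Agent.EC

open Finset

theorem mid_SS_le {a : ℕ → ℝ} {P δ : ℝ} (h : Wt a P δ) {r : ℕ} (χ : DirichletCharacter ℂ r) :
    ‖SS a (NP P) χ‖ ≤ tot a P := by
  unfold SS tot
  refine (norm_sum_le _ _).trans (sum_le_sum fun p _ => ?_)
  rw [norm_mul, Complex.norm_real, Real.norm_of_nonneg (h.nonneg p)]
  exact mul_le_of_le_one_right (h.nonneg p) (DirichletCharacter.norm_le_one χ _)

theorem mid_card_cop (r : ℕ) : (cop r).card = r.totient := by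
  unfold cop
  rw [Nat.totient_eq_card_coprime]
  congr 1
  ext c
  simp only [mem_filter, mem_range, Nat.coprime_comm]

/-- the residues modulo `r` -/
theorem mid_Y {a : ℕ → ℝ} {P δ : ℝ} (h : Wt a P δ) {r : ℕ} (hr : 1 ≤ r) :
    ∑ c ∈ cop r, ‖Psi a (NP P) r (c : ℤ)‖ ≤
      (r.totient : ℝ) * (tot a P * √(∑ χ ∈ prm r, ‖SS a (NP P) χ‖ ^ 2)) := by
  have h1 := orthc a (NP P) r hr {r} (by simp)
  simp only [sum_singleton] at h1
  have h2 : (∑ c ∈ cop r, ‖Psi a (NP P) r (c : ℤ)‖) ^ 2 ≤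
      ((cop r).card : ℝ) * ∑ c ∈ cop r, ‖Psi a (NP P) r (c : ℤ)‖ ^ 2 :=
    sq_sum_le_card_mul_sum_sq
  rw [mid_card_cop, h1] at h2
  have h3 : ∑ χ ∈ prm r, ‖SS a (NP P) χ‖ ^ 4 ≤
      tot a P ^ 2 * ∑ χ ∈ prm r, ‖SS a (NP P) χ‖ ^ 2 := by
    rw [mul_sum]
    apply sum_le_sum
    intro χ _
    have := pow_le_pow_left₀ (norm_nonneg _) (mid_SS_le h χ) 2
    calc ‖SS a (NP P) χ‖ ^ 4 = ‖SS a (NP P) χ‖ ^ 2 * ‖SS a (NP P) χ‖ ^ 2 := by ring
      _ ≤ _ := mul_le_mul_of_nonneg_right this (by positivity)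
  have hT := tot_nonneg h
  have hx : 0 ≤ ∑ χ ∈ prm r, ‖SS a (NP P) χ‖ ^ 2 := sum_nonneg fun χ _ => by positivity
  refine le_of_pow_le_pow_left₀ two_ne_zero (by positivity) ?_
  calc (∑ c ∈ cop r, ‖Psi a (NP P) r (c : ℤ)‖) ^ 2
      ≤ (r.totient : ℝ) * ((r.totient : ℝ) * ∑ χ ∈ prm r, ‖SS a (NP P) χ‖ ^ 4) := h2
    _ ≤ (r.totient : ℝ) * ((r.totient : ℝ) * (tot a P ^ 2 * ∑ χ ∈ prm r, ‖SS a (NP P) χ‖ ^ 2)) := by
        gcongr
    _ = ((r.totient : ℝ) * (tot a P * √(∑ χ ∈ prm r, ‖SS a (NP P) χ‖ ^ 2))) ^ 2 := by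
        rw [mul_pow, mul_pow, Real.sq_sqrt hx]
        ring

theorem mid_lift (a : ℕ → ℝ) (N D r : ℕ) (hD : 1 ≤ D) (hr : r ∣ D) :
    ∑ c ∈ cop D, ‖Psi a N r (c : ℤ)‖ =
      ((D.totient : ℝ) / r.totient) * ∑ c ∈ cop r, ‖Psi a N r (c : ℤ)‖ := by
  have h := lift D r hD hr
    (fun x => ‖∑ χ ∈ prm r, χ x * ((‖SS a N χ‖ ^ 2 : ℝ) : ℂ)‖)
  simpa only [Psi, Int.cast_natCast] using h

theorem mid_tele (R Q0 : ℕ) (hR : 1 ≤ R) :
    ∑ r ∈ Ioc R Q0, 1 / ((r : ℝ) ^ 2) ≤ 1 / (R : ℝ) := by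
  rcases le_or_gt Q0 R with h | h
  · rw [Ioc_eq_empty_of_le h, sum_empty]
    positivity
  have hR0 : (0 : ℝ) < R := by exact_mod_cast hR
  have key : ∀ Q : ℕ, R ≤ Q → ∑ r ∈ Ioc R Q, 1 / ((r : ℝ) ^ 2) ≤ 1 / (R : ℝ) - 1 / (Q : ℝ) := by
    intro Q hQ
    induction Q, hQ using Nat.le_induction with
    | base => simp
    | succ Q hQ ih =>
      rw [Finset.sum_Ioc_succ_top hQ]
      have hQ0 : (0 : ℝ) < Q := by
        have : 0 < Q := by omega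
        exact_mod_cast this
      have h1 : 1 / (((Q + 1 : ℕ) : ℝ) ^ 2) ≤ 1 / (Q : ℝ) - 1 / ((Q + 1 : ℕ) : ℝ) := by
        push_cast
        rw [div_sub_div _ _ hQ0.ne' (by positivity), div_le_div_iff₀ (by positivity) (by positivity)]
        nlinarith
      linarith
  have hQ0 : (0 : ℝ) ≤ 1 / (Q0 : ℝ) := by positivity
  linarith [key Q0 h.le]

theorem mid_mult (X r : ℕ) :
    (((Icc 1 X).filter (fun D => r ∣ D)).card : ℝ) ≤ X / r := by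
  have h1 : ((Icc 1 X).filter (fun D => r ∣ D)).card = X / r := by
    rw [← Nat.Ioc_filter_dvd_card_eq_div X r]
    congr 1
  rw [h1]
  exact Nat.cast_div_le

theorem mid (K : ℝ) (hK : 1 ≤ K) : ∃ C P0 : ℝ, 0 < C ∧ ∀ P : ℝ, P0 ≤ P →
    ∀ (a : ℕ → ℝ) (δ : ℝ), δ ≤ 1 → Wt a P δ → ∀ R Q0 X : ℕ, 1 ≤ R →
      (Q0 : ℝ) ≤ P ^ (1 / 40 : ℝ) → (X : ℝ) ≤ K ^ 2 * P →
      ∑ D ∈ Icc 1 X, ∑ c ∈ cop D, ‖TB a (NP P) R Q0 D (c : ℤ)‖ ≤ C * P ^ 3 / √R := by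
  obtain ⟨Cw, hCw, hwle⟩ := wle
  obtain ⟨Pw, hPw⟩ := hwle 1 one_pos le_rfl
  obtain ⟨Cb, Pb, hCb, hbd⟩ := bd
  refine ⟨K ^ 2 * Cw * √(Cb * Cw), max (max Pw Pb) 1, by positivity, ?_⟩
  intro P hP a δ hδ h R Q0 X hR hQ0 hX
  have hPw' : Pw ≤ P := ((le_max_left _ _).trans (le_max_left _ _)).trans hP
  have hPb' : Pb ≤ P := ((le_max_right _ _).trans (le_max_left _ _)).trans hP
  have hP1 : 1 ≤ P := (le_max_right _ _).trans hP
  have hP0 : 0 < P := by linarith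
  have hR0 : (0 : ℝ) < R := by exact_mod_cast hR
  have hT0 := tot_nonneg h
  have htot : tot a P ≤ Cw * P := by
    have := hPw P hPw' a (h.mono hP0.le hδ)
    linarith
  set x : ℕ → ℝ := fun r => ∑ χ ∈ prm r, ‖SS a (NP P) χ‖ ^ 2 with hx
  have hx0 : ∀ r, 0 ≤ x r := fun r => sum_nonneg fun χ _ => by positivity
  have hsum : ∑ r ∈ Icc 1 Q0, x r ≤ Cb * P * tot a P := hbd P hPb' Q0 hQ0 a δ hδ h
  -- step 1
  have s1 : ∀ D ∈ Icc 1 X, ∑ c ∈ cop D, ‖TB a (NP P) R Q0 D (c : ℤ)‖ ≤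
      ∑ r ∈ (Ioc R Q0).filter (· ∣ D), tot a P * √(x r) := by
    intro D hD
    have hD1 : 1 ≤ D := (mem_Icc.mp hD).1
    have hφ : (0 : ℝ) < D.totient := by exact_mod_cast Nat.totient_pos.mpr hD1
    calc ∑ c ∈ cop D, ‖TB a (NP P) R Q0 D (c : ℤ)‖
        ≤ ∑ c ∈ cop D, (1 / (D.totient : ℝ)) *
          ∑ r ∈ (Ioc R Q0).filter (· ∣ D), ‖Psi a (NP P) r (c : ℤ)‖ := by
          apply sum_le_sum
          intro c _
          unfold TB
          rw [norm_mul]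
          have e1 : ‖(1 / (D.totient : ℂ))‖ = 1 / (D.totient : ℝ) := by
            rw [norm_div, norm_one, Complex.norm_natCast]
          rw [e1]
          exact mul_le_mul_of_nonneg_left (norm_sum_le _ _) (by positivity)
      _ = ∑ r ∈ (Ioc R Q0).filter (· ∣ D), (1 / (D.totient : ℝ)) *
          ∑ c ∈ cop D, ‖Psi a (NP P) r (c : ℤ)‖ := by
          rw [← mul_sum, sum_comm, mul_sum]
      _ ≤ ∑ r ∈ (Ioc R Q0).filter (· ∣ D), tot a P * √(x r) := by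
          apply sum_le_sum
          intro r hr
          rw [mem_filter, mem_Ioc] at hr
          have hr1 : 1 ≤ r := by omega
          have hφr : (0 : ℝ) < r.totient := by exact_mod_cast Nat.totient_pos.mpr hr1
          rw [mid_lift a (NP P) D r hD1 hr.2]
          have h3 := mid_Y h hr1
          calc 1 / (D.totient : ℝ) * ((D.totient : ℝ) / r.totient *
                ∑ c ∈ cop r, ‖Psi a (NP P) r (c : ℤ)‖)
              = (1 / (r.totient : ℝ)) * ∑ c ∈ cop r, ‖Psi a (NP P) r (c : ℤ)‖ := by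
                field_simp
            _ ≤ (1 / (r.totient : ℝ)) * ((r.totient : ℝ) * (tot a P * √(x r))) :=
                mul_le_mul_of_nonneg_left h3 (by positivity)
            _ = tot a P * √(x r) := by field_simp
  -- step 2
  have s2 : ∑ D ∈ Icc 1 X, ∑ r ∈ (Ioc R Q0).filter (· ∣ D), tot a P * √(x r) ≤
      (X : ℝ) * tot a P * ∑ r ∈ Ioc R Q0, (1 / (r : ℝ)) * √(x r) := by
    have e1 : ∑ D ∈ Icc 1 X, ∑ r ∈ (Ioc R Q0).filter (· ∣ D), tot a P * √(x r) =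
        ∑ r ∈ Ioc R Q0, (((Icc 1 X).filter (fun D => r ∣ D)).card : ℝ) * (tot a P * √(x r)) := by
      simp only [sum_filter]
      rw [sum_comm]
      apply sum_congr rfl
      intro r _
      rw [← sum_filter, sum_const, nsmul_eq_mul]
    rw [e1, mul_sum]
    apply sum_le_sum
    intro r hr
    have hr' := mem_Ioc.mp hr
    have hm := mid_mult X r
    calc (((Icc 1 X).filter (fun D => r ∣ D)).card : ℝ) * (tot a P * √(x r))
        ≤ ((X : ℝ) / r) * (tot a P * √(x r)) := mul_le_mul_of_nonneg_right hm (by positivity)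
      _ = (X : ℝ) * tot a P * ((1 / (r : ℝ)) * √(x r)) := by ring
  -- step 3
  have s3 : ∑ r ∈ Ioc R Q0, (1 / (r : ℝ)) * √(x r) ≤ (1 / √R) * √(Cb * P * tot a P) := by
    have c1 : ∑ r ∈ Ioc R Q0, (1 / (r : ℝ)) * √(x r) ≤
        √(∑ r ∈ Ioc R Q0, (1 / (r : ℝ)) ^ 2) * √(∑ r ∈ Ioc R Q0, √(x r) ^ 2) :=
      Real.sum_mul_le_sqrt_mul_sqrt _ _ _
    refine c1.trans ?_
    have c2 : √(∑ r ∈ Ioc R Q0, (1 / (r : ℝ)) ^ 2) ≤ 1 / √R := by
      have : ∑ r ∈ Ioc R Q0, (1 / (r : ℝ)) ^ 2 ≤ 1 / (R : ℝ) := by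
        have := mid_tele R Q0 hR
        simpa only [one_div, inv_pow] using this
      calc √(∑ r ∈ Ioc R Q0, (1 / (r : ℝ)) ^ 2) ≤ √(1 / (R : ℝ)) := Real.sqrt_le_sqrt this
        _ = 1 / √R := by rw [Real.sqrt_div zero_le_one, Real.sqrt_one]
    have c3 : √(∑ r ∈ Ioc R Q0, √(x r) ^ 2) ≤ √(Cb * P * tot a P) := by
      apply Real.sqrt_le_sqrt
      calc ∑ r ∈ Ioc R Q0, √(x r) ^ 2 = ∑ r ∈ Ioc R Q0, x r :=
            sum_congr rfl fun r _ => Real.sq_sqrt (hx0 r)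
        _ ≤ ∑ r ∈ Icc 1 Q0, x r := by
            apply sum_le_sum_of_subset_of_nonneg
            · intro r hr
              rw [mem_Ioc] at hr
              rw [mem_Icc]
              omega
            · intro r _ _
              exact hx0 r
        _ ≤ _ := hsum
    exact mul_le_mul c2 c3 (Real.sqrt_nonneg _) (by positivity)
  calc ∑ D ∈ Icc 1 X, ∑ c ∈ cop D, ‖TB a (NP P) R Q0 D (c : ℤ)‖
      ≤ ∑ D ∈ Icc 1 X, ∑ r ∈ (Ioc R Q0).filter (· ∣ D), tot a P * √(x r) := sum_le_sum s1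
    _ ≤ (X : ℝ) * tot a P * ∑ r ∈ Ioc R Q0, (1 / (r : ℝ)) * √(x r) := s2
    _ ≤ (K ^ 2 * P) * (Cw * P) * ((1 / √R) * √(Cb * P * tot a P)) := by
        apply mul_le_mul _ s3 (sum_nonneg fun r _ => by positivity) (by positivity)
        exact mul_le_mul hX htot hT0 (by positivity)
    _ ≤ (K ^ 2 * P) * (Cw * P) * ((1 / √R) * (√(Cb * Cw) * P)) := by
        have : √(Cb * P * tot a P) ≤ √(Cb * Cw) * P := by
          calc √(Cb * P * tot a P) ≤ √(Cb * P * (Cw * P)) := by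
                apply Real.sqrt_le_sqrt
                exact mul_le_mul_of_nonneg_left htot (by positivity)
            _ = √((Cb * Cw) * P ^ 2) := by ring_nf
            _ = √(Cb * Cw) * P := by
                rw [Real.sqrt_mul (by positivity), Real.sqrt_sq hP0.le]
        gcongr
    _ = _ := by
        field_simp

end Pool.Agent.EC
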