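import Pool.Agent.Lib_MP_f1a94e_eck.Cz

/-!
# Piece MULT: a pair (D, c) comes from boundedly many pairs of vectors

PROOF. Map `(u, v)` to `(D, c)`, `D = (dt u v).toNat`, `c = (cz u v % dt u v).toNat ∈ cop D` (`cz_coprime`), `D ≤ n^2 ≤ K^2 P` (`abs_dt_le`). By `hper`
`f (dt u v).toNat (cz u v) = f D c`. It suffices that every fibre has at most `C` elements. Let `(u, v)` and `(u', v')` be in the same fibre. Consider the four integers
`G11 = u.1 v'.2 - v.1 u'.2`, `G12 = -u.1 v'.1 + v.1 u'.1`, `G21 = u.2 v'.2 - v.2 u'.2`, `G22 = -u.2 v'.1 + v.2 u'.1`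
(the entries of `[u | v] adj [u' | v']`). Modulo `D`: `v = c u`, `v' = c u'` (`cz_spec`, both `cz` are congruent to `c`), so all four are divisible by `D`, and
`|Gij| ≤ 2 n^2`; put `Gij = D gij`, `|gij| ≤ 2 n^2/D ≤ 2 K^2/η`. Moreover `D u = G [u' stuff]`: `D u.1 = G11 u'.1 + G12 u'.2`, `D v.1 = G11 v'.1 + G12 v'.2`, `D u.2 = G21 u'.1 + G22 u'.2`,
`D v.2 = G21 v'.1 + G22 v'.2` (`ring`, `D = dt u' v'`). So with `(u', v')` fixed, `(u, v)` is determined by the four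
integers `gij` of absolute value at most `2 K^2/η`: at most `(4 K^2/η + 1)^4` elements.
-/

set_option autoImplicit false

namespace Pool.Agent.EC

open Finset

/-- an integer `G` with `|G| ≤ n^2`, `D ∣ G`, `n^2 ≤ M' D` gives a quotient in `[-M, M]` -/
theorem mult_quot {n : ℕ} {D G : ℤ} {M : ℕ} (hD : 0 < D) (hG : |G| ≤ (n : ℤ) ^ 2)
    (hdvd : D ∣ G) (hM : (n : ℤ) ^ 2 < (M + 1) * D) : G / D ∈ Icc (-(M : ℤ)) M := by
  obtain ⟨g, rfl⟩ := hdvd
  rw [Int.mul_ediv_cancel_left _ hD.ne']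
  rw [abs_mul, abs_of_pos hD] at hG
  have h1 : D * |g| < (M + 1) * D := lt_of_le_of_lt hG hM
  have h2 : |g| < M + 1 := by
    by_contra h
    push Not at h
    have : (M + 1 : ℤ) * D ≤ |g| * D := mul_le_mul_of_nonneg_right h hD.le
    linarith [mul_comm D |g|]
  rw [mem_Icc, ← abs_le]
  omega

theorem mult_abs {n : ℕ} {a b c d : ℤ} (ha : 0 ≤ a ∧ a ≤ n) (hb : 0 ≤ b ∧ b ≤ n)
    (hc : 0 ≤ c ∧ c ≤ n) (hd : 0 ≤ d ∧ d ≤ n) : |a * b - c * d| ≤ (n : ℤ) ^ 2 := by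
  have h1 : 0 ≤ a * b := mul_nonneg ha.1 hb.1
  have h2 : 0 ≤ c * d := mul_nonneg hc.1 hd.1
  have h3 : a * b ≤ n * n := mul_le_mul ha.2 hb.2 hb.1 (by positivity)
  have h4 : c * d ≤ n * n := mul_le_mul hc.2 hd.2 hd.1 (by positivity)
  rw [abs_le]
  constructor <;> nlinarith

/-- the four integers attached to two pairs -/
def multG (y x : (ℤ × ℤ) × (ℤ × ℤ)) : (ℤ × ℤ) × (ℤ × ℤ) :=
  ((x.1.1 * y.2.2 - x.2.1 * y.1.2, x.2.1 * y.1.1 - x.1.1 * y.2.1),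
   (x.1.2 * y.2.2 - x.2.2 * y.1.2, x.2.2 * y.1.1 - x.1.2 * y.2.1))

/-- the quotients -/
def multg (D : ℤ) (y x : (ℤ × ℤ) × (ℤ × ℤ)) : (ℤ × ℤ) × (ℤ × ℤ) :=
  (((multG y x).1.1 / D, (multG y x).1.2 / D), ((multG y x).2.1 / D, (multG y x).2.2 / D))

theorem mult_dvd {D : ℤ} {u v u' v' : ℤ × ℤ} (hu : Pv u) (hu' : Pv u') (h1 : dt u v = D)
    (h2 : dt u' v' = D) (hc : D ∣ cz u v - cz u' v') :
    (D ∣ (multG (u', v') (u, v)).1.1 ∧ D ∣ (multG (u', v') (u, v)).1.2) ∧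
    (D ∣ (multG (u', v') (u, v)).2.1 ∧ D ∣ (multG (u', v') (u, v)).2.2) := by
  obtain ⟨a1, a2⟩ := cz_spec (v := v) hu
  obtain ⟨b1, b2⟩ := cz_spec (v := v') hu'
  rw [h1] at a1 a2
  rw [h2] at b1 b2
  obtain ⟨x1, a1⟩ := a1
  obtain ⟨x2, a2⟩ := a2
  obtain ⟨y1, b1⟩ := b1
  obtain ⟨y2, b2⟩ := b2
  obtain ⟨z, hc⟩ := hc
  refine ⟨⟨⟨u.1 * y2 - u'.2 * x1 - u.1 * u'.2 * z, ?_⟩, ⟨-u.1 * y1 + u'.1 * x1 + u.1 * u'.1 * z, ?_⟩⟩,
    ⟨⟨u.2 * y2 - u'.2 * x2 - u.2 * u'.2 * z, ?_⟩, ⟨-u.2 * y1 + u'.1 * x2 + u.2 * u'.1 * z, ?_⟩⟩⟩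
  · simp only [multG]
    linear_combination u.1 * b2 - u'.2 * a1 - u.1 * u'.2 * hc
  · simp only [multG]
    linear_combination -u.1 * b1 + u'.1 * a1 + u.1 * u'.1 * hc
  · simp only [multG]
    linear_combination u.2 * b2 - u'.2 * a2 - u.2 * u'.2 * hc
  · simp only [multG]
    linear_combination -u.2 * b1 + u'.1 * a2 + u.2 * u'.1 * hc

/-- the pair can be recovered from the quotients -/
theorem mult_recover {D : ℤ} {u v u' v' : ℤ × ℤ} (hD : 0 < D) (hu : Pv u) (hu' : Pv u')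
    (h1 : dt u v = D) (h2 : dt u' v' = D) (hc : D ∣ cz u v - cz u' v') :
    (u, v) = ((((multg D (u', v') (u, v)).1.1 * u'.1 + (multg D (u', v') (u, v)).1.2 * u'.2,
       (multg D (u', v') (u, v)).2.1 * u'.1 + (multg D (u', v') (u, v)).2.2 * u'.2)),
      ((multg D (u', v') (u, v)).1.1 * v'.1 + (multg D (u', v') (u, v)).1.2 * v'.2,
       (multg D (u', v') (u, v)).2.1 * v'.1 + (multg D (u', v') (u, v)).2.2 * v'.2)) := by
  obtain ⟨⟨⟨g11, e11⟩, ⟨g12, e12⟩⟩, ⟨⟨g21, e21⟩, ⟨g22, e22⟩⟩⟩ := mult_dvd hu hu' h1 h2 hc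
  have q11 : (multg D (u', v') (u, v)).1.1 = g11 := by
    simp only [multg]; rw [e11, Int.mul_ediv_cancel_left _ hD.ne']
  have q12 : (multg D (u', v') (u, v)).1.2 = g12 := by
    simp only [multg]; rw [e12, Int.mul_ediv_cancel_left _ hD.ne']
  have q21 : (multg D (u', v') (u, v)).2.1 = g21 := by
    simp only [multg]; rw [e21, Int.mul_ediv_cancel_left _ hD.ne']
  have q22 : (multg D (u', v') (u, v)).2.2 = g22 := by
    simp only [multg]; rw [e22, Int.mul_ediv_cancel_left _ hD.ne']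
  rw [q11, q12, q21, q22]
  simp only [multG] at e11 e12 e21 e22
  have h3 : u'.1 * v'.2 - u'.2 * v'.1 = D := h2
  refine Prod.ext (Prod.ext ?_ ?_) (Prod.ext ?_ ?_)
  · apply mul_left_cancel₀ hD.ne'
    show D * u.1 = D * (g11 * u'.1 + g12 * u'.2)
    linear_combination -u.1 * h3 + u'.1 * e11 + u'.2 * e12
  · apply mul_left_cancel₀ hD.ne'
    show D * u.2 = D * (g21 * u'.1 + g22 * u'.2)
    linear_combination -u.2 * h3 + u'.1 * e21 + u'.2 * e22
  · apply mul_left_cancel₀ hD.ne'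
    show D * v.1 = D * (g11 * v'.1 + g12 * v'.2)
    linear_combination -v.1 * h3 + v'.1 * e11 + v'.2 * e12
  · apply mul_left_cancel₀ hD.ne'
    show D * v.2 = D * (g21 * v'.1 + g22 * v'.2)
    linear_combination -v.2 * h3 + v'.1 * e21 + v'.2 * e22

open Classical in
theorem mult (K η : ℝ) (hK : 1 ≤ K) (hη : 0 < η) : ∃ C : ℝ, 0 < C ∧ ∀ (P : ℝ) (n : ℕ), 0 < P →
    (n : ℝ) ^ 2 ≤ K ^ 2 * P → ∀ f : ℕ → ℤ → ℝ, (∀ D c, 0 ≤ f D c) →
    (∀ (D : ℕ) (c c' : ℤ), (D : ℤ) ∣ c - c' → f D c = f D c') →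
    ∑ x ∈ (Bx n ×ˢ Bx n).filter (fun x => Pv x.1 ∧ Pv x.2 ∧ η * P < (dt x.1 x.2 : ℝ)),
        f (dt x.1 x.2).toNat (cz x.1 x.2) ≤
      C * ∑ D ∈ Icc 1 ⌊K ^ 2 * P⌋₊, ∑ c ∈ cop D, f D (c : ℤ) := by
  set M : ℕ := ⌊K ^ 2 / η⌋₊ with hM
  set Q : Finset ((ℤ × ℤ) × (ℤ × ℤ)) :=
    (Icc (-(M : ℤ)) M ×ˢ Icc (-(M : ℤ)) M) ×ˢ (Icc (-(M : ℤ)) M ×ˢ Icc (-(M : ℤ)) M) with hQ
  have hQpos : 0 < Q.card := by
    rw [card_pos]
    refine ⟨((0, 0), (0, 0)), ?_⟩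
    simp [hQ]
  refine ⟨(Q.card : ℝ), by exact_mod_cast hQpos, ?_⟩
  intro P n hP hn f hf hper
  set S := (Bx n ×ˢ Bx n).filter (fun x => Pv x.1 ∧ Pv x.2 ∧ η * P < (dt x.1 x.2 : ℝ)) with hS
  have hSpos : ∀ x ∈ S, 0 < dt x.1 x.2 := by
    intro x hx
    rw [hS, mem_filter] at hx
    have h1 : (0 : ℝ) < (dt x.1 x.2 : ℝ) := lt_of_le_of_lt (by positivity) hx.2.2.2
    exact_mod_cast h1
  set φ : (ℤ × ℤ) × (ℤ × ℤ) → (Σ _ : ℕ, ℕ) :=
    fun x => ⟨(dt x.1 x.2).toNat, (cz x.1 x.2 % dt x.1 x.2).toNat⟩ with hφ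
  set T : Finset (Σ _ : ℕ, ℕ) := (Icc 1 ⌊K ^ 2 * P⌋₊).sigma cop with hT
  -- maps to
  have hmap : ∀ x ∈ S, φ x ∈ T := by
    intro x hx
    have hpos := hSpos x hx
    rw [hS, mem_filter, mem_product] at hx
    obtain ⟨⟨hx1, hx2⟩, hp1, hp2, -⟩ := hx
    rw [hT, mem_sigma]
    have hD : (((dt x.1 x.2).toNat : ℕ) : ℤ) = dt x.1 x.2 := Int.toNat_of_nonneg hpos.le
    have hr0 : 0 ≤ cz x.1 x.2 % dt x.1 x.2 := Int.emod_nonneg _ hpos.ne'
    have hr1 : cz x.1 x.2 % dt x.1 x.2 < dt x.1 x.2 := Int.emod_lt_of_pos _ hpos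
    have hr : (((cz x.1 x.2 % dt x.1 x.2).toNat : ℕ) : ℤ) = cz x.1 x.2 % dt x.1 x.2 :=
      Int.toNat_of_nonneg hr0
    constructor
    · rw [mem_Icc]
      constructor
      · show 1 ≤ (dt x.1 x.2).toNat
        omega
      · show (dt x.1 x.2).toNat ≤ ⌊K ^ 2 * P⌋₊
        apply Nat.le_floor
        have h1 := abs_dt_le hx1 hx2
        have h2 : dt x.1 x.2 ≤ (n : ℤ) ^ 2 := (le_abs_self _).trans h1
        have h3 : (((dt x.1 x.2).toNat : ℕ) : ℝ) = (dt x.1 x.2 : ℝ) := by exact_mod_cast hD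
        rw [h3]
        have h4 : (dt x.1 x.2 : ℝ) ≤ (n : ℝ) ^ 2 := by exact_mod_cast h2
        exact h4.trans hn
    · show (cz x.1 x.2 % dt x.1 x.2).toNat ∈ cop (dt x.1 x.2).toNat
      rw [cop, mem_filter, mem_range]
      constructor
      · omega
      · rw [← Nat.isCoprime_iff_coprime, hD, hr]
        have h1 := cz_coprime hp1 hp2
        have h2 : cz x.1 x.2 % dt x.1 x.2 = cz x.1 x.2 + dt x.1 x.2 * (-(cz x.1 x.2 / dt x.1 x.2)) := by
          have := Int.emod_add_mul_ediv (cz x.1 x.2) (dt x.1 x.2)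
          linarith
        rw [h2]
        exact IsCoprime.add_mul_left_left h1 _
  -- value
  have hval : ∀ x ∈ S, f (dt x.1 x.2).toNat (cz x.1 x.2) = f (φ x).1 ((φ x).2 : ℤ) := by
    intro x hx
    have hpos := hSpos x hx
    have hD : (((dt x.1 x.2).toNat : ℕ) : ℤ) = dt x.1 x.2 := Int.toNat_of_nonneg hpos.le
    have hr0 : 0 ≤ cz x.1 x.2 % dt x.1 x.2 := Int.emod_nonneg _ hpos.ne'
    have hr : (((cz x.1 x.2 % dt x.1 x.2).toNat : ℕ) : ℤ) = cz x.1 x.2 % dt x.1 x.2 :=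
      Int.toNat_of_nonneg hr0
    show f (dt x.1 x.2).toNat (cz x.1 x.2) = f (dt x.1 x.2).toNat
      (((cz x.1 x.2 % dt x.1 x.2).toNat : ℕ) : ℤ)
    apply hper
    rw [hD, hr]
    exact Int.dvd_self_sub_emod
  -- fibres
  have hfib : ∀ y ∈ T, (S.filter (fun x => φ x = y)).card ≤ Q.card := by
    intro y _
    rcases (S.filter (fun x => φ x = y)).eq_empty_or_nonempty with h0 | ⟨x0, hx0⟩
    · rw [h0]; simp
    · rw [mem_filter] at hx0
      obtain ⟨hx0S, hx0φ⟩ := hx0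
      have hpos0 := hSpos x0 hx0S
      have hx0S' := hx0S
      rw [hS, mem_filter, mem_product] at hx0S'
      obtain ⟨⟨hb1, hb2⟩, hq1, hq2, hq3⟩ := hx0S'
      set D := dt x0.1 x0.2 with hDdef
      have hnD : (n : ℤ) ^ 2 < (M + 1) * D := by
        have h1 : (n : ℝ) ^ 2 < ((M : ℝ) + 1) * (D : ℝ) := by
          have h2 : K ^ 2 / η < M + 1 := Nat.lt_floor_add_one _
          have h3 : K ^ 2 < (M + 1) * η := by
            rw [div_lt_iff₀ hη] at h2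
            exact h2
          calc (n : ℝ) ^ 2 ≤ K ^ 2 * P := hn
            _ ≤ ((M + 1) * η) * P := by
                apply mul_le_mul_of_nonneg_right h3.le hP.le
            _ = (M + 1) * (η * P) := by ring
            _ < (M + 1) * (D : ℝ) := by
                apply mul_lt_mul_of_pos_left hq3
                positivity
        exact_mod_cast h1
      -- data for every x of the fibre
      have key : ∀ x ∈ S.filter (fun x => φ x = y), x.1 ∈ Bx n ∧ x.2 ∈ Bx n ∧ Pv x.1 ∧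
          dt x.1 x.2 = D ∧ D ∣ cz x.1 x.2 - cz x0.1 x0.2 := by
        intro x hx
        rw [mem_filter] at hx
        obtain ⟨hxS, hxφ⟩ := hx
        have hpos := hSpos x hxS
        have hxS' := hxS
        rw [hS, mem_filter, mem_product] at hxS'
        have he : φ x = φ x0 := by rw [hxφ, hx0φ]
        have e1 : (dt x.1 x.2).toNat = (dt x0.1 x0.2).toNat := congrArg Sigma.fst he
        have e2 : (cz x.1 x.2 % dt x.1 x.2).toNat = (cz x0.1 x0.2 % dt x0.1 x0.2).toNat := by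
          have := (Sigma.mk.inj_iff.mp he).2
          exact eq_of_heq this
        have e3 : dt x.1 x.2 = D := by
          have h5 : (dt x0.1 x0.2) = D := rfl
          omega
        refine ⟨hxS'.1.1, hxS'.1.2, hxS'.2.1, e3, ?_⟩
        have hr0 : 0 ≤ cz x.1 x.2 % D := Int.emod_nonneg _ hpos0.ne'
        have hr0' : 0 ≤ cz x0.1 x0.2 % D := Int.emod_nonneg _ hpos0.ne'
        rw [e3] at e2
        have e4 : cz x.1 x.2 % D = cz x0.1 x0.2 % D := by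
          have h6 : (cz x0.1 x0.2 % dt x0.1 x0.2) = cz x0.1 x0.2 % D := rfl
          omega
        exact Int.dvd_of_emod_eq_zero (Int.emod_eq_emod_iff_emod_sub_eq_zero.mp e4)
      apply card_le_card_of_injOn (fun x => multg D x0 x)
      · intro x hx
        have hx' : x ∈ S.filter (fun x => φ x = y) := by simpa using hx
        obtain ⟨k1, k2, k3, k4, k5⟩ := key x hx'
        have hd := mult_dvd (u := x.1) (v := x.2) (u' := x0.1) (v' := x0.2) k3 hq1 k4 rfl k5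
        rw [mem_Bx] at k1 k2 hb1 hb2
        have t1 := mult_quot hpos0 (mult_abs k1.1 hb2.2 k2.1 hb1.2) hd.1.1 hnD
        have t2 := mult_quot hpos0 (mult_abs k2.1 hb1.1 k1.1 hb2.1) hd.1.2 hnD
        have t3 := mult_quot hpos0 (mult_abs k1.2 hb2.2 k2.2 hb1.2) hd.2.1 hnD
        have t4 := mult_quot hpos0 (mult_abs k2.2 hb1.1 k1.2 hb2.1) hd.2.2 hnD
        rw [hQ]
        simp only [coe_product, Set.mem_prod]
        exact ⟨⟨by exact_mod_cast t1, by exact_mod_cast t2⟩, ⟨by exact_mod_cast t3, by exact_mod_cast t4⟩⟩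
      · intro x hx x' hx' hxx
        have hx1 : x ∈ S.filter (fun x => φ x = y) := by simpa using hx
        have hx1' : x' ∈ S.filter (fun x => φ x = y) := by simpa using hx'
        obtain ⟨-, -, k3, k4, k5⟩ := key x hx1
        obtain ⟨-, -, k3', k4', k5'⟩ := key x' hx1'
        have r1 := mult_recover (u := x.1) (v := x.2) (u' := x0.1) (v' := x0.2) hpos0 k3 hq1 k4 rfl k5
        have r2 := mult_recover (u := x'.1) (v := x'.2) (u' := x0.1) (v' := x0.2) hpos0 k3' hq1 k4' rfl k5'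
        have r3 : multg D (x0.1, x0.2) (x.1, x.2) = multg D (x0.1, x0.2) (x'.1, x'.2) := hxx
        have r4 : x = (x.1, x.2) := rfl
        have r5 : x' = (x'.1, x'.2) := rfl
        rw [r4, r5, r1, r2, r3]
  calc ∑ x ∈ S, f (dt x.1 x.2).toNat (cz x.1 x.2)
      = ∑ x ∈ S, f (φ x).1 ((φ x).2 : ℤ) := sum_congr rfl hval
    _ = ∑ y ∈ T, ∑ x ∈ S.filter (fun x => φ x = y), f (φ x).1 ((φ x).2 : ℤ) :=
        (sum_fiberwise_of_maps_to hmap _).symm
    _ = ∑ y ∈ T, ((S.filter (fun x => φ x = y)).card : ℝ) * f y.1 (y.2 : ℤ) := by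
        apply sum_congr rfl
        intro y _
        rw [← nsmul_eq_mul, ← sum_const]
        apply sum_congr rfl
        intro x hx
        rw [(mem_filter.mp hx).2]
    _ ≤ ∑ y ∈ T, (Q.card : ℝ) * f y.1 (y.2 : ℤ) := by
        apply sum_le_sum
        intro y hy
        apply mul_le_mul_of_nonneg_right _ (hf _ _)
        exact_mod_cast hfib y hy
    _ = (Q.card : ℝ) * ∑ D ∈ Icc 1 ⌊K ^ 2 * P⌋₊, ∑ c ∈ cop D, f D (c : ℤ) := by
        rw [← mul_sum, hT, sum_sigma]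

end Pool.Agent.EC
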