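import Pool.Agent.Lib_MP_f1a94e_eck.Close
import Pool.Agent.Lib_MP_f1a94e_eck.Ale
import Pool.Agent.Lib_MP_f1a94e_eck.Wle

/-!
# Piece NEAR: pairs with small determinant

PROOF. Expand `NN` and exchange the sums: the left side is `∑_{w ∈ Bx n} ∑_{v ∈ Bx n} aw a (dt v w) * ∑_{u ∈ Bx n, |dt u v| ≤ 2 η P} aw a (dt u w)`.
If `aw a (dt v w) ≠ 0` then `dt v w ≥ P` (`aw_ne`), so the inner sum is at most `C1 (2 η) δ P` (`close` with `x = v` and `2 η ≤ 1` in place of `η`; NB `|dt u v|`).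
By `ale` and `wle`: `∑_v aw a (dt v w) ≤ (K^2+1) C2 δ P`, and there are `(n+1)^2 ≤ 4 K^2 P` points `w` (`card_Bx`, `n_le`, `P ≥ 1`).
-/

set_option autoImplicit false

namespace Pool.Agent.EC

open Finset

theorem near_card {K P : ℝ} {n : ℕ} (hK : 1 ≤ K) (hn : (n : ℝ) ^ 2 ≤ K ^ 2 * P) (hP : 1 ≤ P) :
    ((Bx n).card : ℝ) ≤ 4 * K ^ 2 * P := by
  rw [card_Bx]
  push_cast
  have h1 : (n : ℝ) ≤ K * √P := n_le hK hn (by linarith)
  have h2 : 1 ≤ K * √P := by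
    have h3 : 1 ≤ √P := Real.one_le_sqrt.mpr hP
    nlinarith
  have h4 : (n : ℝ) + 1 ≤ 2 * (K * √P) := by linarith
  calc ((n : ℝ) + 1) ^ 2 ≤ (2 * (K * √P)) ^ 2 := pow_le_pow_left₀ (by positivity) h4 2
    _ = 4 * K ^ 2 * (√P) ^ 2 := by ring
    _ = 4 * K ^ 2 * P := by rw [Real.sq_sqrt (by linarith)]

open Classical in
theorem near (K : ℝ) (hK : 1 ≤ K) : ∃ C : ℝ, 0 < C ∧ ∀ η δ : ℝ, 0 < η → η ≤ 1 / 2 → 0 < δ → δ ≤ 1 →
    ∃ P0 : ℝ, ∀ P : ℝ, P0 ≤ P → ∀ a : ℕ → ℝ, Wt a P δ → ∀ n : ℕ, (n : ℝ) ^ 2 ≤ K ^ 2 * P →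
      ∑ x ∈ (Bx n ×ˢ Bx n).filter (fun x => |(dt x.1 x.2 : ℝ)| ≤ 2 * η * P), NN a n x.1 x.2 ≤
        C * η * δ ^ 2 * P ^ 3 := by
  obtain ⟨C1, hC1, hclose⟩ := close K hK
  obtain ⟨C2, hC2, hwle⟩ := wle
  refine ⟨4 * K ^ 2 * ((K ^ 2 + 1) * C2) * (2 * C1), by positivity, fun η δ hη hη1 hδ hδ1 => ?_⟩
  obtain ⟨P1, hP1⟩ := hclose (2 * η) δ (by linarith) (by linarith) hδ hδ1
  obtain ⟨P2, hP2⟩ := hwle δ hδ hδ1
  refine ⟨max (max P1 P2) (K ^ 2 + 1), fun P hP a h n hn => ?_⟩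
  have hPP1 : P1 ≤ P := ((le_max_left _ _).trans (le_max_left _ _)).trans hP
  have hPP2 : P2 ≤ P := ((le_max_right _ _).trans (le_max_left _ _)).trans hP
  have hPK : K ^ 2 + 1 ≤ P := (le_max_right _ _).trans hP
  have hP1' : 1 ≤ P := by nlinarith
  have hP0 : 0 < P := by linarith
  have htot := hP2 P hPP2 a h
  have hcl := hP1 P hPP1 a h n hn
  have hex : ∑ x ∈ (Bx n ×ˢ Bx n).filter (fun x => |(dt x.1 x.2 : ℝ)| ≤ 2 * η * P), NN a n x.1 x.2 =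
      ∑ w ∈ Bx n, ∑ v ∈ Bx n, aw a (dt v w) *
        ∑ u ∈ (Bx n).filter (fun u => |(dt u v : ℝ)| ≤ 2 * η * P), aw a (dt u w) := by
    unfold NN
    rw [sum_comm]
    apply sum_congr rfl
    intro w _
    rw [sum_filter, sum_product_right]
    apply sum_congr rfl
    intro v _
    rw [mul_sum, sum_filter]
    apply sum_congr rfl
    intro u _
    split_ifs
    · ring
    · rfl
  rw [hex]
  have hin : ∀ w ∈ Bx n, ∑ v ∈ Bx n, aw a (dt v w) *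
        ∑ u ∈ (Bx n).filter (fun u => |(dt u v : ℝ)| ≤ 2 * η * P), aw a (dt u w) ≤
      ((K ^ 2 + 1) * C2) * (2 * C1) * η * δ ^ 2 * P ^ 2 := by
    intro w hw
    calc ∑ v ∈ Bx n, aw a (dt v w) *
          ∑ u ∈ (Bx n).filter (fun u => |(dt u v : ℝ)| ≤ 2 * η * P), aw a (dt u w)
        ≤ ∑ v ∈ Bx n, aw a (dt v w) * (C1 * (2 * η) * δ * P) := by
          apply sum_le_sum
          intro v hv
          by_cases h0 : aw a (dt v w) = 0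
          · rw [h0, zero_mul, zero_mul]
          · apply mul_le_mul_of_nonneg_left _ (aw_nonneg h _)
            exact hcl v hv w hw (aw_ne h h0).2.2.1
      _ = (∑ v ∈ Bx n, aw a (dt v w)) * (C1 * (2 * η) * δ * P) := by rw [sum_mul]
      _ ≤ ((K ^ 2 + 1) * (C2 * δ * P)) * (C1 * (2 * η) * δ * P) := by
          apply mul_le_mul_of_nonneg_right _ (by positivity)
          refine (ale hK (by linarith) hδ1 h hn hw).1.trans ?_
          exact mul_le_mul_of_nonneg_left htot (by positivity)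
      _ = _ := by ring
  calc ∑ w ∈ Bx n, ∑ v ∈ Bx n, aw a (dt v w) *
        ∑ u ∈ (Bx n).filter (fun u => |(dt u v : ℝ)| ≤ 2 * η * P), aw a (dt u w)
      ≤ ∑ w ∈ Bx n, ((K ^ 2 + 1) * C2) * (2 * C1) * η * δ ^ 2 * P ^ 2 := sum_le_sum hin
    _ = ((Bx n).card : ℝ) * (((K ^ 2 + 1) * C2) * (2 * C1) * η * δ ^ 2 * P ^ 2) := by
        rw [sum_const, nsmul_eq_mul]
    _ ≤ (4 * K ^ 2 * P) * (((K ^ 2 + 1) * C2) * (2 * C1) * η * δ ^ 2 * P ^ 2) :=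
        mul_le_mul_of_nonneg_right (near_card hK hn hP1') (by positivity)
    _ = _ := by ring

end Pool.Agent.EC
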