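import Pool.Agent.Lib_MP_f1a94e_eck.Cz

/-!
# Piece NNTT: common neighbours of `u` and `v` and pairs of primes with `p' = c p` modulo `D`

PROOF. Let `D = dt u v > 0`, `c = cz u v`, `w ↦ (p1, p2) = (dt u w, dt v w)`. Identity: `D * w.i = p1 * v.i - p2 * u.i`, so the map is injective.
Modulo `D`: `v = c u` (`cz_spec`), so `0 = D w.i = (p1 c - p2) u.i` modulo `D` for `i = 1, 2`, and `u` primitive gives `D ∣ p2 - c p1`. Conversely for integers `p1, p2` with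
`D ∣ p2 - c p1` the vector `(p1 v - p2 u)/D` is integral and has `dt u w = p1`, `dt v w = p2`.
`NN a n u v` is the sum of `a (p1.toNat) a (p2.toNat)` over those `w ∈ Bx n` with `p1, p2 > 0`; the nonzero terms correspond injectively to terms of `TT`
(`mem_range_NP`); all of them occur under `hbox`.
-/

set_option autoImplicit false

namespace Pool.Agent.EC

open Finset

theorem nntt_dvd {u v : ℤ × ℤ} (hu : Pv u) (w : ℤ × ℤ) :
    dt u v ∣ dt v w - cz u v * dt u w := by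
  obtain ⟨⟨x, hx⟩, ⟨y, hy⟩⟩ := cz_spec (v := v) hu
  refine ⟨x * w.2 - y * w.1, ?_⟩
  have e : dt v w - cz u v * dt u w = (v.1 - cz u v * u.1) * w.2 - (v.2 - cz u v * u.2) * w.1 := by
    unfold dt; ring
  rw [e, hx, hy]; ring

theorem nntt_inj {u v : ℤ × ℤ} (hD : 0 < dt u v) {w w' : ℤ × ℤ} (h1 : dt u w = dt u w')
    (h2 : dt v w = dt v w') : w = w' := by
  have e1 : dt u v * w.1 = dt u v * w'.1 := by
    have a1 : dt u v * w.1 = dt u w * v.1 - dt v w * u.1 := by unfold dt; ring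
    have a2 : dt u v * w'.1 = dt u w' * v.1 - dt v w' * u.1 := by unfold dt; ring
    rw [a1, a2, h1, h2]
  have e2 : dt u v * w.2 = dt u v * w'.2 := by
    have a1 : dt u v * w.2 = dt u w * v.2 - dt v w * u.2 := by unfold dt; ring
    have a2 : dt u v * w'.2 = dt u w' * v.2 - dt v w' * u.2 := by unfold dt; ring
    rw [a1, a2, h1, h2]
  have f1 := mul_left_cancel₀ hD.ne' e1
  have f2 := mul_left_cancel₀ hD.ne' e2
  exact Prod.ext f1 f2

theorem nntt_surj {u v : ℤ × ℤ} (hu : Pv u) (hD : 0 < dt u v) {p1 p2 : ℤ}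
    (h : dt u v ∣ p2 - cz u v * p1) : ∃ w : ℤ × ℤ, dt u w = p1 ∧ dt v w = p2 := by
  obtain ⟨⟨x, hx⟩, ⟨y, hy⟩⟩ := cz_spec (v := v) hu
  obtain ⟨z, hz⟩ := h
  have e1 : p1 * v.1 - p2 * u.1 = dt u v * (p1 * x - z * u.1) := by
    linear_combination p1 * hx - u.1 * hz
  have e2 : p1 * v.2 - p2 * u.2 = dt u v * (p1 * y - z * u.2) := by
    linear_combination p1 * hy - u.2 * hz
  refine ⟨(p1 * x - z * u.1, p1 * y - z * u.2), ?_, ?_⟩
  · apply mul_left_cancel₀ hD.ne'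
    have : dt u v * dt u (p1 * x - z * u.1, p1 * y - z * u.2) =
        u.1 * (dt u v * (p1 * y - z * u.2)) - u.2 * (dt u v * (p1 * x - z * u.1)) := by
      simp only [dt]; ring
    rw [this, ← e1, ← e2]
    simp only [dt]; ring
  · apply mul_left_cancel₀ hD.ne'
    have : dt u v * dt v (p1 * x - z * u.1, p1 * y - z * u.2) =
        v.1 * (dt u v * (p1 * y - z * u.2)) - v.2 * (dt u v * (p1 * x - z * u.1)) := by
      simp only [dt]; ring
    rw [this, ← e1, ← e2]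
    simp only [dt]; ring

/-- the nonzero terms of `NN` -/
noncomputable def nnS (a : ℕ → ℝ) (n : ℕ) (u v : ℤ × ℤ) : Finset (ℤ × ℤ) :=
  (Bx n).filter fun w => aw a (dt u w) ≠ 0 ∧ aw a (dt v w) ≠ 0

/-- the terms of `TT` -/
noncomputable def ttS (N D : ℕ) (c : ℤ) : Finset (ℕ × ℕ) :=
  (range N ×ˢ range N).filter fun p => (D : ℤ) ∣ (p.2 : ℤ) - c * p.1

theorem NN_eq_nnS (a : ℕ → ℝ) (n : ℕ) (u v : ℤ × ℤ) :
    NN a n u v = ∑ w ∈ nnS a n u v, aw a (dt u w) * aw a (dt v w) := by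
  unfold NN nnS
  rw [sum_filter]
  refine sum_congr rfl fun w _ => ?_
  by_cases h1 : aw a (dt u w) = 0
  · simp [h1]
  · by_cases h2 : aw a (dt v w) = 0
    · simp [h2]
    · simp [h1, h2]

theorem TT_eq_ttS (a : ℕ → ℝ) (N D : ℕ) (c : ℤ) :
    TT a N D c = ∑ p ∈ ttS N D c, a p.1 * a p.2 := by
  unfold TT ttS
  rw [sum_filter, sum_product]

/-- the pair of determinants -/
def prr (u v w : ℤ × ℤ) : ℕ × ℕ := ((dt u w).toNat, (dt v w).toNat)

theorem nn_image {a : ℕ → ℝ} {P δ : ℝ} (h : Wt a P δ) (n : ℕ)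
    {u v : ℤ × ℤ} (hD : 0 < dt u v) :
    NN a n u v = ∑ p ∈ (nnS a n u v).image (prr u v), a p.1 * a p.2 := by
  rw [NN_eq_nnS, sum_image]
  · refine sum_congr rfl fun w hw => ?_
    obtain ⟨_, h1, h2⟩ := mem_filter.mp hw
    rw [aw_of_pos (aw_ne h h1).1, aw_of_pos (aw_ne h h2).1]
    rfl
  · intro w hw w' hw' e
    obtain ⟨_, h1, h2⟩ := mem_filter.mp hw
    obtain ⟨_, h1', h2'⟩ := mem_filter.mp hw'
    have e1 : (dt u w).toNat = (dt u w').toNat := congrArg Prod.fst e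
    have e2 : (dt v w).toNat = (dt v w').toNat := congrArg Prod.snd e
    have p1 := (aw_ne h h1).1
    have p2 := (aw_ne h h2).1
    have p1' := (aw_ne h h1').1
    have p2' := (aw_ne h h2').1
    exact nntt_inj hD (by omega) (by omega)

theorem nn_image_sub {a : ℕ → ℝ} {P δ : ℝ} (h : Wt a P δ) (hP : 0 ≤ P) (hδ : δ ≤ 1) (n : ℕ)
    {u v : ℤ × ℤ} (hu : Pv u) (hD : 0 < dt u v) :
    (nnS a n u v).image (prr u v) ⊆ ttS (NP P) (dt u v).toNat (cz u v) := by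
  intro p hp
  obtain ⟨w, hw, rfl⟩ := mem_image.mp hp
  obtain ⟨_, h1, h2⟩ := mem_filter.mp hw
  have p1 := (aw_ne h h1).1
  have p2 := (aw_ne h h2).1
  rw [aw_of_pos p1] at h1
  rw [aw_of_pos p2] at h2
  refine mem_filter.mpr ⟨mem_product.mpr ⟨mem_range_NP h hP hδ h1, mem_range_NP h hP hδ h2⟩, ?_⟩
  have e1 : (((prr u v w).1 : ℕ) : ℤ) = dt u w := Int.toNat_of_nonneg p1.le
  have e2 : (((prr u v w).2 : ℕ) : ℤ) = dt v w := Int.toNat_of_nonneg p2.le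
  rw [e1, e2, Int.toNat_of_nonneg hD.le]
  exact nntt_dvd hu w

theorem nn_le_tt {a : ℕ → ℝ} {P δ : ℝ} (h : Wt a P δ) (hP : 0 ≤ P) (hδ : δ ≤ 1) (n : ℕ)
    {u v : ℤ × ℤ} (hu : Pv u) (hD : 0 < dt u v) :
    NN a n u v ≤ TT a (NP P) (dt u v).toNat (cz u v) := by
  rw [nn_image h n hD, TT_eq_ttS]
  exact sum_le_sum_of_subset_of_nonneg (nn_image_sub h hP hδ n hu hD)
    fun p _ _ => mul_nonneg (h.nonneg _) (h.nonneg _)

theorem nn_eq_tt {a : ℕ → ℝ} {P δ : ℝ} (h : Wt a P δ) (hP : 0 ≤ P) (hδ : δ ≤ 1) (n : ℕ)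
    {u v : ℤ × ℤ} (hu : Pv u) (hD : 0 < dt u v)
    (hbox : ∀ w : ℤ × ℤ, aw a (dt u w) ≠ 0 → aw a (dt v w) ≠ 0 → w ∈ Bx n) :
    NN a n u v = TT a (NP P) (dt u v).toNat (cz u v) := by
  rw [nn_image h n hD, TT_eq_ttS]
  refine sum_subset (nn_image_sub h hP hδ n hu hD) fun p hp hp' => ?_
  by_contra h0
  obtain ⟨h1, h2⟩ := mul_ne_zero_iff.mp h0
  apply hp'
  have q1 := (h.supp _ h1).1.pos
  have q2 := (h.supp _ h2).1.pos
  have hdv := (mem_filter.mp hp).2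
  rw [Int.toNat_of_nonneg hD.le] at hdv
  obtain ⟨w, e1, e2⟩ := nntt_surj hu hD hdv
  have g1 : aw a (dt u w) ≠ 0 := by
    rw [e1, aw_of_pos (by exact_mod_cast q1)]
    simpa using h1
  have g2 : aw a (dt v w) ≠ 0 := by
    rw [e2, aw_of_pos (by exact_mod_cast q2)]
    simpa using h2
  refine mem_image.mpr ⟨w, mem_filter.mpr ⟨hbox w g1 g2, g1, g2⟩, ?_⟩
  unfold prr
  rw [e1, e2]
  simp

end Pool.Agent.EC
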