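import Pool.Agent.Lib_MP_f1a94e_eck.Cz

/-!
# Piece PH: the periodic function of the main term

PROOF. `ph_bound`: `gR R' D ≤ R'` (each term at most `1`), `‖Psi a N r c‖ ≤ card (prm r) (tot a P)^2 ≤ r (tot a P)^2 ≤ R (tot a P)^2` for `1 ≤ r ≤ R`
(`‖χ c‖ ≤ 1`, `‖SS χ‖ ≤ tot a P`, the number of characters modulo `r` is `φ(r) ≤ r`).
`ph_per`: for `t ∣ m`: `t ∣ dt u v ↔ t ∣ dt u' v'` since `dt u v = dt u' v'` modulo `m`; so the index sets agree (`t ∣ (dt u v).toNat ↔ (t : ℤ) ∣ dt u v`, positive determinants).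
For `r ∣ dt u v`, `r ∣ m`: `cz u v = cz u' v'` modulo `r`: `c = cz u v` satisfies `v' = c u'` modulo `r` (as `v = c u` mod `r` by `cz_spec`, `u = u'`, `v = v'` mod `r`), so `cz_unique` applies; hence
`((cz u v : ℤ) : ZMod r) = (cz u' v' : ZMod r)` (`ZMod.intCast_eq_intCast_iff_dvd_sub`) and `Psi` agrees.
-/

set_option autoImplicit false

namespace Pool.Agent.EC

open Finset

theorem ph_gR_le (R' D : ℕ) : 0 ≤ gR R' D ∧ gR R' D ≤ R' := by
  unfold gR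
  constructor
  · exact sum_nonneg fun t _ => by positivity
  · calc ∑ t ∈ (Icc 1 R').filter (fun t => t ∣ D ∧ Squarefree t), 1 / (t.totient : ℝ)
        ≤ ∑ _t ∈ (Icc 1 R').filter (fun t => t ∣ D ∧ Squarefree t), (1 : ℝ) := by
          apply sum_le_sum
          intro t ht
          rw [mem_filter, mem_Icc] at ht
          have h1 : 0 < t.totient := Nat.totient_pos.2 (by omega)
          have h2 : (1 : ℝ) ≤ t.totient := by exact_mod_cast h1
          rw [div_le_one (by linarith)]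
          exact h2
      _ = (((Icc 1 R').filter (fun t => t ∣ D ∧ Squarefree t)).card : ℝ) := by
          rw [sum_const, nsmul_eq_mul, mul_one]
      _ ≤ R' := by
          have := card_filter_le (Icc 1 R') (fun t => t ∣ D ∧ Squarefree t)
          rw [Nat.card_Icc] at this
          exact_mod_cast this

theorem ph_SS_le {a : ℕ → ℝ} {P δ : ℝ} (h : Wt a P δ) {r : ℕ} (χ : DirichletCharacter ℂ r) :
    ‖SS a (NP P) χ‖ ≤ tot a P := by
  unfold SS tot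
  refine (norm_sum_le _ _).trans (sum_le_sum fun p _ => ?_)
  rw [norm_mul, Complex.norm_real, Real.norm_of_nonneg (h.nonneg p)]
  have := DirichletCharacter.norm_le_one χ (p : ZMod r)
  exact mul_le_of_le_one_right (h.nonneg p) this

theorem ph_prm_card {r : ℕ} (hr : 1 ≤ r) : (prm r).card ≤ r := by
  have : NeZero r := ⟨by omega⟩
  unfold prm
  refine (card_le_card (subset_univ _)).trans ?_
  rw [card_univ, ← Nat.card_eq_fintype_card,
    DirichletCharacter.card_eq_totient_of_hasEnoughRootsOfUnity ℂ r]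
  exact Nat.totient_le r

theorem ph_Psi_le {a : ℕ → ℝ} {P δ : ℝ} (h : Wt a P δ) {r : ℕ} (hr : 1 ≤ r) (c : ℤ) :
    ‖Psi a (NP P) r c‖ ≤ r * tot a P ^ 2 := by
  unfold Psi
  calc ‖∑ χ ∈ prm r, χ (c : ZMod r) * ((‖SS a (NP P) χ‖ ^ 2 : ℝ) : ℂ)‖
      ≤ ∑ χ ∈ prm r, ‖χ (c : ZMod r) * ((‖SS a (NP P) χ‖ ^ 2 : ℝ) : ℂ)‖ := norm_sum_le _ _
    _ ≤ ∑ _χ ∈ prm r, tot a P ^ 2 := by
        apply sum_le_sum
        intro χ _
        rw [norm_mul, Complex.norm_real, Real.norm_of_nonneg (by positivity)]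
        have h1 := DirichletCharacter.norm_le_one χ (c : ZMod r)
        have h2 : ‖SS a (NP P) χ‖ ^ 2 ≤ tot a P ^ 2 :=
          pow_le_pow_left₀ (norm_nonneg _) (ph_SS_le h χ) 2
        calc ‖χ (c : ZMod r)‖ * ‖SS a (NP P) χ‖ ^ 2 ≤ 1 * tot a P ^ 2 :=
              mul_le_mul h1 h2 (by positivity) zero_le_one
          _ = tot a P ^ 2 := one_mul _
    _ = (prm r).card * tot a P ^ 2 := by rw [sum_const, nsmul_eq_mul]
    _ ≤ r * tot a P ^ 2 := by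
        apply mul_le_mul_of_nonneg_right _ (by positivity)
        exact_mod_cast ph_prm_card hr

theorem ph_bound {a : ℕ → ℝ} {P δ : ℝ} (h : Wt a P δ) (R R' D : ℕ) (c : ℤ) :
    ‖PH a (NP P) R D R' c‖ ≤ R' * (R : ℝ) ^ 2 * tot a P ^ 2 := by
  unfold PH
  obtain ⟨g1, g2⟩ := ph_gR_le R' D
  rw [norm_mul, Complex.norm_real, Real.norm_of_nonneg g1]
  have h1 : ‖∑ r ∈ (Icc 1 R).filter (· ∣ D), Psi a (NP P) r c‖ ≤ (R : ℝ) ^ 2 * tot a P ^ 2 := by
    calc ‖∑ r ∈ (Icc 1 R).filter (· ∣ D), Psi a (NP P) r c‖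
        ≤ ∑ r ∈ (Icc 1 R).filter (· ∣ D), ‖Psi a (NP P) r c‖ := norm_sum_le _ _
      _ ≤ ∑ _r ∈ (Icc 1 R).filter (· ∣ D), (R : ℝ) * tot a P ^ 2 := by
          apply sum_le_sum
          intro r hr
          rw [mem_filter, mem_Icc] at hr
          refine (ph_Psi_le h hr.1.1 c).trans ?_
          apply mul_le_mul_of_nonneg_right _ (by positivity)
          exact_mod_cast hr.1.2
      _ = (((Icc 1 R).filter (· ∣ D)).card : ℝ) * ((R : ℝ) * tot a P ^ 2) := by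
          rw [sum_const, nsmul_eq_mul]
      _ ≤ (R : ℝ) * ((R : ℝ) * tot a P ^ 2) := by
          apply mul_le_mul_of_nonneg_right _ (by positivity)
          have := card_filter_le (Icc 1 R) (· ∣ D)
          rw [Nat.card_Icc] at this
          exact_mod_cast this
      _ = (R : ℝ) ^ 2 * tot a P ^ 2 := by ring
  calc gR R' D * ‖∑ r ∈ (Icc 1 R).filter (· ∣ D), Psi a (NP P) r c‖
      ≤ R' * ((R : ℝ) ^ 2 * tot a P ^ 2) := mul_le_mul g2 h1 (norm_nonneg _) (by positivity)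
    _ = R' * (R : ℝ) ^ 2 * tot a P ^ 2 := by ring

theorem ph_dvd {m : ℤ} {u v u' v' : ℤ × ℤ} (h1 : m ∣ u.1 - u'.1) (h2 : m ∣ u.2 - u'.2)
    (h3 : m ∣ v.1 - v'.1) (h4 : m ∣ v.2 - v'.2) : m ∣ dt u v - dt u' v' := by
  unfold dt
  have e : u.1 * v.2 - u.2 * v.1 - (u'.1 * v'.2 - u'.2 * v'.1) =
      (u.1 - u'.1) * v.2 + u'.1 * (v.2 - v'.2) - ((u.2 - u'.2) * v.1 + u'.2 * (v.1 - v'.1)) := by
    ring
  rw [e]
  exact dvd_sub (dvd_add (Dvd.dvd.mul_right h1 _) (Dvd.dvd.mul_left h4 _))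
    (dvd_add (Dvd.dvd.mul_right h2 _) (Dvd.dvd.mul_left h3 _))

theorem ph_dvd_iff {m t : ℕ} (ht : t ∣ m) {u v u' v' : ℤ × ℤ} (hD : 0 < dt u v)
    (hD' : 0 < dt u' v') (h : (m : ℤ) ∣ dt u v - dt u' v') :
    t ∣ (dt u v).toNat ↔ t ∣ (dt u' v').toNat := by
  have e1 : ((dt u v).toNat : ℤ) = dt u v := Int.toNat_of_nonneg hD.le
  have e2 : ((dt u' v').toNat : ℤ) = dt u' v' := Int.toNat_of_nonneg hD'.le
  have h1 : (t : ℤ) ∣ dt u v - dt u' v' := (Int.natCast_dvd_natCast.2 ht).trans h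
  rw [← Int.natCast_dvd_natCast, ← Int.natCast_dvd_natCast, e1, e2]
  constructor
  · intro h2
    have := dvd_sub h2 h1
    rwa [sub_sub_cancel] at this
  · intro h2
    have := dvd_add h1 h2
    rwa [sub_add_cancel] at this

theorem ph_cz {r m : ℕ} (hrm : r ∣ m) {u v u' v' : ℤ × ℤ} (hu : Pv u) (hu' : Pv u')
    (hr : (r : ℤ) ∣ dt u v) (hr' : (r : ℤ) ∣ dt u' v')
    (h1 : (m : ℤ) ∣ u.1 - u'.1) (h2 : (m : ℤ) ∣ u.2 - u'.2) (h3 : (m : ℤ) ∣ v.1 - v'.1)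
    (h4 : (m : ℤ) ∣ v.2 - v'.2) : ((cz u v : ℤ) : ZMod r) = ((cz u' v' : ℤ) : ZMod r) := by
  have hrm' : (r : ℤ) ∣ (m : ℤ) := Int.natCast_dvd_natCast.2 hrm
  obtain ⟨h5, h6⟩ := cz_spec (v := v) hu
  have h7 : (r : ℤ) ∣ cz u v - cz u' v' := by
    apply cz_unique hu' hr'
    · have e : v'.1 - cz u v * u'.1 = (v.1 - cz u v * u.1) - (v.1 - v'.1) +
          cz u v * (u.1 - u'.1) := by ring
      rw [e]
      exact dvd_add (dvd_sub (hr.trans h5) (hrm'.trans h3)) (Dvd.dvd.mul_left (hrm'.trans h1) _)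
    · have e : v'.2 - cz u v * u'.2 = (v.2 - cz u v * u.2) - (v.2 - v'.2) +
          cz u v * (u.2 - u'.2) := by ring
      rw [e]
      exact dvd_add (dvd_sub (hr.trans h6) (hrm'.trans h4)) (Dvd.dvd.mul_left (hrm'.trans h2) _)
  have h8 : (r : ℤ) ∣ cz u' v' - cz u v := by
    have := dvd_neg.2 h7
    rwa [neg_sub] at this
  exact (ZMod.intCast_eq_intCast_iff_dvd_sub _ _ _).2 h8

theorem ph_per (a : ℕ → ℝ) (N R R' m : ℕ) (hm : ∀ t ∈ Icc 1 (max R R'), t ∣ m)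
    {u v u' v' : ℤ × ℤ} (hu : Pv u) (hu' : Pv u') (hD : 0 < dt u v) (hD' : 0 < dt u' v')
    (h1 : (m : ℤ) ∣ u.1 - u'.1) (h2 : (m : ℤ) ∣ u.2 - u'.2) (h3 : (m : ℤ) ∣ v.1 - v'.1)
    (h4 : (m : ℤ) ∣ v.2 - v'.2) :
    PH a N R (dt u v).toNat R' (cz u v) = PH a N R (dt u' v').toNat R' (cz u' v') := by
  have hdv := ph_dvd h1 h2 h3 h4
  have hiff : ∀ t ∈ Icc 1 (max R R'), (t ∣ (dt u v).toNat ↔ t ∣ (dt u' v').toNat) :=
    fun t ht => ph_dvd_iff (hm t ht) hD hD' hdv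
  have hg : gR R' (dt u v).toNat = gR R' (dt u' v').toNat := by
    unfold gR
    congr 1
    apply filter_congr
    intro t ht
    rw [mem_Icc] at ht
    rw [hiff t (mem_Icc.2 ⟨ht.1, ht.2.trans (le_max_right _ _)⟩)]
  have hs : (Icc 1 R).filter (· ∣ (dt u v).toNat) = (Icc 1 R).filter (· ∣ (dt u' v').toNat) := by
    apply filter_congr
    intro t ht
    rw [mem_Icc] at ht
    exact hiff t (mem_Icc.2 ⟨ht.1, ht.2.trans (le_max_left _ _)⟩)
  unfold PH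
  rw [hg, hs]
  congr 1
  apply sum_congr rfl
  intro r hr
  rw [mem_filter, mem_Icc] at hr
  have hr0 : r ∈ Icc 1 (max R R') := mem_Icc.2 ⟨hr.1.1, hr.1.2.trans (le_max_left _ _)⟩
  have e1 : ((dt u v).toNat : ℤ) = dt u v := Int.toNat_of_nonneg hD.le
  have e2 : ((dt u' v').toNat : ℤ) = dt u' v' := Int.toNat_of_nonneg hD'.le
  have hr1 : (r : ℤ) ∣ dt u v := by
    rw [← e1]
    exact Int.natCast_dvd_natCast.2 ((hiff r hr0).2 hr.2)
  have hr2 : (r : ℤ) ∣ dt u' v' := by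
    rw [← e2]
    exact Int.natCast_dvd_natCast.2 hr.2
  have hc := ph_cz (hm r hr0) hu hu' hr1 hr2 h1 h2 h3 h4
  unfold Psi
  rw [hc]

end Pool.Agent.EC
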