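import Pool.Agent.Lib_MP_f1a94e_eck.KDefs2

/-!
# Piece PHIA: identities and bounds for Euler's function

PROOF. `phi_id`: `D / φ(D) = ∏_{p ∣ D} (1 + 1/(p-1)) = ∑_{t ∣ D squarefree} 1/φ(t)` (`Nat.totient_eq_mul_prod_factors` or `Nat.totient_mul_prod_primeFactors`, `Finset.prod_one_add`, the squarefree divisors of `D` are the
products of subsets of `D.primeFactors`: `Nat.sum_divisors_filter_squarefree`). `phi_sq`: multiplicativity, induction over coprime products (`Nat.recOnPosPrimePosCoprime`) for the statement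
`t ≤ φ(t)^2` for odd `t` and `t ≤ 2 φ(t)^2` in general; prime powers: `p^k ≤ φ(p^k)^2 = p^(2k-2) (p-1)^2` for `p ≥ 3`, and for `p = 2`, `k ≥ 2`; `2 = 2 φ(2)^2`.
-/

set_option autoImplicit false

namespace Pool.Agent.EC

open Finset

/-- the totient of a squarefree number -/
theorem phia_totient_sqf {t : ℕ} (ht : Squarefree t) :
    (t.totient : ℝ) = ∏ p ∈ t.primeFactors, ((p : ℝ) - 1) := by
  have h := Nat.totient_mul_prod_primeFactors t
  rw [Nat.prod_primeFactors_of_squarefree ht] at h
  have ht0 : 0 < t := Nat.pos_of_ne_zero ht.ne_zero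
  have h2 : t.totient = ∏ p ∈ t.primeFactors, (p - 1) := by
    rw [mul_comm] at h
    exact Nat.eq_of_mul_eq_mul_left ht0 h
  rw [h2, Nat.cast_prod]
  refine prod_congr rfl fun p hp => ?_
  rw [Nat.cast_sub (Nat.prime_of_mem_primeFactors hp).one_lt.le, Nat.cast_one]

theorem phi_id (D : ℕ) (hD : 1 ≤ D) : (D : ℝ) / D.totient = gR D D := by
  have hpos : ∀ p ∈ D.primeFactors, (0 : ℝ) < (p : ℝ) - 1 := by
    intro p hp
    have h : (1 : ℝ) < p := by exact_mod_cast (Nat.prime_of_mem_primeFactors hp).one_lt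
    linarith
  have h1 : (D : ℝ) / D.totient = ∏ p ∈ D.primeFactors, (1 + 1 / ((p : ℝ) - 1)) := by
    have h := Nat.totient_mul_prod_primeFactors D
    have h2 : (D.totient : ℝ) * ∏ p ∈ D.primeFactors, (p : ℝ)
        = (D : ℝ) * ∏ p ∈ D.primeFactors, ((p : ℝ) - 1) := by
      have h3 := congrArg (fun n : ℕ => (n : ℝ)) h
      simp only [Nat.cast_mul, Nat.cast_prod] at h3
      rw [h3]
      congr 1
      refine prod_congr rfl fun p hp => ?_
      rw [Nat.cast_sub (Nat.prime_of_mem_primeFactors hp).one_lt.le, Nat.cast_one]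
    have h4 : ∏ p ∈ D.primeFactors, (1 + 1 / ((p : ℝ) - 1))
        = (∏ p ∈ D.primeFactors, (p : ℝ)) / ∏ p ∈ D.primeFactors, ((p : ℝ) - 1) := by
      rw [← prod_div_distrib]
      refine prod_congr rfl fun p hp => ?_
      have := hpos p hp
      field_simp
      ring
    have h5 : (0 : ℝ) < ∏ p ∈ D.primeFactors, ((p : ℝ) - 1) := prod_pos hpos
    have h6 : (0 : ℝ) < D.totient := by exact_mod_cast Nat.totient_pos.mpr hD
    rw [h4, div_eq_div_iff h6.ne' h5.ne', ← h2]
    ring
  rw [h1, prod_one_add]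
  unfold gR
  refine sum_nbij' (fun S => ∏ p ∈ S, p) (fun t => t.primeFactors) ?_ ?_ ?_ ?_ ?_
  · intro S hS
    rw [mem_powerset] at hS
    have hpr : ∀ p ∈ S, p.Prime := fun p hp => Nat.prime_of_mem_primeFactors (hS hp)
    have hdvd : (∏ p ∈ S, p) ∣ D :=
      (prod_dvd_prod_of_subset _ _ _ hS).trans (Nat.prod_primeFactors_dvd D)
    have hsq : Squarefree (∏ p ∈ S, p) := by
      refine Finset.squarefree_prod_of_pairwise_isCoprime (fun p hp q hq hpq => ?_)
        fun p hp => (hpr p hp).squarefree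
      simp only [Function.onFun, ← Nat.coprime_iff_isRelPrime]
      exact (Nat.coprime_primes (hpr p hp) (hpr q hq)).mpr hpq
    rw [mem_filter, mem_Icc]
    exact ⟨⟨Nat.pos_of_ne_zero hsq.ne_zero, Nat.le_of_dvd hD hdvd⟩, hdvd, hsq⟩
  · intro t ht
    rw [mem_filter] at ht
    rw [mem_powerset]
    exact Nat.primeFactors_mono ht.2.1 (by omega)
  · intro S hS
    rw [mem_powerset] at hS
    exact Nat.primeFactors_prod fun p hp => Nat.prime_of_mem_primeFactors (hS hp)
  · intro t ht
    rw [mem_filter] at ht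
    exact Nat.prod_primeFactors_of_squarefree ht.2.2
  · intro S hS
    rw [mem_powerset] at hS
    have hpr : ∀ p ∈ S, p.Prime := fun p hp => Nat.prime_of_mem_primeFactors (hS hp)
    have hsq : Squarefree (∏ p ∈ S, p) := by
      refine Finset.squarefree_prod_of_pairwise_isCoprime (fun p hp q hq hpq => ?_)
        fun p hp => (hpr p hp).squarefree
      simp only [Function.onFun, ← Nat.coprime_iff_isRelPrime]
      exact (Nat.coprime_primes (hpr p hp) (hpr q hq)).mpr hpq
    show ∏ p ∈ S, 1 / ((p : ℝ) - 1) = 1 / (((∏ p ∈ S, p : ℕ).totient : ℕ) : ℝ)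
    rw [phia_totient_sqf hsq, Nat.primeFactors_prod hpr, prod_div_distrib, prod_const_one]

/-- the two bounds together -/
theorem phia_both (t : ℕ) : (t % 4 ≠ 2 → t ≤ t.totient ^ 2) ∧ t ≤ 2 * t.totient ^ 2 := by
  induction t using Nat.recOnPosPrimePosCoprime with
  | prime_pow p k hp hk =>
    rw [Nat.totient_prime_pow hp hk]
    rcases hp.eq_two_or_odd with h2 | hodd
    · subst h2
      have e1 : (2 : ℕ) ^ (k - 1) * (2 - 1) = 2 ^ (k - 1) := by norm_num
      rw [e1, ← pow_mul]
      constructor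
      · intro h
        have hk1 : k ≠ 1 := by
          rintro rfl
          norm_num at h
        exact Nat.pow_le_pow_right (by norm_num) (by omega)
      · rw [mul_comm, ← pow_succ]
        exact Nat.pow_le_pow_right (by norm_num) (by omega)
    · have h3 : 3 ≤ p := by
        have := hp.two_le
        omega
      obtain ⟨m, rfl⟩ : ∃ m, k = m + 1 := ⟨k - 1, by omega⟩
      obtain ⟨q, rfl⟩ : ∃ q, p = q + 3 := ⟨p - 3, by omega⟩
      have key : (q + 3) ^ (m + 1) ≤ ((q + 3) ^ (m + 1 - 1) * (q + 3 - 1)) ^ 2 := by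
        have e1 : m + 1 - 1 = m := by omega
        have e2 : q + 3 - 1 = q + 2 := by omega
        rw [e1, e2, mul_pow, pow_succ]
        refine Nat.mul_le_mul ?_ ?_
        · rw [← pow_mul]
          exact Nat.pow_le_pow_right (by omega) (by omega)
        · nlinarith
      exact ⟨fun _ => key, by omega⟩
  | zero => simp
  | one => simp
  | coprime a b ha hb hab iha ihb =>
    rw [Nat.totient_mul hab, mul_pow]
    have hpar : a % 2 = 1 ∨ b % 2 = 1 := by
      by_contra hcon
      push Not at hcon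
      have h1 : 2 ∣ Nat.gcd a b := Nat.dvd_gcd (by omega) (by omega)
      rw [hab] at h1
      omega
    constructor
    · intro h
      have h1 : a % 4 ≠ 2 := by
        intro h2
        apply h
        have h3 : b % 4 = 1 ∨ b % 4 = 3 := by omega
        rcases h3 with h3 | h3 <;> rw [Nat.mul_mod, h2, h3]
      have h2 : b % 4 ≠ 2 := by
        intro h2
        apply h
        have h3 : a % 4 = 1 ∨ a % 4 = 3 := by omega
        rcases h3 with h3 | h3 <;> rw [Nat.mul_mod, h2, h3]
      exact Nat.mul_le_mul (iha.1 h1) (ihb.1 h2)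
    · rcases hpar with h | h
      · have h1 := iha.1 (by omega)
        calc a * b ≤ a.totient ^ 2 * (2 * b.totient ^ 2) := Nat.mul_le_mul h1 ihb.2
          _ = 2 * (a.totient ^ 2 * b.totient ^ 2) := by ring
      · have h1 := ihb.1 (by omega)
        calc a * b ≤ (2 * a.totient ^ 2) * b.totient ^ 2 := Nat.mul_le_mul iha.2 h1
          _ = 2 * (a.totient ^ 2 * b.totient ^ 2) := by ring

theorem phi_sq (t : ℕ) : t ≤ 2 * t.totient ^ 2 := (phia_both t).2

end Pool.Agent.EC
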