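import Pool.Agent.Lib_MP_f1a94e_eck.KBase

/-!
# Piece TTCHAR: the pair count in terms of all characters modulo `D`

PROOF. Let `D ≥ 1`, `c ∈ cop D`, `N = NP P`. `|SS a N χ|^2 = ∑_{p,p'} a p a p' χ(p) conj χ(p')`, so by orthogonality (`DirichletCharacter.sum_char_inv_mul_char_eq`; only `p'` prime to `D` contribute, and
`χ(c) χ(p) conj χ(p')` sums to `φ(D)` if `p' = c p` in `ZMod D` and to `0` otherwise) `TA a N D c = ∑_{p, p' prime to D, D ∣ p' - c p} a p a p'`.
In `TT - TA` the terms have `p` or `p'` not prime to `D`; as `c` is prime to `D` and `D ∣ p' - c p`, both are not prime to `D`; if `a p a p' ≠ 0` then `p, p'` are primes with `p ∣ D`, `p ∣ p'`, so `p = p'` and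
`D ∣ p (1 - c)`. So `‖TT - TA‖ ≤ ∑_{p ∣ D, D ∣ p (c - 1)} (a p)^2`. For fixed `p` and `D = p m`, `m ≤ X/p`, there are at most `p` residues `c ∈ [0, D)` with `m ∣ c - 1`.
Sum over `D, c`: at most `∑_p (X / p) p (a p)^2 ≤ X log (2P) tot a P` (`a_le`).
-/

set_option autoImplicit false

namespace Pool.Agent.EC

open Finset

theorem ttchar_inner {D : ℕ} [NeZero D] (c p p' : ZMod D) :
    ∑ χ : DirichletCharacter ℂ D, χ c * (χ p * star (χ p')) =
      if IsUnit p' ∧ p' = c * p then (D.totient : ℂ) else 0 := by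
  classical
  by_cases hu : IsUnit p'
  · have h1 : ∀ χ : DirichletCharacter ℂ D, χ c * (χ p * star (χ p')) = χ p'⁻¹ * χ (c * p) := by
      intro χ
      rw [MulChar.star_apply', MulChar.inv_apply_eq_inv', map_mul]
      have h2 : χ p'⁻¹ * χ p' = 1 := by
        rw [← map_mul, ZMod.inv_mul_of_unit _ hu, map_one]
      rw [eq_inv_of_mul_eq_one_left h2]
      ring
    rw [Finset.sum_congr rfl fun χ _ => h1 χ, DirichletCharacter.sum_char_inv_mul_char_eq ℂ hu]
    by_cases h : p' = c * p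
    · rw [if_pos h, if_pos ⟨hu, h⟩]
    · rw [if_neg h, if_neg fun h2 => h h2.2]
  · rw [if_neg fun h => hu h.1]
    refine Finset.sum_eq_zero fun χ _ => ?_
    rw [MulChar.map_nonunit χ hu, star_zero, mul_zero, mul_zero]

theorem ttchar_sq (a : ℕ → ℝ) (N : ℕ) {D : ℕ} (χ : DirichletCharacter ℂ D) :
    ((‖SS a N χ‖ ^ 2 : ℝ) : ℂ) = ∑ p ∈ range N, ∑ p' ∈ range N,
      ((a p * a p' : ℝ) : ℂ) * (χ (p : ZMod D) * star (χ (p' : ZMod D))) := by
  rw [← Complex.normSq_eq_norm_sq, Complex.normSq_eq_conj_mul_self, mul_comm]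
  unfold SS
  rw [map_sum, Finset.sum_mul_sum]
  refine Finset.sum_congr rfl fun x _ => Finset.sum_congr rfl fun y _ => ?_
  rw [map_mul, Complex.conj_ofReal, Complex.ofReal_mul]
  change _ * (_ * star (χ (y : ZMod D))) = _
  ring

theorem ttchar_TA (a : ℕ → ℝ) (N D : ℕ) [NeZero D] (c : ℤ) :
    TA a N D c = ∑ p ∈ range N, ∑ p' ∈ range N,
      if IsUnit (p' : ZMod D) ∧ (p' : ZMod D) = (c : ZMod D) * (p : ZMod D) then
        ((a p * a p' : ℝ) : ℂ) else 0 := by
  classical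
  unfold TA
  have h1 : ∑ χ : DirichletCharacter ℂ D, χ (c : ZMod D) * ((‖SS a N χ‖ ^ 2 : ℝ) : ℂ) =
      ∑ p ∈ range N, ∑ p' ∈ range N, ((a p * a p' : ℝ) : ℂ) *
        ∑ χ : DirichletCharacter ℂ D,
          χ (c : ZMod D) * (χ (p : ZMod D) * star (χ (p' : ZMod D))) := by
    have h2 : ∀ χ : DirichletCharacter ℂ D, χ (c : ZMod D) * ((‖SS a N χ‖ ^ 2 : ℝ) : ℂ) =
        ∑ p ∈ range N, ∑ p' ∈ range N, ((a p * a p' : ℝ) : ℂ) *
          (χ (c : ZMod D) * (χ (p : ZMod D) * star (χ (p' : ZMod D)))) := by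
      intro χ
      rw [ttchar_sq, Finset.mul_sum]
      refine Finset.sum_congr rfl fun p _ => ?_
      rw [Finset.mul_sum]
      refine Finset.sum_congr rfl fun p' _ => ?_
      ring
    rw [Finset.sum_congr rfl fun χ _ => h2 χ, Finset.sum_comm]
    refine Finset.sum_congr rfl fun p _ => ?_
    rw [Finset.sum_comm]
    refine Finset.sum_congr rfl fun p' _ => ?_
    rw [Finset.mul_sum]
  rw [h1, Finset.mul_sum]
  refine Finset.sum_congr rfl fun p _ => ?_
  rw [Finset.mul_sum]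
  refine Finset.sum_congr rfl fun p' _ => ?_
  rw [ttchar_inner]
  have hφ : (D.totient : ℂ) ≠ 0 := by
    have := Nat.totient_pos.2 (Nat.pos_of_ne_zero (NeZero.ne D))
    exact_mod_cast this.ne'
  by_cases h : IsUnit (p' : ZMod D) ∧ (p' : ZMod D) = (c : ZMod D) * (p : ZMod D)
  · rw [if_pos h, if_pos h]
    field_simp
  · rw [if_neg h, if_neg h, mul_zero, mul_zero]

theorem ttchar_dvd {D : ℕ} {c : ℤ} {p p' : ℕ} :
    (p' : ZMod D) = (c : ZMod D) * (p : ZMod D) ↔ (D : ℤ) ∣ (p' : ℤ) - c * p := by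
  rw [← ZMod.intCast_zmod_eq_zero_iff_dvd]
  push_cast
  rw [sub_eq_zero]

/-- the diagonal terms -/
noncomputable def ttcharE (a : ℕ → ℝ) (N D : ℕ) (c : ℕ) : ℝ :=
  ∑ p ∈ range N, if p.Prime ∧ p ∣ D ∧ (D : ℤ) ∣ (p : ℤ) - (c : ℤ) * p then a p ^ 2 else 0

theorem ttchar_diff {a : ℕ → ℝ} {P δ : ℝ} (h : Wt a P δ) (N D c : ℕ) (hD : 1 ≤ D)
    (hc : c ∈ cop D) : ‖(TT a N D (c : ℤ) : ℂ) - TA a N D (c : ℤ)‖ ≤ ttcharE a N D c := by
  classical
  have hD0 : NeZero D := ⟨by omega⟩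
  have hcop : c.Coprime D := (mem_filter.1 hc).2
  rw [ttchar_TA]
  unfold TT ttcharE
  rw [Complex.ofReal_sum, ← Finset.sum_sub_distrib]
  refine (norm_sum_le _ _).trans (Finset.sum_le_sum fun p hp => ?_)
  rw [Complex.ofReal_sum, ← Finset.sum_sub_distrib]
  refine (norm_sum_le _ _).trans ?_
  have key : ∀ p' ∈ range N, ‖((if (D : ℤ) ∣ (p' : ℤ) - (c : ℤ) * p then a p * a p' else 0 : ℝ) : ℂ) -
      (if IsUnit (p' : ZMod D) ∧ (p' : ZMod D) = ((c : ℤ) : ZMod D) * (p : ZMod D) then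
        ((a p * a p' : ℝ) : ℂ) else 0)‖ ≤
      if p' = p then (if p.Prime ∧ p ∣ D ∧ (D : ℤ) ∣ (p : ℤ) - (c : ℤ) * p then a p ^ 2 else 0)
        else 0 := by
    intro p' _
    have hnn : (0 : ℝ) ≤ if p' = p then
        (if p.Prime ∧ p ∣ D ∧ (D : ℤ) ∣ (p : ℤ) - (c : ℤ) * p then a p ^ 2 else 0) else 0 := by
      split_ifs <;> positivity
    by_cases h1 : (D : ℤ) ∣ (p' : ℤ) - (c : ℤ) * p
    · have h1' : (p' : ZMod D) = ((c : ℤ) : ZMod D) * (p : ZMod D) := ttchar_dvd.2 h1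
      by_cases h2 : IsUnit (p' : ZMod D)
      · rw [if_pos h1, if_pos ⟨h2, h1'⟩, sub_self, norm_zero]
        exact hnn
      · rw [if_pos h1, if_neg fun h3 => h2 h3.1, sub_zero, Complex.norm_real]
        by_cases h0 : a p * a p' = 0
        · rw [h0, norm_zero]
          exact hnn
        · have hap : a p ≠ 0 := left_ne_zero_of_mul h0
          have hap' : a p' ≠ 0 := right_ne_zero_of_mul h0
          have hpp := (h.supp p hap).1
          have hpp' := (h.supp p' hap').1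
          have h4 : p' ∣ D := by
            by_contra h5
            apply h2
            rw [ZMod.isUnit_iff_coprime]
            exact (Nat.Prime.coprime_iff_not_dvd hpp').2 h5
          have h5 : (p' : ℤ) ∣ (c : ℤ) * p := by
            have h6 : (p' : ℤ) ∣ (p' : ℤ) - (c : ℤ) * p :=
              (Int.natCast_dvd_natCast.2 h4).trans h1
            have h7 := dvd_sub (dvd_refl (p' : ℤ)) h6
            rwa [sub_sub_cancel] at h7
          have h6 : p' ∣ c * p := by exact_mod_cast h5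
          have h7 : p' ∣ p := by
            rcases hpp'.dvd_mul.1 h6 with h8 | h8
            · exfalso
              have h9 : p' ∣ 1 := by
                rw [← hcop.gcd_eq_one]
                exact Nat.dvd_gcd h8 h4
              exact hpp'.one_lt.ne' (Nat.dvd_one.1 h9)
            · exact h8
          have h8 : p' = p := (Nat.prime_dvd_prime_iff_eq hpp' hpp).1 h7
          subst h8
          rw [if_pos rfl, if_pos ⟨hpp, h4, h1⟩, Real.norm_eq_abs, ← sq, abs_of_nonneg (sq_nonneg _)]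
    · rw [if_neg h1, if_neg fun h3 => h1 (ttchar_dvd.1 h3.2), Complex.ofReal_zero, sub_zero,
        norm_zero]
      exact hnn
  refine (Finset.sum_le_sum key).trans ?_
  rw [Finset.sum_ite_eq' (range N) p, if_pos hp]

theorem ttchar_count1 (p m : ℕ) (hp : 1 ≤ p) (hm : 1 ≤ m) :
    ((range (p * m)).filter (fun c : ℕ =>
      ((p * m : ℕ) : ℤ) ∣ (p : ℤ) - (c : ℤ) * p)).card ≤ p := by
  have h1 : ((range (p * m)).filter (fun c : ℕ =>
      ((p * m : ℕ) : ℤ) ∣ (p : ℤ) - (c : ℤ) * p)).card ≤ (range p).card := by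
    refine Finset.card_le_card_of_injOn (fun c => c / m) ?_ ?_
    · intro c hc
      rw [Finset.mem_coe, mem_filter, mem_range] at hc
      rw [Finset.mem_coe, mem_range]
      exact (Nat.div_lt_iff_lt_mul (by omega)).2 hc.1
    · intro c hc c' hc' hcc
      rw [Finset.mem_coe, mem_filter] at hc hc'
      have aux : ∀ c : ℕ, ((p * m : ℕ) : ℤ) ∣ (p : ℤ) - (c : ℤ) * p → (m : ℤ) ∣ 1 - (c : ℤ) := by
        intro c hc
        have h2 : ((p * m : ℕ) : ℤ) = (p : ℤ) * m := by push_cast; ring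
        have h3 : (p : ℤ) - (c : ℤ) * p = (p : ℤ) * (1 - c) := by ring
        rw [h2, h3] at hc
        exact (mul_dvd_mul_iff_left (by exact_mod_cast (by omega : p ≠ 0))).1 hc
      have h4 := dvd_sub (aux c' hc'.2) (aux c hc.2)
      have h5 : (m : ℤ) ∣ (c : ℤ) - c' := by
        have h6 : (1 - (c' : ℤ)) - (1 - c) = (c : ℤ) - c' := by ring
        rwa [h6] at h4
      have h6 : c % m = c' % m := by
        have h7 : c' ≡ c [MOD m] := (Nat.modEq_iff_dvd).2 h5
        exact h7.symm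
      have h7 : c / m = c' / m := hcc
      rw [← Nat.div_add_mod c m, ← Nat.div_add_mod c' m, h6, h7]
  rwa [card_range] at h1

theorem ttchar_count (p X : ℕ) (hp : 1 ≤ p) :
    ∑ D ∈ Icc 1 X, ((cop D).filter (fun c : ℕ =>
      p ∣ D ∧ (D : ℤ) ∣ (p : ℤ) - (c : ℤ) * p)).card ≤ X := by
  have h1 : ∀ D ∈ Icc 1 X, ((cop D).filter (fun c : ℕ =>
      p ∣ D ∧ (D : ℤ) ∣ (p : ℤ) - (c : ℤ) * p)).card ≤ if p ∣ D then p else 0 := by
    intro D hD
    by_cases h : p ∣ D
    · rw [if_pos h]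
      obtain ⟨m, rfl⟩ := h
      rw [mem_Icc] at hD
      have hm : 1 ≤ m := by
        rcases Nat.eq_zero_or_pos m with h0 | h0
        · rw [h0, mul_zero] at hD
          omega
        · exact h0
      refine (Finset.card_le_card ?_).trans (ttchar_count1 p m hp hm)
      intro c hc
      rw [mem_filter, cop, mem_filter] at hc
      rw [mem_filter]
      exact ⟨hc.1.1, hc.2.2⟩
    · rw [if_neg h, Nat.le_zero, Finset.card_eq_zero, Finset.filter_eq_empty_iff]
      intro c _ h2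
      exact h h2.1
  refine (Finset.sum_le_sum h1).trans ?_
  rw [← Finset.sum_filter, Finset.sum_const, smul_eq_mul]
  have h2 : ((Icc 1 X).filter (fun D => p ∣ D)).card = X / p := by
    have h3 := Nat.Ioc_filter_dvd_card_eq_div X p
    rw [← h3]
    rfl
  rw [h2]
  exact Nat.div_mul_le_self X p

theorem ttchar {a : ℕ → ℝ} {P δ : ℝ} (h : Wt a P δ) (hP : 1 ≤ P) (hδ : δ ≤ 1) (X : ℕ) :
    ∑ D ∈ Icc 1 X, ∑ c ∈ cop D, ‖(TT a (NP P) D (c : ℤ) : ℂ) - TA a (NP P) D (c : ℤ)‖ ≤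
      X * Real.log (2 * P) * tot a P := by
  classical
  have h1 : ∑ D ∈ Icc 1 X, ∑ c ∈ cop D, ‖(TT a (NP P) D (c : ℤ) : ℂ) - TA a (NP P) D (c : ℤ)‖ ≤
      ∑ D ∈ Icc 1 X, ∑ c ∈ cop D, ttcharE a (NP P) D c :=
    Finset.sum_le_sum fun D hD => Finset.sum_le_sum fun c hc =>
      ttchar_diff h (NP P) D c (mem_Icc.1 hD).1 hc
  refine h1.trans ?_
  have h2 : ∑ D ∈ Icc 1 X, ∑ c ∈ cop D, ttcharE a (NP P) D c = ∑ p ∈ range (NP P),
      ∑ D ∈ Icc 1 X, ∑ c ∈ cop D,
        if p.Prime ∧ p ∣ D ∧ (D : ℤ) ∣ (p : ℤ) - (c : ℤ) * p then a p ^ 2 else 0 := by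
    unfold ttcharE
    rw [Finset.sum_comm' (t' := range (NP P)) (s' := fun _ => Icc 1 X)
      (h := by intro x y; tauto) |>.symm]
    refine Finset.sum_congr rfl fun D _ => ?_
    rw [Finset.sum_comm]
  rw [h2]
  have h3 : ∀ p ∈ range (NP P), ∑ D ∈ Icc 1 X, ∑ c ∈ cop D,
      (if p.Prime ∧ p ∣ D ∧ (D : ℤ) ∣ (p : ℤ) - (c : ℤ) * p then a p ^ 2 else 0) ≤
      X * Real.log (2 * P) * a p := by
    intro p _
    have hlog : 0 ≤ Real.log (2 * P) := Real.log_nonneg (by linarith)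
    by_cases hp : p.Prime
    · have h4 : ∑ D ∈ Icc 1 X, ∑ c ∈ cop D,
          (if p.Prime ∧ p ∣ D ∧ (D : ℤ) ∣ (p : ℤ) - (c : ℤ) * p then a p ^ 2 else 0) =
          ((∑ D ∈ Icc 1 X, ((cop D).filter (fun c : ℕ =>
            p ∣ D ∧ (D : ℤ) ∣ (p : ℤ) - (c : ℤ) * p)).card : ℕ) : ℝ) * a p ^ 2 := by
        rw [Nat.cast_sum, Finset.sum_mul]
        refine Finset.sum_congr rfl fun D _ => ?_
        rw [← Finset.sum_filter, Finset.sum_const, nsmul_eq_mul]
        congr 3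
        refine Finset.filter_congr fun c _ => ?_
        tauto
      rw [h4]
      have h5 : ((∑ D ∈ Icc 1 X, ((cop D).filter (fun c : ℕ =>
            p ∣ D ∧ (D : ℤ) ∣ (p : ℤ) - (c : ℤ) * p)).card : ℕ) : ℝ) ≤ X := by
        exact_mod_cast ttchar_count p X hp.one_lt.le
      have h6 := a_le h hP hδ p
      have h7 := h.nonneg p
      calc _ ≤ (X : ℝ) * a p ^ 2 := mul_le_mul_of_nonneg_right h5 (sq_nonneg _)
        _ = X * a p * a p := by ring
        _ ≤ X * Real.log (2 * P) * a p := by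
          refine mul_le_mul_of_nonneg_right ?_ h7
          exact mul_le_mul_of_nonneg_left h6 (Nat.cast_nonneg X)
    · have h4 : ∑ D ∈ Icc 1 X, ∑ c ∈ cop D,
          (if p.Prime ∧ p ∣ D ∧ (D : ℤ) ∣ (p : ℤ) - (c : ℤ) * p then a p ^ 2 else 0) = 0 := by
        refine Finset.sum_eq_zero fun D _ => Finset.sum_eq_zero fun c _ => ?_
        rw [if_neg fun h5 => hp h5.1]
      rw [h4]
      exact mul_nonneg (mul_nonneg (Nat.cast_nonneg X) hlog) (h.nonneg p)
  refine (Finset.sum_le_sum h3).trans ?_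
  rw [← Finset.mul_sum]
  rfl

end Pool.Agent.EC
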