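import Pool.Agent.Lib_MP_f1a94e_eck.KBase
import Pool.Agent.Lib_MP_f1a94e_eck.Bij
import Pool.Agent.Lib_MP_f1a94e_eck.TtChar

/-!
# Piece PRIMI: passing to primitive characters

PROOF. Let `N = NP P`, `L = log (2P)`. By `bij` (`G r ψ = ‖SS a N ψ‖^2`), `TB a N 0 X D c = (1/φ(D)) ∑_{χ mod D} χ(c) ‖SS a N χ*‖^2`, `χ* = χ.primitiveCharacter` (`D ≤ X`, so the filter of `Ioc 0 X` is `D.divisors`).
For every `χ` mod `D`: `SS χ = SS χ* - ∑_{p ∣ D} a p χ*(p)`, so `|‖SS χ‖^2 - ‖SS χ*‖^2| ≤ Δ (2 ‖SS χ‖ + Δ)`, `Δ = ∑_{p ∈ range N, p ∣ D} a p`. Since `D ≤ X < P^2` and the primes in the support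
are at least `P`, at most one of them divides `D`: `Δ ≤ L` and `Δ = 0` if `D < P`. So the difference is `0` for `D < P`, and for `D ≥ P`
`‖TA - TB‖ ≤ (1/φ(D)) ∑_χ (2 L ‖SS χ‖ + L^2) ≤ 2 L ((1/φ(D)) ∑_χ ‖SS χ‖^2)^(1/2) + L^2` (number of `χ` is `φ(D)`, Cauchy), and
`(1/φ(D)) ∑_χ ‖SS χ‖^2 = ∑_{p, p' prime to D, p = p' mod D} a p a p' = ∑ (a p)^2 ≤ L tot a P` (two primes of `[P, 2P]` congruent modulo `D ≥ P` are
equal, `P ≥ 2`). Sum over `D ≤ X` and at most `D ≤ X` residues `c`.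
-/

set_option autoImplicit false

namespace Pool.Agent.EC

open Finset

theorem primi_TB (a : ℕ → ℝ) (N X D c : ℕ) (hD : 1 ≤ D) (hDX : D ≤ X) (hc : c.Coprime D) :
    TB a N 0 X D (c : ℤ) = (1 / (D.totient : ℂ)) * ∑ χ : DirichletCharacter ℂ D,
      χ (c : ZMod D) * ((‖SS a N χ.primitiveCharacter‖ ^ 2 : ℝ) : ℂ) := by
  have hset : (Ioc 0 X).filter (fun r => r ∣ D) = D.divisors := by
    ext r
    rw [mem_filter, mem_Ioc, Nat.mem_divisors]
    constructor
    · rintro ⟨_, h2⟩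
      exact ⟨h2, by omega⟩
    · rintro ⟨h1, _⟩
      have h3 := Nat.pos_of_dvd_of_pos h1 (by omega : 0 < D)
      have h4 := Nat.le_of_dvd (by omega : 0 < D) h1
      exact ⟨⟨h3, h4.trans hDX⟩, h1⟩
  unfold TB
  rw [hset]
  have h := bij D hD c hc (fun r ψ => ((‖SS a N ψ‖ ^ 2 : ℝ) : ℂ))
  rw [h]
  unfold Psi
  simp only [Int.cast_natCast]

/-- the total weight of the primes dividing `D` -/
noncomputable def primiD (a : ℕ → ℝ) (N D : ℕ) : ℝ := ∑ p ∈ range N, if p ∣ D then a p else 0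

theorem primi_D_nonneg {a : ℕ → ℝ} {P δ : ℝ} (h : Wt a P δ) (N D : ℕ) : 0 ≤ primiD a N D := by
  unfold primiD
  refine Finset.sum_nonneg fun p _ => ?_
  split_ifs
  · exact h.nonneg p
  · exact le_rfl

theorem primi_diff {a : ℕ → ℝ} {P δ : ℝ} (h : Wt a P δ) (N D : ℕ)
    (χ : DirichletCharacter ℂ D) :
    ‖SS a N χ.primitiveCharacter - SS a N χ‖ ≤ primiD a N D := by
  unfold SS primiD
  rw [← Finset.sum_sub_distrib]
  refine (norm_sum_le _ _).trans (Finset.sum_le_sum fun p _ => ?_)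
  by_cases h0 : a p = 0
  · rw [h0]
    simp
  · have hp := (h.supp p h0).1
    have hn := h.nonneg p
    by_cases hpD : p ∣ D
    · rw [if_pos hpD]
      have hnu : ¬ IsUnit (p : ZMod D) := by
        rw [ZMod.isUnit_iff_coprime]
        intro hc
        exact (Nat.Prime.coprime_iff_not_dvd hp).1 hc hpD
      rw [MulChar.map_nonunit χ hnu, mul_zero, sub_zero, norm_mul, Complex.norm_real,
        Real.norm_eq_abs, abs_of_nonneg hn]
      have h1 := DirichletCharacter.norm_le_one χ.primitiveCharacter (p : ZMod χ.conductor)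
      calc a p * ‖χ.primitiveCharacter (p : ZMod χ.conductor)‖ ≤ a p * 1 :=
            mul_le_mul_of_nonneg_left h1 hn
        _ = a p := mul_one _
    · rw [if_neg hpD]
      have hc : p.Coprime D := (Nat.Prime.coprime_iff_not_dvd hp).2 hpD
      have hco : IsCoprime (p : ℤ) (D : ℤ) := Nat.isCoprime_iff_coprime.2 hc
      have h1 := DirichletCharacter.primitiveCharacter_apply_of_isCoprime χ hco
      rw [Int.cast_natCast, Int.cast_natCast] at h1
      rw [h1, sub_self, norm_zero]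

theorem primi_D_le {a : ℕ → ℝ} {P δ : ℝ} (h : Wt a P δ) (hP : 2 ≤ P) (hδ : δ ≤ 1) (N D : ℕ)
    (hD : 1 ≤ D) (hDP : (D : ℝ) < P ^ 2) : primiD a N D ≤ Real.log (2 * P) := by
  unfold primiD
  have hL : 0 ≤ Real.log (2 * P) := Real.log_nonneg (by linarith)
  by_cases hex : ∃ p ∈ range N, p ∣ D ∧ a p ≠ 0
  · obtain ⟨q, hq, hqD, hq0⟩ := hex
    rw [Finset.sum_eq_single q]
    · rw [if_pos hqD]
      exact a_le h (by linarith) hδ q
    · intro p _ hpq
      by_cases hpD : p ∣ D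
      · rw [if_pos hpD]
        by_contra h0
        have h1 := h.supp p h0
        have h2 := h.supp q hq0
        have h3 : p.Coprime q := (Nat.coprime_primes h1.1 h2.1).2 hpq
        have h4 : p * q ∣ D := Nat.Coprime.mul_dvd_of_dvd_of_dvd h3 hpD hqD
        have h5 : p * q ≤ D := Nat.le_of_dvd (by omega) h4
        have h6 : (p : ℝ) * q ≤ D := by exact_mod_cast h5
        have h7 : P * P ≤ (p : ℝ) * q :=
          mul_le_mul h1.2.1 h2.2.1 (by linarith) (Nat.cast_nonneg p)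
        nlinarith
      · rw [if_neg hpD]
    · intro h1
      exact absurd hq h1
  · push Not at hex
    rw [Finset.sum_eq_zero]
    · exact hL
    · intro p hp
      by_cases hpD : p ∣ D
      · rw [if_pos hpD]
        exact hex p hp hpD
      · rw [if_neg hpD]

theorem primi_D_zero {a : ℕ → ℝ} {P δ : ℝ} (h : Wt a P δ) (N D : ℕ)
    (hD : 1 ≤ D) (hDP : (D : ℝ) < P) : primiD a N D = 0 := by
  unfold primiD
  refine Finset.sum_eq_zero fun p _ => ?_
  by_cases hpD : p ∣ D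
  · rw [if_pos hpD]
    by_contra h0
    have h1 := (h.supp p h0).2.1
    have h2 : (p : ℝ) ≤ D := by exact_mod_cast Nat.le_of_dvd (by omega) hpD
    linarith
  · rw [if_neg hpD]

theorem primi_term {a : ℕ → ℝ} {P δ : ℝ} (h : Wt a P δ) (hP : 2 ≤ P) (hδ : δ ≤ 1) {D p p' : ℕ}
    (hDP : P ≤ (D : ℝ)) (h0 : a p ≠ 0) (h0' : a p' ≠ 0) (hd : (D : ℤ) ∣ (p' : ℤ) - p) :
    p' = p := by
  have key : ∀ p p' : ℕ, a p ≠ 0 → a p' ≠ 0 → (D : ℤ) ∣ (p' : ℤ) - p → ¬ p < p' := by
    intro p p' h0 h0' hd hlt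
    have h1 := h.supp p h0
    have h2 := h.supp p' h0'
    have h3 : (p' : ℝ) ≤ 2 * P := by nlinarith [h2.2.2]
    obtain ⟨k, hk⟩ := hd
    have hD0 : (0 : ℝ) < D := by linarith
    have hk1 : 1 ≤ k := by
      by_contra h4
      have h5 : k ≤ 0 := by omega
      have h6 : (D : ℤ) * k ≤ 0 := mul_nonpos_of_nonneg_of_nonpos (by positivity) h5
      have : (p : ℤ) < p' := by exact_mod_cast hlt
      omega
    have h4 : (D : ℤ) * 1 ≤ D * k := mul_le_mul_of_nonneg_left hk1 (by positivity)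
    have h5 : (p : ℤ) + D ≤ p' := by omega
    have h6 : (p : ℝ) + D ≤ p' := by exact_mod_cast h5
    have h7 : (D : ℝ) = P := by linarith [h1.2.1]
    have h8 : (p' : ℝ) = 2 * D := by linarith [h1.2.1]
    have h9 : p' = 2 * D := by exact_mod_cast h8
    have h10 : D ≠ 1 := by
      intro h11
      rw [h11] at h7
      norm_num at h7
      linarith
    have h12 := h2.1
    rw [h9] at h12
    exact Nat.not_prime_mul (by norm_num) h10 h12
  rcases lt_trichotomy p p' with h1 | h1 | h1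
  · exact absurd h1 (key p p' h0 h0' hd)
  · exact h1.symm
  · refine absurd h1 (key p' p h0' h0 ?_)
    have h2 : (p : ℤ) - p' = -((p' : ℤ) - p) := by ring
    rw [h2]
    exact (dvd_neg).2 hd

theorem primi_mean {a : ℕ → ℝ} {P δ : ℝ} (h : Wt a P δ) (hP : 2 ≤ P) (hδ : δ ≤ 1) (D : ℕ)
    (hDP : P ≤ (D : ℝ)) :
    (1 / (D.totient : ℝ)) * ∑ χ : DirichletCharacter ℂ D, ‖SS a (NP P) χ‖ ^ 2 ≤
      Real.log (2 * P) * tot a P := by
  classical
  have hD : 1 ≤ D := by
    have : (0 : ℝ) < D := by linarith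
    exact_mod_cast this
  have hD0 : NeZero D := ⟨by omega⟩
  have h1 := ttchar_TA a (NP P) D 1
  have h2 : TA a (NP P) D 1 = (((1 / (D.totient : ℝ)) *
      ∑ χ : DirichletCharacter ℂ D, ‖SS a (NP P) χ‖ ^ 2 : ℝ) : ℂ) := by
    unfold TA
    rw [Complex.ofReal_mul, Complex.ofReal_sum]
    congr 1
    · push_cast
      rfl
    · refine Finset.sum_congr rfl fun χ _ => ?_
      rw [Int.cast_one, map_one, one_mul]
  have h3 : (1 / (D.totient : ℝ)) * ∑ χ : DirichletCharacter ℂ D, ‖SS a (NP P) χ‖ ^ 2 =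
      ∑ p ∈ range (NP P), ∑ p' ∈ range (NP P),
        if IsUnit (p' : ZMod D) ∧ (p' : ZMod D) = ((1 : ℤ) : ZMod D) * (p : ZMod D) then
          a p * a p' else 0 := by
    have h4 : (((1 / (D.totient : ℝ)) *
        ∑ χ : DirichletCharacter ℂ D, ‖SS a (NP P) χ‖ ^ 2 : ℝ) : ℂ) =
        ((∑ p ∈ range (NP P), ∑ p' ∈ range (NP P),
        (if IsUnit (p' : ZMod D) ∧ (p' : ZMod D) = ((1 : ℤ) : ZMod D) * (p : ZMod D) then
          a p * a p' else 0) : ℝ) : ℂ) := by
      rw [← h2, h1, Complex.ofReal_sum]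
      refine Finset.sum_congr rfl fun p _ => ?_
      rw [Complex.ofReal_sum]
      refine Finset.sum_congr rfl fun p' _ => ?_
      split_ifs <;> simp
    exact_mod_cast h4
  rw [h3]
  unfold tot
  rw [Finset.mul_sum]
  refine Finset.sum_le_sum fun p hp => ?_
  have hnn := h.nonneg p
  have h5 : ∀ p' ∈ range (NP P),
      (if IsUnit (p' : ZMod D) ∧ (p' : ZMod D) = ((1 : ℤ) : ZMod D) * (p : ZMod D) then
          a p * a p' else 0) ≤ if p' = p then a p * a p else 0 := by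
    intro p' _
    have hnn' := h.nonneg p'
    have hr : (0 : ℝ) ≤ if p' = p then a p * a p else 0 := by
      split_ifs
      · exact mul_nonneg hnn hnn
      · exact le_rfl
    split_ifs with h6 h7 h7
    · rw [h7]
    · by_cases h0 : a p * a p' = 0
      · rw [h0]
      · exfalso
        apply h7
        refine primi_term h hP hδ hDP (left_ne_zero_of_mul h0) (right_ne_zero_of_mul h0) ?_
        have h8 := ttchar_dvd.1 h6.2
        rwa [one_mul] at h8
    · exact mul_nonneg hnn hnn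
    · exact le_rfl
  refine (Finset.sum_le_sum h5).trans ?_
  rw [Finset.sum_ite_eq' (range (NP P)) p, if_pos hp]
  exact mul_le_mul_of_nonneg_right (a_le h (by linarith) hδ p) hnn

theorem primi_point {a : ℕ → ℝ} {P δ : ℝ} (h : Wt a P δ) (hP : 2 ≤ P) (hδ : δ ≤ 1) (X : ℕ)
    (hX : (X : ℝ) < P ^ 2) (D : ℕ) (hD : D ∈ Icc 1 X) (c : ℕ) (hc : c ∈ cop D) :
    ‖TA a (NP P) D (c : ℤ) - TB a (NP P) 0 X D (c : ℤ)‖ ≤
      2 * Real.log (2 * P) * √(Real.log (2 * P) * tot a P) + Real.log (2 * P) ^ 2 := by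
  classical
  rw [mem_Icc] at hD
  have hD0 : NeZero D := ⟨by omega⟩
  have hcop : c.Coprime D := (mem_filter.1 hc).2
  set L := Real.log (2 * P) with hLdef
  have hL : 0 ≤ L := Real.log_nonneg (by linarith)
  have hφ : (0 : ℝ) < (D.totient : ℝ) := by
    exact_mod_cast Nat.totient_pos.2 (by omega)
  have hDP2 : (D : ℝ) < P ^ 2 := by
    have : (D : ℝ) ≤ X := by exact_mod_cast hD.2
    linarith
  set Δ := primiD a (NP P) D with hΔ
  have hΔ0 : 0 ≤ Δ := primi_D_nonneg h _ _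
  have h1 : ‖TA a (NP P) D (c : ℤ) - TB a (NP P) 0 X D (c : ℤ)‖ ≤
      (1 / (D.totient : ℝ)) * ∑ χ : DirichletCharacter ℂ D,
        (Δ * (2 * ‖SS a (NP P) χ‖ + Δ)) := by
    rw [primi_TB a (NP P) X D c hD.1 hD.2 hcop]
    unfold TA
    rw [← mul_sub, ← Finset.sum_sub_distrib, norm_mul]
    have h2 : ‖(1 / (D.totient : ℂ))‖ = 1 / (D.totient : ℝ) := by
      rw [norm_div, norm_one, Complex.norm_natCast]
    rw [h2]
    refine mul_le_mul_of_nonneg_left ?_ (by positivity)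
    refine (norm_sum_le _ _).trans (Finset.sum_le_sum fun χ _ => ?_)
    rw [Int.cast_natCast, ← mul_sub, norm_mul, ← Complex.ofReal_sub, Complex.norm_real,
      Real.norm_eq_abs]
    have h3 := DirichletCharacter.norm_le_one χ (c : ZMod D)
    have h4 := primi_diff h (NP P) D χ
    have h5 := abs_norm_sub_norm_le (SS a (NP P) χ.primitiveCharacter) (SS a (NP P) χ)
    have h6 : |‖SS a (NP P) χ.primitiveCharacter‖ - ‖SS a (NP P) χ‖| ≤ Δ := h5.trans h4
    rw [abs_le] at h6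
    have h7 := norm_nonneg (SS a (NP P) χ)
    have h8 := norm_nonneg (SS a (NP P) χ.primitiveCharacter)
    have h9 : |‖SS a (NP P) χ‖ ^ 2 - ‖SS a (NP P) χ.primitiveCharacter‖ ^ 2| ≤
        Δ * (2 * ‖SS a (NP P) χ‖ + Δ) := by
      have e1 : ‖SS a (NP P) χ‖ ^ 2 - ‖SS a (NP P) χ.primitiveCharacter‖ ^ 2 =
          (‖SS a (NP P) χ‖ - ‖SS a (NP P) χ.primitiveCharacter‖) *
          (‖SS a (NP P) χ‖ + ‖SS a (NP P) χ.primitiveCharacter‖) := by ring
      rw [e1, abs_mul, abs_of_nonneg (add_nonneg h7 h8)]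
      refine mul_le_mul ?_ ?_ (add_nonneg h7 h8) hΔ0
      · rw [abs_le]
        constructor <;> linarith [h6.1, h6.2]
      · linarith [h6.2]
    calc ‖χ (c : ZMod D)‖ * |‖SS a (NP P) χ‖ ^ 2 - ‖SS a (NP P) χ.primitiveCharacter‖ ^ 2|
        ≤ 1 * |‖SS a (NP P) χ‖ ^ 2 - ‖SS a (NP P) χ.primitiveCharacter‖ ^ 2| :=
          mul_le_mul_of_nonneg_right h3 (abs_nonneg _)
      _ ≤ Δ * (2 * ‖SS a (NP P) χ‖ + Δ) := by rw [one_mul]; exact h9
  refine h1.trans ?_
  rcases lt_or_ge (D : ℝ) P with hDP | hDP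
  · have hz : Δ = 0 := primi_D_zero h _ _ hD.1 hDP
    rw [hz]
    simp only [zero_mul, Finset.sum_const_zero, mul_zero]
    positivity
  · have hΔL : Δ ≤ L := primi_D_le h hP hδ _ _ hD.1 hDP2
    have hcard : ((Finset.univ : Finset (DirichletCharacter ℂ D)).card : ℝ) = D.totient := by
      have h2 := DirichletCharacter.card_eq_totient_of_hasEnoughRootsOfUnity ℂ D
      rw [Nat.card_eq_fintype_card] at h2
      rw [Finset.card_univ, h2]
    have hmean := primi_mean h hP hδ D hDP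
    set S1 := ∑ χ : DirichletCharacter ℂ D, ‖SS a (NP P) χ‖ with hS1
    set S2 := ∑ χ : DirichletCharacter ℂ D, ‖SS a (NP P) χ‖ ^ 2 with hS2
    have hS1n : 0 ≤ S1 := Finset.sum_nonneg fun χ _ => norm_nonneg _
    have hCS : S1 ^ 2 ≤ D.totient * S2 := by
      have h2 := sq_sum_le_card_mul_sum_sq (s := (Finset.univ : Finset (DirichletCharacter ℂ D)))
        (f := fun χ => ‖SS a (NP P) χ‖)
      rw [hcard] at h2
      exact h2
    have h2 : (1 / (D.totient : ℝ)) * S1 ≤ √(L * tot a P) := by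
      refine Real.le_sqrt_of_sq_le (le_trans ?_ hmean)
      rw [mul_pow]
      have e : (1 / (D.totient : ℝ)) ^ 2 * S1 ^ 2 ≤ (1 / (D.totient : ℝ)) ^ 2 * (D.totient * S2) :=
        mul_le_mul_of_nonneg_left hCS (by positivity)
      refine e.trans (le_of_eq ?_)
      field_simp
    have h3 : (1 / (D.totient : ℝ)) * ∑ χ : DirichletCharacter ℂ D,
        (Δ * (2 * ‖SS a (NP P) χ‖ + Δ)) = 2 * Δ * ((1 / (D.totient : ℝ)) * S1) + Δ ^ 2 := by
      rw [← Finset.mul_sum, Finset.sum_add_distrib, ← Finset.mul_sum, Finset.sum_const,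
        nsmul_eq_mul, hcard, ← hS1]
      field_simp
    rw [h3]
    have h4 : 0 ≤ (1 / (D.totient : ℝ)) * S1 := by positivity
    have h5 : 2 * Δ * ((1 / (D.totient : ℝ)) * S1) ≤ 2 * L * √(L * tot a P) :=
      mul_le_mul (by linarith) h2 h4 (by linarith)
    have h6 : Δ ^ 2 ≤ L ^ 2 := pow_le_pow_left₀ hΔ0 hΔL 2
    linarith

theorem primi {a : ℕ → ℝ} {P δ : ℝ} (h : Wt a P δ) (hP : 2 ≤ P) (hδ : δ ≤ 1) (X : ℕ)
    (hX : (X : ℝ) < P ^ 2) :
    ∑ D ∈ Icc 1 X, ∑ c ∈ cop D, ‖TA a (NP P) D (c : ℤ) - TB a (NP P) 0 X D (c : ℤ)‖ ≤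
      (X : ℝ) ^ 2 * (2 * Real.log (2 * P) * √(Real.log (2 * P) * tot a P) + Real.log (2 * P) ^ 2) := by
  set B := 2 * Real.log (2 * P) * √(Real.log (2 * P) * tot a P) + Real.log (2 * P) ^ 2 with hB
  have hL : 0 ≤ Real.log (2 * P) := Real.log_nonneg (by linarith)
  have hB0 : 0 ≤ B := by
    rw [hB]
    positivity
  have h1 : ∀ D ∈ Icc 1 X, ∑ c ∈ cop D,
      ‖TA a (NP P) D (c : ℤ) - TB a (NP P) 0 X D (c : ℤ)‖ ≤ (X : ℝ) * B := by
    intro D hD
    refine (Finset.sum_le_sum fun c hc => primi_point h hP hδ X hX D hD c hc).trans ?_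
    rw [Finset.sum_const, nsmul_eq_mul]
    refine mul_le_mul_of_nonneg_right ?_ hB0
    have h2 : (cop D).card ≤ D := by
      unfold cop
      refine (Finset.card_filter_le _ _).trans ?_
      rw [card_range]
    have h3 : (cop D).card ≤ X := h2.trans (mem_Icc.1 hD).2
    exact_mod_cast h3
  refine (Finset.sum_le_sum h1).trans ?_
  rw [Finset.sum_const, nsmul_eq_mul, Nat.card_Icc, Nat.add_sub_cancel]
  refine le_of_eq ?_
  ring

end Pool.Agent.EC
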