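import Pool.Agent.Lib_MP_f1a94e_eck.KBase

/-!
# Piece QW: the common neighbour is close to `P (v - u) / dt u v`

PROOF. Let `D = dt u v`, `p1 = dt u w`, `p2 = dt v w`. Identity (`ring`): `D * w.i = p1 * v.i - p2 * u.i` for `i = 1, 2`. So
`w.i - P (v.i - u.i)/D = ((p1 - P) v.i - (p2 - P) u.i)/D`, of absolute value at most `2 δ P n / (η P) = 2 δ n / η ≤ 2 δ K √P / η ≤ η √P`
(`0 ≤ u.i, v.i ≤ n ≤ K √P`). `inbox` and `outbox` follow.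
-/

set_option autoImplicit false

namespace Pool.Agent.EC

open Finset

theorem qw_aux {K P s δ η n x y z D p1 p2 : ℝ} (hK : 1 ≤ K) (hs : 0 < s) (hP : s ^ 2 = P)
    (hη : 0 < η) (hδ0 : 0 ≤ δ) (hδ : δ ≤ η ^ 2 / (2 * K)) (hn : n ≤ K * s)
    (hx : 0 ≤ x ∧ x ≤ n) (hy : 0 ≤ y ∧ y ≤ n) (hD : η * P < D)
    (h1 : P ≤ p1 ∧ p1 ≤ (1 + δ) * P) (h2 : P ≤ p2 ∧ p2 ≤ (1 + δ) * P)
    (he : D * z = p1 * y - p2 * x) : |z - P * (y - x) / D| ≤ η * s := by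
  have hP0 : 0 < P := by rw [← hP]; positivity
  have hD0 : 0 < D := lt_trans (by positivity) hD
  have hK0 : 0 < K := by linarith
  have e1 : z - P * (y - x) / D = ((p1 - P) * y - (p2 - P) * x) / D := by
    rw [eq_div_iff hD0.ne', sub_mul, div_mul_cancel₀ _ hD0.ne']
    linarith
  rw [e1, abs_div, abs_of_pos hD0, div_le_iff₀ hD0]
  have a1 : 0 ≤ (p1 - P) * y := mul_nonneg (by linarith [h1.1]) hy.1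
  have a2 : 0 ≤ (p2 - P) * x := mul_nonneg (by linarith [h2.1]) hx.1
  have a3 : (p1 - P) * y ≤ (δ * P) * n :=
    mul_le_mul (by linarith [h1.2]) hy.2 hy.1 (by positivity)
  have a4 : (p2 - P) * x ≤ (δ * P) * n :=
    mul_le_mul (by linarith [h2.2]) hx.2 hx.1 (by positivity)
  have a5 : |(p1 - P) * y - (p2 - P) * x| ≤ (δ * P) * n := by
    rw [abs_le]
    constructor <;> linarith
  have a6 : δ * (2 * K) ≤ η ^ 2 := by rwa [le_div_iff₀ (by positivity)] at hδ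
  have a7 : δ * K ≤ η ^ 2 := by nlinarith [mul_nonneg hδ0 hK0.le]
  calc |(p1 - P) * y - (p2 - P) * x| ≤ (δ * P) * n := a5
    _ ≤ (δ * P) * (K * s) := mul_le_mul_of_nonneg_left hn (by positivity)
    _ = (δ * K) * (P * s) := by ring
    _ ≤ η ^ 2 * (P * s) := mul_le_mul_of_nonneg_right a7 (by positivity)
    _ = η * s * (η * P) := by ring
    _ ≤ η * s * D := mul_le_mul_of_nonneg_left hD.le (by positivity)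

theorem qw_cast {n : ℕ} {x : ℤ} (h : 0 ≤ x ∧ x ≤ n) : (0 : ℝ) ≤ (x : ℝ) ∧ (x : ℝ) ≤ (n : ℝ) :=
  ⟨by exact_mod_cast h.1, by exact_mod_cast h.2⟩

theorem qw {K P δ η : ℝ} (hK : 1 ≤ K) (hP : 0 < P) (hη : 0 < η) (hδ0 : 0 ≤ δ)
    (hδ : δ ≤ η ^ 2 / (2 * K)) {n : ℕ} (hn : (n : ℝ) ^ 2 ≤ K ^ 2 * P) {u v w : ℤ × ℤ}
    (hu : u ∈ Bx n) (hv : v ∈ Bx n) (hD : η * P < (dt u v : ℝ))
    (h1 : P ≤ (dt u w : ℝ) ∧ (dt u w : ℝ) ≤ (1 + δ) * P)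
    (h2 : P ≤ (dt v w : ℝ) ∧ (dt v w : ℝ) ≤ (1 + δ) * P) :
    |(w.1 : ℝ) - P * ((v.1 - u.1 : ℤ) : ℝ) / (dt u v : ℝ)| ≤ η * √P ∧
    |(w.2 : ℝ) - P * ((v.2 - u.2 : ℤ) : ℝ) / (dt u v : ℝ)| ≤ η * √P := by
  have hs : 0 < √P := Real.sqrt_pos.mpr hP
  have hs2 : √P ^ 2 = P := Real.sq_sqrt hP.le
  have hnK : (n : ℝ) ≤ K * √P := n_le hK hn hP.le
  rw [mem_Bx] at hu hv
  have e1 : (dt u v : ℝ) * (w.1 : ℝ) = (dt u w : ℝ) * (v.1 : ℝ) - (dt v w : ℝ) * (u.1 : ℝ) := by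
    unfold dt
    push_cast
    ring
  have e2 : (dt u v : ℝ) * (w.2 : ℝ) = (dt u w : ℝ) * (v.2 : ℝ) - (dt v w : ℝ) * (u.2 : ℝ) := by
    unfold dt
    push_cast
    ring
  rw [Int.cast_sub, Int.cast_sub]
  exact ⟨qw_aux hK hs hs2 hη hδ0 hδ hnK (qw_cast hu.1) (qw_cast hv.1) hD h1 h2 e1,
    qw_aux hK hs hs2 hη hδ0 hδ hnK (qw_cast hu.2) (qw_cast hv.2) hD h1 h2 e2⟩

theorem inbox {K P δ η : ℝ} (hK : 1 ≤ K) (hP : 0 < P) (hη : 0 < η) (hδ0 : 0 ≤ δ)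
    (hδ : δ ≤ η ^ 2 / (2 * K)) {n : ℕ} (hn : (n : ℝ) ^ 2 ≤ K ^ 2 * P) {u v w : ℤ × ℤ}
    (hu : u ∈ Bx n) (hv : v ∈ Bx n) (hD : η * P < (dt u v : ℝ))
    (h1 : P ≤ (dt u w : ℝ) ∧ (dt u w : ℝ) ≤ (1 + δ) * P)
    (h2 : P ≤ (dt v w : ℝ) ∧ (dt v w : ℝ) ≤ (1 + δ) * P) (hq : Qin P (η * √P) n u v) :
    w ∈ Bx n := by
  obtain ⟨q1, q2⟩ := qw hK hP hη hδ0 hδ hn hu hv hD h1 h2
  obtain ⟨⟨a1, a2⟩, a3, a4⟩ := hq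
  rw [abs_le] at q1 q2
  have b1 : (0 : ℝ) ≤ (w.1 : ℝ) := by linarith [q1.1]
  have b2 : (w.1 : ℝ) ≤ (n : ℝ) := by linarith [q1.2]
  have b3 : (0 : ℝ) ≤ (w.2 : ℝ) := by linarith [q2.1]
  have b4 : (w.2 : ℝ) ≤ (n : ℝ) := by linarith [q2.2]
  rw [mem_Bx]
  exact ⟨⟨by exact_mod_cast b1, by exact_mod_cast b2⟩, by exact_mod_cast b3, by exact_mod_cast b4⟩

theorem outbox {K P δ η : ℝ} (hK : 1 ≤ K) (hP : 0 < P) (hη : 0 < η) (hδ0 : 0 ≤ δ)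
    (hδ : δ ≤ η ^ 2 / (2 * K)) {n : ℕ} (hn : (n : ℝ) ^ 2 ≤ K ^ 2 * P) {u v w : ℤ × ℤ}
    (hu : u ∈ Bx n) (hv : v ∈ Bx n) (hD : η * P < (dt u v : ℝ))
    (h1 : P ≤ (dt u w : ℝ) ∧ (dt u w : ℝ) ≤ (1 + δ) * P)
    (h2 : P ≤ (dt v w : ℝ) ∧ (dt v w : ℝ) ≤ (1 + δ) * P) (hq : ¬ Qin P (2 * (η * √P)) n u v) :
    (w.1 : ℝ) < 3 * (η * √P) ∨ n - 3 * (η * √P) < (w.1 : ℝ) ∨
      (w.2 : ℝ) < 3 * (η * √P) ∨ n - 3 * (η * √P) < (w.2 : ℝ) := by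
  obtain ⟨q1, q2⟩ := qw hK hP hη hδ0 hδ hn hu hv hD h1 h2
  rw [abs_le] at q1 q2
  by_contra hcon
  push Not at hcon
  obtain ⟨c1, c2, c3, c4⟩ := hcon
  apply hq
  refine ⟨⟨?_, ?_⟩, ?_, ?_⟩
  · linarith [q1.2]
  · linarith [q1.1]
  · linarith [q2.2]
  · linarith [q2.1]

end Pool.Agent.EC
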