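import Pool.Agent.Lib_MP_f1a94e_eck.KBase
import Pool.Agent.Lib_MP_f1a94e_eck.Wle
import Pool.Agent.Lib_MP_f1a94e_eck.PhiB

/-!
# Piece SMALL: truncation of the sum for `D / φ(D)`

PROOF. `N = NP P`. `TB a N 0 R D c - T2 a N R D R' c = (1/φ(D) - (1/D) gR R' D) ∑_{r ≤ R, r ∣ D} Psi a N r c`. By `phi_id`
`1/φ(D) - (1/D) gR R' D = (1/D) ∑_{R' < t ≤ D, t ∣ D, squarefree} 1/φ(t)` (if `R' ≤ D`; for `R' ≥ D` it is `0`), and `‖Psi a N r c‖ ≤ φ(r) (tot a P)^2 ≤ R (tot a P)^2` (`card (prm r) ≤ φ(r)`: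
`DirichletCharacter.card_eq_totient_of_hasEnoughRootsOfUnity`; `‖SS χ‖ ≤ tot a P`). So the left side is at most
`∑_{D ≤ X} D (1/D) ∑_{t ∣ D, R' < t ≤ X} (1/φ(t)) R^2 (tot a P)^2 ≤ R^2 (tot a P)^2 ∑_{R' < t ≤ X} X/(t φ(t)) ≤ R^2 (tot a P)^2 X * 3/√R'` (`cop D` has at most `D` elements; `phi_tail`).
`tot a P ≤ C P` by `wle` with `δ = 1` (`Wt.mono`).
-/

set_option autoImplicit false

namespace Pool.Agent.EC

open Finset

theorem small_SS_le {a : ℕ → ℝ} {P δ : ℝ} (h : Wt a P δ) {r : ℕ} (χ : DirichletCharacter ℂ r) :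
    ‖SS a (NP P) χ‖ ≤ tot a P := by
  unfold SS tot
  refine (norm_sum_le _ _).trans (sum_le_sum fun p _ => ?_)
  rw [norm_mul, Complex.norm_real, Real.norm_eq_abs, abs_of_nonneg (h.nonneg p)]
  exact mul_le_of_le_one_right (h.nonneg p) (χ.norm_le_one _)

open Classical in
theorem small_card_prm {r : ℕ} (hr : 1 ≤ r) : (prm r).card ≤ r := by
  have : NeZero r := ⟨by omega⟩
  calc (prm r).card ≤ (univ : Finset (DirichletCharacter ℂ r)).card := by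
        unfold prm
        exact card_le_card (filter_subset _ _)
    _ = Nat.card (DirichletCharacter ℂ r) := by
        rw [card_univ, Nat.card_eq_fintype_card]
    _ = r.totient := DirichletCharacter.card_eq_totient_of_hasEnoughRootsOfUnity ℂ r
    _ ≤ r := Nat.totient_le r

theorem small_Psi_le {a : ℕ → ℝ} {P δ : ℝ} (h : Wt a P δ) {r : ℕ} (hr : 1 ≤ r) (c : ℤ) :
    ‖Psi a (NP P) r c‖ ≤ r * tot a P ^ 2 := by
  unfold Psi
  have h1 : ∀ χ ∈ prm r, ‖χ (c : ZMod r) * ((‖SS a (NP P) χ‖ ^ 2 : ℝ) : ℂ)‖ ≤ tot a P ^ 2 := by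
    intro χ _
    rw [norm_mul, Complex.norm_real, Real.norm_eq_abs, abs_of_nonneg (by positivity)]
    calc ‖χ (c : ZMod r)‖ * ‖SS a (NP P) χ‖ ^ 2 ≤ 1 * ‖SS a (NP P) χ‖ ^ 2 :=
          mul_le_mul_of_nonneg_right (χ.norm_le_one _) (by positivity)
      _ ≤ tot a P ^ 2 := by
          rw [one_mul]
          exact pow_le_pow_left₀ (norm_nonneg _) (small_SS_le h χ) 2
  refine (norm_sum_le _ _).trans ((sum_le_sum h1).trans ?_)
  rw [sum_const, nsmul_eq_mul]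
  refine mul_le_mul_of_nonneg_right ?_ (by positivity)
  exact_mod_cast small_card_prm hr

theorem small_sum_le {a : ℕ → ℝ} {P δ : ℝ} (h : Wt a P δ) (R D : ℕ) (c : ℤ) :
    ‖∑ r ∈ (Icc 1 R).filter (· ∣ D), Psi a (NP P) r c‖ ≤ (R : ℝ) ^ 2 * tot a P ^ 2 := by
  have ht : 0 ≤ tot a P := tot_nonneg h
  calc ‖∑ r ∈ (Icc 1 R).filter (· ∣ D), Psi a (NP P) r c‖
      ≤ ∑ r ∈ (Icc 1 R).filter (· ∣ D), ‖Psi a (NP P) r c‖ := norm_sum_le _ _
    _ ≤ ∑ r ∈ (Icc 1 R).filter (· ∣ D), (R : ℝ) * tot a P ^ 2 := by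
        refine sum_le_sum fun r hr => ?_
        rw [mem_filter, mem_Icc] at hr
        refine (small_Psi_le h hr.1.1 c).trans (mul_le_mul_of_nonneg_right ?_ (by positivity))
        exact_mod_cast hr.1.2
    _ ≤ ∑ _r ∈ Icc 1 R, (R : ℝ) * tot a P ^ 2 :=
        sum_le_sum_of_subset_of_nonneg (filter_subset _ _) (fun _ _ _ => by positivity)
    _ = (R : ℝ) ^ 2 * tot a P ^ 2 := by
        rw [sum_const, Nat.card_Icc, nsmul_eq_mul, Nat.add_sub_cancel]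
        ring

/-- the difference of the coefficients -/
noncomputable def smallE (R' D : ℕ) : ℝ := 1 / (D.totient : ℝ) - 1 / (D : ℝ) * gR R' D

theorem small_diff (a : ℕ → ℝ) (N R D R' : ℕ) (c : ℤ) :
    TB a N 0 R D c - T2 a N R D R' c =
      (smallE R' D : ℂ) * ∑ r ∈ (Icc 1 R).filter (· ∣ D), Psi a N r c := by
  have h1 : Ioc 0 R = Icc 1 R := by
    ext x
    simp only [mem_Ioc, mem_Icc]
    omega
  unfold TB T2 PH smallE
  rw [h1]
  push_cast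
  ring

theorem small_E_le {R' D X : ℕ} (hD : 1 ≤ D) (hX : D ≤ X) :
    |smallE R' D| ≤ 1 / (D : ℝ) * ∑ t ∈ (Ioc R' X).filter (· ∣ D), 1 / (t.totient : ℝ) := by
  have hD0 : (0 : ℝ) < D := by exact_mod_cast hD
  have hphi : (1 : ℝ) / D.totient = 1 / D * gR D D := by
    rw [← phi_id D hD]
    have : (0 : ℝ) < D.totient := by exact_mod_cast Nat.totient_pos.2 hD
    field_simp
  have h1 : smallE R' D = 1 / (D : ℝ) * (gR D D - gR R' D) := by
    unfold smallE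
    rw [hphi]
    ring
  rw [h1, abs_mul, abs_of_nonneg (by positivity : (0 : ℝ) ≤ 1 / D)]
  refine mul_le_mul_of_nonneg_left ?_ (by positivity)
  rcases le_total D R' with h2 | h2
  · have h3 : gR R' D = gR D D := by
      unfold gR
      refine sum_congr ?_ (fun _ _ => rfl)
      ext t
      simp only [mem_filter, mem_Icc]
      constructor
      · rintro ⟨⟨h4, _⟩, h6, h7⟩
        exact ⟨⟨h4, Nat.le_of_dvd hD h6⟩, h6, h7⟩
      · rintro ⟨⟨h4, h5⟩, h6, h7⟩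
        exact ⟨⟨h4, h5.trans h2⟩, h6, h7⟩
    rw [h3, sub_self, abs_zero]
    exact sum_nonneg fun _ _ => by positivity
  · have h3 : gR D D = gR R' D +
        ∑ t ∈ (Ioc R' D).filter (fun t => t ∣ D ∧ Squarefree t), 1 / (t.totient : ℝ) := by
      unfold gR
      rw [← sum_union]
      · refine sum_congr ?_ (fun _ _ => rfl)
        ext t
        simp only [mem_union, mem_filter, mem_Icc, mem_Ioc]
        constructor
        · rintro ⟨⟨h4, h5⟩, h6⟩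
          by_cases h7 : t ≤ R'
          · exact Or.inl ⟨⟨h4, h7⟩, h6⟩
          · exact Or.inr ⟨⟨by omega, h5⟩, h6⟩
        · rintro (⟨⟨h4, h5⟩, h6⟩ | ⟨⟨h4, h5⟩, h6⟩)
          · exact ⟨⟨h4, h5.trans h2⟩, h6⟩
          · exact ⟨⟨by omega, h5⟩, h6⟩
      · rw [disjoint_left]
        intro t h4 h5
        simp only [mem_filter, mem_Icc, mem_Ioc] at h4 h5
        omega
    rw [h3, add_sub_cancel_left, abs_of_nonneg (sum_nonneg fun _ _ => by positivity)]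
    refine sum_le_sum_of_subset_of_nonneg ?_ (fun _ _ _ => by positivity)
    intro t ht
    simp only [mem_filter, mem_Ioc] at ht ⊢
    exact ⟨⟨ht.1.1, ht.1.2.trans hX⟩, ht.2.1⟩

theorem small_card_cop (D : ℕ) : (cop D).card ≤ D := by
  unfold cop
  refine (card_filter_le _ _).trans ?_
  rw [card_range]

theorem small_count (R' X : ℕ) (hR : 1 ≤ R') :
    ∑ D ∈ Icc 1 X, ∑ t ∈ (Ioc R' X).filter (· ∣ D), 1 / (t.totient : ℝ) ≤ X * (3 / √R') := by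
  have h1 : ∑ D ∈ Icc 1 X, ∑ t ∈ (Ioc R' X).filter (· ∣ D), 1 / (t.totient : ℝ) =
      ∑ t ∈ Ioc R' X, ∑ D ∈ (Icc 1 X).filter (t ∣ ·), 1 / (t.totient : ℝ) := by
    simp only [sum_filter]
    rw [sum_comm]
  rw [h1]
  have h2 : ∀ t ∈ Ioc R' X, ∑ D ∈ (Icc 1 X).filter (t ∣ ·), 1 / (t.totient : ℝ) ≤
      X * (1 / ((t : ℝ) * t.totient)) := by
    intro t ht
    rw [mem_Ioc] at ht
    have ht0 : 0 < t := by omega
    have h3 : ((Icc 1 X).filter (t ∣ ·)).card = X / t := by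
      have h4 : Icc 1 X = Ioc 0 X := by
        ext x
        simp only [mem_Ioc, mem_Icc]
        omega
      rw [h4, Nat.Ioc_filter_dvd_card_eq_div X t]
    rw [sum_const, h3, nsmul_eq_mul]
    have h5 : ((X / t : ℕ) : ℝ) ≤ (X : ℝ) / t := Nat.cast_div_le
    calc ((X / t : ℕ) : ℝ) * (1 / (t.totient : ℝ)) ≤ (X : ℝ) / t * (1 / (t.totient : ℝ)) :=
          mul_le_mul_of_nonneg_right h5 (by positivity)
      _ = X * (1 / ((t : ℝ) * t.totient)) := by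
          rw [one_div, one_div, mul_inv]
          ring
  refine (sum_le_sum h2).trans ?_
  rw [← mul_sum]
  exact mul_le_mul_of_nonneg_left (phi_tail R' X hR) (Nat.cast_nonneg X)

theorem small (K : ℝ) (hK : 1 ≤ K) : ∃ C P0 : ℝ, 0 < C ∧ ∀ P : ℝ, P0 ≤ P →
    ∀ (a : ℕ → ℝ) (δ : ℝ), δ ≤ 1 → Wt a P δ → ∀ R R' X : ℕ, 1 ≤ R → 1 ≤ R' →
      (X : ℝ) ≤ K ^ 2 * P →
      ∑ D ∈ Icc 1 X, ∑ c ∈ cop D, ‖TB a (NP P) 0 R D (c : ℤ) - T2 a (NP P) R D R' (c : ℤ)‖ ≤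
        C * R ^ 2 * P ^ 3 / √R' := by
  obtain ⟨C1, hC1, hwle⟩ := wle
  obtain ⟨P0, hP0⟩ := hwle 1 one_pos le_rfl
  refine ⟨3 * C1 ^ 2 * K ^ 2, max P0 1, by positivity, fun P hP a δ hδ h R R' X _ hR' hX => ?_⟩
  have hP1 : P0 ≤ P := (le_max_left _ _).trans hP
  have hPp : 1 ≤ P := (le_max_right _ _).trans hP
  have hP00 : 0 ≤ P := by linarith
  have htot : tot a P ≤ C1 * P := by
    have := hP0 P hP1 a (h.mono hP00 hδ)
    linarith
  have ht0 : 0 ≤ tot a P := tot_nonneg h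
  have htsq : tot a P ^ 2 ≤ (C1 * P) ^ 2 := pow_le_pow_left₀ ht0 htot 2
  have h1 : ∀ D ∈ Icc 1 X,
      ∑ c ∈ cop D, ‖TB a (NP P) 0 R D (c : ℤ) - T2 a (NP P) R D R' (c : ℤ)‖ ≤
        ((R : ℝ) ^ 2 * tot a P ^ 2) * ∑ t ∈ (Ioc R' X).filter (· ∣ D), 1 / (t.totient : ℝ) := by
    intro D hD
    rw [mem_Icc] at hD
    have hD0 : (0 : ℝ) < D := by exact_mod_cast hD.1
    set S := ∑ t ∈ (Ioc R' X).filter (· ∣ D), 1 / (t.totient : ℝ) with hS
    have hS0 : 0 ≤ S := sum_nonneg fun _ _ => by positivity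
    have h2 : ∀ c ∈ cop D, ‖TB a (NP P) 0 R D (c : ℤ) - T2 a (NP P) R D R' (c : ℤ)‖ ≤
        (1 / (D : ℝ) * S) * ((R : ℝ) ^ 2 * tot a P ^ 2) := by
      intro c _
      rw [small_diff, norm_mul, Complex.norm_real, Real.norm_eq_abs]
      exact mul_le_mul (small_E_le hD.1 hD.2) (small_sum_le h R D c) (norm_nonneg _)
        (by positivity)
    refine (sum_le_sum h2).trans ?_
    rw [sum_const, nsmul_eq_mul]
    have h3 : ((cop D).card : ℝ) ≤ D := by exact_mod_cast small_card_cop D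
    calc ((cop D).card : ℝ) * ((1 / (D : ℝ) * S) * ((R : ℝ) ^ 2 * tot a P ^ 2))
        ≤ D * ((1 / (D : ℝ) * S) * ((R : ℝ) ^ 2 * tot a P ^ 2)) :=
          mul_le_mul_of_nonneg_right h3 (by positivity)
      _ = ((R : ℝ) ^ 2 * tot a P ^ 2) * S := by field_simp
  have hs : 0 ≤ 3 / √(R' : ℝ) := by positivity
  calc ∑ D ∈ Icc 1 X, ∑ c ∈ cop D, ‖TB a (NP P) 0 R D (c : ℤ) - T2 a (NP P) R D R' (c : ℤ)‖
      ≤ ∑ D ∈ Icc 1 X, ((R : ℝ) ^ 2 * tot a P ^ 2) *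
          ∑ t ∈ (Ioc R' X).filter (· ∣ D), 1 / (t.totient : ℝ) := sum_le_sum h1
    _ = ((R : ℝ) ^ 2 * tot a P ^ 2) *
          ∑ D ∈ Icc 1 X, ∑ t ∈ (Ioc R' X).filter (· ∣ D), 1 / (t.totient : ℝ) := by
        rw [mul_sum]
    _ ≤ ((R : ℝ) ^ 2 * tot a P ^ 2) * (X * (3 / √R')) :=
        mul_le_mul_of_nonneg_left (small_count R' X hR') (by positivity)
    _ ≤ ((R : ℝ) ^ 2 * (C1 * P) ^ 2) * ((K ^ 2 * P) * (3 / √R')) := by
        refine mul_le_mul (mul_le_mul_of_nonneg_left htsq (by positivity))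
          (mul_le_mul_of_nonneg_right hX hs) (by positivity) (by positivity)
    _ = 3 * C1 ^ 2 * K ^ 2 * R ^ 2 * P ^ 3 / √R' := by ring

end Pool.Agent.EC
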