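import Pool.Agent.Lib_MP_f1a94e_eck.Cells

/-!
# Piece SPLIT: decomposition of the quadratic form

PROOF. Let `f x = h x.1 conj (h x.2) NN x.1 x.2`, `‖f x‖ ≤ NN x.1 x.2`. Split the pairs by the sign of `dt`: the pairs with `dt = 0` are in the first filter. The sum over `dt < 0` is the conjugate of the sum
over `dt > 0` (exchange `x.1` and `x.2`, `NN_symm`, `dt_anti`). The sum over `dt > 0`: the pairs with cells in `G` (for nonprimitive `u` or `v` the term is `0`; for primitive ones `dt > η P > 0` by `hG`,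
so the restriction `dt > 0` can be dropped) plus the pairs with cells not in `G`, `dt > 0`, both primitive. By `hG'` there is a bad primitive pair `(u0, v0)` in the same cell pair; by `cells`: either
`dt u v ≤ 2 η P` or `2 η P < dt u v` and `¬ Qin P (2 μ) n u v`. So
`‖sum over dt > 0‖ ≤ ‖sum over G‖ + ∑_{|dt| ≤ 2 η P} NN + ∑_{η P < dt, ¬ Qin} NN`.
-/

set_option autoImplicit false

namespace Pool.Agent.EC

open Finset

open Classical in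
theorem split_sum {K η P δ del3 : ℝ} (hK : 1 ≤ K) (hη : 0 < η) (hη1 : η ≤ 1) (hP : 1 ≤ P) {n : ℕ}
    (hn : (n : ℝ) ^ 2 ≤ K ^ 2 * P) (h3 : 0 ≤ del3) (h3' : del3 ≤ η ^ 3 / (4 * K ^ 2))
    {a : ℕ → ℝ} (ha : Wt a P δ) (h : ℤ × ℤ → ℂ) (hh : ∀ u, ‖h u‖ ≤ 1) (hh0 : ∀ u, ¬ Pv u → h u = 0)
    {N3 : ℕ} (cell : ℤ × ℤ → Fin N3)
    (hcell : ∀ u ∈ Bx n, ∀ u' ∈ Bx n, cell u = cell u' →
      |((u.1 - u'.1 : ℤ) : ℝ)| ≤ del3 * √P ∧ |((u.2 - u'.2 : ℤ) : ℝ)| ≤ del3 * √P)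
    (G : Finset (Fin N3 × Fin N3))
    (hG : ∀ s : Fin N3 × Fin N3, s ∈ G ↔ ∀ u ∈ Bx n, ∀ v ∈ Bx n, Pv u → Pv v → cell u = s.1 →
      cell v = s.2 → (η * P < (dt u v : ℝ) ∧ Qin P (η * √P) n u v)) :
    ‖∑ x ∈ Bx n ×ˢ Bx n, h x.1 * (starRingEnd ℂ) (h x.2) * (NN a n x.1 x.2 : ℂ)‖ ≤
      3 * ∑ x ∈ (Bx n ×ˢ Bx n).filter (fun x => |(dt x.1 x.2 : ℝ)| ≤ 2 * η * P), NN a n x.1 x.2 +
      2 * ∑ x ∈ (Bx n ×ˢ Bx n).filter (fun x => η * P < (dt x.1 x.2 : ℝ) ∧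
        ¬ Qin P (2 * (η * √P)) n x.1 x.2), NN a n x.1 x.2 +
      2 * ‖∑ x ∈ (Bx n ×ˢ Bx n).filter (fun x => (cell x.1, cell x.2) ∈ G),
        h x.1 * (starRingEnd ℂ) (h x.2) * (NN a n x.1 x.2 : ℂ)‖ := by
  sorry

end Pool.Agent.EC
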