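import Pool.Agent.Lib_MP_f1a94e_eck.KBase
import Pool.Agent.Lib_MP_f1a94e_eck.Ph

/-!
# Piece STRUCT: the main term is small when `h` has small class sums

PROOF. `N = NP P`. Let `(s, s') ∈ G`. If there is no pair of primitive `u, v ∈ Bx n` in the cells `s, s'`, the part of the sum with `cell u = s`, `cell v = s'` is zero
(`h = 0` off the primitive vectors). Otherwise fix such a pair `(u0, v0)`, `D0 = dt u0 v0 > η P`. For primitive `u, v` in the cells: `D = dt u v > η P` and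
`|D - D0| ≤ 4 del3 √P n ≤ 4 K del3 P`, so `|1/D - 1/D0| ≤ 4 K del3 P/(η P)^2`. `T2 = (1/D) PH`. Replacing `1/D` by `1/D0` in all terms costs, by `ph_bound`, at most
`(n+1)^4 R' R^2 (Cw P)^2 * 4 K del3/(η^2 P) ≤ 64 K^5 R' R^2 Cw^2 del3 P^3/η^2 ≤ (ε/2) P^3` (`(n+1)^2 ≤ 4 K^2 P`) by the choice of `del3`.
Main part of `(s, s')`: `(1/D0) ∑_{α, β} F(α, β) (∑_{u ∈ s, u = α mod m} h u) (conj ∑_{v ∈ s', v = β mod m} h v)`, `α, β` over the residue pairs modulo `m` (`range m × range m`), where `F(α, β)` is the common value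
of `PH a N R (dt u v).toNat R' (cz u v)` for primitive `u = α`, `v = β` in the cells (`ph_per`; `0` if there are none: choose by cases; then one of the class sums is... use that every
primitive pair of the classes has this value and non primitive vectors have `h = 0`), `‖F‖ ≤ R' R^2 (Cw P)^2`. So it is at most `(1/(η P)) m^4 R' R^2 Cw^2 P^2 (eps3 P)^2`, and the sum
over `G` (at most `N3^2` pairs) is `≤ N3^2 m^4 R' R^2 Cw^2 eps3^2 P^3/η ≤ (ε/2) P^3` by the choice of `eps3`.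
-/

set_option autoImplicit false

namespace Pool.Agent.EC

open Finset

open Classical in
theorem struct_main {ι : Type} [Fintype ι] (U V : Finset (ℤ × ℤ)) (φ : ℤ × ℤ → ι)
    (F : ι → ι → ℂ) (h : ℤ × ℤ → ℂ) (M e : ℝ) (hM : ∀ α β, ‖F α β‖ ≤ M) (hM0 : 0 ≤ M) (he : 0 ≤ e)
    (hU : ∀ α, ‖∑ u ∈ U.filter (fun u => φ u = α), h u‖ ≤ e)
    (hV : ∀ α, ‖∑ u ∈ V.filter (fun u => φ u = α), h u‖ ≤ e) :
    ‖∑ u ∈ U, ∑ v ∈ V, h u * (starRingEnd ℂ) (h v) * F (φ u) (φ v)‖ ≤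
      (Fintype.card ι : ℝ) ^ 2 * M * e ^ 2 := by
  have h1 : ∑ u ∈ U, ∑ v ∈ V, h u * (starRingEnd ℂ) (h v) * F (φ u) (φ v) =
      ∑ α, ∑ β, F α β * (∑ u ∈ U.filter (fun u => φ u = α), h u) *
        (starRingEnd ℂ) (∑ v ∈ V.filter (fun v => φ v = β), h v) := by
    rw [← sum_fiberwise U φ]
    apply sum_congr rfl
    intro α _
    have h2 : ∀ u ∈ U.filter (fun u => φ u = α),
        ∑ v ∈ V, h u * (starRingEnd ℂ) (h v) * F (φ u) (φ v) =
        ∑ β, ∑ v ∈ V.filter (fun v => φ v = β), h u * (starRingEnd ℂ) (h v) * F α β := by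
      intro u hu
      rw [mem_filter] at hu
      rw [← sum_fiberwise V φ]
      apply sum_congr rfl
      intro β _
      apply sum_congr rfl
      intro v hv
      rw [mem_filter] at hv
      rw [hu.2, hv.2]
    rw [sum_congr rfl h2, sum_comm]
    apply sum_congr rfl
    intro β _
    rw [map_sum, mul_sum (s := U.filter fun u => φ u = α), sum_mul]
    apply sum_congr rfl
    intro u _
    rw [mul_sum]
    apply sum_congr rfl
    intro v _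
    ring
  rw [h1]
  calc ‖∑ α, ∑ β, F α β * (∑ u ∈ U.filter (fun u => φ u = α), h u) *
        (starRingEnd ℂ) (∑ v ∈ V.filter (fun v => φ v = β), h v)‖
      ≤ ∑ α, ∑ β, ‖F α β * (∑ u ∈ U.filter (fun u => φ u = α), h u) *
        (starRingEnd ℂ) (∑ v ∈ V.filter (fun v => φ v = β), h v)‖ :=
        (norm_sum_le _ _).trans (sum_le_sum fun α _ => norm_sum_le _ _)
    _ ≤ ∑ α : ι, ∑ β : ι, M * e * e := by
        apply sum_le_sum; intro α _
        apply sum_le_sum; intro β _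
        rw [norm_mul, norm_mul, RCLike.norm_conj]
        have a1 := hM α β
        have a2 := hU α
        have a3 := hV β
        exact mul_le_mul (mul_le_mul a1 a2 (norm_nonneg _) hM0) a3 (norm_nonneg _)
          (mul_nonneg hM0 he)
    _ = (Fintype.card ι : ℝ) ^ 2 * M * e ^ 2 := by
        simp only [sum_const, card_univ, nsmul_eq_mul]
        ring

/-- one pair of cells -/
theorem struct_cell (K η Cw : ℝ) (hK : 1 ≤ K) (hη : 0 < η) (R R' m : ℕ) (hm0 : 0 < m)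
    (hm : ∀ t ∈ Icc 1 (max R R'), t ∣ m) (del3 eps3 P : ℝ) (hd3 : 0 < del3) (he3 : 0 < eps3)
    (hP : 1 ≤ P) (n : ℕ) (hn : (n : ℝ) ^ 2 ≤ K ^ 2 * P) (a : ℕ → ℝ) (δ : ℝ)
    (hW : Wt a P δ) (hCwP : tot a P ≤ Cw * P) (h : ℤ × ℤ → ℂ) (hh : ∀ u, ‖h u‖ ≤ 1)
    (hh0 : ∀ u, ¬ Pv u → h u = 0) (U V : Finset (ℤ × ℤ)) (hUB : U ⊆ Bx n) (hVB : V ⊆ Bx n)
    (hUd : ∀ u ∈ U, ∀ u' ∈ U,
      |((u.1 - u'.1 : ℤ) : ℝ)| ≤ del3 * √P ∧ |((u.2 - u'.2 : ℤ) : ℝ)| ≤ del3 * √P)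
    (hVd : ∀ u ∈ V, ∀ u' ∈ V,
      |((u.1 - u'.1 : ℤ) : ℝ)| ≤ del3 * √P ∧ |((u.2 - u'.2 : ℤ) : ℝ)| ≤ del3 * √P)
    (hUs : ∀ x y : ℤ, ‖∑ u ∈ U.filter (fun u => (m : ℤ) ∣ u.1 - x ∧ (m : ℤ) ∣ u.2 - y), h u‖ ≤ eps3 * P)
    (hVs : ∀ x y : ℤ, ‖∑ u ∈ V.filter (fun u => (m : ℤ) ∣ u.1 - x ∧ (m : ℤ) ∣ u.2 - y), h u‖ ≤ eps3 * P)
    (hdt : ∀ u ∈ U, ∀ v ∈ V, Pv u → Pv v → η * P < (dt u v : ℝ)) :
    ‖∑ u ∈ U, ∑ v ∈ V, h u * (starRingEnd ℂ) (h v) * T2 a (NP P) R (dt u v).toNat R' (cz u v)‖ ≤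
      1 / (η * P) * ((m : ℝ) ^ 4 * (R' * (R : ℝ) ^ 2 * Cw ^ 2 * P ^ 2) * (eps3 * P) ^ 2) +
      U.card * V.card * ((R' * (R : ℝ) ^ 2 * Cw ^ 2 * P ^ 2) * (4 * K * del3 / (η ^ 2 * P))) := by
  classical
  have hP0 : 0 < P := by linarith
  have hηP : 0 < η * P := mul_pos hη hP0
  have htot0 : 0 ≤ tot a P := tot_nonneg hW
  set M : ℝ := R' * (R : ℝ) ^ 2 * Cw ^ 2 * P ^ 2 with hM
  have hM0 : 0 ≤ M := by rw [hM]; positivity
  have hPH : ∀ (D : ℕ) (c : ℤ), ‖PH a (NP P) R D R' c‖ ≤ M := by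
    intro D c
    refine (ph_bound hW R R' D c).trans ?_
    have h1 : tot a P ^ 2 ≤ (Cw * P) ^ 2 := pow_le_pow_left₀ htot0 hCwP 2
    calc R' * (R : ℝ) ^ 2 * tot a P ^ 2 ≤ R' * (R : ℝ) ^ 2 * (Cw * P) ^ 2 :=
          mul_le_mul_of_nonneg_left h1 (by positivity)
      _ = M := by rw [hM]; ring
  have hE0 : 0 ≤ M * (4 * K * del3 / (η ^ 2 * P)) := by
    apply mul_nonneg hM0
    have : 0 < K := by linarith
    positivity
  by_cases hex : ∃ u ∈ U, ∃ v ∈ V, Pv u ∧ Pv v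
  swap
  · have h0 : ∑ u ∈ U, ∑ v ∈ V,
        h u * (starRingEnd ℂ) (h v) * T2 a (NP P) R (dt u v).toNat R' (cz u v) = 0 := by
      apply sum_eq_zero; intro u hu
      apply sum_eq_zero; intro v hv
      by_cases h1 : Pv u
      · by_cases h2 : Pv v
        · exact absurd ⟨u, hu, v, hv, h1, h2⟩ hex
        · rw [hh0 v h2]; simp
      · rw [hh0 u h1]; simp
    rw [h0, norm_zero]
    positivity
  obtain ⟨u0, hu0, v0, hv0, hpu0, hpv0⟩ := hex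
  have hD0 := hdt u0 hu0 v0 hv0 hpu0 hpv0
  set D0 : ℝ := (dt u0 v0 : ℝ) with hD0d
  have hD0pos : 0 < D0 := hηP.trans hD0
  have : NeZero m := ⟨hm0.ne'⟩
  -- residues
  set φ : ℤ × ℤ → ZMod m × ZMod m := fun u => ((u.1 : ZMod m), (u.2 : ZMod m)) with hφ
  set F : ZMod m × ZMod m → ZMod m × ZMod m → ℂ := fun α β =>
    if hx : ∃ x : (ℤ × ℤ) × (ℤ × ℤ), x.1 ∈ U ∧ x.2 ∈ V ∧ Pv x.1 ∧ Pv x.2 ∧ φ x.1 = α ∧ φ x.2 = β then
      PH a (NP P) R (dt hx.choose.1 hx.choose.2).toNat R' (cz hx.choose.1 hx.choose.2) else 0 with hF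
  have hFM : ∀ α β, ‖F α β‖ ≤ M := by
    intro α β
    simp only [hF]
    split_ifs
    · exact hPH _ _
    · rw [norm_zero]; exact hM0
  have hFeq : ∀ u ∈ U, ∀ v ∈ V, Pv u → Pv v →
      PH a (NP P) R (dt u v).toNat R' (cz u v) = F (φ u) (φ v) := by
    intro u hu v hv hpu hpv
    have hx : ∃ x : (ℤ × ℤ) × (ℤ × ℤ), x.1 ∈ U ∧ x.2 ∈ V ∧ Pv x.1 ∧ Pv x.2 ∧ φ x.1 = φ u ∧
        φ x.2 = φ v := ⟨(u, v), hu, hv, hpu, hpv, rfl, rfl⟩
    simp only [hF]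
    rw [dif_pos hx]
    obtain ⟨c1, c2, c3, c4, c5, c6⟩ := hx.choose_spec
    have d1 : 0 < dt u v := by
      have := hηP.trans (hdt u hu v hv hpu hpv)
      exact_mod_cast this
    have d2 : 0 < dt hx.choose.1 hx.choose.2 := by
      have := hηP.trans (hdt _ c1 _ c2 c3 c4)
      exact_mod_cast this
    have conv : ∀ p q : ℤ, ((p : ZMod m) = (q : ZMod m)) → (m : ℤ) ∣ q - p := by
      intro p q hpq
      exact (ZMod.intCast_eq_intCast_iff_dvd_sub p q m).mp hpq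
    exact ph_per a (NP P) R R' m hm hpu c3 d1 d2 (conv _ _ (congrArg Prod.fst c5))
      (conv _ _ (congrArg Prod.snd c5)) (conv _ _ (congrArg Prod.fst c6))
      (conv _ _ (congrArg Prod.snd c6))
  -- class sums
  have hcls : ∀ (S : Finset (ℤ × ℤ)), (∀ x y : ℤ, ‖∑ u ∈ S.filter (fun u => (m : ℤ) ∣ u.1 - x ∧
      (m : ℤ) ∣ u.2 - y), h u‖ ≤ eps3 * P) → ∀ α, ‖∑ u ∈ S.filter (fun u => φ u = α), h u‖ ≤ eps3 * P := by
    intro S hS α
    have h1 := hS (α.1.val : ℤ) (α.2.val : ℤ)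
    have h2 : S.filter (fun u => φ u = α) = S.filter (fun u => (m : ℤ) ∣ u.1 - (α.1.val : ℤ) ∧
        (m : ℤ) ∣ u.2 - (α.2.val : ℤ)) := by
      apply filter_congr
      intro u _
      simp only [hφ, Prod.ext_iff]
      have e : ∀ (p : ℤ) (γ : ZMod m), ((p : ZMod m) = γ) ↔ (m : ℤ) ∣ p - (γ.val : ℤ) := by
        intro p γ
        have e1 : γ = (((γ.val : ℕ) : ℤ) : ZMod m) := by
          rw [Int.cast_natCast, ZMod.natCast_zmod_val]
        conv_lhs => rw [e1]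
        rw [eq_comm, ZMod.intCast_eq_intCast_iff_dvd_sub]
      rw [e, e]
    rw [h2]
    exact h1
  have hmain := struct_main U V φ F h M (eps3 * P) hFM hM0 (by positivity)
    (fun α => by convert hcls U hUs α) (fun α => by convert hcls V hVs α)
  have hcard : (Fintype.card (ZMod m × ZMod m) : ℝ) ^ 2 = (m : ℝ) ^ 4 := by
    rw [Fintype.card_prod, ZMod.card]
    push_cast
    ring
  rw [hcard] at hmain
  -- the difference
  have hsplit : ∑ u ∈ U, ∑ v ∈ V,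
      h u * (starRingEnd ℂ) (h v) * T2 a (NP P) R (dt u v).toNat R' (cz u v) =
      (1 / (D0 : ℂ)) * ∑ u ∈ U, ∑ v ∈ V, h u * (starRingEnd ℂ) (h v) * F (φ u) (φ v) +
      ∑ u ∈ U, ∑ v ∈ V, (h u * (starRingEnd ℂ) (h v) *
        T2 a (NP P) R (dt u v).toNat R' (cz u v) - (1 / (D0 : ℂ)) *
        (h u * (starRingEnd ℂ) (h v) * F (φ u) (φ v))) := by
    rw [mul_sum, ← sum_add_distrib]
    apply sum_congr rfl; intro u _
    rw [mul_sum, ← sum_add_distrib]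
    apply sum_congr rfl; intro v _
    ring
  have hnK : (n : ℝ) ≤ K * √P := n_le hK hn hP0.le
  have hsq : √P * √P = P := Real.mul_self_sqrt hP0.le
  have hterm : ∀ u ∈ U, ∀ v ∈ V, ‖h u * (starRingEnd ℂ) (h v) *
        T2 a (NP P) R (dt u v).toNat R' (cz u v) - (1 / (D0 : ℂ)) *
        (h u * (starRingEnd ℂ) (h v) * F (φ u) (φ v))‖ ≤ M * (4 * K * del3 / (η ^ 2 * P)) := by
    intro u hu v hv
    by_cases hpu : Pv u
    swap
    · rw [hh0 u hpu]; simpa using hE0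
    by_cases hpv : Pv v
    swap
    · rw [hh0 v hpv]; simpa using hE0
    rw [← hFeq u hu v hv hpu hpv]
    have hDuv := hdt u hu v hv hpu hpv
    set D : ℝ := (dt u v : ℝ) with hDd
    have hDpos : 0 < D := hηP.trans hDuv
    have hDc : (((dt u v).toNat : ℕ) : ℂ) = (D : ℂ) := by
      have h1 : 0 < dt u v := by
        have h0 : (0 : ℝ) < ((dt u v : ℤ) : ℝ) := hDpos
        exact_mod_cast h0
      have h2 : (((dt u v).toNat : ℕ) : ℤ) = dt u v := Int.toNat_of_nonneg h1.le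
      have h3 : ((((dt u v).toNat : ℕ) : ℤ) : ℂ) = ((dt u v : ℤ) : ℂ) := by rw [h2]
      rw [hDd]
      push_cast
      push_cast at h3
      exact h3
    have hT2 : T2 a (NP P) R (dt u v).toNat R' (cz u v) =
        (1 / (D : ℂ)) * PH a (NP P) R (dt u v).toNat R' (cz u v) := by
      unfold T2
      rw [hDc]
    rw [hT2]
    have hre : h u * (starRingEnd ℂ) (h v) * (1 / (D : ℂ) * PH a (NP P) R (dt u v).toNat R' (cz u v)) -
        1 / (D0 : ℂ) * (h u * (starRingEnd ℂ) (h v) * PH a (NP P) R (dt u v).toNat R' (cz u v)) =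
        h u * (starRingEnd ℂ) (h v) * PH a (NP P) R (dt u v).toNat R' (cz u v) *
          ((1 / D - 1 / D0 : ℝ) : ℂ) := by
      push_cast
      ring
    rw [hre, norm_mul, norm_mul, norm_mul, RCLike.norm_conj, Complex.norm_real, Real.norm_eq_abs]
    have e1 : ‖h u‖ * ‖h v‖ * ‖PH a (NP P) R (dt u v).toNat R' (cz u v)‖ ≤ 1 * 1 * M :=
      mul_le_mul (mul_le_mul (hh u) (hh v) (norm_nonneg _) zero_le_one) (hPH _ _) (norm_nonneg _)
        (by norm_num)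
    rw [one_mul, one_mul] at e1
    have e2 : |1 / D - 1 / D0| ≤ 4 * K * del3 / (η ^ 2 * P) := by
      have f1 : 1 / D - 1 / D0 = (D0 - D) / (D * D0) := by
        field_simp
      rw [f1, abs_div, abs_of_pos (mul_pos hDpos hD0pos), div_le_div_iff₀ (mul_pos hDpos hD0pos)
        (by positivity)]
      have f2 : |D0 - D| ≤ 4 * K * del3 * P := by
        have g0 : D0 - D = ((u0.1 - u.1 : ℤ) : ℝ) * (v0.2 : ℝ) + (u.1 : ℝ) * ((v0.2 - v.2 : ℤ) : ℝ) -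
            (((u0.2 - u.2 : ℤ) : ℝ) * (v0.1 : ℝ) + (u.2 : ℝ) * ((v0.1 - v.1 : ℤ) : ℝ)) := by
          rw [hD0d, hDd]
          unfold dt
          push_cast
          ring
        have bu := mem_Bx.mp (hUB hu)
        have bv := mem_Bx.mp (hVB hv)
        have bu0 := mem_Bx.mp (hUB hu0)
        have bv0 := mem_Bx.mp (hVB hv0)
        have ab : ∀ z : ℤ, 0 ≤ z ∧ z ≤ n → |(z : ℝ)| ≤ n := by
          intro z hz
          rw [abs_of_nonneg (by exact_mod_cast hz.1)]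
          exact_mod_cast hz.2
        obtain ⟨p1, p2⟩ := hUd u0 hu0 u hu
        obtain ⟨q1, q2⟩ := hVd v0 hv0 v hv
        have hds : 0 ≤ del3 * √P := by positivity
        have t1 : |((u0.1 - u.1 : ℤ) : ℝ) * (v0.2 : ℝ)| ≤ del3 * √P * n := by
          rw [abs_mul]; exact mul_le_mul p1 (ab _ bv0.2) (abs_nonneg _) hds
        have t2 : |(u.1 : ℝ) * ((v0.2 - v.2 : ℤ) : ℝ)| ≤ n * (del3 * √P) := by
          rw [abs_mul]; exact mul_le_mul (ab _ bu.1) q2 (abs_nonneg _) (Nat.cast_nonneg n)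
        have t3 : |((u0.2 - u.2 : ℤ) : ℝ) * (v0.1 : ℝ)| ≤ del3 * √P * n := by
          rw [abs_mul]; exact mul_le_mul p2 (ab _ bv0.1) (abs_nonneg _) hds
        have t4 : |(u.2 : ℝ) * ((v0.1 - v.1 : ℤ) : ℝ)| ≤ n * (del3 * √P) := by
          rw [abs_mul]; exact mul_le_mul (ab _ bu.2) q1 (abs_nonneg _) (Nat.cast_nonneg n)
        have t5 : |D0 - D| ≤ 4 * (del3 * √P * n) := by
          rw [g0]
          rw [abs_le] at t1 t2 t3 t4 ⊢
          constructor <;> linarith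
        refine t5.trans ?_
        have t6 : del3 * √P * n ≤ del3 * √P * (K * √P) := mul_le_mul_of_nonneg_left hnK hds
        have t7 : del3 * √P * (K * √P) = K * del3 * P := by
          calc del3 * √P * (K * √P) = K * del3 * (√P * √P) := by ring
            _ = K * del3 * P := by rw [hsq]
        linarith
      have f3 : (η * P) * (η * P) ≤ D * D0 := mul_le_mul hDuv.le hD0.le hηP.le hDpos.le
      have hK0 : 0 < K := by linarith
      calc |D0 - D| * (η ^ 2 * P) ≤ 4 * K * del3 * P * (η ^ 2 * P) :=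
            mul_le_mul_of_nonneg_right f2 (by positivity)
        _ = 4 * K * del3 * ((η * P) * (η * P)) := by ring
        _ ≤ 4 * K * del3 * (D * D0) := mul_le_mul_of_nonneg_left f3 (by positivity)
    exact mul_le_mul e1 e2 (abs_nonneg _) hM0
  rw [hsplit]
  refine (norm_add_le _ _).trans ?_
  apply add_le_add
  · rw [norm_mul, norm_div, norm_one, Complex.norm_real, Real.norm_eq_abs, abs_of_pos hD0pos]
    have e1 : 1 / D0 ≤ 1 / (η * P) := one_div_le_one_div_of_le hηP hD0.le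
    exact mul_le_mul e1 hmain (norm_nonneg _) (by positivity)
  · calc ‖∑ u ∈ U, ∑ v ∈ V, (h u * (starRingEnd ℂ) (h v) *
          T2 a (NP P) R (dt u v).toNat R' (cz u v) - (1 / (D0 : ℂ)) *
          (h u * (starRingEnd ℂ) (h v) * F (φ u) (φ v)))‖
        ≤ ∑ u ∈ U, ∑ v ∈ V, ‖(h u * (starRingEnd ℂ) (h v) *
          T2 a (NP P) R (dt u v).toNat R' (cz u v) - (1 / (D0 : ℂ)) *
          (h u * (starRingEnd ℂ) (h v) * F (φ u) (φ v)))‖ :=
          (norm_sum_le _ _).trans (sum_le_sum fun u _ => norm_sum_le _ _)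
      _ ≤ ∑ u ∈ U, ∑ v ∈ V, M * (4 * K * del3 / (η ^ 2 * P)) :=
          sum_le_sum fun u hu => sum_le_sum fun v hv => hterm u hu v hv
      _ = U.card * V.card * (M * (4 * K * del3 / (η ^ 2 * P))) := by
          simp only [sum_const, nsmul_eq_mul]
          ring

open Classical in
theorem struct_sum (K η ε Cw : ℝ) (hK : 1 ≤ K) (hη : 0 < η) (hε : 0 < ε) (hCw : 0 < Cw)
    (R R' m : ℕ) (hm0 : 0 < m) (hm : ∀ t ∈ Icc 1 (max R R'), t ∣ m) :
    ∃ del3 : ℝ, 0 < del3 ∧ ∀ N3 : ℕ, ∃ eps3 : ℝ, 0 < eps3 ∧ ∀ P : ℝ, 1 ≤ P → ∀ n : ℕ,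
      (n : ℝ) ^ 2 ≤ K ^ 2 * P → ∀ (a : ℕ → ℝ) (δ : ℝ), δ ≤ 1 → Wt a P δ → tot a P ≤ Cw * P →
      ∀ h : ℤ × ℤ → ℂ, (∀ u, ‖h u‖ ≤ 1) → (∀ u, ¬ Pv u → h u = 0) → ∀ cell : ℤ × ℤ → Fin N3,
      (∀ u ∈ Bx n, ∀ u' ∈ Bx n, cell u = cell u' →
        |((u.1 - u'.1 : ℤ) : ℝ)| ≤ del3 * √P ∧ |((u.2 - u'.2 : ℤ) : ℝ)| ≤ del3 * √P) →
      (∀ (s : Fin N3) (x y : ℤ), ‖∑ u ∈ (Bx n).filter (fun u => cell u = s ∧ (m : ℤ) ∣ u.1 - x ∧
        (m : ℤ) ∣ u.2 - y), h u‖ ≤ eps3 * P) →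
      ∀ G : Finset (Fin N3 × Fin N3),
      (∀ u ∈ Bx n, ∀ v ∈ Bx n, Pv u → Pv v → (cell u, cell v) ∈ G → η * P < (dt u v : ℝ)) →
      ‖∑ x ∈ (Bx n ×ˢ Bx n).filter (fun x => (cell x.1, cell x.2) ∈ G),
        h x.1 * (starRingEnd ℂ) (h x.2) * T2 a (NP P) R (dt x.1 x.2).toNat R' (cz x.1 x.2)‖ ≤
        ε * P ^ 3 := by
  have hK0 : 0 < K := by linarith
  set W : ℝ := R' * (R : ℝ) ^ 2 * Cw ^ 2 with hW
  have hW0 : 0 ≤ W := by rw [hW]; positivity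
  have hmR : (0 : ℝ) < m := by exact_mod_cast hm0
  refine ⟨ε * η ^ 2 / (128 * K ^ 5 * (W + 1)), by positivity, fun N3 => ?_⟩
  set del3 : ℝ := ε * η ^ 2 / (128 * K ^ 5 * (W + 1)) with hdel3
  have hdel3pos : 0 < del3 := by rw [hdel3]; positivity
  set e0 : ℝ := ε * η / (2 * ((N3 : ℝ) + 1) ^ 2 * (m : ℝ) ^ 4 * (W + 1)) with he0
  have he0pos : 0 < e0 := by rw [he0]; positivity
  refine ⟨min 1 e0, lt_min one_pos he0pos, ?_⟩
  set eps3 : ℝ := min 1 e0 with heps3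
  have heps3pos : 0 < eps3 := lt_min one_pos he0pos
  have heps1 : eps3 ≤ 1 := min_le_left _ _
  have hepse : eps3 ≤ e0 := min_le_right _ _
  intro P hP n hn a δ _ hWt htot h hh hh0 cell hcell hsum G hG
  have hP0 : 0 < P := by linarith
  set Uc : Fin N3 → Finset (ℤ × ℤ) := fun s => (Bx n).filter fun u => cell u = s with hUc
  set Bd1 : ℝ := 1 / (η * P) * ((m : ℝ) ^ 4 * (R' * (R : ℝ) ^ 2 * Cw ^ 2 * P ^ 2) * (eps3 * P) ^ 2)
    with hBd1
  set E : ℝ := (R' * (R : ℝ) ^ 2 * Cw ^ 2 * P ^ 2) * (4 * K * del3 / (η ^ 2 * P)) with hE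
  have hE0 : 0 ≤ E := by rw [hE]; positivity
  have hBd0 : 0 ≤ Bd1 := by rw [hBd1]; positivity
  have hq : ∀ q ∈ G, ‖∑ u ∈ Uc q.1, ∑ v ∈ Uc q.2,
      h u * (starRingEnd ℂ) (h v) * T2 a (NP P) R (dt u v).toNat R' (cz u v)‖ ≤
      Bd1 + (Uc q.1).card * (Uc q.2).card * E := by
    intro q hqG
    have hU : ∀ s, Uc s ⊆ Bx n := fun s => filter_subset _ _
    have hd : ∀ s, ∀ u ∈ Uc s, ∀ u' ∈ Uc s,
        |((u.1 - u'.1 : ℤ) : ℝ)| ≤ del3 * √P ∧ |((u.2 - u'.2 : ℤ) : ℝ)| ≤ del3 * √P := by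
      intro s u hu u' hu'
      rw [hUc] at hu hu'
      simp only [mem_filter] at hu hu'
      exact hcell u hu.1 u' hu'.1 (hu.2.trans hu'.2.symm)
    have hs : ∀ s, ∀ x y : ℤ, ‖∑ u ∈ (Uc s).filter (fun u => (m : ℤ) ∣ u.1 - x ∧ (m : ℤ) ∣ u.2 - y),
        h u‖ ≤ eps3 * P := by
      intro s x y
      rw [hUc]
      simp only [filter_filter]
      exact hsum s x y
    refine struct_cell K η Cw hK hη R R' m hm0 hm del3 eps3 P hdel3pos heps3pos hP n hn a δ hWt htot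
      h hh hh0 (Uc q.1) (Uc q.2) (hU _) (hU _) (hd _) (hd _) (hs _) (hs _) ?_
    intro u hu v hv hpu hpv
    rw [hUc] at hu hv
    simp only [mem_filter] at hu hv
    refine hG u hu.1 v hv.1 hpu hpv ?_
    rw [hu.2, hv.2]
    exact hqG
  have hsumG : ∑ x ∈ (Bx n ×ˢ Bx n).filter (fun x => (cell x.1, cell x.2) ∈ G),
        h x.1 * (starRingEnd ℂ) (h x.2) * T2 a (NP P) R (dt x.1 x.2).toNat R' (cz x.1 x.2) =
      ∑ q ∈ G, ∑ u ∈ Uc q.1, ∑ v ∈ Uc q.2,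
      h u * (starRingEnd ℂ) (h v) * T2 a (NP P) R (dt u v).toNat R' (cz u v) := by
    rw [← sum_fiberwise_of_maps_to (g := fun x : (ℤ × ℤ) × (ℤ × ℤ) => (cell x.1, cell x.2)) (t := G)
      (fun x hx => (mem_filter.mp hx).2)]
    apply sum_congr rfl
    intro q hqG
    rw [← sum_product' (s := Uc q.1) (t := Uc q.2)]
    apply sum_congr _ (fun _ _ => rfl)
    ext x
    simp only [mem_filter, mem_product, hUc]
    constructor
    · rintro ⟨⟨⟨h1, h2⟩, h3⟩, h4⟩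
      rw [← h4]
      exact ⟨⟨h1, rfl⟩, h2, rfl⟩
    · rintro ⟨⟨h1, h2⟩, h3, h4⟩
      refine ⟨⟨⟨h1, h3⟩, ?_⟩, ?_⟩
      · rw [h2, h4]; exact hqG
      · rw [h2, h4]
  rw [hsumG]
  have hcardU : ∑ s : Fin N3, ((Uc s).card : ℝ) = (n + 1) ^ 2 := by
    have h1 := card_eq_sum_card_fiberwise (s := Bx n) (t := (univ : Finset (Fin N3))) (f := cell)
      (fun _ _ => mem_univ _)
    rw [card_Bx] at h1
    have h2 : (((n + 1) ^ 2 : ℕ) : ℝ) = ∑ s : Fin N3, ((Uc s).card : ℝ) := by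
      rw [h1]; push_cast; rfl
    rw [← h2]; push_cast; ring
  have hcardG : ∑ q ∈ G, ((Uc q.1).card : ℝ) * (Uc q.2).card ≤ (n + 1) ^ 4 := by
    calc ∑ q ∈ G, ((Uc q.1).card : ℝ) * (Uc q.2).card
        ≤ ∑ q : Fin N3 × Fin N3, ((Uc q.1).card : ℝ) * (Uc q.2).card :=
          sum_le_univ_sum_of_nonneg fun q => by positivity
      _ = (∑ s : Fin N3, ((Uc s).card : ℝ)) * ∑ s : Fin N3, ((Uc s).card : ℝ) := by
          rw [Fintype.sum_prod_type, sum_mul_sum]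
      _ = (n + 1) ^ 4 := by rw [hcardU]; ring
  have hGc : (G.card : ℝ) ≤ ((N3 : ℝ) + 1) ^ 2 := by
    have h1 : G.card ≤ N3 * N3 := by
      have := card_le_univ G
      simpa [Fintype.card_prod] using this
    have h2 : (G.card : ℝ) ≤ (N3 : ℝ) * N3 := by exact_mod_cast h1
    have h3 : (0 : ℝ) ≤ N3 := Nat.cast_nonneg _
    nlinarith
  have hfin : ‖∑ q ∈ G, ∑ u ∈ Uc q.1, ∑ v ∈ Uc q.2,
      h u * (starRingEnd ℂ) (h v) * T2 a (NP P) R (dt u v).toNat R' (cz u v)‖ ≤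
      ((N3 : ℝ) + 1) ^ 2 * Bd1 + (n + 1) ^ 4 * E := by
    calc ‖∑ q ∈ G, ∑ u ∈ Uc q.1, ∑ v ∈ Uc q.2,
          h u * (starRingEnd ℂ) (h v) * T2 a (NP P) R (dt u v).toNat R' (cz u v)‖
        ≤ ∑ q ∈ G, (Bd1 + (Uc q.1).card * (Uc q.2).card * E) :=
          (norm_sum_le _ _).trans (sum_le_sum hq)
      _ = G.card * Bd1 + (∑ q ∈ G, ((Uc q.1).card : ℝ) * (Uc q.2).card) * E := by
          rw [sum_add_distrib, sum_const, nsmul_eq_mul, sum_mul]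
      _ ≤ ((N3 : ℝ) + 1) ^ 2 * Bd1 + (n + 1) ^ 4 * E :=
          add_le_add (mul_le_mul_of_nonneg_right hGc hBd0) (mul_le_mul_of_nonneg_right hcardG hE0)
  refine hfin.trans ?_
  have hA : ((N3 : ℝ) + 1) ^ 2 * Bd1 ≤ ε / 2 * P ^ 3 := by
    have h1 : ((N3 : ℝ) + 1) ^ 2 * Bd1 =
        ((N3 : ℝ) + 1) ^ 2 * (m : ℝ) ^ 4 * W * P ^ 3 / η * (eps3 * eps3) := by
      rw [hBd1, hW]; field_simp
    rw [h1]
    have h2 : eps3 * eps3 ≤ e0 := by
      calc eps3 * eps3 ≤ 1 * e0 := mul_le_mul heps1 hepse heps3pos.le zero_le_one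
        _ = e0 := one_mul _
    calc ((N3 : ℝ) + 1) ^ 2 * (m : ℝ) ^ 4 * W * P ^ 3 / η * (eps3 * eps3)
        ≤ ((N3 : ℝ) + 1) ^ 2 * (m : ℝ) ^ 4 * (W + 1) * P ^ 3 / η * e0 := by
          apply mul_le_mul _ h2 (by positivity) (by positivity)
          apply div_le_div_of_nonneg_right _ hη.le
          have : 0 ≤ ((N3 : ℝ) + 1) ^ 2 * (m : ℝ) ^ 4 * P ^ 3 := by positivity
          nlinarith
      _ = ε / 2 * P ^ 3 := by
          rw [he0]; field_simp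
  have hB : ((n : ℝ) + 1) ^ 4 * E ≤ ε / 2 * P ^ 3 := by
    have hnK : (n : ℝ) ≤ K * √P := n_le hK hn hP0.le
    have hs1 : 1 ≤ √P := by rw [Real.one_le_sqrt]; exact hP
    have h1 : (n : ℝ) + 1 ≤ 2 * K * √P := by nlinarith
    have h2 : ((n : ℝ) + 1) ^ 4 ≤ 16 * K ^ 4 * P ^ 2 := by
      have h3 : ((n : ℝ) + 1) ^ 4 ≤ (2 * K * √P) ^ 4 := pow_le_pow_left₀ (by positivity) h1 4
      have h4 : (2 * K * √P) ^ 4 = 16 * K ^ 4 * P ^ 2 := by
        have h5 : √P ^ 2 = P := Real.sq_sqrt hP0.le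
        calc (2 * K * √P) ^ 4 = 16 * K ^ 4 * (√P ^ 2) ^ 2 := by ring
          _ = 16 * K ^ 4 * P ^ 2 := by rw [h5]
      linarith
    calc ((n : ℝ) + 1) ^ 4 * E ≤ 16 * K ^ 4 * P ^ 2 * E := mul_le_mul_of_nonneg_right h2 hE0
      _ = 64 * K ^ 5 * W * P ^ 3 / η ^ 2 * del3 := by
          rw [hE, hW]; field_simp; ring
      _ ≤ 64 * K ^ 5 * (W + 1) * P ^ 3 / η ^ 2 * del3 := by
          apply mul_le_mul_of_nonneg_right _ hdel3pos.le
          apply div_le_div_of_nonneg_right _ (by positivity)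
          have : 0 ≤ 64 * K ^ 5 * P ^ 3 := by positivity
          nlinarith
      _ = ε / 2 * P ^ 3 := by
          rw [hdel3]; field_simp; ring
  linarith

end Pool.Agent.EC
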