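import Pool.Agent.Lib_MP_f1a94e_eck.TtChar
import Pool.Agent.Lib_MP_f1a94e_eck.Primi
import Pool.Agent.Lib_MP_f1a94e_eck.Large
import Pool.Agent.Lib_MP_f1a94e_eck.Mid
import Pool.Agent.Lib_MP_f1a94e_eck.Small

/-!
# Piece TAPPROX: the main term

PROOF. `X = ⌊K^2 P⌋₊`. Choose `R` with `C_mid/√R ≤ ε/8`, then `R'` with `C_small R^2/√R' ≤ ε/8`, `Q0 = ⌊P^(1/40)⌋₊` (`R ≤ Q0 ≤ X` for `P ≥ P0`). As
`TB a N 0 X D c = TB a N 0 R D c + TB a N R Q0 D c + TB a N Q0 X D c` (`Ioc 0 X` is the disjoint union), the triangle inequality gives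
`‖TT - T2‖ ≤ ‖TT - TA‖ + ‖TA - TB 0 X‖ + ‖TB R Q0‖ + ‖TB Q0 X‖ + ‖TB 0 R - T2‖`. Sum: `ttchar`: `X log(2P) tot a P ≤ C P^2 log P`; `primi`: `C P^(5/2) (log P)^2`;
`mid`, `small`: `≤ (ε/8) P^3` each; `large`: `C P^3 (log P)^2/√Q0`, and `(log P)^2 P^(-1/80) → 0`. (`tot a P ≤ C P`: `wle` with `δ = 1`, `Wt.mono`.)
-/

set_option autoImplicit false

namespace Pool.Agent.EC

open Finset

theorem TB_split (a : ℕ → ℝ) (N D : ℕ) (c : ℤ) {A B C : ℕ} (hAB : A ≤ B) (hBC : B ≤ C) :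
    TB a N A C D c = TB a N A B D c + TB a N B C D c := by
  unfold TB
  rw [← mul_add]
  congr 1
  rw [sum_filter, sum_filter, sum_filter, sum_Ioc_consecutive _ hAB hBC]

theorem exists_div_sqrt_le (C η : ℝ) (hC : 0 ≤ C) (hη : 0 < η) :
    ∃ R : ℕ, 1 ≤ R ∧ C / √R ≤ η := by
  obtain ⟨R, hR⟩ := exists_nat_ge ((C / η) ^ 2 + 1)
  have hR1 : (1 : ℝ) ≤ R := by nlinarith [sq_nonneg (C / η)]
  have hR2 : C / η ≤ √R := by
    apply Real.le_sqrt_of_sq_le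
    linarith
  refine ⟨R, by exact_mod_cast hR1, ?_⟩
  have h0 : 0 < √(R : ℝ) := Real.sqrt_pos.mpr (by linarith)
  rw [div_le_iff₀ h0]
  rw [div_le_iff₀ hη] at hR2
  linarith

theorem ta_sum_le {X : ℕ} (f g : ℕ → ℕ → ℂ) :
    ∑ D ∈ Icc 1 X, ∑ c ∈ cop D, ‖f D c + g D c‖ ≤
      (∑ D ∈ Icc 1 X, ∑ c ∈ cop D, ‖f D c‖) + ∑ D ∈ Icc 1 X, ∑ c ∈ cop D, ‖g D c‖ := by
  rw [← sum_add_distrib]
  refine sum_le_sum fun D _ => ?_
  rw [← sum_add_distrib]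
  exact sum_le_sum fun c _ => norm_add_le _ _

theorem ta_y (Y : ℝ) (hY : 1 ≤ Y) : ∃ P1 : ℝ, 1 ≤ P1 ∧ ∀ P : ℝ, P1 ≤ P → ∃ y : ℝ, Y ≤ y ∧ y ≤ P ∧
    y ^ 2 ≤ P ∧ y ^ 10 ≤ P ∧ y ^ 3 * √P ≤ P ∧ P ^ (1 / 40 : ℝ) = y ^ 10 ∧ Real.log P ≤ 400 * y := by
  refine ⟨Y ^ 400, one_le_pow₀ hY, fun P hP => ?_⟩
  have hP1 : 1 ≤ P := (one_le_pow₀ hY).trans hP
  have hP0 : 0 < P := one_pos.trans_le hP1
  have hy0 : 0 < P ^ (1 / 400 : ℝ) := Real.rpow_pos_of_pos hP0 _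
  have hyP : (P ^ (1 / 400 : ℝ)) ^ 400 = P := by
    rw [← Real.rpow_natCast, ← Real.rpow_mul hP0.le]
    norm_num
  have hyY : Y ≤ P ^ (1 / 400 : ℝ) := by
    refine (pow_le_pow_iff_left₀ (zero_le_one.trans hY) hy0.le (by norm_num : (400 : ℕ) ≠ 0)).mp ?_
    rw [hyP]
    exact hP
  have hy1 : 1 ≤ P ^ (1 / 400 : ℝ) := hY.trans hyY
  have hPy : ∀ k ≤ 400, (P ^ (1 / 400 : ℝ)) ^ k ≤ P := fun k hk => by
    conv_rhs => rw [← hyP]
    exact pow_le_pow_right₀ hy1 hk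
  refine ⟨P ^ (1 / 400 : ℝ), hyY, ?_, hPy 2 (by norm_num), hPy 10 (by norm_num), ?_, ?_, ?_⟩
  · have := hPy 1 (by norm_num)
    rwa [pow_one] at this
  · have hsP : √P = (P ^ (1 / 400 : ℝ)) ^ 200 := by
      conv_lhs => rw [← hyP]
      rw [show (400 : ℕ) = 200 * 2 from rfl, pow_mul, Real.sqrt_sq (by positivity)]
    rw [hsP, ← pow_add]
    exact hPy _ (by norm_num)
  · rw [← Real.rpow_natCast, ← Real.rpow_mul hP0.le]
    norm_num
  · have := Real.log_le_rpow_div hP0.le (by norm_num : (0 : ℝ) < 1 / 400)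
    refine this.trans (le_of_eq ?_)
    ring

theorem tapprox (K ε : ℝ) (hK : 1 ≤ K) (hε : 0 < ε) : ∃ R R' : ℕ, ∃ P0 : ℝ, 1 ≤ R ∧ 1 ≤ R' ∧
    ∀ P : ℝ, P0 ≤ P → ∀ (a : ℕ → ℝ) (δ : ℝ), δ ≤ 1 → Wt a P δ →
      ∑ D ∈ Icc 1 ⌊K ^ 2 * P⌋₊, ∑ c ∈ cop D,
        ‖(TT a (NP P) D (c : ℤ) : ℂ) - T2 a (NP P) R D R' (c : ℤ)‖ ≤ ε * P ^ 3 := by
  obtain ⟨C1, Pm, hC1, hmid⟩ := mid K hK
  obtain ⟨C2, Ps, hC2, hsmall⟩ := small K hK
  obtain ⟨C3, Pl, hC3, hlarge⟩ := large K hK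
  obtain ⟨C4, hC4, hw⟩ := wle
  obtain ⟨Pw, hPw⟩ := hw 1 one_pos le_rfl
  obtain ⟨R, hR, hRε⟩ := exists_div_sqrt_le C1 (ε / 4) hC1.le (by positivity)
  obtain ⟨R', hR', hR'ε⟩ := exists_div_sqrt_le (C2 * (R : ℝ) ^ 2) (ε / 4) (by positivity) (by positivity)
  set A1 : ℝ := 800 * K ^ 2 * C4 with hA1
  set A2 : ℝ := K ^ 4 * (8 * √(2 * C4) + 4) * 160000 with hA2
  set A3 : ℝ := C3 * 320000 with hA3
  set Y : ℝ := 2 + R + K ^ 2 + 2 * (A1 + A2 + A3) / ε with hY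
  have hA1p : 0 ≤ A1 := by positivity
  have hA2p : 0 ≤ A2 := by positivity
  have hA3p : 0 ≤ A3 := by positivity
  have hY1 : 1 ≤ Y := by
    have : 0 ≤ 2 * (A1 + A2 + A3) / ε := by positivity
    have : (0 : ℝ) ≤ R := by positivity
    have : (0 : ℝ) ≤ K ^ 2 := by positivity
    linarith
  obtain ⟨PY, hPY1, hPYf⟩ := ta_y Y hY1
  refine ⟨R, R', max (max Pm Ps) (max (max Pl Pw) PY), hR, hR', ?_⟩
  intro P hP a δ hδ h
  have hPm : Pm ≤ P := (le_max_left _ _).trans ((le_max_left _ _).trans hP)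
  have hPs : Ps ≤ P := (le_max_right _ _).trans ((le_max_left _ _).trans hP)
  have hPl : Pl ≤ P := (le_max_left _ _).trans ((le_max_left _ _).trans ((le_max_right _ _).trans hP))
  have hPww : Pw ≤ P :=
    (le_max_right _ _).trans ((le_max_left _ _).trans ((le_max_right _ _).trans hP))
  have hPY : PY ≤ P := (le_max_right _ _).trans ((le_max_right _ _).trans hP)
  have hYK : K ^ 2 ≤ Y := by
    have : 0 ≤ 2 * (A1 + A2 + A3) / ε := by positivity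
    have : (0 : ℝ) ≤ R := by positivity
    linarith
  have hYR : (R : ℝ) ≤ Y := by
    have : 0 ≤ 2 * (A1 + A2 + A3) / ε := by positivity
    have : (0 : ℝ) ≤ K ^ 2 := by positivity
    linarith
  have hY2 : 2 ≤ Y := by
    have : 0 ≤ 2 * (A1 + A2 + A3) / ε := by positivity
    have : (0 : ℝ) ≤ R := by positivity
    have : (0 : ℝ) ≤ K ^ 2 := by positivity
    linarith
  have hYε : 2 * (A1 + A2 + A3) / ε ≤ Y := by
    have : (0 : ℝ) ≤ R := by positivity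
    have : (0 : ℝ) ≤ K ^ 2 := by positivity
    linarith
  have hP1 : 1 ≤ P := hPY1.trans hPY
  have hP0 : 0 < P := by linarith
  obtain ⟨y, hyY, hyP1, hyP2, hyP10, hyP3, hP40, hLy'⟩ := hPYf P hPY
  have hy2 : 2 ≤ y := hY2.trans hyY
  have hy1 : 1 ≤ y := by linarith
  have hy0 : 0 < y := by linarith
  have hP2 : 2 ≤ P := by
    linarith
  set L := Real.log P with hL
  have hLy : L ≤ 400 * y := hLy'
  have hL0 : 0 ≤ L := Real.log_nonneg hP1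
  have hlog2 : Real.log (2 * P) ≤ 2 * L := by
    have e : 2 * L = Real.log (P ^ 2) := by rw [Real.log_pow]; push_cast; ring
    rw [e]
    refine Real.log_le_log (by positivity) ?_
    rw [sq]
    exact mul_le_mul_of_nonneg_right hP2 hP0.le
  have hlog20 : 0 ≤ Real.log (2 * P) := Real.log_nonneg (by linarith)
  have hL1 : 1 ≤ 2 * L := by
    have h1 : Real.log 4 ≤ 2 * L := by
      have e : 2 * L = Real.log (P ^ 2) := by rw [Real.log_pow]; push_cast; ring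
      rw [e]
      refine Real.log_le_log (by norm_num) ?_
      have := pow_le_pow_left₀ (by norm_num : (0 : ℝ) ≤ 2) hP2 2
      linarith
    have h2 : (1 : ℝ) ≤ Real.log 4 := by
      rw [Real.le_log_iff_exp_le (by norm_num)]
      linarith [Real.exp_one_lt_d9]
    linarith
  have htot : tot a P ≤ C4 * P := by
    have := hPw P hPww a (h.mono hP0.le hδ)
    linarith
  have htot0 : 0 ≤ tot a P := tot_nonneg h
  set X : ℕ := ⌊K ^ 2 * P⌋₊ with hX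
  have hXle : (X : ℝ) ≤ K ^ 2 * P := Nat.floor_le (by positivity)
  have hXlt : (X : ℝ) < P ^ 2 := by
    have h1 : K ^ 2 < P := by
      have h2 : y < y ^ 2 := by
        rw [sq]
        exact lt_mul_of_one_lt_left hy0 (by linarith)
      linarith
    refine hXle.trans_lt ?_
    rw [sq P]
    exact mul_lt_mul_of_pos_right h1 hP0
  set Q0 : ℕ := ⌊P ^ (1 / 40 : ℝ)⌋₊ with hQ0
  have hQ0le : (Q0 : ℝ) ≤ P ^ (1 / 40 : ℝ) := Nat.floor_le (by positivity)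
  have hRQ : R ≤ Q0 := by
    apply Nat.le_floor
    rw [hP40]
    calc (R : ℝ) ≤ y := hYR.trans hyY
      _ = y ^ 1 := (pow_one y).symm
      _ ≤ y ^ 10 := pow_le_pow_right₀ hy1 (by norm_num)
  have hQ0P : (Q0 : ℝ) ≤ P := by
    refine hQ0le.trans ?_
    rw [hP40]
    exact hyP10
  have hK2 : 1 ≤ K ^ 2 := one_le_pow₀ hK
  have hQX : Q0 ≤ X := by
    apply Nat.le_floor
    refine hQ0P.trans ?_
    exact le_mul_of_one_le_left hP0.le hK2
  have hQ0low : y ^ 5 / 2 ≤ √(Q0 : ℝ) := by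
    apply Real.le_sqrt_of_sq_le
    have h1 : y ^ 10 < (Q0 : ℝ) + 1 := by
      rw [← hP40]
      exact Nat.lt_floor_add_one _
    have h2 : (1 : ℝ) ≤ y ^ 10 := one_le_pow₀ hy1
    have h3 : (2 : ℝ) ≤ y ^ 10 := by
      calc (2 : ℝ) ≤ y := hy2
        _ = y ^ 1 := (pow_one y).symm
        _ ≤ y ^ 10 := pow_le_pow_right₀ hy1 (by norm_num)
    have e : (y ^ 5 / 2) ^ 2 = y ^ 10 / 4 := by ring
    rw [e]
    linarith
  -- the five sums
  have s1 := ttchar h hP1 hδ X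
  have s2 := primi h hP2 hδ X hXlt
  have s3 := hmid P hPm a δ hδ h R Q0 X hR hQ0le hXle
  have s4 := hlarge P hPl a δ hδ h Q0 X (hR.trans hRQ) hQ0P hXle
  have s5 := hsmall P hPs a δ hδ h R R' X hR hR' hXle
  have hsum : ∑ D ∈ Icc 1 X, ∑ c ∈ cop D,
        ‖(TT a (NP P) D (c : ℤ) : ℂ) - T2 a (NP P) R D R' (c : ℤ)‖ ≤
      (∑ D ∈ Icc 1 X, ∑ c ∈ cop D, ‖(TT a (NP P) D (c : ℤ) : ℂ) - TA a (NP P) D (c : ℤ)‖) +
      ((∑ D ∈ Icc 1 X, ∑ c ∈ cop D, ‖TA a (NP P) D (c : ℤ) - TB a (NP P) 0 X D (c : ℤ)‖) +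
      ((∑ D ∈ Icc 1 X, ∑ c ∈ cop D, ‖TB a (NP P) R Q0 D (c : ℤ)‖) +
      ((∑ D ∈ Icc 1 X, ∑ c ∈ cop D, ‖TB a (NP P) Q0 X D (c : ℤ)‖) +
      ∑ D ∈ Icc 1 X, ∑ c ∈ cop D,
        ‖TB a (NP P) 0 R D (c : ℤ) - T2 a (NP P) R D R' (c : ℤ)‖))) := by
    have e : ∀ D c : ℕ, (TT a (NP P) D (c : ℤ) : ℂ) - T2 a (NP P) R D R' (c : ℤ) =
        ((TT a (NP P) D (c : ℤ) : ℂ) - TA a (NP P) D (c : ℤ)) +
        ((TA a (NP P) D (c : ℤ) - TB a (NP P) 0 X D (c : ℤ)) + (TB a (NP P) R Q0 D (c : ℤ) +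
        (TB a (NP P) Q0 X D (c : ℤ) +
        (TB a (NP P) 0 R D (c : ℤ) - T2 a (NP P) R D R' (c : ℤ))))) := by
      intro D c
      rw [TB_split a (NP P) D (c : ℤ) (Nat.zero_le Q0) hQX,
        TB_split a (NP P) D (c : ℤ) (Nat.zero_le R) hRQ]
      ring
    calc _ = ∑ D ∈ Icc 1 X, ∑ c ∈ cop D, ‖((TT a (NP P) D (c : ℤ) : ℂ) - TA a (NP P) D (c : ℤ)) +
        ((TA a (NP P) D (c : ℤ) - TB a (NP P) 0 X D (c : ℤ)) + (TB a (NP P) R Q0 D (c : ℤ) +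
        (TB a (NP P) Q0 X D (c : ℤ) +
        (TB a (NP P) 0 R D (c : ℤ) - T2 a (NP P) R D R' (c : ℤ)))))‖ :=
          sum_congr rfl fun D _ => sum_congr rfl fun c _ => by rw [e D c]
      _ ≤ _ := by
        refine (ta_sum_le _ _).trans (add_le_add le_rfl ?_)
        refine (ta_sum_le _ _).trans (add_le_add le_rfl ?_)
        refine (ta_sum_le _ _).trans (add_le_add le_rfl ?_)
        exact ta_sum_le _ _
  have hP3 : 0 < P ^ 3 := by positivity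
  have t1 : (X : ℝ) * Real.log (2 * P) * tot a P ≤ A1 * (P ^ 3 / y) := by
    have a1 : (X : ℝ) * Real.log (2 * P) * tot a P ≤ (K ^ 2 * P) * (2 * (400 * y)) * (C4 * P) := by
      refine mul_le_mul (mul_le_mul hXle (by linarith) hlog20 (by positivity)) htot htot0 (by positivity)
    have a2 : P ^ 2 * y ≤ P ^ 3 / y := by
      rw [le_div_iff₀ hy0]
      calc P ^ 2 * y * y = P ^ 2 * y ^ 2 := by ring
        _ ≤ P ^ 2 * P := mul_le_mul_of_nonneg_left hyP2 (by positivity)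
        _ = P ^ 3 := by ring
    calc _ ≤ _ := a1
      _ = A1 * (P ^ 2 * y) := by rw [hA1]; ring
      _ ≤ _ := mul_le_mul_of_nonneg_left a2 hA1p
  have t2 : (X : ℝ) ^ 2 * (2 * Real.log (2 * P) * √(Real.log (2 * P) * tot a P) +
      Real.log (2 * P) ^ 2) ≤ A2 * (P ^ 3 / y) := by
    have hsP1 : 1 ≤ √P := by
      apply Real.le_sqrt_of_sq_le
      linarith
    have a1 : √(Real.log (2 * P) * tot a P) ≤ √(2 * C4) * (2 * L) * √P := by
      have h1 : Real.log (2 * P) * tot a P ≤ (2 * C4) * (2 * L) ^ 2 * P := by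
        calc Real.log (2 * P) * tot a P ≤ (2 * L) * (C4 * P) :=
              mul_le_mul hlog2 htot htot0 (by positivity)
          _ ≤ (2 * C4) * (2 * L) ^ 2 * P := by
              have h3 : 2 * L ≤ 2 * (2 * L) ^ 2 := by
                have : 2 * L * 1 ≤ 2 * L * (2 * L) := mul_le_mul_of_nonneg_left hL1 (by linarith)
                have : 0 ≤ (2 * L) ^ 2 := by positivity
                linarith
              have h4 : 0 ≤ C4 * P := by positivity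
              calc (2 * L) * (C4 * P) ≤ (2 * (2 * L) ^ 2) * (C4 * P) :=
                    mul_le_mul_of_nonneg_right h3 h4
                _ = _ := by ring
      calc √(Real.log (2 * P) * tot a P) ≤ √((2 * C4) * (2 * L) ^ 2 * P) := Real.sqrt_le_sqrt h1
        _ = √(2 * C4) * (2 * L) * √P := by
            rw [Real.sqrt_mul (by positivity), Real.sqrt_mul (by positivity),
              Real.sqrt_sq (by positivity)]
    have a2 : 2 * Real.log (2 * P) * √(Real.log (2 * P) * tot a P) + Real.log (2 * P) ^ 2 ≤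
        (8 * √(2 * C4) + 4) * (L ^ 2 * √P) := by
      have b1 : 2 * Real.log (2 * P) * √(Real.log (2 * P) * tot a P) ≤
          2 * (2 * L) * (√(2 * C4) * (2 * L) * √P) :=
        mul_le_mul (by linarith) a1 (Real.sqrt_nonneg _) (by positivity)
      have b2 : Real.log (2 * P) ^ 2 ≤ (2 * L) ^ 2 := pow_le_pow_left₀ hlog20 hlog2 2
      have b3 : (2 * L) ^ 2 ≤ 4 * (L ^ 2 * √P) := by
        have : L ^ 2 * 1 ≤ L ^ 2 * √P := mul_le_mul_of_nonneg_left hsP1 (by positivity)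
        linarith
      calc _ ≤ 2 * (2 * L) * (√(2 * C4) * (2 * L) * √P) + 4 * (L ^ 2 * √P) := by linarith
        _ = _ := by ring
    have a3 : L ^ 2 * √P ≤ 160000 * (P / y) := by
      have b1 : L ^ 2 ≤ (400 * y) ^ 2 := pow_le_pow_left₀ hL0 hLy 2
      rw [← mul_div_assoc, le_div_iff₀ hy0]
      calc L ^ 2 * √P * y ≤ (400 * y) ^ 2 * √P * y := by
            exact mul_le_mul_of_nonneg_right (mul_le_mul_of_nonneg_right b1 (Real.sqrt_nonneg _)) hy0.le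
        _ = 160000 * (y ^ 3 * √P) := by ring
        _ ≤ 160000 * P := by linarith
    have a4 : (X : ℝ) ^ 2 ≤ (K ^ 2 * P) ^ 2 := pow_le_pow_left₀ (by positivity) hXle 2
    calc _ ≤ (K ^ 2 * P) ^ 2 * ((8 * √(2 * C4) + 4) * (160000 * (P / y))) := by
          refine mul_le_mul a4 (a2.trans (mul_le_mul_of_nonneg_left a3 (by positivity))) ?_ (by positivity)
          positivity
      _ = _ := by rw [hA2]; ring
  have t4 : C3 * P ^ 3 * L ^ 2 / √Q0 ≤ A3 * (P ^ 3 / y) := by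
    have hq : 0 < √(Q0 : ℝ) := lt_of_lt_of_le (by positivity) hQ0low
    have b1 : L ^ 2 ≤ (400 * y) ^ 2 := pow_le_pow_left₀ hL0 hLy 2
    have b2 : L ^ 2 ≤ 320000 / y * √Q0 := by
      have c1 : 320000 / y * (y ^ 5 / 2) ≤ 320000 / y * √Q0 :=
        mul_le_mul_of_nonneg_left hQ0low (by positivity)
      have c2 : 320000 / y * (y ^ 5 / 2) = 160000 * y ^ 4 := by
        field_simp
        ring
      have c3 : y ^ 2 ≤ y ^ 4 := pow_le_pow_right₀ hy1 (by norm_num)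
      linarith
    rw [div_le_iff₀ hq]
    calc C3 * P ^ 3 * L ^ 2 ≤ C3 * P ^ 3 * (320000 / y * √Q0) :=
          mul_le_mul_of_nonneg_left b2 (by positivity)
      _ = A3 * (P ^ 3 / y) * √Q0 := by rw [hA3]; ring
  have t3 : C1 * P ^ 3 / √R ≤ ε / 4 * P ^ 3 := by
    have e : C1 * P ^ 3 / √R = C1 / √R * P ^ 3 := by ring
    rw [e]
    exact mul_le_mul_of_nonneg_right hRε hP3.le
  have t5 : C2 * (R : ℝ) ^ 2 * P ^ 3 / √R' ≤ ε / 4 * P ^ 3 := by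
    have e : C2 * (R : ℝ) ^ 2 * P ^ 3 / √R' = C2 * (R : ℝ) ^ 2 / √R' * P ^ 3 := by ring
    rw [e]
    exact mul_le_mul_of_nonneg_right hR'ε hP3.le
  have t6 : (A1 + A2 + A3) * (P ^ 3 / y) ≤ ε / 2 * P ^ 3 := by
    rw [← mul_div_assoc, div_le_iff₀ hy0]
    have h1 : 2 * (A1 + A2 + A3) ≤ y * ε := by
      rw [div_le_iff₀ hε] at hYε
      exact hYε.trans (mul_le_mul_of_nonneg_right hyY hε.le)
    have h2 : 2 * (A1 + A2 + A3) * P ^ 3 ≤ y * ε * P ^ 3 := mul_le_mul_of_nonneg_right h1 hP3.le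
    linarith
  calc _ ≤ _ := hsum
    _ ≤ A1 * (P ^ 3 / y) + (A2 * (P ^ 3 / y) + (ε / 4 * P ^ 3 + (A3 * (P ^ 3 / y) +
        ε / 4 * P ^ 3))) := by
      refine add_le_add (s1.trans t1) (add_le_add (s2.trans t2) (add_le_add (s3.trans t3)
        (add_le_add (s4.trans t4) (s5.trans t5))))
    _ = (A1 + A2 + A3) * (P ^ 3 / y) + ε / 2 * P ^ 3 := by ring
    _ ≤ ε / 2 * P ^ 3 + ε / 2 * P ^ 3 := by linarith
    _ = ε * P ^ 3 := by ring

end Pool.Agent.EC
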